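import Pool.Agent.Lib.MP_3b5712_an.TreeOf

set_option autoImplicit false

open Filter Topology Set Real MeasureTheory

namespace Pool.Agent.JAC

/-- linear part of the child box chart -/
noncomputable def cantL (a b : ℝ) : E3 →ₗ[ℝ] E3 where
  toFun X := (a * X.2.2, -(a * X.1), b * X.2.1)
  map_add' X Y := by
    ext <;> simp <;> ring
  map_smul' r X := by
    ext <;> simp <;> ring

theorem cant_chL_apply (a b : ℝ) (X : E3) : cantL a b X = (a * X.2.2, -(a * X.1), b * X.2.1) := rfl

theorem cant_chL_image_cube {a b : ℝ} (ha : 0 < a) (hb : 0 < b) :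
    cantL a b '' (Icc (-1) 1 ×ˢ (Icc (-1) 1 ×ˢ Icc (-1) 1)) =
      Icc (-a) a ×ˢ (Icc (-a) a ×ˢ Icc (-b) b) := by
  ext X
  obtain ⟨x, y, z⟩ := X
  simp only [mem_image, mem_prod, mem_Icc, cant_chL_apply, Prod.mk.injEq, Prod.exists]
  constructor
  · rintro ⟨u, v, w, ⟨⟨hu1, hu2⟩, ⟨hv1, hv2⟩, hw1, hw2⟩, rfl, rfl, rfl⟩
    refine ⟨⟨?_, ?_⟩, ⟨?_, ?_⟩, ?_, ?_⟩ <;> nlinarith
  · rintro ⟨⟨h1, h2⟩, ⟨h3, h4⟩, h5, h6⟩
    refine ⟨-(y / a), z / b, x / a, ⟨⟨?_, ?_⟩, ⟨?_, ?_⟩, ?_, ?_⟩, ?_, ?_, ?_⟩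
    · have := (div_le_one ha).2 h4
      linarith
    · have := (div_le_one ha).2 (show -y ≤ a by linarith)
      rw [neg_div] at this
      exact this
    · have := (div_le_one hb).2 (show -z ≤ b by linarith)
      rw [neg_div] at this
      linarith
    · exact (div_le_one hb).2 h6
    · have := (div_le_one ha).2 (show -x ≤ a by linarith)
      rw [neg_div] at this
      linarith
    · exact (div_le_one ha).2 h2
    · field_simp
    · field_simp
    · field_simp

theorem cant_haarE2 : (volume : Measure (ℝ × ℝ)).IsAddHaarMeasure := by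
  rw [Measure.volume_eq_prod]
  infer_instance

theorem cant_haarE3 : (volume : Measure (ℝ × ℝ × ℝ)).IsAddHaarMeasure := by
  have := cant_haarE2
  rw [Measure.volume_eq_prod]
  infer_instance

theorem cant_chL_det {a b : ℝ} (ha : 0 < a) (hb : 0 < b) :
    |LinearMap.det (cantL a b)| = a ^ 2 * b := by
  have := cant_haarE3
  have h := Measure.addHaar_image_linearMap (volume : Measure E3) (cantL a b)
    (Icc (-1) 1 ×ˢ (Icc (-1) 1 ×ˢ Icc (-1) 1))
  rw [cant_chL_image_cube ha hb] at h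
  simp only [Measure.volume_eq_prod, Measure.prod_prod, Real.volume_Icc] at h
  rw [← ENNReal.ofReal_mul (by linarith), ← ENNReal.ofReal_mul (by linarith),
    ← ENNReal.ofReal_mul (by norm_num), ← ENNReal.ofReal_mul (by norm_num),
    ← ENNReal.ofReal_mul (abs_nonneg _)] at h
  have h2 := (ENNReal.ofReal_eq_ofReal_iff (by
    have h3 : 0 < (a - -a) := by linarith
    have h4 : 0 < (b - -b) := by linarith
    positivity) (by
    have h5 : (0 : ℝ) ≤ (1 - -1) * ((1 - -1) * (1 - -1)) := by norm_num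
    exact mul_nonneg (abs_nonneg _) h5)).1 h
  nlinarith

theorem cant_vol_ch_image (P : Par) (i : ℕ) (hl : 0 < P.lam) (hh : 0 < P.hh) (S : Set E3) :
    volume (P.ch i '' S) = ENNReal.ofReal (P.lam ^ 2 * P.hh) * volume S := by
  have := cant_haarE3
  have h1 : P.ch i '' S = (fun X => (0, 0, P.cen i) + X) '' (cantL P.lam P.hh '' S) := by
    rw [← image_comp]
    congr 1
    funext X
    simp [Par.ch, cant_chL_apply]
  rw [h1]
  have h2 : volume ((fun X => ((0, 0, P.cen i) : E3) + X) '' (cantL P.lam P.hh '' S)) =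
      volume (cantL P.lam P.hh '' S) := by
    rw [image_add_left, measure_preimage_add]
  rw [h2, Measure.addHaar_image_linearMap, cant_chL_det hl hh]

section par
variable {P : Par}

theorem cant_lam_pos (h : P.Valid) : 0 < P.lam := by
  have := h.mo_th
  have := h.th_le
  have := h.mu_le
  have := h.mi_le
  have := h.mu_pos
  unfold Par.lam
  linarith

theorem cant_lam_lt (h : P.Valid) : P.lam < 1 := by
  have := h.mu_pos
  unfold Par.lam
  linarith

theorem cant_N_pos (h : P.Valid) : (0 : ℝ) < P.N := by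
  have := h.N_ge
  exact_mod_cast (by omega : 0 < P.N)

theorem cant_hh_pos (h : P.Valid) : 0 < P.hh := by
  have h1 := (cant_lam_pos h)
  have h2 := (cant_N_pos h)
  have h3 := h.g_pos
  unfold Par.hh
  positivity

theorem cant_chi_ch (h : P.Valid) (i : ℕ) (X : E3) : P.chi i (P.ch i X) = X := by
  have h1 := (cant_lam_pos h).ne'
  have h2 := (cant_hh_pos h).ne'
  obtain ⟨x, y, z⟩ := X
  simp only [Par.chi, Par.ch, Prod.mk.injEq]
  refine ⟨?_, ?_, ?_⟩ <;> field_simp
  all_goals ring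

theorem cant_ch_chi (h : P.Valid) (i : ℕ) (X : E3) : P.ch i (P.chi i X) = X := by
  have h1 := (cant_lam_pos h).ne'
  have h2 := (cant_hh_pos h).ne'
  obtain ⟨x, y, z⟩ := X
  simp only [Par.chi, Par.ch, Prod.mk.injEq]
  refine ⟨?_, ?_, ?_⟩ <;> field_simp
  all_goals ring

theorem cant_chi_preimage (h : P.Valid) (i : ℕ) (S : Set E3) : P.chi i ⁻¹' S = P.ch i '' S := by
  ext X
  constructor
  · intro hX
    exact ⟨P.chi i X, hX, cant_ch_chi h i X⟩
  · rintro ⟨Y, hY, rfl⟩
    simpa [mem_preimage, cant_chi_ch h] using hY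

theorem cant_chi_cont (P : Par) (i : ℕ) : Continuous (P.chi i) := by
  unfold Par.chi
  fun_prop

theorem cant_chi_norm_iff (h : P.Valid) (i : ℕ) (X : E3) :
    ‖P.chi i X‖ ≤ 1 → |X.1| ≤ P.lam ∧ |X.2.1| ≤ P.lam ∧ |X.2.2 - P.cen i| ≤ P.hh := by
  have h1 := (cant_lam_pos h)
  have h2 := (cant_hh_pos h)
  obtain ⟨x, y, z⟩ := X
  simp only [Par.chi, Prod.norm_def, Real.norm_eq_abs, abs_neg, abs_div, abs_of_pos h1,
    abs_of_pos h2, sup_le_iff, div_le_one h1, div_le_one h2]
  rintro ⟨hy, hz, hx⟩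
  exact ⟨hx, hy, hz⟩

theorem cant_cen_abs (h : P.Valid) {i : ℕ} (hi : i < P.N) : |P.cen i| ≤ P.lam * (P.N - 1) / P.N := by
  have h1 := (cant_lam_pos h)
  have h2 := (cant_N_pos h)
  have h3 : (i : ℝ) ≤ P.N - 1 := by
    have : ((i + 1 : ℕ) : ℝ) ≤ (P.N : ℝ) := by exact_mod_cast hi
    push_cast at this
    linarith
  have h4 : (0 : ℝ) ≤ i := Nat.cast_nonneg i
  unfold Par.cen
  rw [abs_div, abs_mul, abs_of_pos h1, abs_of_pos h2]
  have h5 : |2 * (i : ℝ) + 1 - P.N| ≤ P.N - 1 := by
    rw [abs_le]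
    constructor <;> linarith
  gcongr

theorem cant_box_ball (h : P.Valid) {i : ℕ} (hi : i < P.N) {X : E3} (hX : ‖P.chi i X‖ ≤ 1) :
    ‖X‖ ≤ 1 := by
  obtain ⟨hx, hy, hz⟩ := cant_chi_norm_iff h i X hX
  have h1 := (cant_lam_pos h)
  have h1' := (cant_lam_lt h)
  have h2 := (cant_N_pos h)
  have h3 := cant_cen_abs h hi
  have h4 : P.hh ≤ P.lam / P.N := by
    unfold Par.hh
    have := h.g_lt
    gcongr
    nlinarith
  have h5 : |X.2.2| ≤ 1 := by
    calc |X.2.2| = |(X.2.2 - P.cen i) + P.cen i| := by ring_nf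
      _ ≤ |X.2.2 - P.cen i| + |P.cen i| := abs_add_le _ _
      _ ≤ P.lam / P.N + P.lam * (P.N - 1) / P.N := by linarith
      _ = P.lam := by
        field_simp
        ring
      _ ≤ 1 := h1'.le
  simp only [Prod.norm_def, Real.norm_eq_abs, sup_le_iff]
  exact ⟨by linarith, by linarith, h5⟩

theorem cant_box_dis (h : P.Valid) {i j : ℕ} {X : E3}
    (hX : ‖P.chi i X‖ ≤ 1) (hX' : ‖P.chi j X‖ ≤ 1) : i = j := by
  obtain ⟨-, -, hz⟩ := cant_chi_norm_iff h i X hX
  obtain ⟨-, -, hz'⟩ := cant_chi_norm_iff h j X hX'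
  have h1 := (cant_lam_pos h)
  have h2 := (cant_N_pos h)
  by_contra hij
  have h3 : (1 : ℝ) ≤ |(i : ℝ) - j| := by
    have : (1 : ℤ) ≤ |(i : ℤ) - j| := Int.one_le_abs (by omega)
    exact_mod_cast this
  have h4 : |P.cen i - P.cen j| ≤ 2 * P.hh := by
    calc |P.cen i - P.cen j| = |(X.2.2 - P.cen j) - (X.2.2 - P.cen i)| := by ring_nf
      _ ≤ |X.2.2 - P.cen j| + |X.2.2 - P.cen i| := abs_sub _ _
      _ ≤ 2 * P.hh := by linarith
  have h5 : P.cen i - P.cen j = 2 * P.lam / P.N * ((i : ℝ) - j) := by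
    unfold Par.cen
    field_simp
    ring
  rw [h5, abs_mul, abs_of_pos (by positivity : 0 < 2 * P.lam / P.N)] at h4
  have h6 : 2 * P.hh < 2 * P.lam / P.N := by
    unfold Par.hh
    have := h.g_lt
    rw [← mul_div_assoc]
    gcongr
    nlinarith
  have h7 : 2 * P.lam / P.N ≤ 2 * P.lam / P.N * |(i : ℝ) - j| :=
    le_mul_of_one_le_right (by positivity) h3
  linarith

end par

theorem cant_U_sub_ball (P : ℕ → Par) (h : ∀ k, (P k).Valid) :
    ∀ n k, (treeOf P).U n k ⊆ Metric.closedBall 0 1 := by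
  intro n
  induction n with
  | zero => intro k; exact subset_rfl
  | succ n ih =>
    rintro k X ⟨i, hi, hX⟩
    have h1 := ih (k + 1) hX
    rw [mem_closedBall_zero_iff] at h1 ⊢
    exact cant_box_ball (h k) hi h1

theorem cant_U_anti (P : ℕ → Par) (h : ∀ k, (P k).Valid) :
    ∀ n k, (treeOf P).U (n + 1) k ⊆ (treeOf P).U n k := by
  intro n
  induction n with
  | zero => intro k; exact cant_U_sub_ball P h 1 k
  | succ n ih =>
    rintro k X ⟨i, hi, hX⟩
    exact ⟨i, hi, ih (k + 1) hX⟩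

theorem cant_vol_cube : volume (Metric.closedBall (0 : E3) 1) = ENNReal.ofReal 8 := by
  have h1 : Metric.closedBall (0 : E3) 1 = Icc (-1) 1 ×ˢ (Icc (-1) 1 ×ˢ Icc (-1) 1) := by
    ext X
    obtain ⟨x, y, z⟩ := X
    simp only [mem_closedBall_zero_iff, Prod.norm_def, Real.norm_eq_abs, sup_le_iff, abs_le,
      mem_prod, mem_Icc]
  rw [h1]
  simp only [Measure.volume_eq_prod, Measure.prod_prod, Real.volume_Icc]
  rw [← ENNReal.ofReal_mul (by norm_num), ← ENNReal.ofReal_mul (by norm_num)]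
  norm_num

theorem cant_vol_U (P : ℕ → Par) (h : ∀ k, (P k).Valid)
    (hU : ∀ n k, IsClosed ((treeOf P).U n k)) :
    ∀ n k, volume ((treeOf P).U n k) =
      ENNReal.ofReal (8 * ∏ j ∈ Finset.range n, ((P (k + j)).lam ^ 3 * (P (k + j)).g)) := by
  intro n
  induction n with
  | zero =>
    intro k
    simp only [Finset.range_zero, Finset.prod_empty, mul_one]
    exact cant_vol_cube
  | succ n ih =>
    intro k
    have e1 : (treeOf P).U (n + 1) k =
        ⋃ i ∈ Finset.range (P k).N, (P k).chi i ⁻¹' ((treeOf P).U n (k + 1)) := by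
      ext X
      simp only [mem_iUnion, Finset.mem_range, mem_preimage, exists_prop]
      rfl
    rw [e1, measure_biUnion_finset]
    · have e2 : ∀ i ∈ Finset.range (P k).N,
          volume ((P k).chi i ⁻¹' ((treeOf P).U n (k + 1))) =
          ENNReal.ofReal ((P k).lam ^ 2 * (P k).hh) * volume ((treeOf P).U n (k + 1)) := by
        intro i _
        rw [cant_chi_preimage (h k), cant_vol_ch_image _ _ (cant_lam_pos (h k)) (cant_hh_pos (h k))]
      rw [Finset.sum_congr rfl e2, Finset.sum_const, Finset.card_range, nsmul_eq_mul, ih (k + 1),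
        Finset.prod_range_succ', ← ENNReal.ofReal_mul (by
          have := (cant_lam_pos (h k))
          have := (cant_hh_pos (h k))
          positivity), ← ENNReal.ofReal_natCast, ← ENNReal.ofReal_mul (by positivity)]
      congr 1
      have e3 : ∀ j, k + 1 + j = k + (j + 1) := fun j => by omega
      simp only [e3, add_zero, Par.hh]
      have := (cant_N_pos (h k)).ne'
      field_simp
    · intro i _ j _ hij
      rw [Function.onFun, Set.disjoint_left]
      intro X hX hX'
      have h1 := cant_U_sub_ball P h n (k + 1) hX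
      have h2 := cant_U_sub_ball P h n (k + 1) hX'
      rw [mem_closedBall_zero_iff] at h1 h2
      exact hij (cant_box_dis (h k) h1 h2)
    · intro i _
      exact ((hU n (k + 1)).preimage (cant_chi_cont (P k) i)).measurableSet

/-- TASK N3: measure of the Cantor set -/
theorem cantor_pos (P : ℕ → Par) (h : ∀ k, (P k).Valid)
    (hU : ∀ n k, IsClosed ((treeOf P).U n k)) (c : ℝ) (hc : 0 < c)
    (hprod : ∀ n, c ≤ ∏ j ∈ Finset.range n, ((P j).lam ^ 3 * (P j).g)) :
    0 < volume ((treeOf P).C 0) := by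
  have e1 : (treeOf P).C 0 = ⋂ n, (treeOf P).U n 0 := by
    ext X
    simp only [mem_iInter]
    rfl
  have hanti : Antitone (fun n => (treeOf P).U n 0) :=
    antitone_nat_of_succ_le (fun n => cant_U_anti P h n 0)
  have ht := tendsto_measure_iInter_atTop (μ := (volume : Measure E3))
    (fun n => (hU n 0).measurableSet.nullMeasurableSet) hanti
    ⟨0, by
      rw [cant_vol_U P h hU 0 0]
      exact ENNReal.ofReal_ne_top⟩
  rw [← e1] at ht
  have hge : ENNReal.ofReal (8 * c) ≤ volume ((treeOf P).C 0) := by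
    refine ge_of_tendsto' ht (fun n => ?_)
    simp only [Function.comp]
    rw [cant_vol_U P h hU n 0]
    apply ENNReal.ofReal_le_ofReal
    have := hprod n
    simp only [zero_add]
    linarith
  exact lt_of_lt_of_le (ENNReal.ofReal_pos.2 (by linarith)) hge

end Pool.Agent.JAC
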