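import Pool.Agent.Lib.MP_3b5712_an.Bnd

set_option autoImplicit false

open Filter Topology Set Real MeasureTheory

namespace Pool.Agent.JAC

/-! TASK M: the energy of one block -/

/-- weighted energy density -/
noncomputable def en (l : Fin 3 → ℝ) (f : E3 → E3) (X : E3) : ℝ :=
  ∑ i, ∑ j, l i / l j * |comp i (fderiv ℝ f X (bas j))|

/-- the open set between the outer boundary and the child boxes -/
def gapSet (P : Par) : Set E3 := {X | ‖X‖ < 1 ∧ ∀ i < P.N, 1 < ‖P.chi i X‖}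

/-- polynomial size bound -/
noncomputable def bigL (P P' P'' : Par) : ℝ :=
  1 / P.mi * ((P.N : ℝ) ^ 2 / P'.th) * ((P'.N : ℝ) ^ 2 / P''.th)

/-! ### integration of bounds -/

theorem Ener_lint {f : E3 → ℝ} {S : Set E3} (hS : MeasurableSet S) {c v : ℝ} (hc : 0 ≤ c)
    (h : ∀ X ∈ S, f X ≤ c) (hv : volume S ≤ ENNReal.ofReal v) :
    ∫⁻ X in S, ENNReal.ofReal (f X) ≤ ENNReal.ofReal (c * v) := by
  calc ∫⁻ X in S, ENNReal.ofReal (f X) ≤ ∫⁻ X in S, ENNReal.ofReal c :=
        setLIntegral_mono' hS (fun X hX => ENNReal.ofReal_le_ofReal (h X hX))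
    _ = ENNReal.ofReal c * volume S := by rw [setLIntegral_const]
    _ ≤ ENNReal.ofReal c * ENNReal.ofReal v := by gcongr
    _ = ENNReal.ofReal (c * v) := (ENNReal.ofReal_mul hc).symm

/-- two-sided shell on the line -/
def Ener_A (a : ℝ) : Set ℝ := Set.Ioc (-1) (-(1 - a)) ∪ Set.Ico (1 - a) 1

theorem Ener_A_meas (a : ℝ) : MeasurableSet (Ener_A a) :=
  measurableSet_Ioc.union measurableSet_Ico

theorem Ener_mem_A {a t : ℝ} (h1 : 1 - a ≤ |t|) (h2 : |t| < 1) : t ∈ Ener_A a := by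
  rw [abs_lt] at h2
  rcases le_abs.1 h1 with h | h
  · right; exact ⟨h, h2.2⟩
  · left; exact ⟨h2.1, by linarith⟩

theorem Ener_A_vol {a : ℝ} (ha : 0 ≤ a) : volume (Ener_A a) ≤ ENNReal.ofReal (2 * a) := by
  unfold Ener_A
  refine (measure_union_le _ _).trans ?_
  rw [Real.volume_Ioc, Real.volume_Ico, ← ENNReal.ofReal_add (by linarith) (by linarith)]
  apply ENNReal.ofReal_le_ofReal
  linarith

def Ener_B : Set ℝ := Set.Ioo (-1) 1

theorem Ener_mem_B {t : ℝ} (h : |t| < 1) : t ∈ Ener_B := abs_lt.1 h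

theorem Ener_B_vol : volume Ener_B ≤ ENNReal.ofReal 2 := by
  unfold Ener_B
  rw [Real.volume_Ioo]
  apply ENNReal.ofReal_le_ofReal
  norm_num

theorem Ener_prod {A B D : Set ℝ} {a b d : ℝ} (ha0 : 0 ≤ a) (hb0 : 0 ≤ b)
    (ha : volume A ≤ ENNReal.ofReal a) (hb : volume B ≤ ENNReal.ofReal b)
    (hd : volume D ≤ ENNReal.ofReal d) :
    volume (A ×ˢ (B ×ˢ D) : Set E3) ≤ ENNReal.ofReal (a * b * d) := by
  have h1 : (volume : Measure E3) = (volume : Measure ℝ).prod (volume : Measure (ℝ × ℝ)) := rfl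
  have h2 : (volume : Measure (ℝ × ℝ)) = (volume : Measure ℝ).prod volume := rfl
  rw [h1, Measure.prod_prod, h2, Measure.prod_prod, mul_assoc, ENNReal.ofReal_mul ha0,
    ENNReal.ofReal_mul hb0]
  gcongr

theorem Ener_norm_lt {X : E3} {r : ℝ} : ‖X‖ < r ↔ |X.1| < r ∧ |X.2.1| < r ∧ |X.2.2| < r := by
  obtain ⟨x, y, z⟩ := X
  simp only [Prod.norm_mk, Real.norm_eq_abs, sup_lt_iff]

theorem Ener_norm2_lt {w : E2} {r : ℝ} : ‖w‖ < r ↔ |w.1| < r ∧ |w.2| < r := by
  obtain ⟨x, y⟩ := w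
  simp only [Prod.norm_mk, Real.norm_eq_abs, sup_lt_iff]

theorem Ener_lt_norm {X : E3} {r : ℝ} : r < ‖X‖ ↔ r < |X.1| ∨ r < |X.2.1| ∨ r < |X.2.2| := by
  obtain ⟨x, y, z⟩ := X
  simp only [Prod.norm_mk, Real.norm_eq_abs, lt_sup_iff]

/-! ### pointwise bounds of the density -/

theorem Ener_ratio {l : Fin 3 → ℝ} (h0 : ∀ i, 0 < l i) (h1 : l 1 ≤ l 0) (h2 : l 0 ≤ l 2)
    (i j : Fin 3) : l i / l j ≤ l 2 / l 1 := by
  have hi : l i ≤ l 2 := by fin_cases i <;> simp <;> linarith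
  have hj : l 1 ≤ l j := by fin_cases j <;> simp <;> linarith
  have := h0 1
  have := h0 2
  have := h0 j
  exact div_le_div₀ (by positivity) hi (h0 1) hj

theorem Ener_pt {l : Fin 3 → ℝ} (h0 : ∀ i, 0 < l i) (h1 : l 1 ≤ l 0) (h2 : l 0 ≤ l 2)
    {f : E3 → E3} {X : E3} {K : ℝ} (hK : 0 ≤ K) (h : LipAt K f X) :
    en l f X ≤ 9 * (l 2 / l 1) * K := by
  have hm := LipAt.mlip hK h
  have hb : ∀ i j, |comp i (fderiv ℝ f X (bas j))| ≤ K := fun i j =>
    MLip.bound (K := fun _ _ => K) (fun _ _ => hK) hm i j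
  unfold en
  have hle : ∀ i j : Fin 3, l i / l j * |comp i (fderiv ℝ f X (bas j))| ≤ l 2 / l 1 * K := by
    intro i j
    have hr := Ener_ratio h0 h1 h2 i j
    have := h0 1
    have := h0 2
    exact mul_le_mul hr (hb i j) (abs_nonneg _) (by positivity)
  calc ∑ i, ∑ j, l i / l j * |comp i (fderiv ℝ f X (bas j))|
      ≤ ∑ _i : Fin 3, ∑ _j : Fin 3, l 2 / l 1 * K :=
        Finset.sum_le_sum fun i _ => Finset.sum_le_sum fun j _ => hle i j
    _ = 9 * (l 2 / l 1) * K := by simp; ring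

theorem Ener_ptT {l : Fin 3 → ℝ} (h0 : ∀ i, 0 < l i) (h1 : l 1 ≤ l 0) (h2 : l 0 ≤ l 2)
    {f : E3 → E3} {X : E3} {A B : ℝ} (hA : 0 ≤ A) (hB : 0 ≤ B) (h : MLip (KT A B) f X) :
    en l f X ≤ 1 + 2 * (l 0 / l 2) * A + 4 * (l 2 / l 1) * B := by
  have hK : ∀ i j, 0 ≤ KT A B i j := by
    intro i j; unfold KT; split_ifs <;> positivity
  have hb : ∀ i j, |comp i (fderiv ℝ f X (bas j))| ≤ KT A B i j := fun i j =>
    MLip.bound hK h i j
  have p0 := h0 0
  have p1 := h0 1
  have p2 := h0 2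
  unfold en
  have hle : ∀ i j : Fin 3, l i / l j * |comp i (fderiv ℝ f X (bas j))| ≤
      l i / l j * KT A B i j := by
    intro i j
    have := h0 i
    have := h0 j
    exact mul_le_mul_of_nonneg_left (hb i j) (by positivity)
  refine (Finset.sum_le_sum fun i _ => Finset.sum_le_sum fun j _ => hle i j).trans ?_
  simp only [Fin.sum_univ_three, KT]
  simp
  have e00 : l 0 / l 0 ≤ l 2 / l 1 := Ener_ratio h0 h1 h2 0 0
  have e01 : l 0 / l 1 ≤ l 2 / l 1 := Ener_ratio h0 h1 h2 0 1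
  have e10 : l 1 / l 0 ≤ l 2 / l 1 := Ener_ratio h0 h1 h2 1 0
  have e11 : l 1 / l 1 ≤ l 2 / l 1 := Ener_ratio h0 h1 h2 1 1
  have e12 : l 1 / l 2 ≤ l 0 / l 2 := by gcongr
  have e22 : l 2 / l 2 = 1 := div_self p2.ne'
  have a1 := mul_le_mul_of_nonneg_right e01 hB
  have a2 := mul_le_mul_of_nonneg_right e10 hB
  have a3 := mul_le_mul_of_nonneg_right e12 hA
  have a4 := mul_le_mul_of_nonneg_right e00 hB
  have a5 := mul_le_mul_of_nonneg_right e11 hB
  have d0 : l 0 / l 0 = 1 := div_self p0.ne'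
  have d1 : l 1 / l 1 = 1 := div_self p1.ne'
  rw [d0] at a4
  rw [d1] at a5
  simp only [d0, d1, e22, one_mul] at *
  linarith


/-! ### the volume of the inner zone -/

def Ener_J (P : Par) : Set ℝ :=
  Set.Ioo (-P.lam) P.lam \ ⋃ i ∈ Finset.range P.N, Set.Icc (P.cen i - P.hh) (P.cen i + P.hh)

theorem Ener_J_meas (P : Par) : MeasurableSet (Ener_J P) :=
  measurableSet_Ioo.diff (Finset.measurableSet_biUnion _ fun _ _ => measurableSet_Icc)

theorem Ener_J_vol {P : Par} (hP : P.Valid) : volume (Ener_J P) ≤ ENNReal.ofReal (2 * (1 - P.g)) := by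
  have hmu := hP.mu_pos
  have hmui := hP.mu_le
  have hmio := hP.mi_le
  have hmth := hP.mo_th
  have hth := hP.th_le
  have hg := hP.g_pos
  have hg1 := hP.g_lt
  have hN2 : (2 : ℝ) ≤ P.N := by exact_mod_cast hP.N_ge
  have hN : (0 : ℝ) < P.N := by linarith
  have hlam : 0 < P.lam := by unfold Par.lam; linarith
  have hlam1 : P.lam ≤ 1 := by unfold Par.lam; linarith
  have hhh : P.hh * P.N = P.lam * P.g := by unfold Par.hh; field_simp
  have hcen : ∀ i : ℕ, P.cen i * P.N = P.lam * (2 * i + 1 - P.N) := by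
    intro i; unfold Par.cen; field_simp
  have hh0 : 0 < P.hh := by unfold Par.hh; positivity
  have hlg : P.lam * P.g < P.lam := by nlinarith
  unfold Ener_J
  have hsub : (⋃ i ∈ Finset.range P.N, Set.Icc (P.cen i - P.hh) (P.cen i + P.hh)) ⊆
      Set.Ioo (-P.lam) P.lam := by
    intro z hz
    simp only [Set.mem_iUnion, Finset.mem_range, Set.mem_Icc, exists_prop] at hz
    obtain ⟨i, hi, h1, h2⟩ := hz
    have hi' : (i : ℝ) + 1 ≤ P.N := by exact_mod_cast hi
    have hi0 : (0 : ℝ) ≤ i := Nat.cast_nonneg i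
    have c := hcen i
    constructor
    · have : -P.lam * P.N < (P.cen i - P.hh) * P.N := by
        rw [sub_mul, c, hhh]
        nlinarith
      exact lt_of_lt_of_le (lt_of_mul_lt_mul_right this hN.le) h1
    · have : (P.cen i + P.hh) * P.N < P.lam * P.N := by
        rw [add_mul, c, hhh]
        nlinarith
      exact lt_of_le_of_lt h2 (lt_of_mul_lt_mul_right this hN.le)
  have hdisj : Set.PairwiseDisjoint (↑(Finset.range P.N))
      (fun i : ℕ => Set.Icc (P.cen i - P.hh) (P.cen i + P.hh)) := by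
    have key : ∀ i j : ℕ, i < j → Disjoint (Set.Icc (P.cen i - P.hh) (P.cen i + P.hh))
        (Set.Icc (P.cen j - P.hh) (P.cen j + P.hh)) := by
      intro i j hij
      rw [Set.disjoint_left]
      intro z hz1 hz2
      have hij' : (i : ℝ) + 1 ≤ j := by exact_mod_cast hij
      have ci := hcen i
      have cj := hcen j
      have h3 : (P.cen j - P.hh) * P.N ≤ (P.cen i + P.hh) * P.N :=
        mul_le_mul_of_nonneg_right (hz2.1.trans hz1.2) hN.le
      rw [sub_mul, add_mul, ci, cj, hhh] at h3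
      nlinarith
    intro i _ j _ hij
    rcases lt_or_gt_of_ne hij with h | h
    · exact key i j h
    · exact (key j i h).symm
  rw [measure_sdiff hsub]
  · rw [measure_biUnion_finset hdisj (fun _ _ => measurableSet_Icc)]
    have hv : ∀ i ∈ Finset.range P.N, volume (Set.Icc (P.cen i - P.hh) (P.cen i + P.hh)) =
        ENNReal.ofReal (2 * P.hh) := by
      intro i _
      rw [Real.volume_Icc]
      congr 1
      ring
    rw [Finset.sum_congr rfl hv, Finset.sum_const, Finset.card_range, Real.volume_Ioo,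
      nsmul_eq_mul, ← ENNReal.ofReal_natCast, ← ENNReal.ofReal_mul hN.le,
      ← ENNReal.ofReal_sub _ (by positivity)]
    apply ENNReal.ofReal_le_ofReal
    have : (P.N : ℝ) * (2 * P.hh) = 2 * (P.lam * P.g) := by rw [← hhh]; ring
    rw [this]
    nlinarith
  · exact (Finset.measurableSet_biUnion _ fun _ _ => measurableSet_Icc).nullMeasurableSet
  · refine ne_top_of_le_ne_top ?_ (measure_mono hsub)
    rw [Real.volume_Ioo]
    exact ENNReal.ofReal_ne_top

theorem Ener_null1 (c : ℝ) : volume ({t : ℝ | |t| = c}) = 0 := by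
  have h : {t : ℝ | |t| = c} ⊆ ({c, -c} : Set ℝ) := by
    intro t ht
    have ht' : |t| = c := ht
    rcases abs_cases t with h | h
    · left; linarith
    · right; simp; linarith
  exact measure_mono_null h ((Set.toFinite _).measure_zero _)

theorem Ener_prod0 {A B D : Set ℝ} (h : volume A = 0 ∨ volume B = 0 ∨ volume D = 0) :
    volume (A ×ˢ (B ×ˢ D) : Set E3) = 0 := by
  have h1 : (volume : Measure E3) = (volume : Measure ℝ).prod (volume : Measure (ℝ × ℝ)) := rfl
  have h2 : (volume : Measure (ℝ × ℝ)) = (volume : Measure ℝ).prod volume := rfl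
  rw [h1, Measure.prod_prod, h2, Measure.prod_prod]
  rcases h with h | h | h <;> rw [h] <;> simp

theorem Ener_null {lam c : ℝ} :
    volume ({X : E3 | ‖X‖ = lam} ∪ {X : E3 | |X.2.2| = c}) = 0 := by
  have hsub : ({X : E3 | ‖X‖ = lam} ∪ {X : E3 | |X.2.2| = c}) ⊆
      (({t : ℝ | |t| = lam} ×ˢ (Set.univ ×ˢ Set.univ) : Set E3) ∪
      (Set.univ ×ˢ ({t : ℝ | |t| = lam} ×ˢ Set.univ) : Set E3)) ∪
      ((Set.univ ×ˢ (Set.univ ×ˢ {t : ℝ | |t| = lam}) : Set E3) ∪
      (Set.univ ×ˢ (Set.univ ×ˢ {t : ℝ | |t| = c}) : Set E3)) := by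
    rintro ⟨x, y, z⟩ (hX | hX)
    · have hX' : max |x| (max |y| |z|) = lam := hX
      rcases max_choice |x| (max |y| |z|) with h | h
      · left; left
        exact ⟨h.symm.trans hX', Set.mem_univ _, Set.mem_univ _⟩
      · rcases max_choice |y| |z| with h' | h'
        · left; right
          exact ⟨Set.mem_univ _, (h'.symm.trans (h.symm.trans hX')), Set.mem_univ _⟩
        · right; left
          exact ⟨Set.mem_univ _, Set.mem_univ _, (h'.symm.trans (h.symm.trans hX'))⟩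
    · right; right
      exact ⟨Set.mem_univ _, Set.mem_univ _, hX⟩
  refine measure_mono_null hsub ?_
  rw [measure_union_null_iff, measure_union_null_iff, measure_union_null_iff]
  refine ⟨⟨?_, ?_⟩, ?_, ?_⟩ <;> apply Ener_prod0 <;> simp [Ener_null1]

/-! ### assembly -/

theorem Ener_step {f : E3 → ℝ} {S T : Set E3} (hT : MeasurableSet T) {c v : ℝ} (hc : 0 ≤ c)
    (hv0 : 0 ≤ v)
    (h : ∀ X ∈ T, f X ≤ c) (hv : volume T ≤ ENNReal.ofReal v) {w : ℝ} (hw0 : 0 ≤ w)
    (hS : ∫⁻ X in S, ENNReal.ofReal (f X) ≤ ENNReal.ofReal w) :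
    ∫⁻ X in T ∪ S, ENNReal.ofReal (f X) ≤ ENNReal.ofReal (c * v + w) := by
  rw [ENNReal.ofReal_add (by positivity) hw0]
  exact (lintegral_union_le _ _ _).trans (add_le_add (Ener_lint hT hc h hv) hS)

theorem block_energy : ∃ C : ℝ, 1 ≤ C ∧ ∀ P P' P'' : Par, Compat P P' P'' →
    ∀ l : Fin 3 → ℝ, (∀ i, 0 < l i) → l 1 ≤ l 0 → l 0 ≤ l 2 →
    ∫⁻ X in gapSet P, ENNReal.ofReal (en l (Blk P P' P'') X) ≤
      ENNReal.ofReal (C * (l 0 / l 2) + C * (l 2 / l 1) * (P.th +
        (P.mu + (1 - P.g)) * bigL P P' P'')) := by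
  obtain ⟨C1, hC1, H1⟩ := blk_inner
  obtain ⟨CR, hCR, HR⟩ := blk_collar
  obtain ⟨CN, hCN, HN⟩ := blk_coreN
  obtain ⟨CT, hCT, HT⟩ := blk_coreT
  refine ⟨1000 * (C1 + CR + CN + CT), by linarith, ?_⟩
  intro P P' P'' hc l l0 l1 l2
  have hP := hc.v
  have hmu := hP.mu_pos
  have hmui := hP.mu_le
  have hmio := hP.mi_le
  have hmth := hP.mo_th
  have hth := hP.th_le
  have hg := hP.g_pos
  have hg1 := hP.g_lt
  have hlam : P.lam = 1 - P.mu := rfl
  have hth' : 0 < P'.th := by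
    have := hc.v'.mu_pos; have := hc.v'.mu_le; have := hc.v'.mi_le; have := hc.v'.mo_th; linarith
  have hth'' : 0 < P''.th := by
    have := hc.v''.mu_pos; have := hc.v''.mu_le; have := hc.v''.mi_le; have := hc.v''.mo_th
    linarith
  have hmi : 0 < P.mi := by linarith
  have hN2 : (2 : ℝ) ≤ P.N := by exact_mod_cast hP.N_ge
  have hN2' : (2 : ℝ) ≤ P'.N := by exact_mod_cast hc.v'.N_ge
  set a : ℝ := (P.N : ℝ) ^ 2 / P'.th with ha
  set b : ℝ := (P'.N : ℝ) ^ 2 / P''.th with hb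
  have ha1 : 1 ≤ a := by
    rw [ha, le_div_iff₀ hth']
    have := hc.v'.th_le
    nlinarith
  have hb1 : 1 ≤ b := by
    rw [hb, le_div_iff₀ hth'']
    have := hc.v''.th_le
    nlinarith
  have hm1 : 1 ≤ 1 / P.mi := by
    rw [le_div_iff₀ hmi]; linarith
  set L : ℝ := bigL P P' P'' with hL
  have hL' : L = 1 / P.mi * a * b := rfl
  have hL1 : 1 ≤ L := by
    rw [hL']
    exact one_le_mul_of_one_le_of_one_le (one_le_mul_of_one_le_of_one_le hm1 ha1) hb1
  have haL : a ≤ L := by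
    rw [hL']
    have : a * 1 ≤ (1 / P.mi * a) * b :=
      mul_le_mul (by nlinarith) hb1 zero_le_one (by positivity)
    linarith
  have hbL : b ≤ L := by
    rw [hL']
    have h1 : 1 ≤ 1 / P.mi * a := one_le_mul_of_one_le_of_one_le hm1 ha1
    nlinarith
  set R : ℝ := l 2 / l 1 with hR
  have hR1 : 1 ≤ R := by
    rw [hR, le_div_iff₀ (l0 1)]; linarith
  have hr0 : 0 < l 0 / l 2 := div_pos (l0 0) (l0 2)
  set f : E3 → ℝ := en l (Blk P P' P'') with hf
  -- the sets
  set Z : Set E3 := {X : E3 | ‖X‖ = P.lam} ∪ {X : E3 | |X.2.2| = 1 - P.mu / 2} with hZ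
  set S1 : Set E3 := Set.Ioo (-P.lam) P.lam ×ˢ (Set.Ioo (-P.lam) P.lam ×ˢ Ener_J P) with hS1
  set T : Set E3 := {X | P.lam < |X.2.2| ∧ |X.2.2| < 1 ∧ ‖((X.1, X.2.1) : E2)‖ < 1 - P.th ∧
    |X.2.2| ≠ 1 - P.mu / 2} with hT
  set Nn : Set E3 := {X | P.lam < |X.2.1| ∧ |X.2.1| < 1 ∧ ‖((X.1, X.2.2) : E2)‖ < 1 - P.th}
    with hNn
  set E : Set E3 := {X | P.lam < |X.1| ∧ |X.1| < 1 ∧ ‖X.2‖ < 1 - 2 * P.th} with hE
  set Q : Set E3 := ((Ener_A P.mu ×ˢ (Ener_A (2 * P.th) ×ˢ Ener_B) ∪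
      Ener_A P.mu ×ˢ (Ener_B ×ˢ Ener_A (2 * P.th))) ∪
      (Ener_A (2 * P.th) ×ˢ (Ener_A P.mu ×ˢ Ener_B) ∪
      Ener_B ×ˢ (Ener_A P.mu ×ˢ Ener_A (2 * P.th)))) ∪
      (Ener_A (2 * P.th) ×ˢ (Ener_B ×ˢ Ener_A P.mu) ∪
      Ener_B ×ˢ (Ener_A (2 * P.th) ×ˢ Ener_A P.mu)) with hQ
  set V : Set E3 := Q ∩ {X | P.lam < ‖X‖ ∧ ‖X‖ < 1 ∧ |X.2.2| ≠ 1 - P.mu / 2} with hV
  have m1 : Measurable (fun X : E3 => |X.1|) := by fun_prop
  have m2 : Measurable (fun X : E3 => |X.2.1|) := by fun_prop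
  have m3 : Measurable (fun X : E3 => |X.2.2|) := by fun_prop
  have m0 : Measurable (fun X : E3 => ‖X‖) := by fun_prop
  -- the cover
  have hcov : gapSet P ⊆ S1 ∪ (T ∪ (Nn ∪ (E ∪ (V ∪ Z)))) := by
    intro X hX
    obtain ⟨hX1, hXb⟩ := hX
    by_cases hz : X ∈ Z
    · right; right; right; right; right; exact hz
    have hz1 : ‖X‖ ≠ P.lam := fun h => hz (Or.inl h)
    have hz2 : |X.2.2| ≠ 1 - P.mu / 2 := fun h => hz (Or.inr h)
    have hx1 := Ener_norm_lt.1 hX1
    rcases lt_or_gt_of_ne hz1 with hlt | hgt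
    · left
      have hx := Ener_norm_lt.1 hlt
      refine ⟨abs_lt.1 hx.1, abs_lt.1 hx.2.1, abs_lt.1 hx.2.2, ?_⟩
      intro hmem
      simp only [Set.mem_iUnion, Finset.mem_range, Set.mem_Icc, exists_prop] at hmem
      obtain ⟨i, hi, h1, h2⟩ := hmem
      have hlt1 := hXb i hi
      have : ‖P.chi i X‖ ≤ 1 := by
        rw [chi_le hP]
        refine ⟨hx.1.le, hx.2.1.le, ?_⟩
        rw [abs_le]; constructor <;> linarith
      linarith
    · by_cases hTm : X ∈ T
      · right; left; exact hTm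
      by_cases hNm : X ∈ Nn
      · right; right; left; exact hNm
      by_cases hEm : X ∈ E
      · right; right; right; left; exact hEm
      right; right; right; right; left
      refine ⟨?_, hgt, hX1, hz2⟩
      have bx := Ener_mem_B hx1.1
      have by' := Ener_mem_B hx1.2.1
      have bz := Ener_mem_B hx1.2.2
      rcases Ener_lt_norm.1 hgt with h | h | h
      · -- |x| large
        have hax : X.1 ∈ Ener_A P.mu := Ener_mem_A (by rw [← hlam]; exact h.le) hx1.1
        have hn : ¬ ‖X.2‖ < 1 - 2 * P.th := fun hh => hEm ⟨h, hx1.1, hh⟩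
        rw [Ener_norm2_lt] at hn
        rcases not_and_or.1 hn with h' | h'
        · exact Or.inl (Or.inl (Or.inl
            ⟨hax, Ener_mem_A (not_lt.1 h') hx1.2.1, bz⟩))
        · exact Or.inl (Or.inl (Or.inr
            ⟨hax, by', Ener_mem_A (not_lt.1 h') hx1.2.2⟩))
      · have hay : X.2.1 ∈ Ener_A P.mu := Ener_mem_A (by rw [← hlam]; exact h.le) hx1.2.1
        have hn : ¬ ‖((X.1, X.2.2) : E2)‖ < 1 - P.th := fun hh => hNm ⟨h, hx1.2.1, hh⟩
        rw [Ener_norm2_lt] at hn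
        rcases not_and_or.1 hn with h' | h'
        · exact Or.inl (Or.inr (Or.inl
            ⟨Ener_mem_A (by simp at h'; linarith) hx1.1, hay, bz⟩))
        · exact Or.inl (Or.inr (Or.inr
            ⟨bx, hay, Ener_mem_A (by simp at h'; linarith) hx1.2.2⟩))
      · have haz : X.2.2 ∈ Ener_A P.mu := Ener_mem_A (by rw [← hlam]; exact h.le) hx1.2.2
        have hn : ¬ ‖((X.1, X.2.1) : E2)‖ < 1 - P.th := fun hh => hTm ⟨h, hx1.2.2, hh, hz2⟩
        rw [Ener_norm2_lt] at hn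
        rcases not_and_or.1 hn with h' | h'
        · exact Or.inr (Or.inl
            ⟨Ener_mem_A (by simp at h'; linarith) hx1.1, by', haz⟩)
        · exact Or.inr (Or.inr
            ⟨bx, Ener_mem_A (by simp at h'; linarith) hx1.2.1, haz⟩)
  -- volumes
  have vA := Ener_A_vol hmu.le
  have vA2 := Ener_A_vol (a := 2 * P.th) (by linarith)
  have vB := Ener_B_vol
  have vI : volume (Set.Ioo (-P.lam) P.lam) ≤ ENNReal.ofReal 2 := by
    rw [Real.volume_Ioo]
    apply ENNReal.ofReal_le_ofReal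
    rw [hlam]; linarith
  have vS1 : volume S1 ≤ ENNReal.ofReal (8 * (1 - P.g)) := by
    refine (Ener_prod (by norm_num) (by norm_num) vI vI (Ener_J_vol hP)).trans ?_
    apply ENNReal.ofReal_le_ofReal; linarith
  have vT : volume T ≤ ENNReal.ofReal (8 * P.mu) := by
    have hs : T ⊆ Ener_B ×ˢ (Ener_B ×ˢ Ener_A P.mu) := by
      intro X hX
      obtain ⟨h1, h2, h3, _⟩ := hX
      rw [Ener_norm2_lt] at h3
      exact ⟨Ener_mem_B (lt_of_lt_of_le h3.1 (by linarith)),
        Ener_mem_B (lt_of_lt_of_le h3.2 (by linarith)), Ener_mem_A (by rw [← hlam]; exact h1.le) h2⟩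
    refine (measure_mono hs).trans
      ((Ener_prod (by norm_num) (by norm_num) vB vB vA).trans ?_)
    apply ENNReal.ofReal_le_ofReal; linarith
  have vN : volume Nn ≤ ENNReal.ofReal (8 * P.mu) := by
    have hs : Nn ⊆ Ener_B ×ˢ (Ener_A P.mu ×ˢ Ener_B) := by
      intro X hX
      obtain ⟨h1, h2, h3⟩ := hX
      rw [Ener_norm2_lt] at h3
      exact ⟨Ener_mem_B (lt_of_lt_of_le h3.1 (by linarith)),
        Ener_mem_A (by rw [← hlam]; exact h1.le) h2, Ener_mem_B (lt_of_lt_of_le h3.2 (by linarith))⟩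
    refine (measure_mono hs).trans
      ((Ener_prod (by norm_num) (by linarith) vB vA vB).trans ?_)
    apply ENNReal.ofReal_le_ofReal; linarith
  have vE : volume E ≤ ENNReal.ofReal (8 * P.mu) := by
    have hs : E ⊆ Ener_A P.mu ×ˢ (Ener_B ×ˢ Ener_B) := by
      intro X hX
      obtain ⟨h1, h2, h3⟩ := hX
      rw [Ener_norm2_lt] at h3
      exact ⟨Ener_mem_A (by rw [← hlam]; exact h1.le) h2,
        Ener_mem_B (lt_of_lt_of_le h3.1 (by linarith)), Ener_mem_B (lt_of_lt_of_le h3.2 (by linarith))⟩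
    refine (measure_mono hs).trans
      ((Ener_prod (by linarith) (by norm_num) vA vB vB).trans ?_)
    apply ENNReal.ofReal_le_ofReal; linarith
  have hmt : 0 ≤ P.mu * P.th := by have := hmu; nlinarith
  have vV : volume V ≤ ENNReal.ofReal (96 * (P.mu * P.th)) := by
    have q1 := Ener_prod (by linarith) (by linarith) vA vA2 vB
    have q2 := Ener_prod (by linarith) (by norm_num) vA vB vA2
    have q3 := Ener_prod (by linarith) (by linarith) vA2 vA vB
    have q4 := Ener_prod (by norm_num) (by linarith) vB vA vA2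
    have q5 := Ener_prod (by linarith) (by norm_num) vA2 vB vA
    have q6 := Ener_prod (by norm_num) (by linarith) vB vA2 vA
    have hu : volume Q ≤ ((ENNReal.ofReal (16 * (P.mu * P.th)) + ENNReal.ofReal (16 * (P.mu * P.th)))
        + (ENNReal.ofReal (16 * (P.mu * P.th)) + ENNReal.ofReal (16 * (P.mu * P.th)))) +
        (ENNReal.ofReal (16 * (P.mu * P.th)) + ENNReal.ofReal (16 * (P.mu * P.th))) := by
      refine (measure_union_le _ _).trans (add_le_add ((measure_union_le _ _).trans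
        (add_le_add ((measure_union_le _ _).trans (add_le_add (q1.trans ?_) (q2.trans ?_)))
        ((measure_union_le _ _).trans (add_le_add (q3.trans ?_) (q4.trans ?_)))))
        ((measure_union_le _ _).trans (add_le_add (q5.trans ?_) (q6.trans ?_)))) <;>
      · apply ENNReal.ofReal_le_ofReal
        apply le_of_eq
        ring
    refine (measure_mono Set.inter_subset_left).trans (hu.trans (le_of_eq ?_))
    have h16 : 0 ≤ 16 * (P.mu * P.th) := by positivity
    rw [← ENNReal.ofReal_add h16 h16, ← ENNReal.ofReal_add (by positivity) (by positivity),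
      ← ENNReal.ofReal_add (by positivity) (by positivity)]
    congr 1
    ring
  -- measurability
  have MS1 : MeasurableSet S1 :=
    measurableSet_Ioo.prod (measurableSet_Ioo.prod (Ener_J_meas P))
  have MT : MeasurableSet T := by
    have : T = ({X | P.lam < |X.2.2|} ∩ {X : E3 | |X.2.2| < 1}) ∩
        ({X | ‖((X.1, X.2.1) : E2)‖ < 1 - P.th} ∩ {X : E3 | |X.2.2| = 1 - P.mu / 2}ᶜ) := by
      ext X
      constructor
      · rintro ⟨h1, h2, h3, h4⟩; exact ⟨⟨h1, h2⟩, h3, h4⟩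
      · rintro ⟨⟨h1, h2⟩, h3, h4⟩; exact ⟨h1, h2, h3, h4⟩
    rw [this]
    exact ((measurableSet_lt measurable_const m3).inter (measurableSet_lt m3 measurable_const)).inter
      ((measurableSet_lt (by fun_prop) measurable_const).inter
      (measurableSet_eq_fun m3 measurable_const).compl)
  have MN : MeasurableSet Nn := by
    have : Nn = ({X | P.lam < |X.2.1|} ∩ {X : E3 | |X.2.1| < 1}) ∩
        {X | ‖((X.1, X.2.2) : E2)‖ < 1 - P.th} := by
      ext X
      constructor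
      · rintro ⟨h1, h2, h3⟩; exact ⟨⟨h1, h2⟩, h3⟩
      · rintro ⟨⟨h1, h2⟩, h3⟩; exact ⟨h1, h2, h3⟩
    rw [this]
    exact ((measurableSet_lt measurable_const m2).inter (measurableSet_lt m2 measurable_const)).inter
      (measurableSet_lt (by fun_prop) measurable_const)
  have ME : MeasurableSet E := by
    have : E = ({X | P.lam < |X.1|} ∩ {X : E3 | |X.1| < 1}) ∩
        {X | ‖X.2‖ < 1 - 2 * P.th} := by
      ext X
      constructor
      · rintro ⟨h1, h2, h3⟩; exact ⟨⟨h1, h2⟩, h3⟩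
      · rintro ⟨⟨h1, h2⟩, h3⟩; exact ⟨h1, h2, h3⟩
    rw [this]
    exact ((measurableSet_lt measurable_const m1).inter (measurableSet_lt m1 measurable_const)).inter
      (measurableSet_lt (by fun_prop) measurable_const)
  have MQ : MeasurableSet Q := by
    have mA := Ener_A_meas P.mu
    have mA2 := Ener_A_meas (2 * P.th)
    have mB : MeasurableSet Ener_B := measurableSet_Ioo
    exact (((mA.prod (mA2.prod mB)).union (mA.prod (mB.prod mA2))).union
      ((mA2.prod (mA.prod mB)).union (mB.prod (mA.prod mA2)))).union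
      ((mA2.prod (mB.prod mA)).union (mB.prod (mA2.prod mA)))
  have MV : MeasurableSet V := by
    have : V = Q ∩ (({X | P.lam < ‖X‖} ∩ {X : E3 | ‖X‖ < 1}) ∩
        {X : E3 | |X.2.2| = 1 - P.mu / 2}ᶜ) := by
      ext X
      constructor
      · rintro ⟨h0, h1, h2, h3⟩; exact ⟨h0, ⟨h1, h2⟩, h3⟩
      · rintro ⟨h0, ⟨h1, h2⟩, h3⟩; exact ⟨h0, h1, h2, h3⟩
    rw [this]
    exact MQ.inter (((measurableSet_lt measurable_const m0).inter
      (measurableSet_lt m0 measurable_const)).inter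
      (measurableSet_eq_fun m3 measurable_const).compl)
  -- pointwise bounds
  have B1 : ∀ X ∈ S1, f X ≤ 9 * R * (C1 * L) := by
    intro X hX
    obtain ⟨h1, h2, h3⟩ := hX
    have hn : ‖X‖ < P.lam := by
      rw [Ener_norm_lt]
      exact ⟨abs_lt.2 h1, abs_lt.2 h2, abs_lt.2 h3.1⟩
    have h := H1 P P' P'' hc X hn
    refine Ener_pt l0 l1 l2 (by positivity) ?_
    have e : C1 * L = C1 * (1 / P.mi) * ((P.N : ℝ) ^ 2 / P'.th) * ((P'.N : ℝ) ^ 2 / P''.th) := by
      rw [hL', ha, hb]; ring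
    rw [e]
    exact h
  have BT : ∀ X ∈ T, f X ≤ 1 + 2 * (l 0 / l 2) * (CT / P.mu) + 4 * R * (CT * b) := by
    intro X hX
    obtain ⟨h1, h2, h3, h4⟩ := hX
    exact Ener_ptT l0 l1 l2 (by positivity) (by positivity) (HT P P' P'' hc X h1 h2 h3 h4)
  have BN : ∀ X ∈ Nn, f X ≤ 9 * R * (CN * a) := by
    intro X hX
    obtain ⟨h1, h2, h3⟩ := hX
    exact Ener_pt l0 l1 l2 (by positivity) (HN P P' P'' hc X h1 h3)
  have BE : ∀ X ∈ E, f X ≤ 9 * R * 1 := by
    intro X hX
    obtain ⟨h1, h2, h3⟩ := hX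
    exact Ener_pt l0 l1 l2 (by positivity) (blk_coreE P P' P'' hc X h1 h3)
  have BV : ∀ X ∈ V, f X ≤ 9 * R * (CR / P.mu + CR * a + CR * b) := by
    intro X hX
    obtain ⟨_, h1, h2, h3⟩ := hX
    exact Ener_pt l0 l1 l2 (by positivity) (HR P P' P'' hc X h1 h2 h3)
  -- integrals
  have I0 : ∫⁻ X in Z, ENNReal.ofReal (f X) ≤ ENNReal.ofReal 0 := by
    rw [setLIntegral_measure_zero _ _ Ener_null]
    exact zero_le
  have I1 := Ener_step MV (by positivity) (by positivity) BV vV le_rfl I0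
  have I2 := Ener_step ME (by positivity) (by positivity) BE vE (by positivity) I1
  have I3 := Ener_step MN (by positivity) (by positivity) BN vN (by positivity) I2
  have I4 := Ener_step MT (by positivity) (by positivity) BT vT (by positivity) I3
  have hg2 : 0 ≤ 1 - P.g := by linarith
  have hth0 : 0 < P.th := by linarith
  have I5 := Ener_step MS1 (by positivity) (by positivity) B1 vS1 (by positivity) I4
  refine (lintegral_mono_set hcov).trans (I5.trans ?_)
  apply ENNReal.ofReal_le_ofReal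
  have hmu1 : P.mu ≤ 1 := by linarith
  have e1 : 9 * R * (CR / P.mu + CR * a + CR * b) * (96 * (P.mu * P.th)) =
      864 * CR * (R * P.th) + 864 * CR * R * P.th * (P.mu * a) + 864 * CR * R * P.th * (P.mu * b) := by
    field_simp
    ring
  have e2 : (1 + 2 * (l 0 / l 2) * (CT / P.mu) + 4 * R * (CT * b)) * (8 * P.mu) =
      8 * P.mu + 16 * CT * (l 0 / l 2) + 32 * CT * R * (P.mu * b) := by
    field_simp
    ring
  rw [e1, e2]
  have t1 : P.mu * a ≤ P.mu * L := mul_le_mul_of_nonneg_left haL hmu.le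
  have t2 : P.mu * b ≤ P.mu * L := mul_le_mul_of_nonneg_left hbL hmu.le
  have t3 : P.mu ≤ R * (P.mu * L) := by
    have : P.mu * 1 ≤ P.mu * L := mul_le_mul_of_nonneg_left hL1 hmu.le
    have h0 : 0 ≤ P.mu * L := by positivity
    nlinarith
  have t4 : 864 * CR * R * P.th * (P.mu * a) ≤ 54 * CR * (R * (P.mu * L)) := by
    have : 864 * CR * R * P.th * (P.mu * a) ≤ 864 * CR * R * (1 / 16) * (P.mu * L) := by
      gcongr
    linarith
  have t5 : 864 * CR * R * P.th * (P.mu * b) ≤ 54 * CR * (R * (P.mu * L)) := by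
    have : 864 * CR * R * P.th * (P.mu * b) ≤ 864 * CR * R * (1 / 16) * (P.mu * L) := by
      gcongr
    linarith
  have t6 : 32 * CT * R * (P.mu * b) ≤ 32 * CT * (R * (P.mu * L)) := by
    have : 32 * CT * R * (P.mu * b) ≤ 32 * CT * R * (P.mu * L) := by gcongr
    linarith
  have t7 : 9 * R * (CN * a) * (8 * P.mu) ≤ 72 * CN * (R * (P.mu * L)) := by
    have : 9 * R * (CN * a) * (8 * P.mu) ≤ 9 * R * (CN * L) * (8 * P.mu) := by gcongr
    linarith
  have t8 : 9 * R * 1 * (8 * P.mu) ≤ 72 * (R * (P.mu * L)) := by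
    have h0 : P.mu * 1 ≤ P.mu * L := mul_le_mul_of_nonneg_left hL1 hmu.le
    have : R * (P.mu * 1) ≤ R * (P.mu * L) := mul_le_mul_of_nonneg_left h0 (by linarith)
    linarith
  set W : ℝ := R * (P.mu * L) with hW
  have hW0 : 0 ≤ W := by positivity
  set G : ℝ := R * ((1 - P.g) * L) with hG
  have hG0 : 0 ≤ G := by positivity
  have e3 : 9 * R * (C1 * L) * (8 * (1 - P.g)) = 72 * C1 * G := by rw [hG]; ring
  have e4 : 1000 * (C1 + CR + CN + CT) * (l 0 / l 2) + 1000 * (C1 + CR + CN + CT) * R *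
      (P.th + (P.mu + (1 - P.g)) * L) = 1000 * (C1 + CR + CN + CT) * (l 0 / l 2) +
      1000 * (C1 + CR + CN + CT) * (R * P.th) + 1000 * (C1 + CR + CN + CT) * W +
      1000 * (C1 + CR + CN + CT) * G := by rw [hW, hG]; ring
  rw [e3, e4]
  have hRt : 0 ≤ R * P.th := by positivity
  have u1 : 0 ≤ C1 * W := by positivity
  have u2 : 0 ≤ CR * W := by positivity
  have u3 : 0 ≤ CN * W := by positivity
  have u4 : 0 ≤ CT * W := by positivity
  have w1 : 0 ≤ C1 * G := by positivity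
  have w2 : 0 ≤ CR * G := by positivity
  have w3 : 0 ≤ CN * G := by positivity
  have w4 : 0 ≤ CT * G := by positivity
  have x1 : 0 ≤ C1 * (l 0 / l 2) := by positivity
  have x2 : 0 ≤ CR * (l 0 / l 2) := by positivity
  have x3 : 0 ≤ CN * (l 0 / l 2) := by positivity
  have x4 : 0 ≤ CT * (l 0 / l 2) := by positivity
  have y1 : 0 ≤ C1 * (R * P.th) := by positivity
  have y2 : 0 ≤ CR * (R * P.th) := by positivity
  have y3 : 0 ≤ CN * (R * P.th) := by positivity
  have y4 : 0 ≤ CT * (R * P.th) := by positivity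
  have z1 : W ≤ C1 * W := le_mul_of_one_le_left hW0 hC1
  linarith

end Pool.Agent.JAC
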