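import Pool.Agent.Lib.MP_3b5712_an.TreeOf
import Pool.Agent.Lib.MP_3b5712_an.Energy

set_option autoImplicit false

open Filter Topology Set Real MeasureTheory

namespace Pool.Agent.JAC

namespace ERecAux

variable {P : Par}

theorem lam_ne (hP : P.Valid) : P.lam ≠ 0 := by
  have := (lam_pos hP).1
  intro h
  rw [h] at this
  norm_num at this

theorem hh_ne (hP : P.Valid) : P.hh ≠ 0 := (hh_pos hP).1.ne'

/-- linear part of the chart -/
noncomputable def L (P : Par) (hP : P.Valid) : E3 ≃L[ℝ] E3 :=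
  LinearEquiv.toContinuousLinearEquiv
    { toFun := fun X => (P.lam * X.2.2, -(P.lam * X.1), P.hh * X.2.1)
      invFun := fun X => (-(X.2.1 / P.lam), X.2.2 / P.hh, X.1 / P.lam)
      map_add' := by
        intro X Y
        refine Prod.ext ?_ (Prod.ext ?_ ?_) <;> simp <;> ring
      map_smul' := by
        intro c X
        refine Prod.ext ?_ (Prod.ext ?_ ?_) <;> simp <;> ring
      left_inv := by
        intro X
        have h1 := lam_ne hP
        have h2 := hh_ne hP
        refine Prod.ext ?_ (Prod.ext ?_ ?_) <;> simp <;> field_simp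
      right_inv := by
        intro X
        have h1 := lam_ne hP
        have h2 := hh_ne hP
        refine Prod.ext ?_ (Prod.ext ?_ ?_) <;> simp <;> field_simp }

theorem L_apply (hP : P.Valid) (X : E3) :
    L P hP X = (P.lam * X.2.2, -(P.lam * X.1), P.hh * X.2.1) := rfl

theorem L_symm_apply (hP : P.Valid) (X : E3) :
    (L P hP).symm X = (-(X.2.1 / P.lam), X.2.2 / P.hh, X.1 / P.lam) := rfl

theorem ch_eq (hP : P.Valid) (i : ℕ) (X : E3) :
    P.ch i X = L P hP X + (0, 0, P.cen i) := by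
  rw [L_apply]
  refine Prod.ext ?_ (Prod.ext ?_ ?_)
  · simp [Par.ch]
  · simp [Par.ch]
  · simp [Par.ch]; ring

theorem chi_eq (hP : P.Valid) (i : ℕ) (X : E3) :
    P.chi i X = (L P hP).symm (X - (0, 0, P.cen i)) := by
  rw [L_symm_apply]
  refine Prod.ext ?_ (Prod.ext ?_ ?_)
  · simp [Par.chi]
  · simp [Par.chi]
  · simp [Par.chi]

theorem fderiv_chart (hP : P.Valid) (i : ℕ) {f g : E3 → E3} {X : E3}
    (hfg : f =ᶠ[𝓝 X] fun Z => P.ch i (g (P.chi i Z))) (v : E3) :
    fderiv ℝ f X v = L P hP (fderiv ℝ g (P.chi i X) ((L P hP).symm v)) := by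
  have e1 : (fun Z => P.ch i (g (P.chi i Z))) =
      fun Z => ((L P hP) ∘ (fun Z => (g ∘ (L P hP).symm) (Z - (0, 0, P.cen i)))) Z
        + (0, 0, P.cen i) := by
    funext Z
    simp only [Function.comp]
    rw [ch_eq hP, chi_eq hP]
  rw [hfg.fderiv_eq, e1, fderiv_add_const, ContinuousLinearEquiv.comp_fderiv, fderiv_comp_sub,
    ContinuousLinearEquiv.comp_right_fderiv, chi_eq hP]
  rfl

theorem comp_smul (i : Fin 3) (c : ℝ) (X : E3) : comp i (c • X) = c * comp i X := by
  fin_cases i <;> simp [comp]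

theorem en_chart (hP : P.Valid) (i : ℕ) {l l' : Fin 3 → ℝ} (hl : ∀ i, 0 < l i)
    (h0 : l' 0 = P.lam * l 1) (h1 : l' 1 = P.hh * l 2) (h2 : l' 2 = P.lam * l 0)
    {f g : E3 → E3} {X : E3}
    (hfg : f =ᶠ[𝓝 X] fun Z => P.ch i (g (P.chi i Z))) :
    en l f X = en l' g (P.chi i X) := by
  have hlam : 0 < P.lam := by linarith [(lam_pos hP).1]
  have hhh : 0 < P.hh := (hh_pos hP).1
  set D := fderiv ℝ g (P.chi i X) with hD
  have b0 : (L P hP).symm (bas 0) = (1 / P.lam) • bas 2 := by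
    rw [L_symm_apply]
    refine Prod.ext ?_ (Prod.ext ?_ ?_) <;> simp [bas]
  have b1 : (L P hP).symm (bas 1) = (-(1 / P.lam)) • bas 0 := by
    rw [L_symm_apply]
    refine Prod.ext ?_ (Prod.ext ?_ ?_) <;> simp [bas]
  have b2 : (L P hP).symm (bas 2) = (1 / P.hh) • bas 1 := by
    rw [L_symm_apply]
    refine Prod.ext ?_ (Prod.ext ?_ ?_) <;> simp [bas]
  have c0 : ∀ Y, comp 0 (L P hP Y) = P.lam * comp 2 Y := fun Y => rfl
  have c1 : ∀ Y, comp 1 (L P hP Y) = -(P.lam * comp 0 Y) := fun Y => rfl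
  have c2 : ∀ Y, comp 2 (L P hP Y) = P.hh * comp 1 Y := fun Y => rfl
  have key : ∀ j, fderiv ℝ f X (bas j) = L P hP (D ((L P hP).symm (bas j))) :=
    fun j => fderiv_chart hP i hfg (bas j)
  unfold en
  simp only [Fin.sum_univ_three, key, b0, b1, b2, map_smul, comp_smul, c0, c1, c2, h0, h1, h2,
    abs_neg, abs_mul, abs_of_pos hlam, abs_of_pos hhh, abs_of_pos (one_div_pos.2 hlam),
    abs_of_pos (one_div_pos.2 hhh), neg_mul]
  have l0 := hl 0
  have l1 := hl 1
  have l2 := hl 2
  rw [← hD]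
  field_simp
  ring

theorem haar2 : (volume : Measure E2).IsAddHaarMeasure := by
  rw [Measure.volume_eq_prod]; infer_instance

theorem haar3 : (volume : Measure E3).IsAddHaarMeasure := by
  have := haar2
  rw [Measure.volume_eq_prod]; infer_instance

theorem chi_emb (hP : P.Valid) (i : ℕ) : MeasurableEmbedding (P.chi i) := by
  have e : P.chi i = (((Homeomorph.addRight (-(0, 0, P.cen i) : E3)).trans
      (L P hP).symm.toHomeomorph : E3 ≃ₜ E3) : E3 → E3) := by
    funext X
    rw [chi_eq hP, sub_eq_add_neg]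
    rfl
  rw [e]
  exact Homeomorph.measurableEmbedding _

theorem chi_cont (hP : P.Valid) (i : ℕ) : Continuous (P.chi i) := by
  have e : P.chi i = fun X => (L P hP).symm (X - (0, 0, P.cen i)) := by
    funext X
    rw [chi_eq hP]
  rw [e]
  exact (L P hP).symm.continuous.comp (continuous_id.sub continuous_const)

theorem exists_const (hP : P.Valid) (i : ℕ) :
    ∃ c : ENNReal, Measure.map (P.chi i) volume = c • (volume : Measure E3) := by
  have := haar3
  have hdet : LinearMap.det ((L P hP).symm.toLinearEquiv : E3 →ₗ[ℝ] E3) ≠ 0 :=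
    (LinearEquiv.isUnit_det' (L P hP).symm.toLinearEquiv).ne_zero
  have h1 := Measure.map_linearMap_addHaar_eq_smul_addHaar (volume : Measure E3) hdet
  refine ⟨ENNReal.ofReal
    |(LinearMap.det ((L P hP).symm.toLinearEquiv : E3 →ₗ[ℝ] E3))⁻¹|, ?_⟩
  have e : P.chi i = (L P hP).symm ∘ (fun X => X - (0, 0, P.cen i)) := by
    funext X
    rw [chi_eq hP]
    rfl
  have hm : Measurable (fun X : E3 => X - (0, 0, P.cen i)) :=
    (continuous_id.sub continuous_const).measurable
  rw [e, ← Measure.map_map (L P hP).symm.continuous.measurable hm, map_sub_right_eq_self]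
  exact h1

theorem chi_lt (hP : P.Valid) (i : ℕ) (X : E3) :
    ‖P.chi i X‖ < 1 ↔ |X.1| < P.lam ∧ |X.2.1| < P.lam ∧ |X.2.2 - P.cen i| < P.hh := by
  have hlam : 0 < P.lam := by linarith [(lam_pos hP).1]
  have hhh : 0 < P.hh := (hh_pos hP).1
  simp only [Par.chi, Prod.norm_def, Real.norm_eq_abs, max_lt_iff, abs_neg, abs_div,
    abs_of_pos hlam, abs_of_pos hhh, div_lt_one hlam, div_lt_one hhh]
  tauto

theorem vol_ball : volume (Metric.ball (0 : E3) 1) = 8 := by
  have : Metric.ball (0 : E3) 1 = Metric.ball (0 : ℝ) 1 ×ˢ (Metric.ball (0 : ℝ) 1 ×ˢ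
      Metric.ball (0 : ℝ) 1) := by
    rw [ball_prod_same, ball_prod_same]
    rfl
  rw [this, Measure.volume_eq_prod, Measure.prod_prod, Measure.volume_eq_prod, Measure.prod_prod,
    Real.volume_ball, ← ENNReal.ofReal_mul (by norm_num), ← ENNReal.ofReal_mul (by norm_num)]
  norm_num

theorem vol_box (hP : P.Valid) (i : ℕ) :
    volume (P.chi i ⁻¹' Metric.ball (0 : E3) 1) = ENNReal.ofReal (8 * (P.lam ^ 2 * P.hh)) := by
  have hlam : 0 < P.lam := by linarith [(lam_pos hP).1]
  have hhh : 0 < P.hh := (hh_pos hP).1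
  have : P.chi i ⁻¹' Metric.ball (0 : E3) 1 = Metric.ball (0 : ℝ) P.lam ×ˢ
      (Metric.ball (0 : ℝ) P.lam ×ˢ Metric.ball (P.cen i) P.hh) := by
    ext X
    rw [mem_preimage, mem_ball_zero_iff, chi_lt hP, mem_prod, mem_prod, Metric.mem_ball,
      Metric.mem_ball, Metric.mem_ball, Real.dist_eq, Real.dist_eq, Real.dist_eq, sub_zero,
      sub_zero]
  rw [this, Measure.volume_eq_prod, Measure.prod_prod, Measure.volume_eq_prod, Measure.prod_prod,
    Real.volume_ball, Real.volume_ball, ← ENNReal.ofReal_mul (by positivity),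
    ← ENNReal.ofReal_mul (by positivity)]
  congr 1
  ring

theorem map_chi (hP : P.Valid) (i : ℕ) :
    Measure.map (P.chi i) volume = ENNReal.ofReal (P.lam ^ 2 * P.hh) • (volume : Measure E3) := by
  have hlam : 0 < P.lam := by linarith [(lam_pos hP).1]
  have hhh : 0 < P.hh := (hh_pos hP).1
  obtain ⟨c, hc⟩ := exists_const hP i
  have h1 : Measure.map (P.chi i) volume (Metric.ball (0 : E3) 1) =
      ENNReal.ofReal (8 * (P.lam ^ 2 * P.hh)) := by
    rw [Measure.map_apply (chi_cont hP i).measurable measurableSet_ball, vol_box hP]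
  rw [hc, Measure.smul_apply, vol_ball, smul_eq_mul, ENNReal.ofReal_mul (by norm_num),
    mul_comm, ENNReal.ofReal_ofNat] at h1
  have h2 : c = ENNReal.ofReal (P.lam ^ 2 * P.hh) :=
    (ENNReal.mul_right_inj (by norm_num) (by norm_num)).1 h1
  rw [hc, h2]

theorem lintegral_chart (hP : P.Valid) (i : ℕ) (S : Set E3) (φ : E3 → ENNReal) :
    ∫⁻ X in P.chi i ⁻¹' S, φ (P.chi i X) =
      ENNReal.ofReal (P.lam ^ 2 * P.hh) * ∫⁻ Y in S, φ Y := by
  rw [← (chi_emb hP i).lintegral_map, ← (chi_emb hP i).restrict_map, map_chi hP,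
    Measure.restrict_smul, lintegral_smul_measure, smul_eq_mul]

theorem isOpen_gapSet (hP : P.Valid) : IsOpen (gapSet P) := by
  have e : gapSet P = {X | ‖X‖ < 1} ∩ ⋂ i ∈ {i | i < P.N}, {X | 1 < ‖P.chi i X‖} := by
    ext X
    simp [gapSet]
  rw [e]
  refine (isOpen_lt continuous_norm continuous_const).inter ?_
  refine (Set.finite_lt_nat P.N).isOpen_biInter (fun i _ => ?_)
  exact isOpen_lt continuous_const (chi_cont hP i).norm

theorem en_congr {l : Fin 3 → ℝ} {f g : E3 → E3} {X : E3} (h : f =ᶠ[𝓝 X] g) :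
    en l f X = en l g X := by
  unfold en
  rw [h.fderiv_eq]

theorem vol_sphere (hP : P.Valid) (i : ℕ) :
    volume (P.chi i ⁻¹' Metric.sphere (0 : E3) 1) = 0 := by
  have := haar3
  rw [← Measure.map_apply (chi_cont hP i).measurable Metric.isClosed_sphere.measurableSet, map_chi hP,
    Measure.smul_apply, Measure.addHaar_sphere, smul_zero]

theorem sum_le_one (hP : P.Valid) :
    (P.N : ENNReal) * ENNReal.ofReal (P.lam ^ 2 * P.hh) ≤ 1 := by
  have hlam : 0 < P.lam := by linarith [(lam_pos hP).1]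
  have hlam1 : P.lam ≤ 1 := (lam_pos hP).2.le
  have hN : (0 : ℝ) < P.N := by
    have := hP.N_ge
    exact_mod_cast lt_of_lt_of_le (by norm_num) this
  have hg0 : 0 ≤ P.g := by linarith [hP.g_pos]
  rw [← ENNReal.ofReal_natCast, ← ENNReal.ofReal_mul hN.le]
  refine ENNReal.ofReal_le_one.2 ?_
  have e : (P.N : ℝ) * (P.lam ^ 2 * P.hh) = P.lam ^ 3 * P.g := by
    unfold Par.hh
    field_simp
  rw [e]
  have h1 : P.lam ^ 3 ≤ 1 := pow_le_one₀ hlam.le hlam1
  have h2 : P.g ≤ 1 := hP.g_lt.le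
  nlinarith [pow_pos hlam 3]

theorem box_sub (hP : P.Valid) {i : ℕ} (hi : i < P.N) {X : E3} (h : ‖P.chi i X‖ ≤ 1) :
    ‖X‖ ≤ 1 := by
  obtain ⟨h1, h2, h3⟩ := (chi_le hP i X).1 h
  have h4 := cen_bound hP hi
  have h5 := (lam_pos hP).2
  have h6 : |X.2.2| ≤ |P.cen i| + |X.2.2 - P.cen i| := by
    have := abs_add_le (P.cen i) (X.2.2 - P.cen i)
    rwa [add_sub_cancel] at this
  rw [Prod.norm_def, Prod.norm_def]
  simp only [Real.norm_eq_abs]
  refine max_le ?_ (max_le ?_ ?_) <;> linarith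

end ERecAux

open ERecAux

/-- TASK N2: energy recursion -/
theorem energy_rec (P : ℕ → Par) (h : ∀ k, (P k).Valid) (f : ℕ → E3 → E3)
    (hf : (treeOf P).Lim f) (hU : ∀ n k, IsClosed ((treeOf P).U n k))
    (l : ℕ → Fin 3 → ℝ) (hl : ∀ k i, 0 < l k i)
    (l0 : ∀ k, l (k + 1) 0 = (P k).lam * l k 1) (l1 : ∀ k, l (k + 1) 1 = (P k).hh * l k 2)
    (l2 : ∀ k, l (k + 1) 2 = (P k).lam * l k 0)
    (e : ℕ → ENNReal)
    (he : ∀ k, ∫⁻ X in gapSet (P k), ENNReal.ofReal (en (l k) ((treeOf P).F k) X) ≤ e k) :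
    ∫⁻ X in Metric.ball 0 1 \ (treeOf P).C 0, ENNReal.ofReal (en (l 0) (f 0) X) ≤ ∑' k, e k := by
  set T := treeOf P with hT
  set G : ℕ → ℕ → ENNReal := fun n k =>
    ∫⁻ X in Metric.ball 0 1 \ T.U n k, ENNReal.ofReal (en (l k) (f k) X) with hG
  -- monotonicity of the sets
  have hanti : ∀ n k, T.U (n + 1) k ⊆ T.U n k := by
    intro n
    induction n with
    | zero =>
      rintro k X ⟨i, hi, hX⟩
      have hX' : ‖(P k).chi i X‖ ≤ 1 := mem_closedBall_zero_iff.1 hX
      exact mem_closedBall_zero_iff.2 (box_sub (h k) hi hX')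
    | succ n ih =>
      rintro k X ⟨i, hi, hX⟩
      exact ⟨i, hi, ih (k + 1) hX⟩
  -- the gap part
  have hgap : ∀ k, ∫⁻ X in gapSet (P k), ENNReal.ofReal (en (l k) (f k) X) ≤ e k := by
    intro k
    refine le_trans (le_of_eq ?_) (he k)
    refine setLIntegral_congr_fun (isOpen_gapSet (h k)).measurableSet (fun X hX => ?_)
    have hev : f k =ᶠ[𝓝 X] T.F k := by
      filter_upwards [(isOpen_gapSet (h k)).mem_nhds hX] with Z hZ
      exact hf.out k Z (fun i hi => (hZ.2 i hi).le)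
    change ENNReal.ofReal (en (l k) (f k) X) = ENNReal.ofReal (en (l k) (T.F k) X)
    rw [en_congr hev]
  -- the box part
  have hbox : ∀ n k (i : ℕ), i < (P k).N →
      ∫⁻ X in (P k).chi i ⁻¹' (Metric.ball 0 1 \ T.U n (k + 1)),
        ENNReal.ofReal (en (l k) (f k) X) =
      ENNReal.ofReal ((P k).lam ^ 2 * (P k).hh) * G n (k + 1) := by
    intro n k i hi
    rw [hG]
    simp only
    rw [← lintegral_chart (h k) i]
    refine setLIntegral_congr_fun ?_ (fun X hX => ?_)
    · exact (chi_cont (h k) i).measurable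
        (measurableSet_ball.diff (hU n (k + 1)).measurableSet)
    · have hev : f k =ᶠ[𝓝 X] fun Z => (P k).ch i (f (k + 1) ((P k).chi i Z)) := by
        have hopen : IsOpen ((P k).chi i ⁻¹' Metric.ball (0 : E3) 1) :=
          Metric.isOpen_ball.preimage (chi_cont (h k) i)
        filter_upwards [hopen.mem_nhds hX.1] with Z hZ
        exact hf.rec' k i Z hi (mem_ball_zero_iff.1 hZ).le
      change ENNReal.ofReal (en (l k) (f k) X) =
        ENNReal.ofReal (en (l (k + 1)) (f (k + 1)) ((P k).chi i X))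
      rw [en_chart (h k) i (hl k) (l0 k) (l1 k) (l2 k) hev]
  -- the recursion
  have hstep : ∀ n k, G (n + 1) k ≤ e k + G n (k + 1) := by
    intro n k
    have hsub : Metric.ball 0 1 \ T.U (n + 1) k ⊆ gapSet (P k) ∪
        ((⋃ i : Fin (P k).N, (P k).chi i ⁻¹' (Metric.ball 0 1 \ T.U n (k + 1))) ∪
          ⋃ i : Fin (P k).N, (P k).chi i ⁻¹' Metric.sphere (0 : E3) 1) := by
      rintro X ⟨hX1, hX2⟩
      by_cases hg : ∀ i < (P k).N, 1 < ‖(P k).chi i X‖
      · left
        exact ⟨mem_ball_zero_iff.1 hX1, hg⟩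
      · right
        push Not at hg
        obtain ⟨i, hi, hi1⟩ := hg
        rcases hi1.lt_or_eq with h1 | h1
        · left
          refine mem_iUnion.2 ⟨⟨i, hi⟩, mem_ball_zero_iff.2 h1, fun hcon => hX2 ⟨i, hi, hcon⟩⟩
        · right
          exact mem_iUnion.2 ⟨⟨i, hi⟩, mem_sphere_zero_iff_norm.2 h1⟩
    refine (lintegral_mono_set hsub).trans ?_
    refine (lintegral_union_le _ _ _).trans ?_
    refine add_le_add (hgap k) ?_
    refine (lintegral_union_le _ _ _).trans ?_
    have hnull : ∫⁻ X in ⋃ i : Fin (P k).N, (P k).chi i ⁻¹' Metric.sphere (0 : E3) 1,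
        ENNReal.ofReal (en (l k) (f k) X) = 0 := by
      refine setLIntegral_measure_zero _ _ ?_
      exact measure_iUnion_null (fun i => vol_sphere (h k) i)
    rw [hnull, add_zero]
    refine (lintegral_iUnion_le _ _).trans ?_
    rw [tsum_fintype]
    have hsum : ∑ i : Fin (P k).N, ∫⁻ X in (P k).chi i ⁻¹' (Metric.ball 0 1 \ T.U n (k + 1)),
        ENNReal.ofReal (en (l k) (f k) X) =
        ∑ _i : Fin (P k).N, ENNReal.ofReal ((P k).lam ^ 2 * (P k).hh) * G n (k + 1) :=
      Finset.sum_congr rfl (fun i _ => hbox n k i i.2)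
    rw [hsum, Finset.sum_const, Finset.card_univ, Fintype.card_fin, nsmul_eq_mul, ← mul_assoc]
    calc (((P k).N : ENNReal) * ENNReal.ofReal ((P k).lam ^ 2 * (P k).hh)) * G n (k + 1)
        ≤ 1 * G n (k + 1) := by
          gcongr
          exact sum_le_one (h k)
      _ = G n (k + 1) := one_mul _
  have hmain : ∀ n k, G n k ≤ ∑ j ∈ Finset.range n, e (k + j) := by
    intro n
    induction n with
    | zero =>
      intro k
      have h0 : Metric.ball (0 : E3) 1 \ T.U 0 k = ∅ := by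
        rw [sdiff_eq_empty]
        exact Metric.ball_subset_closedBall
      rw [hG]
      simp only
      rw [h0]
      simp
    | succ n ih =>
      intro k
      refine (hstep n k).trans ?_
      rw [Finset.sum_range_succ', add_comm]
      refine add_le_add ((ih (k + 1)).trans (le_of_eq ?_)) (le_of_eq (by rw [add_zero]))
      exact Finset.sum_congr rfl (fun j _ => by rw [show k + 1 + j = k + (j + 1) by ring])
  have hunion : Metric.ball (0 : E3) 1 \ T.C 0 = ⋃ n, Metric.ball 0 1 \ T.U n 0 := by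
    rw [← sdiff_iInter]
    congr 1
    ext X
    simp [Tree.C]
  have hmono : Monotone (fun n => Metric.ball (0 : E3) 1 \ T.U n 0) :=
    monotone_nat_of_le_succ (fun n => sdiff_subset_sdiff_right (hanti n 0))
  rw [hunion, setLIntegral_iUnion_of_directed _ hmono.directed_le]
  refine iSup_le (fun n => ?_)
  refine (hmain n 0).trans ?_
  simp only [zero_add]
  exact ENNReal.sum_le_tsum _

end Pool.Agent.JAC
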