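import Pool.Agent.Lib.MP_3b5712_an.Energy

set_option autoImplicit false

open Filter Topology Set Real

namespace Pool.Agent.JAC

/-! TASK O: choice of the parameters -/

namespace ParamsAux

/-- the collar widths -/
noncomputable def pmu (k : ℕ) : ℝ := (1 / 2) ^ (80 * (k + 1))

noncomputable def pP (k : ℕ) : Par where
  mu := pmu k
  mo := (1 / 16) ^ (k + 4)
  mi := (1 / 16) ^ (k + 5)
  g := (1 - pmu k) * (1 - pmu (k + 1)) * (1 - pmu (k + 2))
  th := (1 / 16) ^ (k + 1)
  N := 2 ^ (3 * k + 6)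

noncomputable def pal (k : ℕ) : ℝ := (1 / 2) ^ (k + 1) * (1 - pmu k)

noncomputable def pa : ℕ → ℝ
  | 0 => 1
  | (k + 1) => (1 - pmu k) * pal (k + 1) * pa k

noncomputable def pl (k : ℕ) : Fin 3 → ℝ := ![pa k, pal (k + 1) * pa k, pa k / pal k]

/-- the small parameter -/
noncomputable def px (k : ℕ) : ℝ := (1 / 2) ^ k

lemma px_pos (k : ℕ) : 0 < px k := by unfold px; positivity
lemma px_le (k : ℕ) : px k ≤ 1 := by
  unfold px
  exact pow_le_one₀ (by norm_num) (by norm_num)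

lemma pmu_eq (k : ℕ) : pmu k = px k ^ 80 * (1 / 2) ^ 80 := by
  unfold pmu px
  rw [← pow_mul, ← pow_add]
  congr 1
  ring

lemma px_succ (k : ℕ) : px (k + 1) = px k / 2 := by
  unfold px
  rw [pow_succ]
  ring

lemma th_eq (k : ℕ) (c : ℕ) : ((1 : ℝ) / 16) ^ (k + c) = px k ^ 4 * (1 / 16) ^ c := by
  unfold px
  rw [pow_add, ← pow_mul, mul_comm k 4, pow_mul]
  norm_num

lemma pmu_pos (k : ℕ) : 0 < pmu k := by unfold pmu; positivity

lemma pmu_succ (k : ℕ) : pmu (k + 1) ≤ pmu k := by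
  unfold pmu
  exact pow_le_pow_of_le_one (by norm_num) (by norm_num) (by omega)

attribute [local irreducible] pmu

/-- `pmu k ≤ x / 2 ^ 80` for a power bound -/
lemma pmu_le_px (k : ℕ) : pmu k ≤ px k * (1 / 2) ^ 80 := by
  rw [pmu_eq]
  have h1 : px k ^ 80 ≤ px k := by
    calc px k ^ 80 ≤ px k ^ 1 :=
          pow_le_pow_of_le_one (px_pos k).le (px_le k) (by norm_num)
      _ = px k := pow_one _
  have h2 : (0 : ℝ) ≤ (1 / 2) ^ 80 := by positivity
  exact mul_le_mul_of_nonneg_right h1 h2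

lemma pmu_le (k : ℕ) : pmu k ≤ 1 / 1000 := by
  have h1 := pmu_le_px k
  have h2 := px_le k
  have h3 : ((1 : ℝ) / 2) ^ 80 ≤ 1 / 1000 := by norm_num
  have h4 : (0 : ℝ) ≤ (1 / 2) ^ 80 := by positivity
  nlinarith [px_pos k]

lemma N_eq (k : ℕ) : ((2 ^ (3 * k + 6) : ℕ) : ℝ) = 64 / px k ^ 3 := by
  unfold px
  push_cast
  rw [pow_add, ← pow_mul, mul_comm k 3, one_div, inv_pow]
  field_simp
  norm_num

lemma pal_eq (k : ℕ) : pal k = px k / 2 * (1 - pmu k) := by
  unfold pal px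
  rw [pow_succ]
  ring

lemma pal_pos (k : ℕ) : 0 < pal k := by
  rw [pal_eq]
  have := pmu_le k
  have := px_pos k
  have h : 0 < 1 - pmu k := by linarith
  positivity

lemma pal_le (k : ℕ) : pal k ≤ px k / 2 := by
  rw [pal_eq]
  have := pmu_pos k
  have := px_pos k
  nlinarith

lemma pal_ge (k : ℕ) : px k / 4 ≤ pal k := by
  rw [pal_eq]
  have := pmu_le k
  have := px_pos k
  nlinarith

lemma pa_pos (k : ℕ) : 0 < pa k := by
  induction k with
  | zero => simp [pa]
  | succ k ih =>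
    rw [pa]
    have := pmu_le k
    have h : 0 < 1 - pmu k := by linarith
    have := pal_pos (k + 1)
    positivity

lemma g_ge (k : ℕ) : 1 - 3 * pmu k ≤ (pP k).g := by
  simp only [pP]
  have h0 := pmu_pos k
  have h1 := pmu_pos (k + 1)
  have h2 := pmu_pos (k + 2)
  have h3 := pmu_succ k
  have h4 := pmu_succ (k + 1)
  have h5 := pmu_le k
  have h6 : 0 ≤ pmu k * pmu (k + 1) := by positivity
  have h7 : 0 ≤ 1 - pmu (k + 2) := by linarith
  have h8 : (1 - pmu k) * (1 - pmu (k + 1)) ≥ 1 - pmu k - pmu (k + 1) := by nlinarith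
  have h9 : (1 - pmu k) * (1 - pmu (k + 1)) * (1 - pmu (k + 2)) ≥
      (1 - pmu k - pmu (k + 1)) * (1 - pmu (k + 2)) := mul_le_mul_of_nonneg_right h8 h7
  have h10 : 0 ≤ (pmu k + pmu (k + 1)) * pmu (k + 2) := by positivity
  nlinarith

lemma valid (k : ℕ) : (pP k).Valid := by
  have hx := px_pos k
  have hx1 := px_le k
  have h0 := pmu_pos k
  have h1 := pmu_pos (k + 1)
  have h2 := pmu_pos (k + 2)
  have h3 := pmu_succ k
  have h4 := pmu_succ (k + 1)
  have h5 := pmu_le k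
  have hg := g_ge k
  have hmu : pmu k ≤ px k ^ 4 * (1 / 16) ^ 5 := by
    rw [pmu_eq]
    have h6 : px k ^ 80 ≤ px k ^ 4 :=
      pow_le_pow_of_le_one hx.le hx1 (by norm_num)
    have h7 : ((1 : ℝ) / 2) ^ 80 ≤ (1 / 16) ^ 5 := by norm_num
    exact mul_le_mul h6 h7 (by positivity) (by positivity)
  have hx4 : 0 < px k ^ 4 := by positivity
  have hx4' : px k ^ 4 ≤ 1 := pow_le_one₀ hx.le hx1
  refine ⟨h0, ?_, ?_, ?_, ?_, ?_, ?_, ?_, ?_⟩
  · simp only [pP]
    rw [th_eq]
    exact hmu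
  · simp only [pP]
    rw [th_eq, th_eq]
    nlinarith
  · simp only [pP]
    rw [th_eq, th_eq]
    nlinarith
  · simp only [pP]
    rw [th_eq, th_eq]
    nlinarith
  · simp only [pP]
    rw [th_eq]
    nlinarith
  · linarith
  · simp only [pP]
    have h6 : (1 - pmu k) * (1 - pmu (k + 1)) < 1 := by nlinarith
    have h7 : 0 < (1 - pmu k) * (1 - pmu (k + 1)) := by
      have : 0 < 1 - pmu k := by linarith
      have : 0 < 1 - pmu (k + 1) := by linarith
      positivity
    nlinarith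
  · simp only [pP]
    have : 2 ^ 1 ≤ 2 ^ (3 * k + 6) := Nat.pow_le_pow_right (by norm_num) (by omega)
    simpa using this

lemma compat (k : ℕ) : Compat (pP k) (pP (k + 1)) (pP (k + 2)) := by
  refine ⟨valid k, valid (k + 1), valid (k + 2), ?_, ?_⟩
  · simp only [pP]
    exact pow_le_pow_of_le_one (by norm_num) (by norm_num) (by omega)
  · simp only [pP]
    exact pow_le_pow_of_le_one (by norm_num) (by norm_num) (by omega)

lemma hh_eq (k : ℕ) : (pP k).hh = (1 - pmu k) * (pal k * pal (k + 1) * pal (k + 2)) := by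
  have h1 : (pP k).hh = (1 - pmu k) * ((1 - pmu k) * (1 - pmu (k + 1)) * (1 - pmu (k + 2))) /
      ((2 ^ (3 * k + 6) : ℕ) : ℝ) := rfl
  rw [h1, N_eq, pal_eq, pal_eq, pal_eq, px_succ (k + 1), px_succ k]
  have hx := px_pos k
  field_simp
  ring

lemma prod_ge (n : ℕ) : 1 / 2 + px n / 2 ≤
    ∏ j ∈ Finset.range n, ((pP j).lam ^ 3 * (pP j).g) := by
  induction n with
  | zero => simp [px]; norm_num
  | succ n ih =>
    rw [Finset.prod_range_succ]
    have hx := px_pos n
    have hx1 := px_le n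
    have h0 := pmu_pos n
    have h5 := pmu_le n
    have hg := g_ge n
    have hl : (pP n).lam = 1 - pmu n := rfl
    have hl3 : 1 - 3 * pmu n ≤ (pP n).lam ^ 3 := by
      rw [hl]
      have : (1 - pmu n) ^ 3 = 1 - 3 * pmu n + pmu n ^ 2 * (3 - pmu n) := by ring
      rw [this]
      have : 0 ≤ pmu n ^ 2 * (3 - pmu n) := mul_nonneg (by positivity) (by linarith)
      linarith
    have h6 : 1 - 6 * pmu n ≤ (pP n).lam ^ 3 * (pP n).g := by
      have h7 : (1 - 3 * pmu n) * (1 - 3 * pmu n) ≤ (pP n).lam ^ 3 * (pP n).g :=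
        mul_le_mul hl3 hg (by linarith) (le_trans (by linarith) hl3)
      nlinarith
    have h8 : 6 * pmu n ≤ px n / 4 := by
      have h9 := pmu_le_px n
      have h10 : ((1 : ℝ) / 2) ^ 80 ≤ 1 / 1000 := by norm_num
      nlinarith
    have h11 : 1 - px n / 4 ≤ (pP n).lam ^ 3 * (pP n).g := by linarith
    calc 1 / 2 + px (n + 1) / 2 ≤ (1 / 2 + px n / 2) * (1 - px n / 4) := by
          rw [px_succ]
          nlinarith
      _ ≤ _ := mul_le_mul ih h11 (by linarith) (le_trans (by positivity) ih)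

attribute [local irreducible] px

lemma bigL_eq (k : ℕ) : bigL (pP k) (pP (k + 1)) (pP (k + 2)) = 2 ^ 70 / px k ^ 24 := by
  have h1 : bigL (pP k) (pP (k + 1)) (pP (k + 2)) =
      1 / ((1 : ℝ) / 16) ^ (k + 5) * (((2 ^ (3 * k + 6) : ℕ) : ℝ) ^ 2 / ((1 : ℝ) / 16) ^ (k + 1 + 1))
      * (((2 ^ (3 * (k + 1) + 6) : ℕ) : ℝ) ^ 2 / ((1 : ℝ) / 16) ^ (k + 2 + 1)) := rfl
  rw [h1, N_eq, N_eq, th_eq, th_eq, th_eq, px_succ (k + 1), px_succ k]
  have hx := px_pos k
  field_simp
  norm_num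

lemma term_le (C : ℝ) (hC : 1 ≤ C) (k : ℕ) :
    C * (pl k 0 / pl k 2) + C * (pl k 2 / pl k 1) * ((pP k).th +
        ((pP k).mu + (1 - (pP k).g)) * bigL (pP k) (pP (k + 1)) (pP (k + 2))) ≤
      5 * C * (1 / 2) ^ k := by
  have hx := px_pos k
  have hx1 := px_le k
  have ha := pa_pos k
  have hal := pal_pos k
  have hal1 := pal_pos (k + 1)
  have e1 : pl k 0 / pl k 2 = pal k := by
    change pa k / (pa k / pal k) = pal k
    field_simp
  have e2 : pl k 2 / pl k 1 = 1 / (pal k * pal (k + 1)) := by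
    change (pa k / pal k) / (pal (k + 1) * pa k) = _
    field_simp
  rw [e1, e2, bigL_eq]
  have b1 := pal_le k
  have b2 : 1 / (pal k * pal (k + 1)) ≤ 32 / px k ^ 2 := by
    have h1 := pal_ge k
    have h2 := pal_ge (k + 1)
    rw [px_succ] at h2
    have h3 : px k ^ 2 / 32 ≤ pal k * pal (k + 1) := by
      calc px k ^ 2 / 32 = (px k / 4) * (px k / 2 / 4) := by ring
        _ ≤ _ := mul_le_mul h1 h2 (by positivity) hal.le
    have h4 : 32 / px k ^ 2 = 1 / (px k ^ 2 / 32) := by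
      field_simp
    rw [h4]
    exact one_div_le_one_div_of_le (by positivity) h3
  have b3 : (pP k).th = px k ^ 4 * (1 / 16) := by
    change ((1 : ℝ) / 16) ^ (k + 1) = _
    rw [th_eq, pow_one]
  have b4 : (pP k).mu + (1 - (pP k).g) ≤ 4 * (px k ^ 80 * (1 / 2) ^ 80) := by
    have h1 : (pP k).mu = pmu k := rfl
    have h2 := g_ge k
    rw [h1, ← pmu_eq]
    linarith
  have b5 : ((pP k).mu + (1 - (pP k).g)) * (2 ^ 70 / px k ^ 24) ≤ px k ^ 56 * (1 / 256) := by
    calc ((pP k).mu + (1 - (pP k).g)) * (2 ^ 70 / px k ^ 24) ≤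
          4 * (px k ^ 80 * (1 / 2) ^ 80) * (2 ^ 70 / px k ^ 24) :=
          mul_le_mul_of_nonneg_right b4 (by positivity)
      _ = px k ^ 56 * (1 / 256) := by
          have h1 : px k ^ 80 = px k ^ 56 * px k ^ 24 := by rw [← pow_add]
          rw [h1]
          have h2 : px k ^ 24 ≠ 0 := by positivity
          field_simp
          norm_num
  have b6 : (pP k).th + ((pP k).mu + (1 - (pP k).g)) * (2 ^ 70 / px k ^ 24) ≤
      px k ^ 3 * (1 / 8) := by
    rw [b3]
    have h1 : px k ^ 4 ≤ px k ^ 3 := pow_le_pow_of_le_one hx.le hx1 (by norm_num)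
    have h2 : px k ^ 56 ≤ px k ^ 3 := pow_le_pow_of_le_one hx.le hx1 (by norm_num)
    have h3 : 0 < px k ^ 3 := by positivity
    linarith
  have b6' : 0 ≤ (pP k).th + ((pP k).mu + (1 - (pP k).g)) * (2 ^ 70 / px k ^ 24) := by
    have h1 : 0 ≤ (pP k).th := by rw [b3]; positivity
    have h2 : 0 ≤ (pP k).mu + (1 - (pP k).g) := by
      have h3 := (valid k).mu_pos
      have h4 := (valid k).g_lt
      linarith
    positivity
  have b7 : C * (1 / (pal k * pal (k + 1))) * ((pP k).th +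
      ((pP k).mu + (1 - (pP k).g)) * (2 ^ 70 / px k ^ 24)) ≤ C * (4 * px k) := by
    rw [mul_assoc]
    apply mul_le_mul_of_nonneg_left _ (by linarith)
    calc _ ≤ (32 / px k ^ 2) * (px k ^ 3 * (1 / 8)) :=
          mul_le_mul b2 b6 b6' (by positivity)
      _ = 4 * px k := by field_simp; norm_num
  have b8 : C * pal k ≤ C * (px k / 2) := mul_le_mul_of_nonneg_left b1 (by linarith)
  have b9 : (1 / 2 : ℝ) ^ k = px k := by unfold px; rfl
  rw [b9]
  nlinarith

end ParamsAux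

open ParamsAux

theorem exists_params (C : ℝ) (hC : 1 ≤ C) : ∃ (P : ℕ → Par) (l : ℕ → Fin 3 → ℝ) (c : ℝ),
    (∀ k, Compat (P k) (P (k + 1)) (P (k + 2))) ∧ (∀ k, (P (k + 1)).mo = (P k).mi) ∧
    (∀ k i, 0 < l k i) ∧ (∀ k, l k 1 ≤ l k 0 ∧ l k 0 ≤ l k 2) ∧
    (∀ k, l (k + 1) 0 = (P k).lam * l k 1) ∧ (∀ k, l (k + 1) 1 = (P k).hh * l k 2) ∧
    (∀ k, l (k + 1) 2 = (P k).lam * l k 0) ∧
    0 < c ∧ (∀ n, c ≤ ∏ j ∈ Finset.range n, ((P j).lam ^ 3 * (P j).g)) ∧
    ∑' k, ENNReal.ofReal (C * (l k 0 / l k 2) + C * (l k 2 / l k 1) * ((P k).th +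
        ((P k).mu + (1 - (P k).g)) * bigL (P k) (P (k + 1)) (P (k + 2)))) < ⊤ := by
  refine ⟨pP, pl, 1 / 2, compat, fun k => rfl, ?_, ?_, ?_, ?_, ?_, by norm_num, ?_, ?_⟩
  · intro k i
    have ha := pa_pos k
    have hal := pal_pos k
    have hal1 := pal_pos (k + 1)
    fin_cases i
    · exact ha
    · change 0 < pal (k + 1) * pa k
      positivity
    · change 0 < pa k / pal k
      positivity
  · intro k
    have ha := pa_pos k
    have hal := pal_pos k
    have h1 := pal_le k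
    have h2 := pal_le (k + 1)
    have h3 := px_le k
    have h4 := px_le (k + 1)
    constructor
    · change pal (k + 1) * pa k ≤ pa k
      nlinarith
    · change pa k ≤ pa k / pal k
      rw [le_div_iff₀ hal]
      nlinarith
  · intro k
    change (1 - pmu k) * pal (k + 1) * pa k = (1 - pmu k) * (pal (k + 1) * pa k)
    ring
  · intro k
    rw [hh_eq]
    change pal (k + 1 + 1) * ((1 - pmu k) * pal (k + 1) * pa k) =
      (1 - pmu k) * (pal k * pal (k + 1) * pal (k + 2)) * (pa k / pal k)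
    have hal := pal_pos k
    field_simp
  · intro k
    change (1 - pmu k) * pal (k + 1) * pa k / pal (k + 1) = (1 - pmu k) * pa k
    have hal := pal_pos (k + 1)
    field_simp
  · intro n
    have h1 := prod_ge n
    have h2 := px_pos n
    linarith
  · have h1 : Summable (fun k : ℕ => 5 * C * (1 / 2 : ℝ) ^ k) :=
      (summable_geometric_of_lt_one (by norm_num) (by norm_num)).mul_left _
    refine lt_of_le_of_lt (ENNReal.tsum_le_tsum (fun k => ENNReal.ofReal_le_ofReal (term_le C hC k)))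
      ?_
    rw [← ENNReal.ofReal_tsum_of_nonneg (fun k => by positivity) h1]
    exact ENNReal.ofReal_lt_top

end Pool.Agent.JAC
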