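import Pool.Agent.Lib.MP_3b5712_an.Rot

set_option autoImplicit false

open Filter Topology Set Real

namespace Pool.Agent.JAC

/-! TASK I: the content family `VV` -/

namespace VVs

theorem cl_nonneg' (x : ℝ) : 0 ≤ cl x := le_max_left _ _

theorem cl_le_one' (x : ℝ) : cl x ≤ 1 := max_le zero_le_one (min_le_left _ _)

theorem cl_of_le' {x : ℝ} (h : x ≤ 0) : cl x = 0 := by
  unfold cl; rw [max_eq_left]; exact (min_le_right _ _).trans h

theorem cl_lip' (x y : ℝ) : |cl x - cl y| ≤ |x - y| := by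
  unfold cl
  have h1 := abs_max_sub_max_le_max 0 (min 1 x) 0 (min 1 y)
  have h2 := abs_min_sub_min_le_max 1 x 1 y
  simp only [sub_self, abs_zero] at h1 h2
  refine h1.trans (max_le (abs_nonneg _) (h2.trans (max_le (abs_nonneg _) le_rfl)))

theorem norm2_le {X : E2} {c : ℝ} (h1 : |X.1| ≤ c) (h2 : |X.2| ≤ c) : ‖X‖ ≤ c := by
  rw [Prod.norm_def]
  exact max_le h1 h2

theorem abs_fst (X : E2) : |X.1| ≤ ‖X‖ := norm_fst_le X
theorem abs_snd (X : E2) : |X.2| ≤ ‖X‖ := norm_snd_le X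

end VVs

open VVs

theorem lam_pos {P : Par} (hP : P.Valid) : 15 / 16 ≤ P.lam ∧ P.lam < 1 := by
  have h1 := hP.mu_pos
  have h2 := hP.mo_th
  have h3 := hP.th_le
  have h4 := hP.mu_le
  have h5 := hP.mi_le
  unfold Par.lam
  constructor <;> linarith

theorem hh_pos {P : Par} (hP : P.Valid) : 0 < P.hh ∧ P.hh ≤ 1 / 2 := by
  obtain ⟨h1, h2⟩ := lam_pos hP
  have h3 := hP.g_pos
  have h4 := hP.g_lt
  have h5 : (2 : ℝ) ≤ P.N := by exact_mod_cast hP.N_ge
  have hN : (0 : ℝ) < P.N := by linarith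
  unfold Par.hh
  constructor
  · exact div_pos (mul_pos (by linarith) (by linarith)) hN
  · rw [div_le_iff₀ hN]
    nlinarith

namespace VVs

theorem N_pos {P : Par} (hP : P.Valid) : (0 : ℝ) < P.N := by
  have h5 : (2 : ℝ) ≤ P.N := by exact_mod_cast hP.N_ge
  linarith

theorem hh_lt {P : Par} (hP : P.Valid) : P.hh < P.lam / P.N := by
  obtain ⟨h1, h2⟩ := lam_pos hP
  have h4 := hP.g_lt
  have hN := N_pos hP
  unfold Par.hh
  rw [div_lt_div_iff_of_pos_right hN]
  nlinarith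

end VVs

theorem cen_bound {P : Par} (hP : P.Valid) {i : ℕ} (hi : i < P.N) :
    |P.cen i| + P.hh < P.lam := by
  obtain ⟨h1, h2⟩ := lam_pos hP
  have hN := N_pos hP
  have h3 := hh_lt hP
  have hi' : (i : ℝ) + 1 ≤ P.N := by exact_mod_cast hi
  have hi0 : (0 : ℝ) ≤ i := Nat.cast_nonneg i
  have h4 : |P.cen i| ≤ P.lam * (P.N - 1) / P.N := by
    unfold Par.cen
    rw [abs_div, abs_mul, abs_of_pos (by linarith : 0 < P.lam), abs_of_pos hN]
    gcongr
    rw [abs_le]
    constructor <;> linarith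
  have h5 : P.lam * (P.N - 1) / P.N + P.lam / P.N = P.lam := by
    field_simp
    ring
  linarith

theorem cen_disj {P : Par} (hP : P.Valid) {i j : ℕ} (hij : i ≠ j) {z : ℝ}
    (h : |z - P.cen i| ≤ P.hh) : P.hh < |z - P.cen j| := by
  obtain ⟨h1, h2⟩ := lam_pos hP
  have hN := N_pos hP
  have h3 := hh_lt hP
  have h4 : P.cen i - P.cen j = 2 * (P.lam / P.N) * ((i : ℝ) - j) := by
    unfold Par.cen
    field_simp
    ring
  have h5 : (1 : ℝ) ≤ |(i : ℝ) - j| := by
    have : (i : ℤ) - j ≠ 0 := by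
      rw [sub_ne_zero]
      exact_mod_cast hij
    have h6 := Int.one_le_abs this
    have h7 : ((1 : ℤ) : ℝ) ≤ ((|(i : ℤ) - j| : ℤ) : ℝ) := by exact_mod_cast h6
    rw [Int.cast_abs] at h7
    push_cast at h7
    exact h7
  have h6 : 2 * (P.lam / P.N) ≤ |P.cen i - P.cen j| := by
    have hp : 0 < P.lam / P.N := div_pos (by linarith) hN
    rw [h4, abs_mul, abs_of_pos (by positivity : 0 < 2 * (P.lam / P.N))]
    nlinarith
  have h7 : |P.cen i - P.cen j| ≤ |z - P.cen i| + |z - P.cen j| := by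
    have : P.cen i - P.cen j = -(z - P.cen i) + (z - P.cen j) := by ring
    rw [this]
    refine (abs_add_le _ _).trans ?_
    rw [abs_neg]
  linarith

namespace VVs

/-- normalised coordinates of the strip `i` -/
noncomputable def nz (P : Par) (i : ℕ) (q : E2) : E2 := ((q.2 - P.cen i) / P.hh, q.1 / P.lam)

/-- inverse of `nz` -/
noncomputable def dz (P : Par) (i : ℕ) (w : E2) : E2 := (P.lam * w.2, P.cen i + P.hh * w.1)

theorem dz_nz {P : Par} (hP : P.Valid) (i : ℕ) (q : E2) : dz P i (nz P i q) = q := by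
  have h1 := (hh_pos hP).1
  have h2 : 0 < P.lam := by linarith [(lam_pos hP).1]
  unfold dz nz
  ext
  · simp only
    field_simp
  · simp only
    field_simp
    ring

theorem nz_dz {P : Par} (hP : P.Valid) (i : ℕ) (w : E2) : nz P i (dz P i w) = w := by
  have h1 := (hh_pos hP).1
  have h2 : 0 < P.lam := by linarith [(lam_pos hP).1]
  unfold dz nz
  ext
  · simp only
    rw [add_sub_cancel_left, mul_div_cancel_left₀ _ h1.ne']
  · simp only
    rw [mul_div_cancel_left₀ _ h2.ne']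

theorem gst_eq (P P' : Par) (i : ℕ) (u : ℝ) (q : E2) :
    gst P P' i u q = dz P i (rot (u * π * cut P'.th ‖nz P i q‖) (nz P i q)) := rfl

theorem nz_gst {P : Par} (hP : P.Valid) (P' : Par) (i : ℕ) (u : ℝ) (q : E2) :
    nz P i (gst P P' i u q) = rot (u * π * cut P'.th ‖nz P i q‖) (nz P i q) := by
  rw [gst_eq, nz_dz hP]

theorem th_pos {P : Par} (hP : P.Valid) : 0 < P.th := by
  have h1 := hP.mu_pos
  have h2 := hP.mo_th
  have h4 := hP.mu_le
  have h5 := hP.mi_le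
  linarith

theorem cut_zero {t r : ℝ} (ht : 0 < t) (h : 1 - t ≤ r) : cut t r = 0 := by
  unfold cut
  apply cl_of_le'
  apply div_nonpos_of_nonpos_of_nonneg <;> linarith

theorem cut_nonneg (t r : ℝ) : 0 ≤ cut t r := cl_nonneg' _

theorem cut_le_one (t r : ℝ) : cut t r ≤ 1 := cl_le_one' _

theorem cut_lip {t : ℝ} (ht : 0 < t) (r s : ℝ) : |cut t r - cut t s| ≤ |r - s| / t := by
  unfold cut
  refine (cl_lip' _ _).trans ?_
  rw [← sub_div, abs_div, abs_of_pos ht]
  apply le_of_eq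
  congr 1
  rw [show 1 - t - r - (1 - t - s) = -(r - s) by ring, abs_neg]

theorem gst_of_norm {P P' : Par} (hP : P.Valid) (hP' : P'.Valid) {i : ℕ} {u : ℝ} {q : E2}
    (h : 1 - P'.th ≤ ‖nz P i q‖) : gst P P' i u q = q := by
  rw [gst_eq, cut_zero (th_pos hP') h, mul_zero, rot_zero, dz_nz hP]

theorem gst_inv {P : Par} (hP : P.Valid) (P' : Par) (i : ℕ) (u : ℝ) (q : E2) :
    gst P P' i (-u) (gst P P' i u q) = q := by
  rw [gst_eq P P' i (-u), nz_gst hP, norm_rot, rot_rot,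
    show -u * π * cut P'.th ‖nz P i q‖ + u * π * cut P'.th ‖nz P i q‖ = 0 by ring, rot_zero,
    dz_nz hP]

end VVs

theorem gst_zero {P : Par} (hP : P.Valid) (P' : Par) (i : ℕ) (q : E2) :
    gst P P' i 0 q = q := by
  rw [gst_eq, zero_mul, zero_mul, rot_zero, dz_nz hP]

theorem gst_far1 {P P' : Par} (hP : P.Valid) (hP' : P'.Valid) {i : ℕ} {u : ℝ} {q : E2}
    (h : P.lam * (1 - P'.th) ≤ |q.1|) : gst P P' i u q = q := by
  have h2 : 0 < P.lam := by linarith [(lam_pos hP).1]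
  apply gst_of_norm hP hP'
  refine le_trans ?_ (abs_snd (nz P i q))
  change 1 - P'.th ≤ |q.1 / P.lam|
  rw [abs_div, abs_of_pos h2, le_div_iff₀ h2]
  linarith

theorem gst_far2 {P P' : Par} (hP : P.Valid) (hP' : P'.Valid) {i : ℕ} {u : ℝ} {q : E2}
    (h : P.hh * (1 - P'.th) ≤ |q.2 - P.cen i|) : gst P P' i u q = q := by
  have h2 : 0 < P.hh := (hh_pos hP).1
  apply gst_of_norm hP hP'
  refine le_trans ?_ (abs_fst (nz P i q))
  change 1 - P'.th ≤ |(q.2 - P.cen i) / P.hh|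
  rw [abs_div, abs_of_pos h2, le_div_iff₀ h2]
  linarith

theorem VV_zero {P : Par} (hP : P.Valid) (P' : Par) (q : E2) : VV P P' 0 q = q := by
  unfold VV
  simp only [gst_zero hP, sub_self, Finset.sum_const_zero, add_zero]

theorem VV_strip {P P' : Par} (hP : P.Valid) (hP' : P'.Valid) {i : ℕ} (hi : i < P.N) {u : ℝ}
    {q : E2} (h : |q.2 - P.cen i| ≤ P.hh) :
    VV P P' u q = gst P P' i u q ∧ |(VV P P' u q).2 - P.cen i| ≤ P.hh := by
  have hh0 := (hh_pos hP).1
  have hl0 : 0 < P.lam := by linarith [(lam_pos hP).1]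
  have ht := th_pos hP'
  have e1 : VV P P' u q = gst P P' i u q := by
    unfold VV
    rw [Finset.sum_eq_single i]
    · rw [add_sub_cancel]
    · intro j _ hj
      rw [gst_far2 hP hP', sub_self]
      have := cen_disj hP (Ne.symm hj) h
      nlinarith
    · intro hi'
      exact absurd (Finset.mem_range.mpr hi) hi'
  refine ⟨e1, ?_⟩
  rw [e1]
  by_cases hq : P.lam * (1 - P'.th) ≤ |q.1|
  · rw [gst_far1 hP hP' hq]
    exact h
  · push Not at hq
    have h1 : ‖nz P i q‖ ≤ 1 := by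
      apply norm2_le
      · change |(q.2 - P.cen i) / P.hh| ≤ 1
        rw [abs_div, abs_of_pos hh0, div_le_one hh0]
        exact h
      · change |q.1 / P.lam| ≤ 1
        rw [abs_div, abs_of_pos hl0, div_le_one hl0]
        nlinarith
    rw [gst_eq]
    change |P.cen i + P.hh * (rot (u * π * cut P'.th ‖nz P i q‖) (nz P i q)).1 - P.cen i| ≤ P.hh
    rw [add_sub_cancel_left, abs_mul, abs_of_pos hh0]
    have h2 := abs_fst (rot (u * π * cut P'.th ‖nz P i q‖) (nz P i q))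
    rw [norm_rot] at h2
    nlinarith

theorem VV_off {P P' : Par} (hP : P.Valid) (hP' : P'.Valid) {u : ℝ}
    {q : E2} (h : ∀ i < P.N, P.hh ≤ |q.2 - P.cen i|) : VV P P' u q = q := by
  have hh0 := (hh_pos hP).1
  have ht := th_pos hP'
  unfold VV
  rw [Finset.sum_eq_zero, add_zero]
  intro i hi
  rw [gst_far2 hP hP', sub_self]
  have := h i (Finset.mem_range.mp hi)
  nlinarith

theorem VV_far {P P' : Par} (hP : P.Valid) (hP' : P'.Valid) {u : ℝ}
    {q : E2} (h : P.lam * (1 - P'.th) ≤ |q.1|) : VV P P' u q = q := by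
  unfold VV
  rw [Finset.sum_eq_zero, add_zero]
  intro i _
  rw [gst_far1 hP hP' h, sub_self]

theorem VV_far2 {P P' : Par} (hP : P.Valid) (hP' : P'.Valid) {u : ℝ}
    {q : E2} (h : P.lam ≤ |q.2|) : VV P P' u q = q := by
  apply VV_off hP hP'
  intro i hi
  have h1 := cen_bound hP hi
  have h2 : |q.2| ≤ |q.2 - P.cen i| + |P.cen i| := by
    have := abs_add_le (q.2 - P.cen i) (P.cen i)
    rwa [sub_add_cancel] at this
  linarith

theorem VV_inv {P P' : Par} (hP : P.Valid) (hP' : P'.Valid) (u : ℝ) (q : E2) :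
    VV P P' (-u) (VV P P' u q) = q := by
  by_cases h : ∃ i < P.N, |q.2 - P.cen i| ≤ P.hh
  · obtain ⟨i, hi, h⟩ := h
    obtain ⟨h1, h2⟩ := VV_strip (P' := P') hP hP' hi (u := u) h
    obtain ⟨h3, -⟩ := VV_strip (P' := P') hP hP' hi (u := -u) h2
    rw [h3, h1, gst_inv hP]
  · push Not at h
    have h1 : ∀ i < P.N, P.hh ≤ |q.2 - P.cen i| := fun i hi => (h i hi).le
    rw [VV_off hP hP' h1, VV_off hP hP' h1]

theorem VV_strip_iff {P P' : Par} (hP : P.Valid) (hP' : P'.Valid) {i : ℕ} (hi : i < P.N) (u : ℝ)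
    (q : E2) : |(VV P P' u q).2 - P.cen i| ≤ P.hh ↔ |q.2 - P.cen i| ≤ P.hh := by
  constructor
  · intro h
    have := (VV_strip (P' := P') hP hP' hi (u := -u) h).2
    rwa [VV_inv hP hP'] at this
  · intro h
    exact (VV_strip hP hP' hi h).2

theorem VV_fst {P P' : Par} (hP : P.Valid) (hP' : P'.Valid) {c : ℝ}
    (hc : P.lam * (1 - P'.th) ≤ c) (u : ℝ) (q : E2) : |(VV P P' u q).1| ≤ c ↔ |q.1| ≤ c := by
  constructor
  · intro h
    by_contra hq
    push Not at hq
    rw [VV_far hP hP' (hc.trans hq.le)] at h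
    linarith
  · intro h
    by_contra hq
    push Not at hq
    have h1 := VV_far (P' := P') hP hP' (u := -u) (hc.trans hq.le)
    rw [VV_inv hP hP'] at h1
    rw [← h1] at hq
    linarith

theorem VV_snd {P P' : Par} (hP : P.Valid) (hP' : P'.Valid) {c : ℝ}
    (hc : P.lam ≤ c) (u : ℝ) (q : E2) : |(VV P P' u q).2| ≤ c ↔ |q.2| ≤ c := by
  constructor
  · intro h
    by_contra hq
    push Not at hq
    rw [VV_far2 hP hP' (hc.trans hq.le)] at h
    linarith
  · intro h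
    by_contra hq
    push Not at hq
    have h1 := VV_far2 (P' := P') hP hP' (u := -u) (hc.trans hq.le)
    rw [VV_inv hP hP'] at h1
    rw [← h1] at hq
    linarith

namespace VVs

theorem dz_diff {P : Par} (hP : P.Valid) (i : ℕ) (v w : E2) :
    ‖dz P i v - dz P i w‖ ≤ ‖v - w‖ := by
  obtain ⟨h1, h2⟩ := hh_pos hP
  obtain ⟨h3, h4⟩ := lam_pos hP
  apply norm2_le
  · change |P.lam * v.2 - P.lam * w.2| ≤ _
    rw [← mul_sub, abs_mul, abs_of_pos (by linarith : 0 < P.lam)]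
    have : |v.2 - w.2| ≤ ‖v - w‖ := abs_snd (v - w)
    have h5 := abs_nonneg (v.2 - w.2)
    nlinarith
  · change |P.cen i + P.hh * v.1 - (P.cen i + P.hh * w.1)| ≤ _
    rw [show P.cen i + P.hh * v.1 - (P.cen i + P.hh * w.1) = P.hh * (v.1 - w.1) by ring, abs_mul,
      abs_of_pos h1]
    have : |v.1 - w.1| ≤ ‖v - w‖ := abs_fst (v - w)
    have h5 := abs_nonneg (v.1 - w.1)
    nlinarith

theorem inv_hh {P : Par} (hP : P.Valid) : 1 / P.hh ≤ 3 * P.N := by
  obtain ⟨h3, h4⟩ := lam_pos hP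
  have hg := hP.g_pos
  have hN := N_pos hP
  unfold Par.hh
  rw [one_div_div, div_le_iff₀ (by nlinarith)]
  have : 15 / 32 ≤ P.lam * P.g := by nlinarith
  nlinarith

theorem nz_diff {P : Par} (hP : P.Valid) (i : ℕ) (v w : E2) :
    ‖nz P i v - nz P i w‖ ≤ 3 * P.N * ‖v - w‖ := by
  obtain ⟨h1, h2⟩ := hh_pos hP
  obtain ⟨h3, h4⟩ := lam_pos hP
  have hN : (2 : ℝ) ≤ P.N := by exact_mod_cast hP.N_ge
  have h0 := norm_nonneg (v - w)
  apply norm2_le
  · change |(v.2 - P.cen i) / P.hh - (w.2 - P.cen i) / P.hh| ≤ _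
    rw [← sub_div, show v.2 - P.cen i - (w.2 - P.cen i) = v.2 - w.2 by ring, abs_div,
      abs_of_pos h1, div_eq_mul_one_div, mul_comm]
    have h5 : |v.2 - w.2| ≤ ‖v - w‖ := abs_snd (v - w)
    have h6 := inv_hh hP
    gcongr
  · change |v.1 / P.lam - w.1 / P.lam| ≤ _
    rw [← sub_div, abs_div, abs_of_pos (by linarith : 0 < P.lam), div_le_iff₀ (by linarith)]
    have h5 : |v.1 - w.1| ≤ ‖v - w‖ := abs_fst (v - w)
    have h6 : 1 ≤ 3 * (P.N : ℝ) * P.lam := by nlinarith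
    nlinarith

theorem gst_diff_q {P P' : Par} (hP : P.Valid) (hP' : P'.Valid) (i : ℕ) {u : ℝ} (hu : |u| ≤ 1)
    (q q' : E2) :
    ‖gst P P' i u q - gst P P' i u q'‖ ≤ 57 * (P.N / P'.th) * ‖q - q'‖ := by
  have ht := th_pos hP'
  have ht1 := hP'.th_le
  have hN := N_pos hP
  rw [gst_eq, gst_eq]
  refine (dz_diff hP i _ _).trans ?_
  set w := nz P i q with hw
  set w' := nz P i q' with hw'
  have hd : ‖w - w'‖ ≤ 3 * P.N * ‖q - q'‖ := nz_diff hP i q q'
  have hd0 := norm_nonneg (w - w')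
  have key : ‖rot (u * π * cut P'.th ‖w‖) w - rot (u * π * cut P'.th ‖w'‖) w'‖ ≤
      19 / P'.th * ‖w - w'‖ := by
    have h1 := rot_lip (u * π * cut P'.th ‖w‖) (u * π * cut P'.th ‖w'‖) w w'
    have h2 : 33 ≤ 3 / P'.th := by
      rw [le_div_iff₀ ht]
      linarith
    by_cases hmin : min ‖w‖ ‖w'‖ ≤ 1
    · have h3 : |u * π * cut P'.th ‖w‖ - u * π * cut P'.th ‖w'‖| ≤ 4 * (‖w - w'‖ / P'.th) := by
        rw [← mul_sub, abs_mul, abs_mul, abs_of_pos pi_pos]
        have h4 := cut_lip ht ‖w‖ ‖w'‖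
        have h5 := abs_norm_sub_norm_le w w'
        have h6 : |u| * π ≤ 4 := by
          have := pi_le_four
          have := pi_pos
          nlinarith [abs_nonneg u]
        calc |u| * π * |cut P'.th ‖w‖ - cut P'.th ‖w'‖| ≤ 4 * (|‖w‖ - ‖w'‖| / P'.th) := by
              gcongr
          _ ≤ 4 * (‖w - w'‖ / P'.th) := by gcongr
      have h7 : 4 * min ‖w‖ ‖w'‖ * |u * π * cut P'.th ‖w‖ - u * π * cut P'.th ‖w'‖| ≤
          4 * 1 * (4 * (‖w - w'‖ / P'.th)) := by
        gcongr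
      have h8 : 33 * ‖w - w'‖ ≤ 3 / P'.th * ‖w - w'‖ := by gcongr
      calc _ ≤ 3 / P'.th * ‖w - w'‖ + 4 * 1 * (4 * (‖w - w'‖ / P'.th)) :=
            h1.trans (add_le_add h8 h7)
        _ = _ := by
            field_simp
            ring
    · push Not at hmin
      have h3 : cut P'.th ‖w‖ = 0 := cut_zero ht (by linarith [min_le_left ‖w‖ ‖w'‖])
      have h4 : cut P'.th ‖w'‖ = 0 := cut_zero ht (by linarith [min_le_right ‖w‖ ‖w'‖])
      rw [h3, h4, mul_zero, rot_zero, rot_zero]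
      have h5 : 1 ≤ 19 / P'.th := by
        rw [le_div_iff₀ ht]
        linarith
      nlinarith
  refine key.trans ?_
  calc 19 / P'.th * ‖w - w'‖ ≤ 19 / P'.th * (3 * P.N * ‖q - q'‖) := by gcongr
    _ = _ := by ring

theorem VV_diff_q {P P' : Par} (hP : P.Valid) (hP' : P'.Valid) {u : ℝ} (hu : |u| ≤ 1)
    (q q' : E2) :
    ‖VV P P' u q - VV P P' u q'‖ ≤ 59 * ((P.N : ℝ) ^ 2 / P'.th) * ‖q - q'‖ := by
  have ht := th_pos hP'
  have ht1 := hP'.th_le
  have hN : (2 : ℝ) ≤ P.N := by exact_mod_cast hP.N_ge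
  have h0 := norm_nonneg (q - q')
  have e1 : VV P P' u q - VV P P' u q' = (q - q') +
      ∑ i ∈ Finset.range P.N, ((gst P P' i u q - gst P P' i u q') - (q - q')) := by
    unfold VV
    rw [Finset.sum_sub_distrib, Finset.sum_sub_distrib, Finset.sum_sub_distrib,
      Finset.sum_sub_distrib]
    rw [Finset.sum_sub_distrib]
    abel
  rw [e1]
  have h1 : ∀ i ∈ Finset.range P.N, ‖(gst P P' i u q - gst P P' i u q') - (q - q')‖ ≤
      (57 * (P.N / P'.th) + 1) * ‖q - q'‖ := by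
    intro i _
    refine (norm_sub_le _ _).trans ?_
    have := gst_diff_q (P' := P') hP hP' i hu q q'
    linarith
  have h2 := norm_sum_le_of_le (Finset.range P.N) h1
  rw [Finset.sum_const, Finset.card_range, nsmul_eq_mul] at h2
  refine (norm_add_le _ _).trans ?_
  refine (add_le_add le_rfl h2).trans ?_
  have h3 : ‖q - q'‖ + P.N * ((57 * (P.N / P'.th) + 1) * ‖q - q'‖) =
      (57 * ((P.N : ℝ) ^ 2 / P'.th) + (P.N + 1)) * ‖q - q'‖ := by
    ring
  rw [h3]
  have h4 : (P.N : ℝ) + 1 ≤ 2 * ((P.N : ℝ) ^ 2 / P'.th) := by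
    have h5 : (P.N : ℝ) ^ 2 ≤ (P.N : ℝ) ^ 2 / P'.th := by
      rw [le_div_iff₀ ht]
      nlinarith [sq_nonneg (P.N : ℝ)]
    nlinarith
  have h6 : 57 * ((P.N : ℝ) ^ 2 / P'.th) + (P.N + 1) ≤ 59 * ((P.N : ℝ) ^ 2 / P'.th) := by
    linarith
  exact mul_le_mul_of_nonneg_right h6 h0

theorem VV_diff_u {P P' : Par} (hP : P.Valid) (hP' : P'.Valid) (u u' : ℝ) (q : E2) :
    ‖VV P P' u q - VV P P' u' q‖ ≤ 16 * |u - u'| := by
  have ht := th_pos hP'
  by_cases h : ∃ i < P.N, |q.2 - P.cen i| ≤ P.hh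
  · obtain ⟨i, hi, h⟩ := h
    rw [(VV_strip (P' := P') hP hP' hi (u := u) h).1, (VV_strip (P' := P') hP hP' hi (u := u') h).1]
    rw [gst_eq, gst_eq]
    refine (dz_diff hP i _ _).trans ?_
    set w := nz P i q with hw
    by_cases hw1 : ‖w‖ ≤ 1
    · have h1 := rot_lip (u * π * cut P'.th ‖w‖) (u' * π * cut P'.th ‖w‖) w w
      rw [sub_self, norm_zero, mul_zero, zero_add, min_self] at h1
      refine h1.trans ?_
      have h2 : |u * π * cut P'.th ‖w‖ - u' * π * cut P'.th ‖w‖| ≤ 4 * |u - u'| := by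
        rw [show u * π * cut P'.th ‖w‖ - u' * π * cut P'.th ‖w‖ =
          (π * cut P'.th ‖w‖) * (u - u') by ring, abs_mul,
          abs_of_nonneg (mul_nonneg pi_pos.le (cut_nonneg _ _))]
        gcongr
        have h3 := cut_le_one P'.th ‖w‖
        have h4 := cut_nonneg P'.th ‖w‖
        have h5 := pi_le_four
        have h6 := pi_pos
        nlinarith
      calc 4 * ‖w‖ * |u * π * cut P'.th ‖w‖ - u' * π * cut P'.th ‖w‖| ≤
          4 * 1 * (4 * |u - u'|) := by gcongr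
        _ = _ := by ring
    · push Not at hw1
      have h3 : cut P'.th ‖w‖ = 0 := cut_zero ht (by linarith)
      rw [h3, mul_zero, mul_zero, sub_self, norm_zero]
      positivity
  · push Not at h
    have h1 : ∀ i < P.N, P.hh ≤ |q.2 - P.cen i| := fun i hi => (h i hi).le
    rw [VV_off hP hP' h1, VV_off hP hP' h1, sub_self, norm_zero]
    positivity

end VVs

/-- Lipschitz bounds; `C` universal -/
theorem VV_lip : ∃ C : ℝ, 1 ≤ C ∧ ∀ P P' : Par, P.Valid → P'.Valid → ∀ u u' q q', |u| ≤ 1 →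
    |u'| ≤ 1 →
    ‖VV P P' u q - VV P P' u' q'‖ ≤ C * ((P.N : ℝ) ^ 2 / P'.th) * ‖q - q'‖ + C * |u - u'| := by
  refine ⟨59, by norm_num, ?_⟩
  intro P P' hP hP' u u' q q' hu _
  have h1 := VV_diff_q (P' := P') hP hP' hu q q'
  have h2 := VV_diff_u (P' := P') hP hP' u u' q'
  have h3 : VV P P' u q - VV P P' u' q' = (VV P P' u q - VV P P' u q') +
      (VV P P' u q' - VV P P' u' q') := by abel
  rw [h3]
  refine (norm_add_le _ _).trans ?_
  have h4 := abs_nonneg (u - u')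
  linarith

end Pool.Agent.JAC
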