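import Pool.Agent.Lib.MP_3b5712_an.FplS
import Pool.Agent.Lib.MP_3b5712_an.VVs

set_option autoImplicit false

open Filter Topology Set Real

namespace Pool.Agent.JAC

/-! TASK J1: the block map -/

/-- compatibility of consecutive parameters -/
structure Compat (P P' P'' : Par) : Prop where
  v : P.Valid
  v' : P'.Valid
  v'' : P''.Valid
  mo1 : P.mo ≤ P'.th
  mo2 : P.mo ≤ P''.th

namespace Block

open VVs

theorem norm3_le_iff {X : E3} {c : ℝ} : ‖X‖ ≤ c ↔ |X.1| ≤ c ∧ |X.2.1| ≤ c ∧ |X.2.2| ≤ c := by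
  rw [Prod.norm_def, Prod.norm_def, max_le_iff, max_le_iff]
  rfl

theorem norm2_le_iff {X : E2} {c : ℝ} : ‖X‖ ≤ c ↔ |X.1| ≤ c ∧ |X.2| ≤ c := by
  rw [Prod.norm_def, max_le_iff]
  rfl

theorem lam_pos0 {P : Par} (hP : P.Valid) : 0 < P.lam := by linarith [(lam_pos hP).1]

end Block

open Block VVs

theorem chi_ch {P : Par} (hP : P.Valid) (i : ℕ) (X : E3) : P.chi i (P.ch i X) = X := by
  have h1 := (hh_pos hP).1.ne'
  have h2 := (lam_pos0 hP).ne'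
  unfold Par.chi Par.ch
  ext
  · change -(-(P.lam * X.1) / P.lam) = X.1
    field_simp
  · change (P.cen i + P.hh * X.2.1 - P.cen i) / P.hh = X.2.1
    rw [add_sub_cancel_left, mul_div_cancel_left₀ _ h1]
  · change P.lam * X.2.2 / P.lam = X.2.2
    rw [mul_div_cancel_left₀ _ h2]

theorem ch_chi {P : Par} (hP : P.Valid) (i : ℕ) (X : E3) : P.ch i (P.chi i X) = X := by
  have h1 := (hh_pos hP).1.ne'
  have h2 := (lam_pos0 hP).ne'
  unfold Par.chi Par.ch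
  ext
  · change P.lam * (X.1 / P.lam) = X.1
    rw [mul_div_cancel₀ _ h2]
  · change -(P.lam * -(X.2.1 / P.lam)) = X.2.1
    field_simp
  · change P.cen i + P.hh * ((X.2.2 - P.cen i) / P.hh) = X.2.2
    rw [mul_div_cancel₀ _ h1]
    ring

/-- membership in the child box -/
theorem chi_le {P : Par} (hP : P.Valid) (i : ℕ) (X : E3) :
    ‖P.chi i X‖ ≤ 1 ↔ |X.1| ≤ P.lam ∧ |X.2.1| ≤ P.lam ∧ |X.2.2 - P.cen i| ≤ P.hh := by
  have h1 := (hh_pos hP).1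
  have h2 := lam_pos0 hP
  rw [norm3_le_iff]
  change |-(X.2.1 / P.lam)| ≤ 1 ∧ |(X.2.2 - P.cen i) / P.hh| ≤ 1 ∧ |X.1 / P.lam| ≤ 1 ↔ _
  rw [abs_neg, abs_div, abs_div, abs_div, abs_of_pos h1, abs_of_pos h2, div_le_one h1,
    div_le_one h2, div_le_one h2]
  tauto

namespace Block

theorem dep_diff {P : Par} (hP : P.Valid) (r s : ℝ) : |P.dep r - P.dep s| ≤ 1 / P.mu * |r - s| := by
  have h1 := hP.mu_pos
  unfold Par.dep
  rw [← sub_div, abs_div, abs_of_pos h1]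
  rw [show 1 - r - (1 - s) = -(r - s) by ring, abs_neg]
  apply le_of_eq
  ring

theorem uf_diff {P : Par} (hP : P.Valid) (r s : ℝ) :
    |P.uf r - P.uf s| ≤ 4 / P.mu * |r - s| := by
  unfold Par.uf
  refine (cl_lip _ _).trans ?_
  rw [show 4 * P.dep r - 2 - (4 * P.dep s - 2) = 4 * (P.dep r - P.dep s) by ring, abs_mul,
    abs_of_pos (by norm_num : (0:ℝ) < 4)]
  have := dep_diff hP r s
  calc 4 * |P.dep r - P.dep s| ≤ 4 * (1 / P.mu * |r - s|) := by gcongr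
    _ = _ := by ring

theorem sf_diff {P : Par} (hP : P.Valid) (r s : ℝ) :
    |P.sf r - P.sf s| ≤ 8 / P.mu * |r - s| := by
  have h1 := hP.mu_pos
  unfold Par.sf
  have h2 := cl_lip (4 * P.dep r) (4 * P.dep s)
  have h4 := dep_diff hP r s
  rw [show 4 * P.dep r - (4 * P.dep s) = 4 * (P.dep r - P.dep s) by ring, abs_mul,
    abs_of_pos (by norm_num : (0:ℝ) < 4)] at h2
  rw [show π / 2 * (1 - cl (4 * P.dep r)) - π / 2 * (1 - cl (4 * P.dep s)) =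
    -(π / 2 * (cl (4 * P.dep r) - cl (4 * P.dep s))) by ring, abs_neg, abs_mul,
    abs_of_pos (by positivity : (0:ℝ) < π / 2)]
  have h3 := pi_le_four
  calc π / 2 * |cl (4 * P.dep r) - cl (4 * P.dep s)| ≤ 2 * (4 * (1 / P.mu * |r - s|)) := by
        gcongr
        · linarith
        · exact h2.trans (by gcongr)
    _ = _ := by ring

theorem sf_bound (P : Par) (r : ℝ) : 0 ≤ P.sf r ∧ P.sf r ≤ 2 := by
  unfold Par.sf
  have h1 := cl_nonneg (4 * P.dep r)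
  have h2 := cl_le_one (4 * P.dep r)
  have h3 := pi_le_four
  have h4 := pi_pos
  constructor
  · apply mul_nonneg <;> linarith
  · nlinarith

theorem sf_zero {P : Par} (hP : P.Valid) {r : ℝ} (h : r ≤ P.lam) : P.sf r = 0 := by
  have h1 := hP.mu_pos
  have h2 : 1 ≤ P.dep r := by
    unfold Par.dep
    unfold Par.lam at h
    rw [le_div_iff₀ h1]
    linarith
  unfold Par.sf
  rw [cl_of_ge (by linarith), sub_self, mul_zero]

theorem sf_one (P : Par) : P.sf 1 = π / 2 := by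
  unfold Par.sf Par.dep
  rw [sub_self, zero_div, mul_zero, cl_of_le le_rfl, sub_zero, mul_one]

theorem uf_one' (P : Par) : P.uf 1 = 0 := by
  unfold Par.uf Par.dep
  rw [sub_self, zero_div, mul_zero, cl_of_le (by norm_num)]

theorem uf_inner {P : Par} (hP : P.Valid) {r : ℝ} (h : r ≤ P.lam) : P.uf r = 1 := by
  have h1 := hP.mu_pos
  have h2 : 1 ≤ P.dep r := by
    unfold Par.dep
    unfold Par.lam at h
    rw [le_div_iff₀ h1]
    linarith
  unfold Par.uf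
  rw [cl_of_ge (by linarith)]

theorem uf_nonneg (P : Par) (r : ℝ) : 0 ≤ P.uf r := cl_nonneg _

theorem abs_uf_le (P : Par) (r : ℝ) : |P.uf r| ≤ 1 := by
  rw [abs_of_nonneg (uf_nonneg P r)]
  exact cl_le_one _

/-- generic Lipschitz lemma for twisted rotations -/
theorem twist_lipAt {t : E3 → ℝ} {L : ℝ} (hL : 0 ≤ L) (ht : ∀ X Y, |t X - t Y| ≤ L * ‖X - Y‖)
    (X : E3) : ∃ K, LipAt K (fun Y : E3 => ((Y.1, rot (t Y) Y.2) : E3)) X := by
  refine ⟨33 + 4 * (‖X‖ + 1) * L, Metric.ball X 1, Metric.ball_mem_nhds X one_pos, ?_⟩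
  intro a ha b hb
  rw [dist_eq_norm, dist_eq_norm]
  have ha' : ‖a.2‖ ≤ ‖X‖ + 1 := by
    rw [Metric.mem_ball, dist_eq_norm] at ha
    have h1 : ‖a‖ ≤ ‖a - X‖ + ‖X‖ := by
      have := norm_add_le (a - X) X
      rwa [sub_add_cancel] at this
    have h2 := norm_snd_le a
    linarith
  have h1 := rot_lip (t a) (t b) a.2 b.2
  have h2 : ‖a.2 - b.2‖ ≤ ‖a - b‖ := norm_snd_le (a - b)
  have h3 : ‖a.1 - b.1‖ ≤ ‖a - b‖ := norm_fst_le (a - b)
  have h0 := norm_nonneg (a - b)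
  have h00 := norm_nonneg X
  have h4 : 4 * min ‖a.2‖ ‖b.2‖ * |t a - t b| ≤ 4 * (‖X‖ + 1) * (L * ‖a - b‖) := by
    gcongr
    · exact (min_le_left _ _).trans ha'
    · exact ht a b
  have h5 : 0 ≤ 4 * (‖X‖ + 1) * (L * ‖a - b‖) := by positivity
  rw [Prod.norm_def]
  apply max_le
  · change ‖a.1 - b.1‖ ≤ _
    nlinarith
  · change ‖rot (t a) a.2 - rot (t b) b.2‖ ≤ _
    nlinarith

theorem twE_lip {P : Par} (hP : P.Valid) (e : ℝ) (he : |e| ≤ 2) (X Y : E3) :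
    |e * P.sf |X.1| * cut P.th ‖X.2‖ - e * P.sf |Y.1| * cut P.th ‖Y.2‖| ≤
      (16 / P.mu + 4 / P.th) * ‖X - Y‖ := by
  have hmu := hP.mu_pos
  have hth := th_pos hP
  have h2 : ‖X.2 - Y.2‖ ≤ ‖X - Y‖ := norm_snd_le (X - Y)
  have h3 : |X.1 - Y.1| ≤ ‖X - Y‖ := norm_fst_le (X - Y)
  have e1 : e * P.sf |X.1| * cut P.th ‖X.2‖ - e * P.sf |Y.1| * cut P.th ‖Y.2‖ =
      e * (P.sf |X.1| - P.sf |Y.1|) * cut P.th ‖X.2‖ +
      e * P.sf |Y.1| * (cut P.th ‖X.2‖ - cut P.th ‖Y.2‖) := by ring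
  have h4 := sf_diff hP |X.1| |Y.1|
  have h5 := cut_lip hth ‖X.2‖ ‖Y.2‖
  have h6 := abs_norm_sub_norm_le X.2 Y.2
  have h7 := abs_abs_sub_abs_le X.1 Y.1
  obtain ⟨h8, h9⟩ := sf_bound P |Y.1|
  have h10 := cut_nonneg P.th ‖X.2‖
  have h11 := cut_le_one P.th ‖X.2‖
  rw [e1]
  calc _ ≤ |e * (P.sf |X.1| - P.sf |Y.1|) * cut P.th ‖X.2‖| +
        |e * P.sf |Y.1| * (cut P.th ‖X.2‖ - cut P.th ‖Y.2‖)| := abs_add_le _ _
    _ = abs e * abs (P.sf (abs X.1) - P.sf (abs Y.1)) * cut P.th ‖X.2‖ +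
        abs e * P.sf (abs Y.1) * abs (cut P.th ‖X.2‖ - cut P.th ‖Y.2‖) := by
        simp only [abs_mul, abs_of_nonneg h8, abs_of_nonneg h10]
    _ ≤ 2 * (8 / P.mu * ‖X - Y‖) * 1 + 2 * 2 * (‖X - Y‖ / P.th) := by
        gcongr
        · exact h4.trans (by gcongr; exact h7.trans h3)
        · exact h5.trans (by gcongr; exact h6.trans h2)
    _ = _ := by ring

theorem continuous_of_lipAt {f : E3 → E3} (h : ∀ x, ∃ K, LipAt K f x) : Continuous f := by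
  rw [continuous_iff_continuousAt]
  intro x
  obtain ⟨K, hK⟩ := h x
  exact hK.continuousAt

/-- planar norm of a difference of pairs -/
theorem VV_lip' : ∃ C : ℝ, 1 ≤ C ∧ ∀ P P' : Par, P.Valid → P'.Valid → ∀ u u' q q', |u| ≤ 1 →
    |u'| ≤ 1 →
    ‖VV P P' u q - VV P P' u' q'‖ ≤ C * ((P.N : ℝ) ^ 2 / P'.th) * ‖q - q'‖ + C * |u - u'| :=
  VV_lip

theorem ThN_lipAt {P P' : Par} (hP : P.Valid) (hP' : P'.Valid) {u : ℝ} (hu : |u| ≤ 1) (X : E3) :
    ∃ K, LipAt K (fun X : E3 => (((VV P P' u (X.1, X.2.2)).1, X.2.1,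
      (VV P P' u (X.1, X.2.2)).2) : E3)) X := by
  obtain ⟨C, hC, h⟩ := VV_lip
  have ht := th_pos hP'
  refine ⟨C * ((P.N : ℝ) ^ 2 / P'.th) + 1, lipAt_of_lip ?_ X⟩
  intro a b
  rw [dist_eq_norm, dist_eq_norm]
  have h1 := h P P' hP hP' u u (a.1, a.2.2) (b.1, b.2.2) hu hu
  rw [sub_self, abs_zero, mul_zero, add_zero] at h1
  have h0 := norm_nonneg (a - b)
  have hab := norm3_le_iff.mp (le_refl ‖a - b‖)
  have h2 : ‖((a.1, a.2.2) - (b.1, b.2.2) : E2)‖ ≤ ‖a - b‖ :=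
    norm2_le_iff.mpr ⟨hab.1, hab.2.2⟩
  have hK : 0 ≤ C * ((P.N : ℝ) ^ 2 / P'.th) := by positivity
  have h3 : ‖VV P P' u (a.1, a.2.2) - VV P P' u (b.1, b.2.2)‖ ≤
      C * ((P.N : ℝ) ^ 2 / P'.th) * ‖a - b‖ := h1.trans (by gcongr)
  obtain ⟨h4, h5⟩ := norm2_le_iff.mp h3
  rw [norm3_le_iff]
  refine ⟨h4.trans (by nlinarith), hab.2.1.trans (by nlinarith), h5.trans (by nlinarith)⟩

theorem ThT_lipAt {P P' P'' : Par} (hP : P.Valid) (hP' : P'.Valid) (hP'' : P''.Valid) {t : ℝ → ℝ}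
    {L : ℝ} (hL : 0 ≤ L) (ht1 : ∀ r, |t r| ≤ 1) (htl : ∀ r s, |t r - t s| ≤ L * |r - s|) (X : E3) :
    ∃ K, LipAt K (fun X : E3 => ((P.lam * (VV P' P'' (t |X.2.2|) (-(X.2.1 / P.lam), X.1 / P.lam)).2,
      -(P.lam * (VV P' P'' (t |X.2.2|) (-(X.2.1 / P.lam), X.1 / P.lam)).1), X.2.2) : E3)) X := by
  obtain ⟨C, hC, h⟩ := VV_lip
  have ht := th_pos hP''
  have hl0 := lam_pos0 hP
  have hl1 := lam_pos hP
  refine ⟨C * ((P'.N : ℝ) ^ 2 / P''.th) * (1 / P.lam) + C * L + 1, lipAt_of_lip ?_ X⟩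
  intro a b
  rw [dist_eq_norm, dist_eq_norm]
  have h1 := h P' P'' hP' hP'' (t |a.2.2|) (t |b.2.2|) (-(a.2.1 / P.lam), a.1 / P.lam)
    (-(b.2.1 / P.lam), b.1 / P.lam) (ht1 _) (ht1 _)
  have h0 := norm_nonneg (a - b)
  have hab := norm3_le_iff.mp (le_refl ‖a - b‖)
  have h2 : ‖((-(a.2.1 / P.lam), a.1 / P.lam) - (-(b.2.1 / P.lam), b.1 / P.lam) : E2)‖ ≤
      1 / P.lam * ‖a - b‖ := by
    rw [norm2_le_iff]
    constructor
    · change |-(a.2.1 / P.lam) - -(b.2.1 / P.lam)| ≤ _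
      rw [show -(a.2.1 / P.lam) - -(b.2.1 / P.lam) = 1 / P.lam * (-(a.2.1 - b.2.1)) by ring,
        abs_mul, abs_neg, abs_of_pos (by positivity : 0 < 1 / P.lam)]
      have : |a.2.1 - b.2.1| ≤ ‖a - b‖ := hab.2.1
      gcongr
    · change |a.1 / P.lam - b.1 / P.lam| ≤ _
      rw [show a.1 / P.lam - b.1 / P.lam = 1 / P.lam * (a.1 - b.1) by ring,
        abs_mul, abs_of_pos (by positivity : 0 < 1 / P.lam)]
      have : |a.1 - b.1| ≤ ‖a - b‖ := hab.1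
      gcongr
  have hK : 0 ≤ C * ((P'.N : ℝ) ^ 2 / P''.th) := by positivity
  have h6 : abs (t (abs a.2.2) - t (abs b.2.2)) ≤ L * ‖a - b‖ := by
    refine (htl _ _).trans ?_
    have e1 : |a.2.2 - b.2.2| ≤ ‖a - b‖ := hab.2.2
    have e2 := abs_abs_sub_abs_le a.2.2 b.2.2
    gcongr
    exact e2.trans e1
  have h3 : ‖VV P' P'' (t |a.2.2|) (-(a.2.1 / P.lam), a.1 / P.lam) -
      VV P' P'' (t |b.2.2|) (-(b.2.1 / P.lam), b.1 / P.lam)‖ ≤
      (C * ((P'.N : ℝ) ^ 2 / P''.th) * (1 / P.lam) + C * L) * ‖a - b‖ := by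
    refine h1.trans ?_
    calc _ ≤ C * ((P'.N : ℝ) ^ 2 / P''.th) * (1 / P.lam * ‖a - b‖) + C * (L * ‖a - b‖) := by
          gcongr
      _ = _ := by ring
  obtain ⟨h4, h5⟩ := norm2_le_iff.mp h3
  have hM : 0 ≤ (C * ((P'.N : ℝ) ^ 2 / P''.th) * (1 / P.lam) + C * L) * ‖a - b‖ := by positivity
  rw [norm3_le_iff]
  refine ⟨?_, ?_, ?_⟩
  · change |P.lam * (VV P' P'' (t |a.2.2|) (-(a.2.1 / P.lam), a.1 / P.lam)).2 -
      P.lam * (VV P' P'' (t |b.2.2|) (-(b.2.1 / P.lam), b.1 / P.lam)).2| ≤ _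
    rw [← mul_sub, abs_mul, abs_of_pos hl0]
    have h7 : |(VV P' P'' (t |a.2.2|) (-(a.2.1 / P.lam), a.1 / P.lam)).2 -
      (VV P' P'' (t |b.2.2|) (-(b.2.1 / P.lam), b.1 / P.lam)).2| ≤ _ := h5
    have h8 := abs_nonneg ((VV P' P'' (t |a.2.2|) (-(a.2.1 / P.lam), a.1 / P.lam)).2 -
      (VV P' P'' (t |b.2.2|) (-(b.2.1 / P.lam), b.1 / P.lam)).2)
    nlinarith
  · change |-(P.lam * (VV P' P'' (t |a.2.2|) (-(a.2.1 / P.lam), a.1 / P.lam)).1) -
      -(P.lam * (VV P' P'' (t |b.2.2|) (-(b.2.1 / P.lam), b.1 / P.lam)).1)| ≤ _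
    rw [neg_sub_neg, ← mul_sub, abs_mul, abs_of_pos hl0, abs_sub_comm]
    have h7 : |(VV P' P'' (t |a.2.2|) (-(a.2.1 / P.lam), a.1 / P.lam)).1 -
      (VV P' P'' (t |b.2.2|) (-(b.2.1 / P.lam), b.1 / P.lam)).1| ≤ _ := h4
    have h8 := abs_nonneg ((VV P' P'' (t |a.2.2|) (-(a.2.1 / P.lam), a.1 / P.lam)).1 -
      (VV P' P'' (t |b.2.2|) (-(b.2.1 / P.lam), b.1 / P.lam)).1)
    nlinarith
  · exact hab.2.2.trans (by nlinarith)

end Block

theorem ThE_good {P : Par} (hP : P.Valid) : Good (ThE P) := by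
  have hmu := hP.mu_pos
  have hth := th_pos hP
  have h1 : ∀ x, ∃ K, LipAt K (ThE P) x := fun x =>
    twist_lipAt (t := fun X => 2 * P.sf |X.1| * cut P.th ‖X.2‖) (L := 16 / P.mu + 4 / P.th)
      (by positivity) (fun X Y => twE_lip hP 2 (by norm_num) X Y) x
  have h2 : ∀ x, ∃ K, LipAt K (fun X : E3 => ((X.1, rot (-2 * P.sf |X.1| * cut P.th ‖X.2‖) X.2)
      : E3)) x := fun x =>
    twist_lipAt (t := fun X => -2 * P.sf |X.1| * cut P.th ‖X.2‖) (L := 16 / P.mu + 4 / P.th)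
      (by positivity) (fun X Y => twE_lip hP (-2) (by norm_num) X Y) x
  apply Good.of_inverse h1 (continuous_of_lipAt h2)
  · intro X
    unfold ThE
    ext1
    · rfl
    · change rot (-2 * P.sf |X.1| * cut P.th ‖rot (2 * P.sf |X.1| * cut P.th ‖X.2‖) X.2‖)
        (rot (2 * P.sf |X.1| * cut P.th ‖X.2‖) X.2) = X.2
      rw [norm_rot, rot_rot, show -2 * P.sf |X.1| * cut P.th ‖X.2‖ +
        2 * P.sf |X.1| * cut P.th ‖X.2‖ = 0 by ring, rot_zero]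
  · intro X
    unfold ThE
    ext1
    · rfl
    · change rot (2 * P.sf |X.1| * cut P.th ‖rot (-2 * P.sf |X.1| * cut P.th ‖X.2‖) X.2‖)
        (rot (-2 * P.sf |X.1| * cut P.th ‖X.2‖) X.2) = X.2
      rw [norm_rot, rot_rot, show 2 * P.sf |X.1| * cut P.th ‖X.2‖ +
        -2 * P.sf |X.1| * cut P.th ‖X.2‖ = 0 by ring, rot_zero]

theorem ThN_good {P P' : Par} (hP : P.Valid) (hP' : P'.Valid) : Good (ThN P P') := by
  have h1 : ∀ x, ∃ K, LipAt K (ThN P P') x := fun x => ThN_lipAt hP hP' (u := 1) (by simp) x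
  have h2 : ∀ x, ∃ K, LipAt K (fun X : E3 => (((VV P P' (-1) (X.1, X.2.2)).1, X.2.1,
      (VV P P' (-1) (X.1, X.2.2)).2) : E3)) x := fun x =>
    ThN_lipAt hP hP' (u := -1) (by simp) x
  have key : ∀ (u : ℝ) (x z : ℝ), VV P P' (-u) ((VV P P' u (x, z)).1, (VV P P' u (x, z)).2) =
      (x, z) := fun u x z => VV_inv hP hP' u (x, z)
  have key' : ∀ (u : ℝ) (x z : ℝ), VV P P' u ((VV P P' (-u) (x, z)).1, (VV P P' (-u) (x, z)).2) =
      (x, z) := fun u x z => by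
    have := VV_inv (P' := P') hP hP' (-u) (x, z)
    rwa [neg_neg] at this
  apply Good.of_inverse h1 (continuous_of_lipAt h2)
  · intro X
    have := key 1 X.1 X.2.2
    unfold ThN
    change ((VV P P' (-1) ((VV P P' 1 (X.1, X.2.2)).1, (VV P P' 1 (X.1, X.2.2)).2)).1, X.2.1,
      (VV P P' (-1) ((VV P P' 1 (X.1, X.2.2)).1, (VV P P' 1 (X.1, X.2.2)).2)).2) = X
    rw [this]
  · intro X
    have := key' 1 X.1 X.2.2
    unfold ThN
    change ((VV P P' 1 ((VV P P' (-1) (X.1, X.2.2)).1, (VV P P' (-1) (X.1, X.2.2)).2)).1, X.2.1,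
      (VV P P' 1 ((VV P P' (-1) (X.1, X.2.2)).1, (VV P P' (-1) (X.1, X.2.2)).2)).2) = X
    rw [this]

theorem ThT_good {P P' P'' : Par} (h : Compat P P' P'') : Good (ThT P P' P'') := by
  have hmu := h.v.mu_pos
  have hl := (lam_pos0 h.v).ne'
  have h1 : ∀ x, ∃ K, LipAt K (ThT P P' P'') x := fun x =>
    ThT_lipAt h.v h.v' h.v'' (t := P.uf) (L := 4 / P.mu) (by positivity) (abs_uf_le P)
      (uf_diff h.v) x
  have h2 := fun x => ThT_lipAt h.v h.v' h.v'' (t := fun r => -P.uf r) (L := 4 / P.mu)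
      (by positivity) (fun r => by rw [abs_neg]; exact abs_uf_le P r)
      (fun r s => by
        rw [show -P.uf r - -P.uf s = -(P.uf r - P.uf s) by ring, abs_neg]
        exact uf_diff h.v r s) x
  have key : ∀ (u : ℝ) (w : E2), VV P' P'' (-u) (-(-(P.lam * (VV P' P'' u w).1) / P.lam),
      P.lam * (VV P' P'' u w).2 / P.lam) = w := by
    intro u w
    have e1 : -(-(P.lam * (VV P' P'' u w).1) / P.lam) = (VV P' P'' u w).1 := by
      field_simp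
    have e2 : P.lam * (VV P' P'' u w).2 / P.lam = (VV P' P'' u w).2 := by
      field_simp
    rw [e1, e2]
    exact VV_inv h.v' h.v'' u w
  have fin : ∀ X : E3, ((P.lam * ((-(X.2.1 / P.lam), X.1 / P.lam) : E2).2,
      -(P.lam * ((-(X.2.1 / P.lam), X.1 / P.lam) : E2).1), X.2.2) : E3) = X := by
    intro X
    ext
    · change P.lam * (X.1 / P.lam) = X.1
      field_simp
    · change -(P.lam * -(X.2.1 / P.lam)) = X.2.1
      field_simp
    · rfl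
  apply Good.of_inverse h1 (continuous_of_lipAt h2)
  · intro X
    have := key (P.uf |X.2.2|) (-(X.2.1 / P.lam), X.1 / P.lam)
    unfold ThT
    simp only
    rw [this]
    exact fin X
  · intro X
    have := key (-P.uf |X.2.2|) (-(X.2.1 / P.lam), X.1 / P.lam)
    rw [neg_neg] at this
    unfold ThT
    simp only
    rw [this]
    exact fin X

theorem Blk_good {P P' P'' : Par} (h : Compat P P' P'') : Good (Blk P P' P'') := by
  have h1 := (Fpl_good h.v).comp ((ThN_good h.v h.v').comp ((ThT_good h).comp (ThE_good h.v)))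
  exact h1

namespace Block

theorem Fpl_norm_le {P : Par} (hP : P.Valid) {c : ℝ} (hc : P.lam ≤ c) (X : E3) :
    ‖Fpl P X‖ ≤ c ↔ ‖X‖ ≤ c := by
  have h1 := Fpl_rho hP X
  have h2 : ∀ Y : E3, ‖Y‖ ≤ c ↔ rho P.lam Y ≤ c := by
    intro Y
    unfold rho
    rw [max_le_iff]
    exact ⟨fun h => ⟨h, hc⟩, fun h => h.1⟩
  rw [h2, h2, h1]

theorem norm_ThE (P : Par) (X : E3) : ‖ThE P X‖ = ‖X‖ := by
  unfold ThE
  rw [Prod.norm_def, Prod.norm_def X]
  simp only [norm_rot]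

theorem ThE_id {P : Par} (hP : P.Valid) {X : E3} (h : |X.1| ≤ P.lam) : ThE P X = X := by
  unfold ThE
  rw [sf_zero hP h, mul_zero, zero_mul, rot_zero]

/-- the normalised coordinates of `ThT` -/
theorem ThT_fst {P P' P'' : Par} (h : Compat P P' P'') {c : ℝ} (hc : P.lam ≤ c) (X : E3) :
    |(ThT P P' P'' X).1| ≤ c ↔ |X.1| ≤ c := by
  have hl := lam_pos0 h.v
  have hl' := lam_pos h.v'
  unfold ThT
  change |P.lam * (VV P' P'' (P.uf |X.2.2|) (-(X.2.1 / P.lam), X.1 / P.lam)).2| ≤ c ↔ _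
  rw [abs_mul, abs_of_pos hl]
  have h1 := VV_snd h.v' h.v'' (c := c / P.lam) (by
    have : 1 ≤ c / P.lam := by rwa [le_div_iff₀ hl, one_mul]
    linarith) (P.uf |X.2.2|) (-(X.2.1 / P.lam), X.1 / P.lam)
  rw [le_div_iff₀ hl, mul_comm] at h1
  rw [h1]
  change |X.1 / P.lam| ≤ c / P.lam ↔ _
  rw [abs_div, abs_of_pos hl, div_le_div_iff_of_pos_right hl]

theorem ThT_snd {P P' P'' : Par} (h : Compat P P' P'') {c : ℝ} (hc : P.lam ≤ c) (X : E3) :
    |(ThT P P' P'' X).2.1| ≤ c ↔ |X.2.1| ≤ c := by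
  have hl := lam_pos0 h.v
  have hl' := lam_pos h.v'
  have ht := th_pos h.v''
  unfold ThT
  change |-(P.lam * (VV P' P'' (P.uf |X.2.2|) (-(X.2.1 / P.lam), X.1 / P.lam)).1)| ≤ c ↔ _
  rw [abs_neg, abs_mul, abs_of_pos hl]
  have h1 := VV_fst h.v' h.v'' (c := c / P.lam) (by
    have : 1 ≤ c / P.lam := by rwa [le_div_iff₀ hl, one_mul]
    nlinarith) (P.uf |X.2.2|) (-(X.2.1 / P.lam), X.1 / P.lam)
  rw [le_div_iff₀ hl, mul_comm] at h1
  rw [h1]
  change |-(X.2.1 / P.lam)| ≤ c / P.lam ↔ _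
  rw [abs_neg, abs_div, abs_of_pos hl, div_le_div_iff_of_pos_right hl]

theorem ThT_thd (P P' P'' : Par) (X : E3) : (ThT P P' P'' X).2.2 = X.2.2 := rfl

theorem ThN_fst {P P' : Par} (hP : P.Valid) (hP' : P'.Valid) {c : ℝ} (hc : P.lam ≤ c) (X : E3) :
    |(ThN P P' X).1| ≤ c ↔ |X.1| ≤ c := by
  have hl := lam_pos0 hP
  have ht := th_pos hP'
  exact VV_fst hP hP' (by nlinarith) 1 (X.1, X.2.2)

theorem ThN_thd {P P' : Par} (hP : P.Valid) (hP' : P'.Valid) {c : ℝ} (hc : P.lam ≤ c) (X : E3) :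
    |(ThN P P' X).2.2| ≤ c ↔ |X.2.2| ≤ c :=
  VV_snd hP hP' hc 1 (X.1, X.2.2)

theorem ThN_snd (P P' : Par) (X : E3) : (ThN P P' X).2.1 = X.2.1 := rfl

end Block

theorem Blk_ball {P P' P'' : Par} (h : Compat P P' P'') (X : E3) :
    ‖Blk P P' P'' X‖ ≤ 1 ↔ ‖X‖ ≤ 1 := by
  have hl := (lam_pos h.v).2.le
  unfold Blk
  rw [Fpl_norm_le h.v hl]
  have h1 : ∀ Y, ‖ThN P P' Y‖ ≤ 1 ↔ ‖Y‖ ≤ 1 := by
    intro Y
    rw [norm3_le_iff, norm3_le_iff, ThN_fst h.v h.v' hl, ThN_thd h.v h.v' hl, ThN_snd]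
  have h2 : ∀ Y, ‖ThT P P' P'' Y‖ ≤ 1 ↔ ‖Y‖ ≤ 1 := by
    intro Y
    rw [norm3_le_iff, norm3_le_iff, ThT_fst h hl, ThT_snd h hl, ThT_thd]
  rw [h1, h2, norm_ThE]

theorem Blk_box {P P' P'' : Par} (h : Compat P P' P'') {i : ℕ} (hi : i < P.N) (X : E3) :
    ‖P.chi i (Blk P P' P'' X)‖ ≤ 1 ↔ ‖P.chi i X‖ ≤ 1 := by
  have hcb := cen_bound h.v hi
  have hchi : ∀ Y : E3, ‖P.chi i Y‖ ≤ 1 ↔ ‖Y‖ ≤ P.lam ∧ |Y.2.2 - P.cen i| ≤ P.hh := by
    intro Y
    rw [chi_le h.v, norm3_le_iff]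
    constructor
    · rintro ⟨h1, h2, h3⟩
      refine ⟨⟨h1, h2, ?_⟩, h3⟩
      have h4 := abs_add_le (Y.2.2 - P.cen i) (P.cen i)
      rw [sub_add_cancel] at h4
      linarith
    · rintro ⟨⟨h1, h2, _⟩, h3⟩
      exact ⟨h1, h2, h3⟩
  have hF : ∀ Y : E3, ‖P.chi i (Fpl P Y)‖ ≤ 1 ↔ ‖P.chi i Y‖ ≤ 1 := by
    intro Y
    rw [hchi, hchi, Fpl_norm_le h.v le_rfl]
    constructor
    · rintro ⟨h1, h2⟩
      rw [Fpl_z h.v h1] at h2
      exact ⟨h1, h2⟩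
    · rintro ⟨h1, h2⟩
      rw [Fpl_z h.v h1]
      exact ⟨h1, h2⟩
  have hN : ∀ Y : E3, ‖P.chi i (ThN P P' Y)‖ ≤ 1 ↔ ‖P.chi i Y‖ ≤ 1 := by
    intro Y
    rw [chi_le h.v, chi_le h.v, ThN_fst h.v h.v' le_rfl, ThN_snd]
    have := VV_strip_iff h.v h.v' hi 1 (Y.1, Y.2.2)
    rw [show |(ThN P P' Y).2.2 - P.cen i| ≤ P.hh ↔ |Y.2.2 - P.cen i| ≤ P.hh from this]
  have hT : ∀ Y : E3, ‖P.chi i (ThT P P' P'' Y)‖ ≤ 1 ↔ ‖P.chi i Y‖ ≤ 1 := by
    intro Y
    rw [chi_le h.v, chi_le h.v, ThT_fst h le_rfl, ThT_snd h le_rfl, ThT_thd]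
  have hE : ∀ Y : E3, ‖P.chi i (ThE P Y)‖ ≤ 1 ↔ ‖P.chi i Y‖ ≤ 1 := by
    intro Y
    by_cases hY : |Y.1| ≤ P.lam
    · rw [ThE_id h.v hY]
    · rw [chi_le h.v, chi_le h.v]
      constructor
      · rintro ⟨h1, -⟩
        exact absurd h1 hY
      · rintro ⟨h1, -⟩
        exact absurd h1 hY
  unfold Blk
  rw [hF, hN, hT, hE]

namespace Block

/-- the left hand side of the matching -/
theorem match_left {P P' P'' : Par} (h : Compat P P' P'')
    {i : ℕ} (hi : i < P.N) {X : E3} (hX : ‖X‖ ≤ 1) :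
    ThN P P' (ThT P P' P'' (ThE P (P.ch i X))) =
      P.ch i ((ThN P' P'' X).1, rot (π * cut P'.th ‖(ThN P' P'' X).2‖) (ThN P' P'' X).2) := by
  have hl := lam_pos0 h.v
  have hh0 := (hh_pos h.v).1
  obtain ⟨hx, hy, hz⟩ := norm3_le_iff.mp hX
  have hcb := cen_bound h.v hi
  have e1 : ThE P (P.ch i X) = P.ch i X := by
    apply ThE_id h.v
    change |P.lam * X.2.2| ≤ P.lam
    rw [abs_mul, abs_of_pos hl]
    nlinarith
  have e2 : ThT P P' P'' (P.ch i X) = P.ch i (ThN P' P'' X) := by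
    unfold ThT
    have hu : P.uf |(P.ch i X).2.2| = 1 := by
      apply uf_inner h.v
      change |P.cen i + P.hh * X.2.1| ≤ P.lam
      refine (abs_add_le _ _).trans ?_
      rw [abs_mul, abs_of_pos hh0]
      nlinarith
    have hw : ((-((P.ch i X).2.1 / P.lam), (P.ch i X).1 / P.lam) : E2) = (X.1, X.2.2) := by
      ext
      · change -(-(P.lam * X.1) / P.lam) = X.1
        field_simp
      · change P.lam * X.2.2 / P.lam = X.2.2
        field_simp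
    rw [hu, hw]
    rfl
  rw [e1, e2]
  set Y := ThN P' P'' X with hY
  have hy' : |Y.2.1| ≤ 1 := hy
  have hst : |((P.ch i Y).1, (P.ch i Y).2.2).2 - P.cen i| ≤ P.hh := by
    change |P.cen i + P.hh * Y.2.1 - P.cen i| ≤ P.hh
    rw [add_sub_cancel_left, abs_mul, abs_of_pos hh0]
    nlinarith
  have e3 := (VV_strip h.v h.v' hi (u := 1) hst).1
  have e4 : nz P i ((P.ch i Y).1, (P.ch i Y).2.2) = Y.2 := by
    unfold nz
    ext
    · change (P.cen i + P.hh * Y.2.1 - P.cen i) / P.hh = Y.2.1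
      rw [add_sub_cancel_left, mul_div_cancel_left₀ _ hh0.ne']
    · change P.lam * Y.2.2 / P.lam = Y.2.2
      rw [mul_div_cancel_left₀ _ hl.ne']
  unfold ThN
  rw [e3, gst_eq, e4, one_mul]
  rfl

theorem cut_one {P : Par} (hP : P.Valid) {r : ℝ} (h : 1 ≤ r) : cut P.th r = 0 :=
  cut_zero (th_pos hP) (by linarith [th_pos hP])

theorem ThT_id {P P' P'' : Par} (h : Compat P P' P'') {X : E3} (hX : ‖X‖ = 1) :
    ThT P P' P'' X = X := by
  have hl := lam_pos0 h.v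
  have hl1 := lam_pos h.v
  have hl' := lam_pos h.v'
  have ht := th_pos h.v''
  have key : VV P' P'' (P.uf |X.2.2|) (-(X.2.1 / P.lam), X.1 / P.lam) =
      (-(X.2.1 / P.lam), X.1 / P.lam) := by
    have h1 : ‖X‖ ≤ 1 := hX.le
    by_cases hz : |X.2.2| = 1
    · rw [hz, uf_one', VV_zero h.v']
    · by_cases hy : |X.2.1| = 1
      · apply VV_far h.v' h.v''
        change _ ≤ |-(X.2.1 / P.lam)|
        rw [abs_neg, abs_div, abs_of_pos hl, hy]
        have : 1 ≤ 1 / P.lam := by rw [le_div_iff₀ hl]; linarith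
        nlinarith
      · have hx : |X.1| = 1 := by
          rw [Prod.norm_def, Prod.norm_def] at hX
          rcases max_choice ‖X.1‖ (max ‖X.2.1‖ ‖X.2.2‖) with h2 | h2
          · rw [h2] at hX; exact hX
          · rw [h2] at hX
            rcases max_choice ‖X.2.1‖ ‖X.2.2‖ with h3 | h3
            · rw [h3] at hX; exact absurd hX hy
            · rw [h3] at hX; exact absurd hX hz
        apply VV_far2 h.v' h.v''
        change _ ≤ |X.1 / P.lam|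
        rw [abs_div, abs_of_pos hl, hx]
        have : 1 ≤ 1 / P.lam := by rw [le_div_iff₀ hl]; linarith
        linarith
  unfold ThT
  rw [key]
  ext
  · change P.lam * (X.1 / P.lam) = X.1
    field_simp
  · change -(P.lam * -(X.2.1 / P.lam)) = X.2.1
    field_simp
  · rfl

theorem ThN_id1 {P P' : Par} (hP : P.Valid) (hP' : P'.Valid) {X : E3} (hX : 1 ≤ |X.1|) :
    ThN P P' X = X := by
  have hl := lam_pos hP
  have ht := th_pos hP'
  unfold ThN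
  rw [VV_far hP hP' (q := (X.1, X.2.2)) (by change _ ≤ |X.1|; nlinarith)]

theorem ThN_id2 {P P' : Par} (hP : P.Valid) (hP' : P'.Valid) {X : E3} (hX : 1 ≤ |X.2.2|) :
    ThN P P' X = X := by
  have hl := lam_pos hP
  unfold ThN
  rw [VV_far2 hP hP' (q := (X.1, X.2.2)) (by change _ ≤ |X.2.2|; linarith)]

/-- the right hand side of the matching -/
theorem match_right {P P' P'' : Par} (h : Compat P P' P'') {X : E3} (hX : ‖X‖ = 1) :
    ThN P P' (ThT P P' P'' (ThE P X)) =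
      ((ThN P P' X).1, rot (π * cut P.th ‖(ThN P P' X).2‖) (ThN P P' X).2) ∧
    ‖ThN P P' (ThT P P' P'' (ThE P X))‖ = 1 := by
  have hl := lam_pos h.v
  have hE : ‖ThE P X‖ = 1 := (norm_ThE P X).trans hX
  rw [ThT_id h hE]
  obtain ⟨hx, hy, hz⟩ := norm3_le_iff.mp hX.le
  by_cases hx1 : 1 ≤ |X.1|
  · have hx2 : |X.1| = 1 := le_antisymm hx hx1
    have e1 : ThE P X = (X.1, rot (π * cut P.th ‖X.2‖) X.2) := by
      unfold ThE
      rw [hx2, sf_one, show 2 * (π / 2) * cut P.th ‖X.2‖ = π * cut P.th ‖X.2‖ by ring]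
    rw [ThN_id1 h.v h.v' (X := X) hx1, ThN_id1 h.v h.v' (X := ThE P X) hx1]
    exact ⟨e1, hE⟩
  · have h2 : ‖X.2‖ = 1 := by
      rw [Prod.norm_def] at hX
      rcases max_choice ‖X.1‖ ‖X.2‖ with h2 | h2
      · rw [h2] at hX; exact absurd hX.ge hx1
      · rw [h2] at hX; exact hX
    have e1 : ThE P X = X := by
      unfold ThE
      rw [cut_one h.v h2.ge, mul_zero, rot_zero]
    rw [e1]
    have h3 : |X.2.1| = 1 ∨ |X.2.2| = 1 := by
      rw [Prod.norm_def] at h2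
      rcases max_choice ‖X.2.1‖ ‖X.2.2‖ with h3 | h3
      · rw [h3] at h2; exact Or.inl h2
      · rw [h3] at h2; exact Or.inr h2
    have h4 : 1 ≤ ‖(ThN P P' X).2‖ := by
      rcases h3 with h3 | h3
      · exact h3.ge.trans (norm_fst_le (ThN P P' X).2)
      · rw [ThN_id2 h.v h.v' h3.ge]
        exact h2.ge
    constructor
    · rw [cut_one h.v h4, mul_zero, rot_zero]
    · apply le_antisymm
      · rw [norm3_le_iff, ThN_fst h.v h.v' hl.2.le, ThN_thd h.v h.v' hl.2.le, ThN_snd]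
        exact ⟨hx, hy, hz⟩
      · exact h4.trans (norm_snd_le _)

end Block

theorem Blk_match {P P' P'' P''' : Par} (h : Compat P P' P'') (h' : Compat P' P'' P''')
    (hm : P'.mo = P.mi) {i : ℕ} (hi : i < P.N) {X : E3} (hX : ‖X‖ = 1) :
    Blk P P' P'' (P.ch i X) = P.ch i (Blk P' P'' P''' X) := by
  obtain ⟨h1, h2⟩ := match_right h' hX
  unfold Blk
  rw [match_left h hi hX.le, ← h1]
  exact Fpl_match h.v h.v' hm hi h2

end Pool.Agent.JAC
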