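import Pool.Agent.Lib.MP_3b5712_an.TreeOf
import Pool.Agent.Lib.MP_3b5712_an.Block

set_option autoImplicit false

open Filter Topology Set Real MeasureTheory

namespace Pool.Agent.JAC

theorem norm3 (X : E3) : ‖X‖ = max |X.1| (max |X.2.1| |X.2.2|) := by
  rw [Prod.norm_def, Prod.norm_def]
  rfl

/-- the charts contract: the three coordinates of the difference -/
theorem ch_sub (P : Par) (i : ℕ) (X Y : E3) : P.ch i X - P.ch i Y =
    (P.lam * (X.2.2 - Y.2.2), -(P.lam * (X.1 - Y.1)), P.hh * (X.2.1 - Y.2.1)) := by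
  unfold Par.ch
  ext
  · simp only [Prod.fst_sub]; ring
  · simp only [Prod.snd_sub, Prod.fst_sub]; ring
  · simp only [Prod.snd_sub]; ring

theorem mul_abs_le_of {a b x : ℝ} (ha : 0 ≤ a) (hab : a ≤ b) : |a * x| ≤ b * |x| := by
  rw [abs_mul, abs_of_nonneg ha]
  exact mul_le_mul_of_nonneg_right hab (abs_nonneg x)

/-- TASK N1 -/
theorem treeOf_ok (P : ℕ → Par) (h : ∀ k, Compat (P k) (P (k + 1)) (P (k + 2)))
    (hm : ∀ k, (P (k + 1)).mo = (P k).mi) : (treeOf P).Ok := by
  have hl0 : ∀ k, 0 < (P k).lam := fun k => by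
    have := lam_pos (h k).v
    linarith
  have hl1 : ∀ k, (P k).lam < 1 := fun k => (lam_pos (h k).v).2
  have hh0 : ∀ k, 0 < (P k).hh := fun k => (hh_pos (h k).v).1
  have hh1 : ∀ k, (P k).hh ≤ 1 / 2 := fun k => (hh_pos (h k).v).2
  refine
    { good := fun k => Blk_good (h k)
      ball := fun k x => Blk_ball (h k) x
      cci := fun k i x _ => ch_chi (h k).v i x
      cic := fun k i x _ => chi_ch (h k).v i x
      clip := ?_
      cilip := ?_
      box := fun k i x hi => Blk_box (h k) hi x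
      mat := fun k i x hi hx => Blk_match (h k) (h (k + 1)) (hm k) hi hx
      ins := ?_
      dis := ?_
      con := ?_ }
  · intro k i x y _
    show ‖(P k).ch i x - (P k).ch i y‖ ≤ ‖x - y‖
    rw [ch_sub, norm3, norm3 (x - y)]
    simp only [Prod.fst_sub, Prod.snd_sub]
    have h1 : |(P k).lam * (x.2.2 - y.2.2)| ≤ |x.2.2 - y.2.2| := by
      have := mul_abs_le_of (x := x.2.2 - y.2.2) (hl0 k).le (hl1 k).le
      linarith
    have h2 : |(P k).lam * (x.1 - y.1)| ≤ |x.1 - y.1| := by
      have := mul_abs_le_of (x := x.1 - y.1) (hl0 k).le (hl1 k).le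
      linarith
    have h3 : |(P k).hh * (x.2.1 - y.2.1)| ≤ |x.2.1 - y.2.1| := by
      have := mul_abs_le_of (x := x.2.1 - y.2.1) (hh0 k).le (hh1 k)
      linarith [abs_nonneg (x.2.1 - y.2.1)]
    rw [abs_neg]
    apply max_le
    · exact h1.trans ((le_max_right _ _).trans (le_max_right _ _))
    apply max_le
    · exact h2.trans (le_max_left _ _)
    · exact h3.trans ((le_max_left _ _).trans (le_max_right _ _))
  · intro k i _
    refine ⟨1 / (P k).lam + 1 / (P k).hh, ?_⟩
    intro x y
    show ‖(P k).chi i x - (P k).chi i y‖ ≤ _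
    have hl := hl0 k
    have hh := hh0 k
    have hn := norm3 (x - y)
    simp only [Prod.fst_sub, Prod.snd_sub] at hn
    have n1 : |x.1 - y.1| ≤ ‖x - y‖ := by rw [hn]; exact le_max_left _ _
    have n2 : |x.2.1 - y.2.1| ≤ ‖x - y‖ := by
      rw [hn]; exact (le_max_left _ _).trans (le_max_right _ _)
    have n3 : |x.2.2 - y.2.2| ≤ ‖x - y‖ := by
      rw [hn]; exact (le_max_right _ _).trans (le_max_right _ _)
    have hN := norm_nonneg (x - y)
    have e : (P k).chi i x - (P k).chi i y = (-((x.2.1 - y.2.1) / (P k).lam),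
        (x.2.2 - y.2.2) / (P k).hh, (x.1 - y.1) / (P k).lam) := by
      unfold Par.chi
      ext
      · simp only [Prod.fst_sub]; ring
      · simp only [Prod.snd_sub, Prod.fst_sub]; ring
      · simp only [Prod.snd_sub]; ring
    have hL : 0 ≤ 1 / (P k).lam * ‖x - y‖ := by positivity
    have hH : 0 ≤ 1 / (P k).hh * ‖x - y‖ := by positivity
    rw [e, norm3]
    simp only [abs_neg, abs_div, abs_of_pos hl, abs_of_pos hh]
    rw [add_mul]
    apply max_le
    · have : |x.2.1 - y.2.1| / (P k).lam ≤ 1 / (P k).lam * ‖x - y‖ := by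
        rw [div_mul_eq_mul_div, one_mul]
        exact div_le_div_of_nonneg_right n2 hl.le
      linarith
    apply max_le
    · have : |x.2.2 - y.2.2| / (P k).hh ≤ 1 / (P k).hh * ‖x - y‖ := by
        rw [div_mul_eq_mul_div, one_mul]
        exact div_le_div_of_nonneg_right n3 hh.le
      linarith
    · have : |x.1 - y.1| / (P k).lam ≤ 1 / (P k).lam * ‖x - y‖ := by
        rw [div_mul_eq_mul_div, one_mul]
        exact div_le_div_of_nonneg_right n1 hl.le
      linarith
  · intro k i x hi hx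
    show ‖(P k).ch i x‖ < 1
    have hn := norm3 x
    rw [hn] at hx
    have n1 : |x.1| ≤ 1 := (le_max_left _ _).trans hx
    have n2 : |x.2.1| ≤ 1 := ((le_max_left _ _).trans (le_max_right _ _)).trans hx
    have n3 : |x.2.2| ≤ 1 := ((le_max_right _ _).trans (le_max_right _ _)).trans hx
    have hl := hl0 k
    have hl' := hl1 k
    have hc := cen_bound (h k).v hi
    rw [norm3]
    unfold Par.ch
    simp only
    apply max_lt
    · have := mul_abs_le_of (x := x.2.2) hl.le le_rfl
      nlinarith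
    apply max_lt
    · have := mul_abs_le_of (x := x.1) hl.le le_rfl
      rw [abs_neg]
      nlinarith
    · have h1 := mul_abs_le_of (x := x.2.1) (hh0 k).le le_rfl
      have h2 := abs_add_le ((P k).cen i) ((P k).hh * x.2.1)
      have h3 := hh0 k
      nlinarith
  · intro k i j x hi hj h1 h2
    by_contra hij
    have h1' := (chi_le (h k).v i x).1 h1
    have h2' := (chi_le (h k).v j x).1 h2
    have h3 := cen_disj (h k).v hij h1'.2.2
    exact absurd h2'.2.2 (not_le.2 h3)
  · intro k i j l x y _ _ _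
    show ‖(P k).ch i ((P (k + 1)).ch j ((P (k + 2)).ch l x)) -
      (P k).ch i ((P (k + 1)).ch j ((P (k + 2)).ch l y))‖ ≤ _
    have e1 := ch_sub (P (k + 2)) l x y
    have e2 := ch_sub (P (k + 1)) j ((P (k + 2)).ch l x) ((P (k + 2)).ch l y)
    rw [ch_sub]
    set X := (P (k + 2)).ch l x with hX
    set Y := (P (k + 2)).ch l y with hY
    have a1 : X.1 - Y.1 = (P (k + 2)).lam * (x.2.2 - y.2.2) := by
      have := congrArg Prod.fst e1
      simpa using this
    have a2 : X.2.1 - Y.2.1 = -((P (k + 2)).lam * (x.1 - y.1)) := by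
      have := congrArg (fun v : E3 => v.2.1) e1
      simpa using this
    have a3 : X.2.2 - Y.2.2 = (P (k + 2)).hh * (x.2.1 - y.2.1) := by
      have := congrArg (fun v : E3 => v.2.2) e1
      simpa using this
    set X' := (P (k + 1)).ch j X with hX'
    set Y' := (P (k + 1)).ch j Y with hY'
    have b1 : X'.1 - Y'.1 = (P (k + 1)).lam * (X.2.2 - Y.2.2) := by
      have := congrArg Prod.fst e2
      simpa using this
    have b2 : X'.2.1 - Y'.2.1 = -((P (k + 1)).lam * (X.1 - Y.1)) := by
      have := congrArg (fun v : E3 => v.2.1) e2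
      simpa using this
    have b3 : X'.2.2 - Y'.2.2 = (P (k + 1)).hh * (X.2.1 - Y.2.1) := by
      have := congrArg (fun v : E3 => v.2.2) e2
      simpa using this
    rw [b1, b2, b3, a1, a2, a3]
    have key : ∀ a b c t : ℝ, 0 ≤ a → a ≤ 1 → 0 ≤ b → b ≤ 1 → 0 ≤ c → c ≤ 1 / 2 →
        |t| ≤ ‖x - y‖ → |a * b * c * t| ≤ 1 / 2 * ‖x - y‖ := by
      intro a b c t ha ha1 hb hb1 hc hc1 ht
      have h1 : a * b ≤ 1 := mul_le_one₀ ha1 hb hb1
      have h2 : a * b * c ≤ 1 * (1 / 2) := mul_le_mul h1 hc1 hc zero_le_one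
      have h3 := mul_abs_le_of (x := t) (show 0 ≤ a * b * c by positivity) h2
      calc |a * b * c * t| ≤ 1 * (1 / 2) * |t| := h3
        _ ≤ 1 * (1 / 2) * ‖x - y‖ := by gcongr
        _ = 1 / 2 * ‖x - y‖ := by ring
    have hn := norm3 (x - y)
    simp only [Prod.fst_sub, Prod.snd_sub] at hn
    have n1 : |x.1 - y.1| ≤ ‖x - y‖ := by rw [hn]; exact le_max_left _ _
    have n2 : |x.2.1 - y.2.1| ≤ ‖x - y‖ := by
      rw [hn]; exact (le_max_left _ _).trans (le_max_right _ _)
    have n3 : |x.2.2 - y.2.2| ≤ ‖x - y‖ := by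
      rw [hn]; exact (le_max_right _ _).trans (le_max_right _ _)
    rw [norm3]
    simp only
    apply max_le
    · have := key (P k).lam (P (k + 2)).lam (P (k + 1)).hh (x.1 - y.1) (hl0 _).le (hl1 _).le
        (hl0 _).le (hl1 _).le (hh0 _).le (hh1 _) n1
      refine le_trans (le_of_eq ?_) this
      rw [← abs_neg]
      congr 1
      ring
    apply max_le
    · have := key (P k).lam (P (k + 1)).lam (P (k + 2)).hh (x.2.1 - y.2.1) (hl0 _).le (hl1 _).le
        (hl0 _).le (hl1 _).le (hh0 _).le (hh1 _) n2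
      refine le_trans (le_of_eq ?_) this
      rw [← abs_neg]
      congr 1
      ring
    · have := key (P (k + 1)).lam (P (k + 2)).lam (P k).hh (x.2.2 - y.2.2) (hl0 _).le (hl1 _).le
        (hl0 _).le (hl1 _).le (hh0 _).le (hh1 _) n3
      refine le_trans (le_of_eq ?_) this
      rw [← abs_neg]
      congr 1
      ring

end Pool.Agent.JAC
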