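import Pool.Agent.Lib.MP_3b5712_an.Core

set_option autoImplicit false

open Filter Topology Set MeasureTheory

namespace Pool.Agent.JAC

theorem LipAt.exists_lipschitzOn {X Y : Type*} [PseudoMetricSpace X] [PseudoMetricSpace Y]
    {K : ℝ} {f : X → Y} {x : X} (h : LipAt K f x) :
    ∃ K : NNReal, ∃ t ∈ 𝓝 x, LipschitzOnWith K f t := by
  obtain ⟨U, hU, h⟩ := h
  refine ⟨K.toNNReal, U, hU, ?_⟩
  refine LipschitzOnWith.of_dist_le_mul fun a ha b hb => ?_
  refine (h a ha b hb).trans ?_
  gcongr
  exact Real.le_coe_toNNReal K

section weak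
set_option linter.unusedSectionVars false
variable {E : Type*} [NormedAddCommGroup E] [NormedSpace ℝ E] [FiniteDimensional ℝ E]

/-- locally Lipschitz with compact support implies Lipschitz -/
theorem lipschitz_of_compactSupport {u : E → ℝ} (hu : LocallyLipschitz u)
    (hs : HasCompactSupport u) : ∃ K : NNReal, LipschitzWith K u := by
  have : ProperSpace E := FiniteDimensional.proper_real E
  have hcomp : IsCompact (Metric.cthickening 1 (tsupport u)) := IsCompact.cthickening hs
  obtain ⟨K, hK⟩ := LocallyLipschitzOn.exists_lipschitzOnWith_of_compact hcomp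
    (hu.locallyLipschitzOn (s := Metric.cthickening 1 (tsupport u)))
  obtain ⟨M, hM⟩ := hu.continuous.bounded_above_of_compact_support hs
  have hM0 : 0 ≤ M := (norm_nonneg _).trans (hM 0)
  have key : ∀ x y, x ∈ tsupport u → dist (u x) (u y) ≤ max (K : ℝ) M * dist x y := by
    intro x y hx
    have hxB : x ∈ Metric.cthickening 1 (tsupport u) := Metric.self_subset_cthickening _ hx
    by_cases hy : y ∈ Metric.cthickening 1 (tsupport u)
    · refine (hK.dist_le_mul x hxB y hy).trans ?_
      gcongr
      exact le_max_left _ _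
    · have hy0 : u y = 0 := by
        by_contra hne
        exact hy (Metric.self_subset_cthickening _ (subset_tsupport _ hne))
      have hd : 1 < dist x y := by
        by_contra hle
        push Not at hle
        exact hy (Metric.mem_cthickening_of_dist_le y x 1 _ hx (by rw [dist_comm]; exact hle))
      rw [hy0, dist_zero_right]
      calc ‖u x‖ ≤ M := hM x
        _ ≤ max (K : ℝ) M * 1 := by rw [mul_one]; exact le_max_right _ _
        _ ≤ max (K : ℝ) M * dist x y := by gcongr
  refine ⟨(max (K : ℝ) M).toNNReal, LipschitzWith.of_dist_le_mul fun x y => ?_⟩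
  have hc : (((max (K : ℝ) M).toNNReal : NNReal) : ℝ) = max (K : ℝ) M :=
    Real.coe_toNNReal _ (le_max_of_le_right hM0)
  rw [hc]
  by_cases hx : x ∈ tsupport u
  · exact key x y hx
  · by_cases hy : y ∈ tsupport u
    · rw [dist_comm, dist_comm x y]; exact key y x hy
    · have h1 : u x = 0 := image_eq_zero_of_notMem_tsupport hx
      have h2 : u y = 0 := image_eq_zero_of_notMem_tsupport hy
      rw [h1, h2, dist_self]
      positivity

/-- locally Lipschitz functions are differentiable almost everywhere -/
theorem ae_differentiable_of_locallyLipschitz [MeasurableSpace E] [BorelSpace E]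
    (μ : Measure E) [μ.IsAddHaarMeasure] {u : E → ℝ} (hu : LocallyLipschitz u) :
    ∀ᵐ x ∂μ, DifferentiableAt ℝ u x := by
  rw [ae_iff]
  apply measure_null_of_locally_null
  intro x _
  obtain ⟨K, t, ht, hK⟩ := hu x
  refine ⟨interior t ∩ {x | ¬ DifferentiableAt ℝ u x}, ?_, ?_⟩
  · exact inter_mem (mem_nhdsWithin_of_mem_nhds (interior_mem_nhds.mpr ht)) self_mem_nhdsWithin
  · have h1 := (hK.mono (interior_subset (s := t))).ae_differentiableWithinAt_of_mem (μ := μ)
    rw [ae_iff] at h1
    refine measure_mono_null ?_ h1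
    rintro y ⟨hy1, hy2⟩ hy3
    exact hy2 ((hy3 hy1).differentiableAt (isOpen_interior.mem_nhds hy1))

/-- the soft truncation -/
noncomputable def trc (e t : ℝ) : ℝ := t - clip e t

theorem trc_lip (e s t : ℝ) : |trc e s - trc e t| ≤ |s - t| := by
  unfold trc clip
  have h : ∀ a b : ℝ, a ≤ b → 0 ≤ (b - max (-e) (min e b)) - (a - max (-e) (min e a)) ∧
      (b - max (-e) (min e b)) - (a - max (-e) (min e a)) ≤ b - a := by
    intro a b hab
    rcases le_total e b with h1 | h1 <;> rcases le_total e a with h2 | h2 <;>
    simp only [min_eq_left h1, min_eq_right h1, min_eq_left h2, min_eq_right h2] <;>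
    rcases le_total (-e) e with h3 | h3 <;> rcases le_total (-e) a with h4 | h4 <;>
    rcases le_total (-e) b with h5 | h5 <;>
    simp only [max_eq_left h3, max_eq_right h3, max_eq_left h4, max_eq_right h4,
      max_eq_left h5, max_eq_right h5] <;> constructor <;> linarith
  rcases le_total s t with hst | hst
  · obtain ⟨h1, h2⟩ := h s t hst
    rw [abs_sub_comm, abs_sub_comm s t, abs_of_nonneg h1, abs_of_nonneg (by linarith)]
    exact h2
  · obtain ⟨h1, h2⟩ := h t s hst
    rw [abs_of_nonneg h1, abs_of_nonneg (by linarith)]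
    exact h2

theorem trc_lipschitz (e : ℝ) : LipschitzWith 1 (trc e) :=
  LipschitzWith.of_dist_le_mul fun s t => by
    simpa [Real.dist_eq] using trc_lip e s t

theorem trc_small {e t : ℝ} (h : |t| ≤ e) : trc e t = 0 := by
  unfold trc clip
  rw [abs_le] at h
  rw [min_eq_right h.2, max_eq_right h.1, sub_self]

theorem trc_big {e t : ℝ} (he : 0 ≤ e) (h : e ≤ t) : trc e t = t - e := by
  unfold trc clip
  rw [min_eq_left h, max_eq_right (by linarith)]

theorem trc_neg (e t : ℝ) (he : 0 ≤ e) : trc e (-t) = - trc e t := by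
  unfold trc clip
  rcases le_total e t with h1 | h1 <;> rcases le_total e (-t) with h2 | h2 <;>
    simp only [min_eq_left h1, min_eq_right h1, min_eq_left h2, min_eq_right h2] <;>
    rcases le_total (-e) e with h3 | h3 <;> rcases le_total (-e) t with h4 | h4 <;>
    rcases le_total (-e) (-t) with h5 | h5 <;>
    simp only [max_eq_left h3, max_eq_right h3, max_eq_left h4, max_eq_right h4,
      max_eq_left h5, max_eq_right h5] <;> linarith

theorem trc_neg_big {e t : ℝ} (he : 0 ≤ e) (h : e ≤ -t) : trc e t = t + e := by
  have := trc_neg e (-t) he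
  rw [neg_neg, trc_big he h] at this
  rw [this]; ring

theorem trc_abs_le {e : ℝ} (he : 0 ≤ e) (t : ℝ) : |trc e t| ≤ |t| := by
  have := trc_lip e t 0
  rwa [trc_small (t := 0) (by simpa using he), sub_zero, sub_zero] at this

theorem trc_dist {e : ℝ} (he : 0 ≤ e) (t : ℝ) : |trc e t - t| ≤ e := by
  unfold trc clip
  rw [sub_sub_cancel_left, abs_neg, abs_le]
  constructor
  · exact le_max_left _ _
  · exact max_le (by linarith) (min_le_left _ _)

/-- the derivative of the truncation -/
theorem fderiv_trc {h : E → ℝ} (hc : Continuous h) {e : ℝ} (he : 0 < e) (x : E) :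
    fderiv ℝ (fun y => trc e (h y)) x = if e < |h x| then fderiv ℝ h x else 0 := by
  split_ifs with hx
  · rcases le_total 0 (h x) with h0 | h0
    · rw [abs_of_nonneg h0] at hx
      have hev : (fun y => trc e (h y)) =ᶠ[𝓝 x] fun y => h y - e := by
        filter_upwards [hc.continuousAt.eventually (lt_mem_nhds hx)] with y hy
        exact trc_big he.le (le_of_lt hy)
      rw [hev.fderiv_eq, fderiv_sub_const]
    · rw [abs_of_nonpos h0] at hx
      have hev : (fun y => trc e (h y)) =ᶠ[𝓝 x] fun y => h y + e := by
        filter_upwards [hc.continuousAt.eventually (gt_mem_nhds (show h x < -e by linarith))]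
          with y hy
        exact trc_neg_big he.le (by linarith)
      rw [hev.fderiv_eq, fderiv_add_const]
  · push Not at hx
    rcases lt_or_eq_of_le hx with hx | hx
    · have hev : (fun y => trc e (h y)) =ᶠ[𝓝 x] fun _ => (0 : ℝ) := by
        filter_upwards [hc.abs.continuousAt.eventually (gt_mem_nhds hx)] with y hy
        exact trc_small hy.le
      rw [hev.fderiv_eq]
      simp
    · have h0 : trc e (h x) = 0 := trc_small hx.le
      rcases le_total 0 (h x) with h1 | h1
      · have hpos : 0 < h x := by rw [abs_of_nonneg h1] at hx; linarith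
        apply IsLocalMin.fderiv_eq_zero
        filter_upwards [hc.continuousAt.eventually (lt_mem_nhds hpos)] with y hy
        rw [h0]
        rcases le_total e (h y) with h2 | h2
        · rw [trc_big he.le h2]; linarith
        · rw [trc_small (abs_le.mpr ⟨by linarith, h2⟩)]
      · have hneg : h x < 0 := by rw [abs_of_nonpos h1] at hx; linarith
        apply IsLocalMax.fderiv_eq_zero
        filter_upwards [hc.continuousAt.eventually (gt_mem_nhds hneg)] with y hy
        rw [h0]
        rcases le_total e (-(h y)) with h2 | h2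
        · rw [trc_neg_big he.le h2]; linarith
        · rw [trc_small (abs_le.mpr ⟨by linarith, by linarith⟩)]

theorem trc_locallyLipschitz {C : Set E} {h : E → ℝ} (hc : Continuous h)
    (h0 : ∀ x ∈ C, h x = 0) (hl : ∀ x, x ∉ C → ∃ K, LipAt K h x) {e : ℝ} (he : 0 < e) :
    LocallyLipschitz (fun y => trc e (h y)) := by
  intro x
  by_cases hx : x ∈ C
  · refine ⟨0, {y | |h y| < e}, ?_, ?_⟩
    · apply hc.abs.continuousAt.eventually (gt_mem_nhds _)
      change |h x| < e
      rw [h0 x hx, abs_zero]
      exact he
    · refine LipschitzOnWith.of_dist_le_mul fun a ha b hb => ?_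
      rw [trc_small (le_of_lt ha), trc_small (le_of_lt hb)]
      simp
  · obtain ⟨K, hK⟩ := hl x hx
    obtain ⟨K, t, ht, hK⟩ := hK.exists_lipschitzOn
    exact ⟨1 * K, t, ht, (trc_lipschitz e).comp_lipschitzOnWith hK⟩

/-- integral of the derivative of a compactly supported Lipschitz function -/
theorem integral_fderiv_zero [MeasurableSpace E] [BorelSpace E]
    (μ : Measure E) [μ.IsAddHaarMeasure] {u : E → ℝ} (hu : LocallyLipschitz u)
    (hs : HasCompactSupport u) (v : E) : ∫ x, fderiv ℝ u x v ∂μ = 0 := by
  obtain ⟨K, hK⟩ := lipschitz_of_compactSupport hu hs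
  have h1 := LipschitzWith.integral_lineDeriv_mul_eq (μ := μ) (C := 0) (f := fun _ : E => (1 : ℝ))
    (LipschitzWith.const 1) hK hs (-v)
  have h2 : ∀ x : E, lineDeriv ℝ (fun _ : E => (1 : ℝ)) x (-v) = 0 := fun x => by
    rw [lineDeriv]; simp
  simp only [h2, zero_mul, integral_zero, mul_one, neg_neg] at h1
  rw [h1]
  apply integral_congr_ae
  filter_upwards [ae_differentiable_of_locallyLipschitz μ hu] with x hx
  exact hx.lineDeriv_eq_fderiv.symm

/-- TASK B: integration by parts for a continuous function which vanishes on a closed set `C`,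
is locally Lipschitz off `C` and has integrable derivative off `C`. -/
theorem weak_deriv' [MeasurableSpace E] [BorelSpace E] (μ : Measure E) [μ.IsAddHaarMeasure]
    (C : Set E) (hC : IsClosed C) (h : E → ℝ) (hc : Continuous h) (h0 : ∀ x ∈ C, h x = 0)
    (hl : ∀ x, x ∉ C → ∃ K, LipAt K h x)
    (Ω : Set E) (hΩ : IsOpen Ω) (v : E)
    (hint : ∫⁻ x in Ω \ C, ENNReal.ofReal |fderiv ℝ h x v| ∂μ < ⊤)
    (φ : E → ℝ) (hφ : ContDiff ℝ ((⊤ : ℕ∞) : WithTop ℕ∞) φ) (hs : HasCompactSupport φ)
    (hφΩ : tsupport φ ⊆ Ω) :
    ∫ x, h x * fderiv ℝ φ x v ∂μ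
      = -∫ x, ({x | h x ≠ 0}.indicator (fun x => fderiv ℝ h x v)) x * φ x ∂μ := by
  have hφc : Continuous φ := hφ.continuous
  have hφd : Continuous (fun x => fderiv ℝ φ x v) :=
    (hφ.continuous_fderiv (by simp)).clm_apply continuous_const
  have hφds : HasCompactSupport (fun x => fderiv ℝ φ x v) := hs.fderiv_apply ℝ v
  obtain ⟨M, hM⟩ := hφc.bounded_above_of_compact_support hs
  have hM0 : 0 ≤ M := (norm_nonneg _).trans (hM 0)
  have hmeas : Measurable (fun x => fderiv ℝ h x v) := measurable_fderiv_apply_const ℝ h v
  -- integrability of the product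
  have hG : Integrable (fun x => ({x | h x ≠ 0}.indicator (fun x => fderiv ℝ h x v)) x * φ x) μ := by
    have hΩC : MeasurableSet (Ω \ C) := hΩ.measurableSet.diff hC.measurableSet
    have hI : IntegrableOn (fun x => fderiv ℝ h x v) (Ω \ C) μ := by
      refine ⟨hmeas.aestronglyMeasurable, ?_⟩
      rw [hasFiniteIntegral_iff_norm]
      simpa [Real.norm_eq_abs] using hint
    have hI2 : Integrable (fun x => M * ((Ω \ C).indicator (fun x => fderiv ℝ h x v)) x) μ :=
      ((integrable_indicator_iff hΩC).mpr hI).const_mul M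
    refine hI2.mono ?_ ?_
    · refine AEStronglyMeasurable.mul ?_ hφc.aestronglyMeasurable
      refine Measurable.aestronglyMeasurable (hmeas.indicator ?_)
      exact (isOpen_ne.preimage hc).measurableSet
    · refine Eventually.of_forall fun x => ?_
      rw [norm_mul, norm_mul]
      by_cases hx : h x ≠ 0
      · by_cases hxφ : φ x = 0
        · rw [hxφ, norm_zero, mul_zero]; positivity
        · have hxΩ : x ∈ Ω := hφΩ (subset_tsupport _ hxφ)
          have hxC : x ∉ C := fun hxC => hx (h0 x hxC)
          rw [indicator_of_mem (show x ∈ {x | h x ≠ 0} from hx),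
            indicator_of_mem (show x ∈ Ω \ C from ⟨hxΩ, hxC⟩), mul_comm]
          gcongr
          exact (hM x).trans (le_abs_self M)
      · rw [indicator_of_notMem (show x ∉ {x | h x ≠ 0} from hx), norm_zero, zero_mul]
        positivity
  -- the identity for the truncated function
  have htr : ∀ e : ℝ, 0 < e →
      ∫ x, trc e (h x) * fderiv ℝ φ x v ∂μ =
        - ∫ x, ({x | e < |h x|}.indicator (fun x => fderiv ℝ h x v)) x * φ x ∂μ := by
    intro e he
    have hTL := trc_locallyLipschitz hc h0 hl he
    have hφL : LocallyLipschitz φ := (hφ.of_le (by simp)).locallyLipschitz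
    have hmul : LocallyLipschitz (fun p : ℝ × ℝ => p.1 * p.2) :=
      (contDiff_fst.mul contDiff_snd : ContDiff ℝ 1 (fun p : ℝ × ℝ => p.1 * p.2)).locallyLipschitz
    have huL : LocallyLipschitz (fun y => trc e (h y) * φ y) := hmul.comp (hTL.prodMk hφL)
    have hus : HasCompactSupport (fun y => trc e (h y) * φ y) := hs.mul_left
    have hz := integral_fderiv_zero μ huL hus v
    have hae : (fun x => fderiv ℝ (fun y => trc e (h y) * φ y) x v) =ᵐ[μ]
        fun x => trc e (h x) * fderiv ℝ φ x v +
          ({x | e < |h x|}.indicator (fun x => fderiv ℝ h x v)) x * φ x := by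
      filter_upwards [ae_differentiable_of_locallyLipschitz μ hTL] with x hx
      have hφx : DifferentiableAt ℝ φ x := (hφ.differentiable (by simp)).differentiableAt
      rw [fderiv_fun_mul hx hφx, fderiv_trc hc he]
      by_cases hxe : e < |h x|
      · rw [if_pos hxe, indicator_of_mem (show x ∈ {x | e < |h x|} from hxe)]
        simp [mul_comm]
      · rw [if_neg hxe, indicator_of_notMem (show x ∉ {x | e < |h x|} from hxe)]
        simp
    rw [integral_congr_ae hae] at hz
    have hI1 : Integrable (fun x => trc e (h x) * fderiv ℝ φ x v) μ :=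
      (hTL.continuous.mul hφd).integrable_of_hasCompactSupport hφds.mul_left
    have hI2 : Integrable (fun x => ({x | e < |h x|}.indicator (fun x => fderiv ℝ h x v)) x * φ x)
        μ := by
      refine hG.mono ?_ ?_
      · refine AEStronglyMeasurable.mul ?_ hφc.aestronglyMeasurable
        refine Measurable.aestronglyMeasurable (hmeas.indicator ?_)
        exact (isOpen_lt continuous_const hc.abs).measurableSet
      · refine Eventually.of_forall fun x => ?_
        by_cases hx : e < |h x|
        · have hx' : h x ≠ 0 := fun h' => by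
            rw [h', abs_zero] at hx; linarith
          rw [indicator_of_mem (show x ∈ {x | e < |h x|} from hx),
            indicator_of_mem (show x ∈ {x | h x ≠ 0} from hx')]
        · rw [indicator_of_notMem (show x ∉ {x | e < |h x|} from hx), zero_mul, norm_zero]
          positivity
    rw [integral_add hI1 hI2] at hz
    linarith
  -- the limit
  set e : ℕ → ℝ := fun n => 1 / ((n : ℝ) + 1) with he
  have hepos : ∀ n, 0 < e n := fun n => by rw [he]; positivity
  have helim : Tendsto e atTop (𝓝 0) := tendsto_one_div_add_atTop_nhds_zero_nat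
  have hL1 : Tendsto (fun n => ∫ x, trc (e n) (h x) * fderiv ℝ φ x v ∂μ) atTop
      (𝓝 (∫ x, h x * fderiv ℝ φ x v ∂μ)) := by
    apply tendsto_integral_of_dominated_convergence (fun x => |h x| * |fderiv ℝ φ x v|)
    · intro n
      exact ((trc_lipschitz (e n)).continuous.comp hc |>.mul hφd).aestronglyMeasurable
    · exact (hc.abs.mul hφd.abs).integrable_of_hasCompactSupport
        (hφds.comp_left (g := fun t : ℝ => |t|) abs_zero).mul_left
    · intro n
      refine Eventually.of_forall fun x => ?_
      rw [norm_mul, Real.norm_eq_abs, Real.norm_eq_abs]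
      exact mul_le_mul_of_nonneg_right (trc_abs_le (hepos n).le _) (abs_nonneg _)
    · refine Eventually.of_forall fun x => ?_
      apply Tendsto.mul_const
      rw [tendsto_iff_dist_tendsto_zero]
      refine squeeze_zero (fun _ => dist_nonneg) (fun n => ?_) helim
      rw [Real.dist_eq]
      exact trc_dist (hepos n).le _
  have hL2 : Tendsto (fun n => ∫ x, ({x | e n < |h x|}.indicator (fun x => fderiv ℝ h x v)) x * φ x
      ∂μ) atTop (𝓝 (∫ x, ({x | h x ≠ 0}.indicator (fun x => fderiv ℝ h x v)) x * φ x ∂μ)) := by
    apply tendsto_integral_of_dominated_convergence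
      (fun x => ‖({x | h x ≠ 0}.indicator (fun x => fderiv ℝ h x v)) x * φ x‖)
    · intro n
      refine AEStronglyMeasurable.mul ?_ hφc.aestronglyMeasurable
      refine Measurable.aestronglyMeasurable (hmeas.indicator ?_)
      exact (isOpen_lt continuous_const hc.abs).measurableSet
    · exact hG.norm
    · intro n
      refine Eventually.of_forall fun x => ?_
      by_cases hx : e n < |h x|
      · have hx' : h x ≠ 0 := fun h' => by
          rw [h', abs_zero] at hx; linarith [hepos n]
        rw [indicator_of_mem (show x ∈ {x | e n < |h x|} from hx),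
          indicator_of_mem (show x ∈ {x | h x ≠ 0} from hx')]
      · rw [indicator_of_notMem (show x ∉ {x | e n < |h x|} from hx), zero_mul, norm_zero]
        positivity
    · refine Eventually.of_forall fun x => ?_
      apply Tendsto.mul_const
      by_cases hx : h x = 0
      · have h1 : ∀ n, ({x | e n < |h x|}.indicator (fun x => fderiv ℝ h x v)) x = 0 := by
          intro n
          apply indicator_of_notMem
          change ¬ (e n < |h x|)
          rw [hx, abs_zero, not_lt]
          exact (hepos n).le
        rw [indicator_of_notMem (show x ∉ {x | h x ≠ 0} from fun h' => h' hx)]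
        simp only [h1]
        exact tendsto_const_nhds
      · rw [indicator_of_mem (show x ∈ {x | h x ≠ 0} from hx)]
        apply tendsto_const_nhds.congr'
        filter_upwards [helim.eventually (gt_mem_nhds (abs_pos.mpr hx))] with n hn
        rw [indicator_of_mem (show x ∈ {x | e n < |h x|} from hn)]
  have hL3 := hL2.neg
  refine tendsto_nhds_unique hL1 (hL3.congr fun n => ?_)
  exact (htr (e n) (hepos n)).symm

end weak

/-- TASK B: integration by parts for a continuous function which vanishes on a closed set `C`,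
is locally Lipschitz off `C` and has integrable derivative off `C`. -/
theorem weak_deriv {E : Type*} [NormedAddCommGroup E] [NormedSpace ℝ E] [FiniteDimensional ℝ E]
    [MeasurableSpace E] [BorelSpace E] (μ : Measure E) [μ.IsAddHaarMeasure]
    (C : Set E) (hC : IsClosed C) (h : E → ℝ) (hc : Continuous h) (h0 : ∀ x ∈ C, h x = 0)
    (hl : ∀ x, x ∉ C → ∃ K, LipAt K h x)
    (Ω : Set E) (hΩ : IsOpen Ω) (v : E)
    (hint : ∫⁻ x in Ω \ C, ENNReal.ofReal |fderiv ℝ h x v| ∂μ < ⊤)
    (φ : E → ℝ) (hφ : ContDiff ℝ ((⊤ : ℕ∞) : WithTop ℕ∞) φ) (hs : HasCompactSupport φ)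
    (hφΩ : tsupport φ ⊆ Ω) :
    ∫ x in Ω, h x * fderiv ℝ φ x v ∂μ
      = -∫ x in Ω, ({x | h x ≠ 0}.indicator (fun x => fderiv ℝ h x v)) x * φ x ∂μ := by
  rw [setIntegral_eq_integral_of_forall_compl_eq_zero, setIntegral_eq_integral_of_forall_compl_eq_zero]
  · exact weak_deriv' μ C hC h hc h0 hl Ω hΩ v hint φ hφ hs hφΩ
  · intro x hx
    rw [image_eq_zero_of_notMem_tsupport (fun h => hx (hφΩ h)), mul_zero]
  · intro x hx
    have h1 : x ∉ tsupport (fun x => fderiv ℝ φ x v) := by
      intro h
      exact hx (hφΩ (tsupport_fderiv_apply_subset ℝ v h))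
    have h2 : fderiv ℝ φ x v = 0 :=
      image_eq_zero_of_notMem_tsupport (f := fun x => fderiv ℝ φ x v) h1
    rw [h2, mul_zero]

end Pool.Agent.JAC
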