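import Pool.Agent.Lib.MP_3b5712_an.TreeMain
import Pool.Agent.Lib.MP_3b5712_an.TreeOk
import Pool.Agent.Lib.MP_3b5712_an.ERec
import Pool.Agent.Lib.MP_3b5712_an.Cantor
import Pool.Agent.Lib.MP_3b5712_an.Params
import Pool.Agent.Lib.MP_3b5712_an.Weak

set_option autoImplicit false

open Filter Topology Set MeasureTheory

namespace Pool.Agent.JAC

/-- local Lipschitz implies a.e. differentiable -/
theorem ae_diff_of_lipAt {E F : Type*} [NormedAddCommGroup E] [NormedSpace ℝ E]
    [FiniteDimensional ℝ E] [MeasurableSpace E] [BorelSpace E] [NormedAddCommGroup F]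
    [NormedSpace ℝ F] [FiniteDimensional ℝ F] (μ : Measure E) [μ.IsAddHaarMeasure]
    (C : Set E) (f : E → F) (hl : ∀ x, x ∉ C → ∃ K, LipAt K f x) :
    μ {x | x ∉ C ∧ ¬DifferentiableAt ℝ f x} = 0 := by
  have : SecondCountableTopology E := by
    have := FiniteDimensional.proper ℝ E
    infer_instance
  apply measure_null_of_locally_null
  rintro x ⟨hx, -⟩
  obtain ⟨K, U, hU, hK⟩ := hl x hx
  obtain ⟨r, hr, hrU⟩ := Metric.mem_nhds_iff.mp hU
  refine ⟨Metric.ball x r ∩ {x | x ∉ C ∧ ¬DifferentiableAt ℝ f x}, ?_, ?_⟩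
  · rw [inter_comm]
    exact inter_mem_nhdsWithin _ (Metric.ball_mem_nhds x hr)
  · have hLip : LipschitzOnWith (Real.toNNReal K) f (Metric.ball x r) := by
      apply LipschitzOnWith.of_dist_le_mul
      intro a ha b hb
      refine (hK a (hrU ha) b (hrU hb)).trans ?_
      gcongr
      exact Real.le_coe_toNNReal K
    have h1 := hLip.ae_differentiableWithinAt_of_mem (μ := μ)
    rw [ae_iff] at h1
    apply measure_mono_null _ h1
    rintro y ⟨hy, -, hnd⟩
    simp only [mem_ofPred_eq, not_forall]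
    refine ⟨hy, fun hd => hnd (hd.differentiableAt (Metric.isOpen_ball.mem_nhds hy))⟩

/-- identification of the two models of space -/
def toP (v : Fin 3 → ℝ) : E3 := (v 0, v 1, v 2)
def toF (X : E3) : Fin 3 → ℝ := ![X.1, X.2.1, X.2.2]

theorem toF_toP (v : Fin 3 → ℝ) : toF (toP v) = v := by
  funext i; fin_cases i <;> rfl

theorem toP_toF (X : E3) : toP (toF X) = X := rfl

theorem toF_apply (X : E3) (i : Fin 3) : toF X i = comp i X := by
  fin_cases i <;> rfl

theorem comp_toP (v : Fin 3 → ℝ) (i : Fin 3) : comp i (toP v) = v i := by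
  fin_cases i <;> rfl

theorem norm_toP (v : Fin 3 → ℝ) : ‖toP v‖ = ‖v‖ := by
  apply le_antisymm
  · simp only [toP, Prod.norm_def]
    refine max_le (norm_le_pi_norm v 0) (max_le (norm_le_pi_norm v 1) (norm_le_pi_norm v 2))
  · rw [pi_norm_le_iff_of_nonneg (norm_nonneg _)]
    intro i
    simp only [toP, Prod.norm_def]
    fin_cases i <;> simp

/-- linear isometry -/
noncomputable def toPL : (Fin 3 → ℝ) ≃ₗᵢ[ℝ] E3 where
  toFun := toP
  invFun := toF
  map_add' _ _ := rfl
  map_smul' _ _ := rfl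
  left_inv := toF_toP
  right_inv := toP_toF
  norm_map' := norm_toP

theorem mp_toP : MeasurePreserving toP volume volume := by
  have h1 := volume_preserving_piFinSuccAbove (fun _ : Fin 3 => ℝ) 0
  have h2 := volume_preserving_finTwoArrow ℝ
  have h3 : MeasurePreserving (Prod.map (id : ℝ → ℝ) (MeasurableEquiv.finTwoArrow (α := ℝ)))
      volume volume := (MeasurePreserving.id volume).prod h2
  have h4 := h3.comp h1
  exact h4

theorem lin_toP_single (j : Fin 3) : toP (Pi.single j (1 : ℝ)) = bas j := by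
  fin_cases j <;> simp [toP, bas]

theorem continuous_comp (i : Fin 3) : Continuous (comp i) := by
  fin_cases i
  · exact continuous_fst
  · exact continuous_fst.comp continuous_snd
  · exact continuous_snd.comp continuous_snd

theorem en_ge {l : Fin 3 → ℝ} (hl : ∀ i, 0 < l i) (f : E3 → E3) (X : E3) (i j : Fin 3) :
    |comp i (fderiv ℝ f X (bas j))| ≤ (l j / l i) * en l f X := by
  have h1 : l i / l j * |comp i (fderiv ℝ f X (bas j))| ≤ en l f X := by
    unfold en
    have hn : ∀ i j : Fin 3, 0 ≤ l i / l j * |comp i (fderiv ℝ f X (bas j))| := fun i j =>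
      mul_nonneg (div_nonneg (hl i).le (hl j).le) (abs_nonneg _)
    calc l i / l j * |comp i (fderiv ℝ f X (bas j))|
        ≤ ∑ j, l i / l j * |comp i (fderiv ℝ f X (bas j))| :=
          Finset.single_le_sum (f := fun j => l i / l j * |comp i (fderiv ℝ f X (bas j))|)
            (fun j _ => hn i j) (Finset.mem_univ j)
      _ ≤ _ := Finset.single_le_sum
            (f := fun i => ∑ j, l i / l j * |comp i (fderiv ℝ f X (bas j))|)
            (fun i _ => Finset.sum_nonneg (fun j _ => hn i j)) (Finset.mem_univ i)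
  have hi := hl i
  have hj := hl j
  calc |comp i (fderiv ℝ f X (bas j))|
      = (l j / l i) * (l i / l j * |comp i (fderiv ℝ f X (bas j))|) := by
        field_simp
    _ ≤ _ := by gcongr

theorem exists_f : ∃ (f : E3 → E3) (C R : Set E3),
    IsClosed C ∧ C ⊆ Metric.ball 0 1 ∧ 0 < volume C ∧ Continuous f ∧
    (∀ x, OpenAt f x) ∧ (∀ x y, ∀ᶠ z in 𝓝[≠] x, f z ≠ y) ∧ (∀ x ∈ C, f x = x) ∧
    (∀ x, x ∉ C → ∃ K, LipAt K f x) ∧
    IsOpen R ∧ R.Nonempty ∧ R ⊆ Metric.ball 0 1 ∧
    (∀ X ∈ R, f X = (X.1, -X.2.1, X.2.2) ∧ X.2.1 ≠ 0 ∧ X ∉ C) ∧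
    ∀ i j, ∫⁻ X in Metric.ball 0 1 \ C, ENNReal.ofReal |comp i (fderiv ℝ f X (bas j))| < ⊤ := by
  obtain ⟨C₀, hC₀, hblk⟩ := block_energy
  obtain ⟨P, l, c, hcomp, hmo, hl, hl', l0, l1, l2, hc, hprod, hsum⟩ := exists_params C₀ hC₀
  have hok := treeOf_ok P hcomp hmo
  obtain ⟨f, hf⟩ := Tree.main (treeOf P) hok
  have hU : ∀ n k, IsClosed ((treeOf P).U n k) := fun n k => Tree.isClosed_U _ hok n k
  have hV : ∀ k, (P k).Valid := fun k => (hcomp k).v
  have hen := energy_rec P hV f hf hU l hl l0 l1 l2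
    (fun k => ENNReal.ofReal (C₀ * (l k 0 / l k 2) + C₀ * (l k 2 / l k 1) * ((P k).th +
        ((P k).mu + (1 - (P k).g)) * bigL (P k) (P (k + 1)) (P (k + 2)))))
    (fun k => hblk _ _ _ (hcomp k) (l k) (hl k) (hl' k).1 (hl' k).2)
  have hpos := cantor_pos P hV hU c hc hprod
  have hCeq : (treeOf P).C 0 = ⋂ n, (treeOf P).U n 0 := by
    ext x; simp [Tree.C]
  have hCcl : IsClosed ((treeOf P).C 0) := by
    rw [hCeq]; exact isClosed_iInter (fun n => hU n 0)
  have hCball : (treeOf P).C 0 ⊆ Metric.ball 0 1 := by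
    intro x hx
    obtain ⟨i, hi, hxi⟩ := hx 1
    have hxi' : ‖(treeOf P).ci 0 i x‖ ≤ 1 := by
      simpa [Tree.U] using hxi
    have := hok.ins 0 i _ hi hxi'
    rw [hok.cci 0 i x hi] at this
    simpa using this
  have hlam0 : 0 < (P 0).lam := by
    have h1 := (hV 0).mu_le
    have h2 := (hV 0).mi_le
    have h3 := (hV 0).mo_th
    have h4 := (hV 0).th_le
    have h5 := (hV 0).mu_pos
    unfold Par.lam
    linarith
  have hlam1 : (P 0).lam < 1 := by
    have h5 := (hV 0).mu_pos
    unfold Par.lam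
    linarith
  -- the open set on which the map is a mirror
  set R : Set E3 := {X | (P 0).lam < X.1 ∧ X.1 < 1 ∧ 0 < X.2.1 ∧ X.2.1 < 1 / 2 ∧ |X.2.2| < 1 / 2}
    with hR
  have hRopen : IsOpen R := by
    have c1 : Continuous (fun X : E3 => X.1) := continuous_fst
    have c2 : Continuous (fun X : E3 => X.2.1) := continuous_fst.comp continuous_snd
    have c3 : Continuous (fun X : E3 => |X.2.2|) :=
      (continuous_snd.comp continuous_snd).abs
    exact (isOpen_lt continuous_const c1).inter ((isOpen_lt c1 continuous_const).inter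
      ((isOpen_lt continuous_const c2).inter ((isOpen_lt c2 continuous_const).inter
      (isOpen_lt c3 continuous_const))))
  have hnotbox : ∀ X ∈ R, ∀ i < (P 0).N, 1 ≤ ‖(treeOf P).ci 0 i X‖ := by
    intro X hX i hi
    by_contra hcon
    push Not at hcon
    have h1 := (chi_le (hV 0) i X).mp hcon.le
    have h2 := hX.1
    have h3 := le_abs_self X.1
    linarith [h1.1]
  have hnotC : ∀ X ∈ R, X ∉ (treeOf P).C 0 := by
    intro X hX hXC
    obtain ⟨i, hi, hxi⟩ := hXC 1
    have hxi' : ‖(treeOf P).ci 0 i X‖ ≤ 1 := by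
      simpa [Tree.U] using hxi
    have h1 := (chi_le (hV 0) i X).mp hxi'
    have h2 := hX.1
    have h3 := le_abs_self X.1
    linarith [h1.1]
  have hRmirror : ∀ X ∈ R, f 0 X = (X.1, -X.2.1, X.2.2) := by
    intro X hX
    rw [hf.out 0 X (hnotbox X hX)]
    obtain ⟨x, ζ⟩ := X
    obtain ⟨h1, h2, h3, h4, h5⟩ := hX
    simp only at h1 h2 h3 h4 h5
    have hxpos : 0 < x := hlam0.trans h1
    have hxabs : |x| = x := abs_of_pos hxpos
    have hζ : ‖ζ‖ ≤ 1 / 2 := by
      rw [Prod.norm_def]
      refine max_le ?_ ?_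
      · rw [Real.norm_eq_abs, abs_of_pos h3]; exact h4.le
      · rw [Real.norm_eq_abs]; exact h5.le
    have hlamge : 15 / 16 ≤ (P 0).lam := (lam_pos (hV 0)).1
    have hmo1 : (P 0).mo ≤ 1 / 16 := by
      have h3 := (hV 0).mo_th
      have h4 := (hV 0).th_le
      have h5 := (hV 0).mu_pos
      linarith
    have hth := (hV 0).th_le
    have hth0 : 0 < (P 0).th := by
      have h1 := (hV 0).mu_le
      have h2 := (hV 0).mi_le
      have h3 := (hV 0).mo_th
      have h5 := (hV 0).mu_pos
      linarith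
    have hb := Blk_E (hcomp 0) (x := x) (ζ := ζ) (by rw [hxabs]; exact h1)
      (by rw [hxabs]; nlinarith)
    have hcut : cut (P 0).th ‖ζ‖ = 1 := by
      unfold cut
      apply cl_of_ge
      rw [le_div_iff₀ hth0]
      linarith
    change Blk (P 0) (P (0 + 1)) (P (0 + 2)) (x, ζ) = _
    rw [hb, hcut]
    simp only [sub_self, mul_zero, add_zero]
    rw [refl_pi]
  refine ⟨f 0, (treeOf P).C 0, R, hCcl, hCball, hpos, hf.cont 0, ?_, ?_, ?_, ?_, hRopen, ?_, ?_,
    ?_, ?_⟩
  · intro x
    by_cases hx : x ∈ (treeOf P).C 0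
    · exact (hf.on 0 x hx).2.1
    · exact (hf.off 0 x hx).1
  · intro x y
    by_cases hx : x ∈ (treeOf P).C 0
    · exact (hf.on 0 x hx).2.2 y
    · exact (hf.off 0 x hx).2.2 y
  · exact fun x hx => (hf.on 0 x hx).1
  · exact fun x hx => (hf.off 0 x hx).2.1
  · refine ⟨((1 + (P 0).lam) / 2, 1 / 4, 0), ?_⟩
    simp only [hR, mem_ofPred_eq]
    refine ⟨by linarith, by linarith, by norm_num, by norm_num, by norm_num⟩
  · intro X hX
    obtain ⟨h1, h2, h3, h4, h5⟩ := hX
    have hxpos : 0 < X.1 := hlam0.trans h1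
    simp only [Metric.mem_ball, dist_zero_right, Prod.norm_def, Real.norm_eq_abs]
    rw [abs_of_pos hxpos, abs_of_pos h3]
    refine max_lt h2 (max_lt (by linarith) (by linarith))
  · exact fun X hX => ⟨hRmirror X hX, hX.2.2.1.ne', hnotC X hX⟩
  · intro i j
    have hlt := lt_of_le_of_lt hen hsum
    have hw : 0 ≤ l 0 j / l 0 i := div_nonneg (hl 0 j).le (hl 0 i).le
    calc ∫⁻ X in Metric.ball 0 1 \ (treeOf P).C 0,
            ENNReal.ofReal |comp i (fderiv ℝ (f 0) X (bas j))|
        ≤ ∫⁻ X in Metric.ball 0 1 \ (treeOf P).C 0,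
            ENNReal.ofReal (l 0 j / l 0 i) * ENNReal.ofReal (en (l 0) (f 0) X) := by
          apply lintegral_mono
          intro X
          beta_reduce
          rw [← ENNReal.ofReal_mul hw]
          exact ENNReal.ofReal_le_ofReal (en_ge (hl 0) (f 0) X i j)
      _ = ENNReal.ofReal (l 0 j / l 0 i) * ∫⁻ X in Metric.ball 0 1 \ (treeOf P).C 0,
            ENNReal.ofReal (en (l 0) (f 0) X) :=
          lintegral_const_mul' _ _ ENNReal.ofReal_ne_top
      _ < ⊤ := ENNReal.mul_lt_top ENNReal.ofReal_lt_top hlt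

/-- the map in the model `Fin 3 → ℝ` -/
noncomputable def ff (f : E3 → E3) (v : Fin 3 → ℝ) : Fin 3 → ℝ := toF (f (toP v))

theorem continuous_toP : Continuous toP := toPL.continuous
theorem continuous_toF : Continuous toF := toPL.symm.continuous

theorem ff_lipAt {f : E3 → E3} {v : Fin 3 → ℝ} {K : ℝ} (h : LipAt K f (toP v)) (i : Fin 3) :
    LipAt (K + 1) (fun v => ff f v i - v i) v := by
  obtain ⟨U, hU, hK⟩ := h
  refine ⟨toP ⁻¹' U, continuous_toP.continuousAt hU, ?_⟩
  intro a ha b hb
  have h1 := hK _ ha _ hb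
  have h2 : dist (toP a) (toP b) = dist a b := toPL.dist_map a b
  rw [h2] at h1
  have h3 : dist (ff f a i) (ff f b i) ≤ dist (f (toP a)) (f (toP b)) := by
    have : dist (toF (f (toP a))) (toF (f (toP b))) = dist (f (toP a)) (f (toP b)) :=
      toPL.symm.dist_map _ _
    rw [← this]
    exact dist_le_pi_dist _ _ i
  have h4 : dist (a i) (b i) ≤ dist a b := dist_le_pi_dist a b i
  rw [Real.dist_eq] at *
  have h5 : |ff f a i - a i - (ff f b i - b i)| ≤ |ff f a i - ff f b i| + |a i - b i| := by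
    have : ff f a i - a i - (ff f b i - b i) = (ff f a i - ff f b i) - (a i - b i) := by ring
    rw [this]
    exact abs_sub _ _
  linarith

instance haar2 : (volume : Measure E2).IsAddHaarMeasure :=
  inferInstanceAs ((volume : Measure ℝ).prod (volume : Measure ℝ)).IsAddHaarMeasure

instance haar3 : (volume : Measure E3).IsAddHaarMeasure :=
  inferInstanceAs ((volume : Measure ℝ).prod (volume : Measure E2)).IsAddHaarMeasure

theorem main_result :
    ∃ (n : ℕ) (p : ℝ) (Ω : Set (Fin n → ℝ)) (f : (Fin n → ℝ) → (Fin n → ℝ))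
      (g : (Fin n → ℝ) → Matrix (Fin n) (Fin n) ℝ),
      3 ≤ n ∧
      ((((n / 2 : ℕ) : ℝ) < p ∧ p ≤ (n : ℝ) - 1) ∨ (n = 3 ∧ 1 ≤ p ∧ p ≤ 2)) ∧
      IsOpen Ω ∧ IsConnected Ω ∧
      ContinuousOn f Ω ∧
      (∀ U : Set (Fin n → ℝ), IsOpen U → U ⊆ Ω → IsOpen (f '' U)) ∧
      (∀ (y x : Fin n → ℝ), x ∈ Ω → ∀ᶠ z in 𝓝[≠] x, f z ≠ y) ∧
      MemLp f (ENNReal.ofReal p) (volume.restrict Ω) ∧
      (∀ i j : Fin n, MemLp (fun x => g x i j) (ENNReal.ofReal p) (volume.restrict Ω)) ∧
      (∀ (i j : Fin n) (φ : (Fin n → ℝ) → ℝ),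
        ContDiff ℝ ((⊤ : ℕ∞) : WithTop ℕ∞) φ → HasCompactSupport φ → tsupport φ ⊆ Ω →
        ∫ x in Ω, f x i * (fderiv ℝ φ x) (Pi.single j (1 : ℝ)) =
          -∫ x in Ω, g x i j * φ x) ∧
      0 < volume {x | x ∈ Ω ∧ 0 < (g x).det} ∧
      0 < volume {x | x ∈ Ω ∧ (g x).det < 0} := by
  obtain ⟨f, C, R, hCcl, hCball, hCpos, hfc, hop, hdis, hid, hlip, hRo, hRne, hRb, hRm, hint⟩ :=
    exists_f
  set Ω : Set (Fin 3 → ℝ) := Metric.ball 0 1 with hΩ
  set C' : Set (Fin 3 → ℝ) := toP ⁻¹' C with hC'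
  have hC'cl : IsClosed C' := hCcl.preimage continuous_toP
  have hballeq : toP ⁻¹' (Metric.ball 0 1) = Ω := by
    ext v
    simp only [mem_preimage, Metric.mem_ball, dist_zero_right, hΩ, norm_toP]
  have hC'Ω : C' ⊆ Ω := by
    rw [← hballeq]; exact preimage_mono hCball
  set F : (Fin 3 → ℝ) → (Fin 3 → ℝ) := ff f with hF
  have hFc : Continuous F := continuous_toF.comp (hfc.comp continuous_toP)
  set h : Fin 3 → (Fin 3 → ℝ) → ℝ := fun i v => F v i - v i with hh
  have hhc : ∀ i, Continuous (h i) := fun i =>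
    ((continuous_apply i).comp hFc).sub (continuous_apply i)
  have hh0 : ∀ i, ∀ v ∈ C', h i v = 0 := by
    intro i v hv
    have h1 : f (toP v) = toP v := hid _ hv
    change toF (f (toP v)) i - v i = 0
    rw [h1, toF_toP, sub_self]
  have hhl : ∀ i v, v ∉ C' → ∃ K, LipAt K (h i) v := by
    intro i v hv
    obtain ⟨K, hK⟩ := hlip (toP v) hv
    exact ⟨K + 1, ff_lipAt hK i⟩
  -- almost everywhere differentiability
  have hnull : volume {v : Fin 3 → ℝ | v ∉ C' ∧ ¬DifferentiableAt ℝ f (toP v)} = 0 := by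
    have h1 := ae_diff_of_lipAt (volume : Measure E3) C f hlip
    have h2 := mp_toP.measure_preimage (s := {x | x ∉ C ∧ ¬DifferentiableAt ℝ f x})
      (NullMeasurableSet.of_null h1)
    rw [h1] at h2
    exact h2
  have hderiv : ∀ i j v, DifferentiableAt ℝ f (toP v) →
      |fderiv ℝ (h i) v (Pi.single j (1 : ℝ))| ≤ |comp i (fderiv ℝ f (toP v) (bas j))| + 1 := by
    intro i j v hd
    have hcompL : ∀ Y : E3, comp i Y = (ContinuousLinearMap.proj (R := ℝ) (φ := fun _ : Fin 3 => ℝ) i)
        (toPL.symm.toContinuousLinearEquiv Y) := by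
      intro Y
      rw [← toF_apply]; rfl
    have e1 : HasFDerivAt F ((toPL.symm.toContinuousLinearEquiv : E3 →L[ℝ] (Fin 3 → ℝ)).comp
        ((fderiv ℝ f (toP v)).comp (toPL.toContinuousLinearEquiv : (Fin 3 → ℝ) →L[ℝ] E3))) v := by
      have a1 : HasFDerivAt (toPL.toContinuousLinearEquiv : (Fin 3 → ℝ) →L[ℝ] E3)
        (toPL.toContinuousLinearEquiv : (Fin 3 → ℝ) →L[ℝ] E3) v :=
        ContinuousLinearMap.hasFDerivAt _
      have a2 : HasFDerivAt f (fderiv ℝ f (toP v)) (toP v) := hd.hasFDerivAt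
      have a3 := a2.comp v a1
      exact ((toPL.symm.toContinuousLinearEquiv : E3 →L[ℝ] (Fin 3 → ℝ)).hasFDerivAt).comp v a3
    have e2 : HasFDerivAt (h i) ((ContinuousLinearMap.proj (R := ℝ) (φ := fun _ : Fin 3 => ℝ) i).comp
        ((toPL.symm.toContinuousLinearEquiv : E3 →L[ℝ] (Fin 3 → ℝ)).comp
        ((fderiv ℝ f (toP v)).comp (toPL.toContinuousLinearEquiv : (Fin 3 → ℝ) →L[ℝ] E3))) -
        ContinuousLinearMap.proj (R := ℝ) (φ := fun _ : Fin 3 => ℝ) i) v :=
      (((ContinuousLinearMap.proj (R := ℝ) (φ := fun _ : Fin 3 => ℝ) i).hasFDerivAt).comp v e1).sub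
        (ContinuousLinearMap.proj (R := ℝ) (φ := fun _ : Fin 3 => ℝ) i).hasFDerivAt
    rw [e2.fderiv]
    have e3 : ((ContinuousLinearMap.proj (R := ℝ) (φ := fun _ : Fin 3 => ℝ) i).comp
        ((toPL.symm.toContinuousLinearEquiv : E3 →L[ℝ] (Fin 3 → ℝ)).comp
        ((fderiv ℝ f (toP v)).comp (toPL.toContinuousLinearEquiv : (Fin 3 → ℝ) →L[ℝ] E3))) -
        ContinuousLinearMap.proj (R := ℝ) (φ := fun _ : Fin 3 => ℝ) i) (Pi.single j (1 : ℝ)) =
        comp i (fderiv ℝ f (toP v) (bas j)) - (Pi.single j (1 : ℝ) : Fin 3 → ℝ) i := by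
      rw [hcompL, ← lin_toP_single]
      rfl
    rw [e3]
    refine (abs_sub _ _).trans ?_
    gcongr
    by_cases hij : i = j
    · subst hij; simp
    · simp [Pi.single_apply, hij]
  have hintF : ∀ i j, ∫⁻ v in Ω \ C', ENNReal.ofReal |fderiv ℝ (h i) v (Pi.single j (1 : ℝ))|
      < ⊤ := by
    intro i j
    have h1 : ∫⁻ v in Ω \ C', ENNReal.ofReal |fderiv ℝ (h i) v (Pi.single j (1 : ℝ))| ≤
        ∫⁻ v in Ω \ C', (ENNReal.ofReal |comp i (fderiv ℝ f (toP v) (bas j))| + 1) := by
      apply lintegral_mono_ae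
      rw [ae_restrict_iff' (Metric.isOpen_ball.measurableSet.diff hC'cl.measurableSet)]
      have : ∀ᵐ v : Fin 3 → ℝ, ¬(v ∉ C' ∧ ¬DifferentiableAt ℝ f (toP v)) := by
        rw [ae_iff]; simpa using hnull
      filter_upwards [this] with v hv hvm
      have hd : DifferentiableAt ℝ f (toP v) := by
        by_contra hcon
        exact hv ⟨hvm.2, hcon⟩
      calc ENNReal.ofReal |fderiv ℝ (h i) v (Pi.single j (1 : ℝ))|
          ≤ ENNReal.ofReal (|comp i (fderiv ℝ f (toP v) (bas j))| + 1) :=
            ENNReal.ofReal_le_ofReal (hderiv i j v hd)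
        _ = _ := by
            rw [ENNReal.ofReal_add (abs_nonneg _) zero_le_one, ENNReal.ofReal_one]
    refine lt_of_le_of_lt h1 ?_
    have hmeas : Measurable fun X : E3 => ENNReal.ofReal |comp i (fderiv ℝ f X (bas j))| := by
      apply ENNReal.measurable_ofReal.comp
      have m1 : Measurable fun X : E3 => fderiv ℝ f X (bas j) :=
        measurable_fderiv_apply_const ℝ f (bas j)
      exact ((continuous_comp i).measurable.comp m1).abs
    rw [lintegral_add_right _ measurable_const]
    apply ENNReal.add_lt_top.mpr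
    constructor
    · have h2 : ∫⁻ v in Ω \ C', ENNReal.ofReal |comp i (fderiv ℝ f (toP v) (bas j))| =
          ∫⁻ X in Metric.ball 0 1 \ C, ENNReal.ofReal |comp i (fderiv ℝ f X (bas j))| := by
        have h3 : Ω \ C' = toP ⁻¹' (Metric.ball 0 1 \ C) := by
          rw [← hballeq]; rfl
        rw [h3]
        exact mp_toP.setLIntegral_comp_preimage
          (Metric.isOpen_ball.measurableSet.diff hCcl.measurableSet) hmeas
      rw [h2]
      exact hint i j
    · rw [lintegral_const, one_mul, Measure.restrict_apply_univ]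
      exact lt_of_le_of_lt (measure_mono sdiff_subset) measure_ball_lt_top
  -- the weak derivative
  set g : (Fin 3 → ℝ) → Matrix (Fin 3) (Fin 3) ℝ := fun v i j =>
    (if i = j then 1 else 0) +
      ({x | h i x ≠ 0}.indicator (fun x => fderiv ℝ (h i) x (Pi.single j (1 : ℝ)))) v with hg
  have hindmeas : ∀ i j, Measurable
      ({x | h i x ≠ 0}.indicator (fun x => fderiv ℝ (h i) x (Pi.single j (1 : ℝ)))) := by
    intro i j
    apply Measurable.indicator
    · exact measurable_fderiv_apply_const ℝ (h i) _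
    · exact ((hhc i).measurable (measurableSet_singleton (0 : ℝ)).compl)
  have hindint : ∀ i j, IntegrableOn
      ({x | h i x ≠ 0}.indicator (fun x => fderiv ℝ (h i) x (Pi.single j (1 : ℝ)))) Ω := by
    intro i j
    refine ⟨(hindmeas i j).aestronglyMeasurable, ?_⟩
    unfold HasFiniteIntegral
    refine lt_of_le_of_lt ?_ (hintF i j)
    have hsub : ∀ v, ‖({x | h i x ≠ 0}.indicator
        (fun x => fderiv ℝ (h i) x (Pi.single j (1 : ℝ)))) v‖ₑ ≤
        (C'ᶜ).indicator (fun v => ENNReal.ofReal |fderiv ℝ (h i) v (Pi.single j (1 : ℝ))|) v := by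
      intro v
      by_cases hv : h i v ≠ 0
      · have hvC : v ∈ C'ᶜ := fun hvC => hv (hh0 i v hvC)
        rw [indicator_of_mem hvC, indicator_of_mem (show v ∈ {x | h i x ≠ 0} from hv)]
        rw [← Real.norm_eq_abs, ofReal_norm]
      · rw [indicator_of_notMem (show v ∉ {x | h i x ≠ 0} from hv)]
        simp
    calc ∫⁻ v in Ω, ‖({x | h i x ≠ 0}.indicator
        (fun x => fderiv ℝ (h i) x (Pi.single j (1 : ℝ)))) v‖ₑ
        ≤ ∫⁻ v in Ω, (C'ᶜ).indicator
          (fun v => ENNReal.ofReal |fderiv ℝ (h i) v (Pi.single j (1 : ℝ))|) v :=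
          lintegral_mono hsub
      _ = ∫⁻ v in Ω \ C', ENNReal.ofReal |fderiv ℝ (h i) v (Pi.single j (1 : ℝ))| := by
          rw [lintegral_indicator hC'cl.measurableSet.compl,
            Measure.restrict_restrict hC'cl.measurableSet.compl]
          congr 2
          rw [inter_comm]; rfl
  haveI hfin : IsFiniteMeasure (volume.restrict Ω) := ⟨by
    rw [Measure.restrict_apply_univ]; exact measure_ball_lt_top⟩
  refine ⟨3, 1, Ω, F, g, le_refl _, Or.inr ⟨rfl, le_refl _, by norm_num⟩, Metric.isOpen_ball, ?_,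
    hFc.continuousOn, ?_, ?_, ?_, ?_, ?_, ?_, ?_⟩
  · exact (convex_ball (0 : Fin 3 → ℝ) 1).isConnected ⟨0, by simp [hΩ]⟩
  · intro U hU _
    have h1 : IsOpenMap f := isOpenMap_of_openAt hop
    have h2 : IsOpenMap F :=
      (toPL.symm.toHomeomorph.isOpenMap).comp (h1.comp toPL.toHomeomorph.isOpenMap)
    exact h2 U hU
  · intro y x _
    have h1 := hdis (toP x) (toP y)
    have h2 : Tendsto toP (𝓝[≠] x) (𝓝[≠] (toP x)) := by
      apply tendsto_nhdsWithin_of_tendsto_nhds_of_eventually_within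
      · exact continuous_toP.continuousAt.mono_left nhdsWithin_le_nhds
      · filter_upwards [self_mem_nhdsWithin] with z hz
        intro hcon
        apply hz
        have := congrArg toF hcon
        simpa [toF_toP] using this
    filter_upwards [h2.eventually h1] with z hz hcon
    apply hz
    have := congrArg toP hcon
    simpa [hF, ff, toP_toF] using this
  · rw [ENNReal.ofReal_one]
    obtain ⟨M, hM⟩ := (isCompact_closedBall (0 : Fin 3 → ℝ) 1).exists_bound_of_continuousOn
      hFc.continuousOn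
    apply MemLp.of_bound hFc.aestronglyMeasurable M
    rw [ae_restrict_iff' Metric.isOpen_ball.measurableSet]
    exact Eventually.of_forall (fun v hv => hM v (Metric.ball_subset_closedBall hv))
  · intro i j
    rw [ENNReal.ofReal_one, memLp_one_iff_integrable]
    have h1 : Integrable (fun _ : Fin 3 → ℝ => (if i = j then (1 : ℝ) else 0))
      (volume.restrict Ω) := integrable_const _
    exact h1.add (hindint i j)
  · intro i j φ hφ hφs hφΩ
    have w1 := weak_deriv (volume : Measure (Fin 3 → ℝ)) C' hC'cl (h i) (hhc i) (hh0 i) (hhl i)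
      Ω Metric.isOpen_ball (Pi.single j (1 : ℝ)) (hintF i j) φ hφ hφs hφΩ
    -- the coordinate function
    have w2 : ∫ x in Ω, x i * fderiv ℝ φ x (Pi.single j (1 : ℝ)) =
        -∫ x in Ω, (if i = j then (1 : ℝ) else 0) * φ x := by
      have k1 := weak_deriv (volume : Measure (Fin 3 → ℝ)) ∅ isClosed_empty
        (fun x => x i + 2) ((continuous_apply i).add continuous_const) (by simp)
        (fun x _ => ⟨1, lipAt_of_lip (fun a b => by
          simp only [dist_add_right, one_mul]; exact dist_le_pi_dist a b i) x⟩)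
        Ω Metric.isOpen_ball (Pi.single j (1 : ℝ)) (by
          have : ∀ x : Fin 3 → ℝ, fderiv ℝ (fun x : Fin 3 → ℝ => x i + 2) x
              (Pi.single j (1 : ℝ)) = if i = j then 1 else 0 := by
            intro x
            have e : HasFDerivAt (fun x : Fin 3 → ℝ => x i + 2)
              (ContinuousLinearMap.proj (R := ℝ) (φ := fun _ : Fin 3 => ℝ) i) x :=
              ((ContinuousLinearMap.proj (R := ℝ) (φ := fun _ : Fin 3 => ℝ) i).hasFDerivAt).add_const 2
            rw [e.fderiv]
            simp [Pi.single_apply]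
          simp only [this]
          rw [lintegral_const]
          apply ENNReal.mul_lt_top ENNReal.ofReal_lt_top
          rw [Measure.restrict_apply_univ]
          exact lt_of_le_of_lt (measure_mono sdiff_subset) measure_ball_lt_top) φ hφ hφs hφΩ
      have k2 := weak_deriv (volume : Measure (Fin 3 → ℝ)) ∅ isClosed_empty
        (fun _ => 2) continuous_const (by simp)
        (fun x _ => ⟨0, lipAt_of_lip (fun a b => by simp) x⟩)
        Ω Metric.isOpen_ball (Pi.single j (1 : ℝ)) (by simp) φ hφ hφs hφΩ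
      have hφint : Integrable (fun x => fderiv ℝ φ x (Pi.single j (1 : ℝ)))
          (volume.restrict Ω) := by
        have hc1 : Continuous (fun x => fderiv ℝ φ x (Pi.single j (1 : ℝ))) :=
          (hφ.continuous_fderiv (by simp)).clm_apply continuous_const
        have hs1 : HasCompactSupport (fun x => fderiv ℝ φ x (Pi.single j (1 : ℝ))) :=
          hφs.fderiv_apply (𝕜 := ℝ) _
        exact (hc1.integrable_of_hasCompactSupport hs1).restrict
      have hφint2 : Integrable (fun x : Fin 3 → ℝ => x i * fderiv ℝ φ x (Pi.single j (1 : ℝ)))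
          (volume.restrict Ω) := by
        have hc1 : Continuous (fun x : Fin 3 → ℝ => x i * fderiv ℝ φ x (Pi.single j (1 : ℝ))) :=
          (continuous_apply i).mul
            ((hφ.continuous_fderiv (by simp)).clm_apply continuous_const)
        have hs1 : HasCompactSupport
            (fun x : Fin 3 → ℝ => x i * fderiv ℝ φ x (Pi.single j (1 : ℝ))) :=
          (hφs.fderiv_apply (𝕜 := ℝ) _).mul_left
        exact (hc1.integrable_of_hasCompactSupport hs1).restrict
      have k3 : ∫ x in Ω, (x i + 2) * fderiv ℝ φ x (Pi.single j (1 : ℝ)) =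
          (∫ x in Ω, x i * fderiv ℝ φ x (Pi.single j (1 : ℝ))) +
          ∫ x in Ω, 2 * fderiv ℝ φ x (Pi.single j (1 : ℝ)) := by
        rw [← integral_add hφint2 (hφint.const_mul 2)]
        congr 1
        ext x; ring
      have k4 : ∫ x in Ω, ({x : Fin 3 → ℝ | (2 : ℝ) ≠ 0}.indicator
          (fun x => fderiv ℝ (fun _ : Fin 3 → ℝ => (2 : ℝ)) x (Pi.single j (1 : ℝ)))) x * φ x
          = 0 := by
        simp
      have k5 : ∫ x in Ω, ({x : Fin 3 → ℝ | x i + 2 ≠ 0}.indicator
          (fun x => fderiv ℝ (fun x : Fin 3 → ℝ => x i + 2) x (Pi.single j (1 : ℝ)))) x * φ x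
          = ∫ x in Ω, (if i = j then (1 : ℝ) else 0) * φ x := by
        apply setIntegral_congr_fun Metric.isOpen_ball.measurableSet
        intro x hx
        beta_reduce
        have hx1 : |x i| < 1 := by
          have h1 : ‖x‖ < 1 := by simpa [hΩ] using hx
          exact lt_of_le_of_lt (norm_le_pi_norm x i) h1
        have hne : x i + 2 ≠ 0 := by
          have := abs_lt.mp hx1
          linarith [this.1]
        rw [indicator_of_mem (show x ∈ {x : Fin 3 → ℝ | x i + 2 ≠ 0} from hne)]
        have e : HasFDerivAt (fun x : Fin 3 → ℝ => x i + 2)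
          (ContinuousLinearMap.proj (R := ℝ) (φ := fun _ : Fin 3 => ℝ) i) x :=
          ((ContinuousLinearMap.proj (R := ℝ) (φ := fun _ : Fin 3 => ℝ) i).hasFDerivAt).add_const 2
        rw [e.fderiv]
        simp [Pi.single_apply]
      rw [k4, neg_zero] at k2
      rw [k5, k3, k2, add_zero] at k1
      exact k1
    have hφc : Continuous φ := hφ.continuous
    have hφint0 : Integrable φ (volume.restrict Ω) :=
      (hφc.integrable_of_hasCompactSupport hφs).restrict
    obtain ⟨Mφ, hMφ⟩ := hφs.exists_bound_of_continuous hφc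
    have i1 : Integrable (fun x => ({x | h i x ≠ 0}.indicator
        (fun x => fderiv ℝ (h i) x (Pi.single j (1 : ℝ)))) x * φ x) (volume.restrict Ω) :=
      (hindint i j).mul_bdd (c := Mφ) hφc.aestronglyMeasurable
        (Eventually.of_forall hMφ)
    have i2 : Integrable (fun x => (if i = j then (1 : ℝ) else 0) * φ x)
        (volume.restrict Ω) := hφint0.const_mul _
    have hcφ : Continuous (fun x => fderiv ℝ φ x (Pi.single j (1 : ℝ))) :=
      (hφ.continuous_fderiv (by simp)).clm_apply continuous_const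
    have hsφ : HasCompactSupport (fun x => fderiv ℝ φ x (Pi.single j (1 : ℝ))) :=
      hφs.fderiv_apply (𝕜 := ℝ) _
    have i3 : Integrable (fun x => h i x * fderiv ℝ φ x (Pi.single j (1 : ℝ)))
        (volume.restrict Ω) :=
      (((hhc i).mul hcφ).integrable_of_hasCompactSupport hsφ.mul_left).restrict
    have i4 : Integrable (fun x : Fin 3 → ℝ => x i * fderiv ℝ φ x (Pi.single j (1 : ℝ)))
        (volume.restrict Ω) :=
      (((continuous_apply i).mul hcφ).integrable_of_hasCompactSupport hsφ.mul_left).restrict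
    calc ∫ x in Ω, F x i * fderiv ℝ φ x (Pi.single j (1 : ℝ))
        = (∫ x in Ω, h i x * fderiv ℝ φ x (Pi.single j (1 : ℝ))) +
          ∫ x in Ω, x i * fderiv ℝ φ x (Pi.single j (1 : ℝ)) := by
          rw [← integral_add i3 i4]
          congr 1
          ext x
          simp only [hh]
          ring
      _ = -((∫ x in Ω, (if i = j then (1 : ℝ) else 0) * φ x) + ∫ x in Ω,
            ({x | h i x ≠ 0}.indicator (fun x => fderiv ℝ (h i) x (Pi.single j (1 : ℝ)))) x
              * φ x) := by
          rw [w1, w2]; ring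
      _ = -∫ x in Ω, g x i j * φ x := by
          rw [← integral_add i2 i1]
          congr 2
          ext x
          simp only [hg]
          ring
  · -- positive determinant on the Cantor set
    have h1 : C' ⊆ {x | x ∈ Ω ∧ 0 < (g x).det} := by
      intro v hv
      refine ⟨hC'Ω hv, ?_⟩
      have hg1 : g v = 1 := by
        ext i j
        simp only [hg]
        rw [indicator_of_notMem (show v ∉ {x | h i x ≠ 0} from fun hcon => hcon (hh0 i v hv)),
          add_zero, Matrix.one_apply]
      rw [hg1, Matrix.det_one]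
      exact zero_lt_one
    refine lt_of_lt_of_le ?_ (measure_mono h1)
    rw [hC', mp_toP.measure_preimage hCcl.measurableSet.nullMeasurableSet]
    exact hCpos
  · -- negative determinant on the mirror set
    have h1 : toP ⁻¹' R ⊆ {x | x ∈ Ω ∧ (g x).det < 0} := by
      intro v hv
      have hv1 : v ∈ Ω := by
        rw [← hballeq]; exact hRb hv
      refine ⟨hv1, ?_⟩
      have hev : ∀ᶠ w in 𝓝 v, F w = ![w 0, -w 1, w 2] := by
        have ho : IsOpen (toP ⁻¹' R) := hRo.preimage continuous_toP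
        filter_upwards [ho.mem_nhds hv] with w hw
        change toF (f (toP w)) = _
        rw [(hRm _ hw).1]
        rfl
      have hg2 : g v = !![1, 0, 0; 0, -1, 0; 0, 0, 1] := by
        have hFv := hev.self_of_nhds
        have hv1' : v 1 ≠ 0 := (hRm _ hv).2.1
        have e0 : h 0 v = 0 := by simp only [hh]; rw [hFv]; simp
        have e2 : h 2 v = 0 := by simp only [hh]; rw [hFv]; simp
        have e1 : h 1 v ≠ 0 := by
          simp only [hh]; rw [hFv]
          simp only [Matrix.cons_val_one, Matrix.cons_val_zero]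
          intro hcon
          apply hv1'
          linarith
        have hev1 : h 1 =ᶠ[𝓝 v] fun w => -2 * w 1 := by
          filter_upwards [hev] with w hw
          simp only [hh]; rw [hw]
          simp only [Matrix.cons_val_one, Matrix.cons_val_zero]
          ring
        have hd1 : HasFDerivAt (fun w : Fin 3 → ℝ => -2 * w 1)
            ((-2 : ℝ) • (ContinuousLinearMap.proj (R := ℝ) (φ := fun _ : Fin 3 => ℝ) 1)) v :=
          ((ContinuousLinearMap.proj (R := ℝ) (φ := fun _ : Fin 3 => ℝ) 1).hasFDerivAt).const_mul _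
        have hd : fderiv ℝ (h 1) v =
            ((-2 : ℝ) • (ContinuousLinearMap.proj (R := ℝ) (φ := fun _ : Fin 3 => ℝ) 1)) := by
          rw [hev1.fderiv_eq, hd1.fderiv]
        ext i j
        simp only [hg]
        fin_cases i
        · have : v ∉ {x | h 0 x ≠ 0} := fun hcon => hcon e0
          fin_cases j <;> simp [this, indicator_of_notMem, e0]
        · have : v ∈ {x | h 1 x ≠ 0} := e1
          fin_cases j <;> simp [e1, hd] <;> norm_num
        · have : v ∉ {x | h 2 x ≠ 0} := fun hcon => hcon e2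
          fin_cases j <;> simp [this, indicator_of_notMem, e2]
      rw [hg2, Matrix.det_fin_three]
      simp
    refine lt_of_lt_of_le ?_ (measure_mono h1)
    have ho : IsOpen (toP ⁻¹' R) := hRo.preimage continuous_toP
    have hne : (toP ⁻¹' R).Nonempty := by
      obtain ⟨X, hX⟩ := hRne
      exact ⟨toF X, by simpa [toP_toF] using hX⟩
    exact ho.measure_pos volume hne

end Pool.Agent.JAC
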