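import Pool.Agent.Lib.MP_3b5712_an.Block

set_option autoImplicit false

open Filter Topology Set Real

namespace Pool.Agent.JAC

/-! TASK J2 -/

/-! auxiliary facts -/

theorem zone_th_pos {P : Par} (hP : P.Valid) : 0 < P.th := by
  have h1 := hP.mu_pos
  have h2 := hP.mu_le
  have h3 := hP.mi_le
  have h4 := hP.mo_th
  linarith

theorem zone_mo_pos {P : Par} (hP : P.Valid) : 0 < P.mo := by
  have h1 := hP.mu_pos
  have h2 := hP.mu_le
  have h3 := hP.mi_le
  linarith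

theorem zone_lam_ge {P : Par} (hP : P.Valid) : 1 - P.th ≤ P.lam := by
  have h1 := hP.mo_th
  have h2 := zone_mo_pos hP
  unfold Par.lam
  linarith

theorem zone_cut_zero {P : Par} (hP : P.Valid) {r : ℝ} (h : 1 - P.th ≤ r) :
    cut P.th r = 0 := by
  unfold cut
  apply cl_of_le
  apply div_nonpos_of_nonpos_of_nonneg
  · linarith
  · exact (zone_th_pos hP).le

theorem zone_dep_ge {P : Par} (hP : P.Valid) {r : ℝ} (h : r ≤ P.lam) : 1 ≤ P.dep r := by
  unfold Par.dep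
  rw [le_div_iff₀ hP.mu_pos]
  unfold Par.lam at h
  linarith

theorem zone_sf_zero {P : Par} (hP : P.Valid) {r : ℝ} (h : r ≤ P.lam) : P.sf r = 0 := by
  unfold Par.sf
  rw [cl_of_ge]
  · ring
  · have := zone_dep_ge hP h
    linarith

theorem zone_uf_one {P : Par} (hP : P.Valid) {r : ℝ} (h : r ≤ P.lam) : P.uf r = 1 := by
  unfold Par.uf
  apply cl_of_ge
  have := zone_dep_ge hP h
  linarith

theorem zone_uf_zero {P : Par} (hP : P.Valid) {r : ℝ} (h : 1 - P.mu / 2 ≤ r) : P.uf r = 0 := by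
  unfold Par.uf
  apply cl_of_le
  have : P.dep r ≤ 1 / 2 := by
    unfold Par.dep
    rw [div_le_iff₀ hP.mu_pos]
    linarith
  linarith

theorem ThE_of_cut {P : Par} (hP : P.Valid) {X : E3} (h : 1 - P.th ≤ ‖X.2‖) : ThE P X = X := by
  unfold ThE
  rw [zone_cut_zero hP h, mul_zero, rot_zero]

theorem ThE_of_lam {P : Par} (hP : P.Valid) {X : E3} (h : |X.1| ≤ P.lam) : ThE P X = X := by
  unfold ThE
  rw [zone_sf_zero hP h, mul_zero, zero_mul, rot_zero]

theorem ThN_id {P P' : Par} (hP : P.Valid) (hP' : P'.Valid) {X : E3}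
    (h : P.lam * (1 - P'.th) ≤ |X.1| ∨ P.lam ≤ |X.2.2|) : ThN P P' X = X := by
  have h1 : VV P P' 1 (X.1, X.2.2) = (X.1, X.2.2) := by
    rcases h with h | h
    · exact VV_far hP hP' h
    · exact VV_far2 hP hP' h
  unfold ThN
  rw [h1]

theorem zone_fold {P : Par} (hP : P.Valid) (x y z : ℝ) :
    ((P.lam * (x / P.lam), -(P.lam * -(y / P.lam)), z) : E3) = (x, y, z) := by
  have h1 : P.lam ≠ 0 := by
    have := (lam_pos hP).1
    intro h
    rw [h] at this
    norm_num at this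
  have e1 : P.lam * (x / P.lam) = x := by field_simp
  have e2 : -(P.lam * -(y / P.lam)) = y := by field_simp
  rw [e1, e2]

theorem ThT_id {P P' P'' : Par} (h : Compat P P' P'') {X : E3}
    (hT : P.uf |X.2.2| = 0 ∨ P.lam * P'.lam * (1 - P''.th) ≤ |X.2.1| ∨
      P.lam * P'.lam ≤ |X.1|) : ThT P P' P'' X = X := by
  have hl : 0 < P.lam := lt_of_lt_of_le (by norm_num) (lam_pos h.v).1
  have h1 : VV P' P'' (P.uf |X.2.2|) (-(X.2.1 / P.lam), X.1 / P.lam) =
      (-(X.2.1 / P.lam), X.1 / P.lam) := by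
    rcases hT with hT | hT | hT
    · rw [hT]
      exact VV_zero h.v' _ _
    · apply VV_far h.v' h.v''
      change _ ≤ |-(X.2.1 / P.lam)|
      rw [abs_neg, abs_div, abs_of_pos hl, le_div_iff₀ hl]
      linarith
    · apply VV_far2 h.v' h.v''
      change _ ≤ |X.1 / P.lam|
      rw [abs_div, abs_of_pos hl, le_div_iff₀ hl]
      linarith
  unfold ThT
  rw [h1]
  exact zone_fold h.v X.1 X.2.1 X.2.2

theorem zone_lam_mul_le {P P' P'' : Par} (h : Compat P P' P'') :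
    P.lam * P'.lam ≤ P.lam ∧ P.lam * P'.lam * (1 - P''.th) ≤ P.lam ∧
      P.lam * (1 - P'.th) ≤ P.lam ∧ P'.lam * (1 - P''.th) ≤ 1 - P.mo ∧
      P'.lam ≤ 1 := by
  have hl : 0 < P.lam := lt_of_lt_of_le (by norm_num) (lam_pos h.v).1
  have hl' : 0 < P'.lam := lt_of_lt_of_le (by norm_num) (lam_pos h.v').1
  have hl1 := (lam_pos h.v').2
  have t' := zone_th_pos h.v'
  have t'' := zone_th_pos h.v''
  have t1 := h.v''.th_le
  have hmo := h.mo2
  refine ⟨by nlinarith, ?_, by nlinarith, ?_, hl1.le⟩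
  · have : P.lam * P'.lam ≤ P.lam := by nlinarith
    have h2 : 0 < P.lam * P'.lam := mul_pos hl hl'
    nlinarith
  · have : P'.lam * (1 - P''.th) ≤ 1 * (1 - P''.th) :=
      mul_le_mul_of_nonneg_right hl1.le (by linarith)
    linarith

/-! zone formulas -/

theorem Blk_N {P P' P'' : Par} (h : Compat P P' P'') {x y z : ℝ} (hy : P.lam < |y|)
    (hx : |x| ≤ (1 - P.mo) * |y|) (hz : |z| ≤ |y|) :
    Blk P P' P'' (x, y, z) = (-(VV P P' 1 (x, z)).1, y, (VV P P' 1 (x, z)).2) := by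
  have hl : 0 < P.lam := lt_of_lt_of_le (by norm_num) (lam_pos h.v).1
  have hmul := zone_lam_mul_le h
  have hE : ThE P (x, y, z) = (x, y, z) := by
    apply ThE_of_cut h.v
    have h1 : |y| ≤ ‖((y, z) : E2)‖ := by
      rw [Prod.norm_def]
      exact le_max_left _ _
    have h2 := zone_lam_ge h.v
    change _ ≤ ‖((y, z) : E2)‖
    linarith
  have hT : ThT P P' P'' (x, y, z) = (x, y, z) := by
    apply ThT_id h
    right
    left
    change _ ≤ |y|
    linarith [hmul.2.1]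
  unfold Blk
  rw [hE, hT]
  unfold ThN
  apply Fpl_N h.v hy.le
  · apply (VV_fst h.v h.v' (c := (1 - P.mo) * |y|) _ 1 (x, z)).2 hx
    have h1 : P.mo ≤ P'.th := h.mo1
    have h2 := h.v'.th_le
    calc P.lam * (1 - P'.th) ≤ |y| * (1 - P'.th) :=
          mul_le_mul_of_nonneg_right hy.le (by linarith)
      _ ≤ |y| * (1 - P.mo) := mul_le_mul_of_nonneg_left (by linarith) (abs_nonneg y)
      _ = (1 - P.mo) * |y| := by ring
  · exact (VV_snd h.v h.v' hy.le 1 (x, z)).2 hz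

theorem Blk_E {P P' P'' : Par} (h : Compat P P' P'') {x : ℝ} {ζ : E2} (hx : P.lam < |x|)
    (hζ : ‖ζ‖ ≤ (1 - P.mo) * |x|) :
    Blk P P' P'' (x, ζ) = (x, refl (π + 2 * P.sf |x| * (1 - cut P.th ‖ζ‖)) ζ) := by
  have hmul := zone_lam_mul_le h
  have hT : ∀ ξ : E2, ThT P P' P'' (x, ξ) = (x, ξ) := by
    intro ξ
    apply ThT_id h
    right
    right
    change _ ≤ |x|
    linarith [hmul.1]
  have hN : ∀ ξ : E2, ThN P P' (x, ξ) = (x, ξ) := by
    intro ξ
    apply ThN_id h.v h.v'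
    left
    change _ ≤ |x|
    linarith [hmul.2.2.1]
  have hE : ThE P (x, ζ) = (x, rot (2 * P.sf |x| * cut P.th ‖ζ‖) ζ) := rfl
  unfold Blk
  rw [hE, hT, hN, Fpl_E h.v hx.le (by rw [norm_rot]; exact hζ), refl_rot]
  congr 2
  ring

/-- planar content in T-coordinates -/
noncomputable def WW (P P' P'' : Par) (u : ℝ) (w : E2) : E2 :=
  (P.lam * (VV P' P'' u (-(w.2 / P.lam), w.1 / P.lam)).2,
   -(P.lam * (VV P' P'' u (-(w.2 / P.lam), w.1 / P.lam)).1))

theorem Blk_T {P P' P'' : Par} (h : Compat P P' P'') {x y z : ℝ} (hz : P.lam < |z|)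
    (hw : ‖((x, y) : E2)‖ ≤ (1 - P.mo) * |z|) (hz' : 1 - P.mu / 2 ≤ |z|) :
    Blk P P' P'' (x, y, z) =
      ((refl (-2 * P.af |z|) (x, y)).1, (refl (-2 * P.af |z|) (x, y)).2, z) := by
  have hE : ThE P (x, y, z) = (x, y, z) := by
    apply ThE_of_cut h.v
    have h1 : |z| ≤ ‖((y, z) : E2)‖ := by
      rw [Prod.norm_def]
      exact le_max_right _ _
    have h2 := zone_lam_ge h.v
    change _ ≤ ‖((y, z) : E2)‖
    linarith
  have hT : ThT P P' P'' (x, y, z) = (x, y, z) := by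
    apply ThT_id h
    left
    exact zone_uf_zero h.v hz'
  have hN : ThN P P' (x, y, z) = (x, y, z) := by
    apply ThN_id h.v h.v'
    right
    exact hz.le
  unfold Blk
  rw [hE, hT, hN]
  exact Fpl_T h.v hz.le hw

theorem WW_fst_le {P P' P'' : Par} (h : Compat P P' P'') {c : ℝ} (hc : P.lam * P'.lam ≤ c)
    (u : ℝ) {w : E2} (hw : |w.1| ≤ c) : |(WW P P' P'' u w).1| ≤ c := by
  have hl : 0 < P.lam := lt_of_lt_of_le (by norm_num) (lam_pos h.v).1
  unfold WW
  change |P.lam * _| ≤ c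
  rw [abs_mul, abs_of_pos hl]
  have h1 : |(VV P' P'' u (-(w.2 / P.lam), w.1 / P.lam)).2| ≤ c / P.lam := by
    apply (VV_snd h.v' h.v'' (c := c / P.lam) _ u _).2
    · change |w.1 / P.lam| ≤ _
      rw [abs_div, abs_of_pos hl]
      exact div_le_div_of_nonneg_right hw hl.le
    · rw [le_div_iff₀ hl]
      linarith
  calc P.lam * |(VV P' P'' u (-(w.2 / P.lam), w.1 / P.lam)).2| ≤ P.lam * (c / P.lam) :=
        mul_le_mul_of_nonneg_left h1 hl.le
    _ = c := by field_simp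

theorem WW_snd_le {P P' P'' : Par} (h : Compat P P' P'') {c : ℝ}
    (hc : P.lam * P'.lam * (1 - P''.th) ≤ c)
    (u : ℝ) {w : E2} (hw : |w.2| ≤ c) : |(WW P P' P'' u w).2| ≤ c := by
  have hl : 0 < P.lam := lt_of_lt_of_le (by norm_num) (lam_pos h.v).1
  unfold WW
  change |-(P.lam * _)| ≤ c
  rw [abs_neg, abs_mul, abs_of_pos hl]
  have h1 : |(VV P' P'' u (-(w.2 / P.lam), w.1 / P.lam)).1| ≤ c / P.lam := by
    apply (VV_fst h.v' h.v'' (c := c / P.lam) _ u _).2
    · change |-(w.2 / P.lam)| ≤ _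
      rw [abs_neg, abs_div, abs_of_pos hl]
      exact div_le_div_of_nonneg_right hw hl.le
    · rw [le_div_iff₀ hl]
      linarith
  calc P.lam * |(VV P' P'' u (-(w.2 / P.lam), w.1 / P.lam)).1| ≤ P.lam * (c / P.lam) :=
        mul_le_mul_of_nonneg_left h1 hl.le
    _ = c := by field_simp

theorem ThT_eq_WW (P P' P'' : Par) (X : E3) : ThT P P' P'' X =
    ((WW P P' P'' (P.uf |X.2.2|) (X.1, X.2.1)).1,
      (WW P P' P'' (P.uf |X.2.2|) (X.1, X.2.1)).2, X.2.2) := rfl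

theorem Blk_B {P P' P'' : Par} (h : Compat P P' P'') {x y z : ℝ} (hz : P.lam < |z|)
    (hz' : |z| ≤ 1 - P.mu / 2)
    (hy : |y| ≤ (1 - P.mo) * |z|) (hx : |x| ≤ |z|) :
    Blk P P' P'' (x, y, z) =
      ((WW P P' P'' (P.uf |z|) (x, y)).1, -(WW P P' P'' (P.uf |z|) (x, y)).2, z) := by
  have hl : 0 < P.lam := lt_of_lt_of_le (by norm_num) (lam_pos h.v).1
  have hmul := zone_lam_mul_le h
  have hE : ThE P (x, y, z) = (x, y, z) := by
    apply ThE_of_cut h.v
    have h1 : |z| ≤ ‖((y, z) : E2)‖ := by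
      rw [Prod.norm_def]
      exact le_max_right _ _
    have h2 := zone_lam_ge h.v
    change _ ≤ ‖((y, z) : E2)‖
    linarith
  have hN : ∀ a b : ℝ, ThN P P' (a, b, z) = (a, b, z) := by
    intro a b
    apply ThN_id h.v h.v'
    right
    exact hz.le
  unfold Blk
  rw [hE, ThT_eq_WW]
  change Fpl P (ThN P P' ((WW P P' P'' (P.uf |z|) (x, y)).1,
      (WW P P' P'' (P.uf |z|) (x, y)).2, z)) = _
  rw [hN]
  apply Fpl_B h.v hz.le hz'
  · apply WW_snd_le h _ _ hy
    have h1 : P.lam * (P'.lam * (1 - P''.th)) ≤ P.lam * (1 - P.mo) :=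
      mul_le_mul_of_nonneg_left hmul.2.2.2.1 hl.le
    have h2 : P.mo ≤ 1 := by
      have := h.v.mo_th
      have := h.v.th_le
      have := h.v.mu_pos
      linarith
    have h3 : P.lam * (1 - P.mo) ≤ |z| * (1 - P.mo) :=
      mul_le_mul_of_nonneg_right hz.le (by linarith)
    nlinarith
  · apply WW_fst_le h _ _ hx
    linarith [hmul.1]

/-- off the supports of the contents the block is the plain block -/
theorem Blk_plain {P P' P'' : Par} (h : Compat P P' P'') {X : E3}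
    (hN : P.lam * (1 - P'.th) ≤ |X.1| ∨ P.lam ≤ |X.2.2|)
    (hE : 1 - P.th ≤ ‖X.2‖)
    (hT : 1 - P.mu / 2 ≤ |X.2.2| ∨ P.lam * P'.lam * (1 - P''.th) ≤ |X.2.1| ∨
      P.lam * P'.lam ≤ |X.1|) :
    Blk P P' P'' X = Fpl P X := by
  unfold Blk
  rw [ThE_of_cut h.v hE, ThT_id h, ThN_id h.v h.v' hN]
  rcases hT with hT | hT | hT
  · left
    exact zone_uf_zero h.v hT
  · right
    left
    exact hT
  · right
    right
    exact hT

/-- in the inner zone -/
theorem Blk_K {P P' P'' : Par} (h : Compat P P' P'') {X : E3} (hX : ‖X‖ ≤ P.lam) :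
    Blk P P' P'' X = Fpl P (ThN P P' ((WW P P' P'' 1 (X.1, X.2.1)).1,
      (WW P P' P'' 1 (X.1, X.2.1)).2, X.2.2)) := by
  have h1 : |X.1| ≤ P.lam := (norm_fst_le X).trans hX
  have h2 : |X.2.2| ≤ P.lam := ((norm_snd_le X.2).trans (norm_snd_le X)).trans hX
  unfold Blk
  rw [ThE_of_lam h.v h1, ThT_eq_WW, zone_uf_one h.v h2]

theorem zone_norm_lt {a b c r : ℝ} (ha : |a| < r) (hb : |b| < r) (hc : |c| < r) :
    ‖((a, b, c) : E3)‖ < r := by
  rw [Prod.norm_def, Prod.norm_def]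
  exact max_lt ha (max_lt hb hc)

theorem VV_snd_lt {P P' : Par} (hP : P.Valid) (hP' : P'.Valid) (u : ℝ) {q : E2}
    (hq : |q.2| < P.lam) : |(VV P P' u q).2| < P.lam := by
  by_cases hs : ∃ i < P.N, |q.2 - P.cen i| ≤ P.hh
  · obtain ⟨i, hi, hiq⟩ := hs
    have h1 := (VV_strip hP hP' hi (u := u) hiq).2
    have h2 := cen_bound hP hi
    have h3 : |(VV P P' u q).2| ≤ |(VV P P' u q).2 - P.cen i| + |P.cen i| := by
      have := abs_add_le ((VV P P' u q).2 - P.cen i) (P.cen i)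
      simpa using this
    linarith
  · push Not at hs
    rw [VV_off hP hP' (fun i hi => (hs i hi).le)]
    exact hq

/-- the inner cube is preserved by the contents -/
theorem Blk_norm_lt {P P' P'' : Par} (h : Compat P P' P'') {X : E3} (hX : ‖X‖ < P.lam) :
    ‖((WW P P' P'' 1 (X.1, X.2.1)).1, (WW P P' P'' 1 (X.1, X.2.1)).2, X.2.2)‖ < P.lam ∧
    ‖ThN P P' ((WW P P' P'' 1 (X.1, X.2.1)).1,
      (WW P P' P'' 1 (X.1, X.2.1)).2, X.2.2)‖ < P.lam := by
  have hl : 0 < P.lam := lt_of_lt_of_le (by norm_num) (lam_pos h.v).1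
  have hl' : 0 < P'.lam := lt_of_lt_of_le (by norm_num) (lam_pos h.v').1
  have hl1 := (lam_pos h.v').2
  have t' := zone_th_pos h.v'
  have t'' := zone_th_pos h.v''
  have h1 : |X.1| < P.lam := (norm_fst_le X).trans_lt hX
  have h2 : |X.2.1| < P.lam := ((norm_fst_le X.2).trans (norm_snd_le X)).trans_lt hX
  have h3 : |X.2.2| < P.lam := ((norm_snd_le X.2).trans (norm_snd_le X)).trans_lt hX
  have hll : P.lam * P'.lam < P.lam := by nlinarith
  have hll' : P.lam * P'.lam * (1 - P''.th) < P.lam := by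
    have : 0 < P.lam * P'.lam := mul_pos hl hl'
    nlinarith
  have k1 : |(WW P P' P'' 1 (X.1, X.2.1)).1| < P.lam := by
    have := WW_fst_le h (c := max (P.lam * P'.lam) |X.1|) (le_max_left _ _) 1
      (w := (X.1, X.2.1)) (le_max_right _ _)
    exact this.trans_lt (max_lt hll h1)
  have k2 : |(WW P P' P'' 1 (X.1, X.2.1)).2| < P.lam := by
    have := WW_snd_le h (c := max (P.lam * P'.lam * (1 - P''.th)) |X.2.1|) (le_max_left _ _) 1
      (w := (X.1, X.2.1)) (le_max_right _ _)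
    exact this.trans_lt (max_lt hll' h2)
  refine ⟨zone_norm_lt k1 k2 h3, ?_⟩
  unfold ThN
  apply zone_norm_lt _ k2 _
  · change |(VV P P' 1 ((WW P P' P'' 1 (X.1, X.2.1)).1, X.2.2)).1| < P.lam
    have := (VV_fst h.v h.v' (c := max (P.lam * (1 - P'.th))
      |(WW P P' P'' 1 (X.1, X.2.1)).1|) (le_max_left _ _) 1
      ((WW P P' P'' 1 (X.1, X.2.1)).1, X.2.2)).2 (le_max_right _ _)
    exact this.trans_lt (max_lt (by nlinarith) k1)
  · change |(VV P P' 1 ((WW P P' P'' 1 (X.1, X.2.1)).1, X.2.2)).2| < P.lam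
    exact VV_snd_lt h.v h.v' 1 h3

end Pool.Agent.JAC
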