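import Pool.Agent.Lib.MP_3b5712_an.LipF
import Pool.Agent.Lib.MP_3b5712_an.Zone

set_option autoImplicit false

open Filter Topology Set Real

namespace Pool.Agent.JAC

/-! TASK L: pointwise bounds of the partial derivatives of the block -/

/-- coordinates of `E3` -/
def comp (i : Fin 3) (X : E3) : ℝ := match i with
  | 0 => X.1
  | 1 => X.2.1
  | 2 => X.2.2

/-- basis vectors of `E3` -/
def bas (j : Fin 3) : E3 := match j with
  | 0 => (1, 0, 0)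
  | 1 => (0, 1, 0)
  | 2 => (0, 0, 1)

/-- matrix Lipschitz bound near `X` -/
def MLip (K : Fin 3 → Fin 3 → ℝ) (f : E3 → E3) (X : E3) : Prop :=
  ∃ U ∈ 𝓝 X, ∀ a ∈ U, ∀ b ∈ U, ∀ i, |comp i (f a) - comp i (f b)| ≤
    ∑ j, K i j * |comp j a - comp j b|

/-- `comp i` as a continuous linear map -/
def compL (i : Fin 3) : E3 →L[ℝ] ℝ := match i with
  | 0 => ContinuousLinearMap.fst ℝ ℝ (ℝ × ℝ)
  | 1 => (ContinuousLinearMap.fst ℝ ℝ ℝ).comp (ContinuousLinearMap.snd ℝ ℝ (ℝ × ℝ))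
  | 2 => (ContinuousLinearMap.snd ℝ ℝ ℝ).comp (ContinuousLinearMap.snd ℝ ℝ (ℝ × ℝ))

theorem compL_apply (i : Fin 3) (X : E3) : compL i X = comp i X := by
  fin_cases i <;> rfl

theorem comp_le_norm (i : Fin 3) (X : E3) : |comp i X| ≤ ‖X‖ := by
  have e : ‖X‖ = max |X.1| (max |X.2.1| |X.2.2|) := by
    simp [Prod.norm_def]
  rw [e]
  fin_cases i
  · exact le_max_left _ _
  · exact (le_max_left _ _).trans (le_max_right _ _)
  · exact (le_max_right _ _).trans (le_max_right _ _)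

theorem norm_le_sum_comp (X : E3) : ‖X‖ ≤ ∑ j : Fin 3, |comp j X| := by
  have e : ‖X‖ = max |X.1| (max |X.2.1| |X.2.2|) := by
    simp [Prod.norm_def]
  rw [e, Fin.sum_univ_three]
  have h0 : comp 0 X = X.1 := rfl
  have h1 : comp 1 X = X.2.1 := rfl
  have h2 : comp 2 X = X.2.2 := rfl
  rw [h0, h1, h2]
  have a0 := abs_nonneg X.1
  have a1 := abs_nonneg X.2.1
  have a2 := abs_nonneg X.2.2
  refine max_le (by linarith) (max_le (by linarith) (by linarith))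

theorem comp_sub (i : Fin 3) (X Y : E3) : comp i (X - Y) = comp i X - comp i Y := by
  fin_cases i <;> rfl

theorem MLip.bound {K : Fin 3 → Fin 3 → ℝ} (hK : ∀ i j, 0 ≤ K i j) {f : E3 → E3} {X : E3}
    (h : MLip K f X) (i j : Fin 3) : |comp i (fderiv ℝ f X (bas j))| ≤ K i j := by
  by_cases hd : DifferentiableAt ℝ f X
  · have h1 : HasDerivAt (fun t : ℝ => f (X + t • bas j)) (fderiv ℝ f X (bas j)) 0 :=
      hd.hasFDerivAt.hasLineDerivAt (bas j)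
    have h2 : HasDerivAt (fun t : ℝ => compL i (f (X + t • bas j)))
        (compL i (fderiv ℝ f X (bas j))) 0 := (compL i).hasFDerivAt.comp_hasDerivAt (0:ℝ) h1
    have h3 := h2.le_of_lip' (hK i j) (by
      obtain ⟨U, hU, hUK⟩ := h
      have hc : Tendsto (fun t : ℝ => X + t • bas j) (𝓝 0) (𝓝 X) := by
        have : Continuous (fun t : ℝ => X + t • bas j) := by fun_prop
        have h0 := this.tendsto (0:ℝ)
        simpa using h0
      filter_upwards [hc hU] with t ht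
      have hXU := mem_of_mem_nhds hU
      have h4 := hUK _ ht _ hXU i
      rw [compL_apply, compL_apply]
      simp only [zero_smul, add_zero, sub_zero]
      rw [Real.norm_eq_abs, Real.norm_eq_abs]
      refine h4.trans (le_of_eq ?_)
      have e : ∀ l : Fin 3, |comp l (X + t • bas j) - comp l X| = if l = j then |t| else 0 := by
        intro l
        rw [← comp_sub]
        have : X + t • bas j - X = t • bas j := by abel
        rw [this]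
        fin_cases l <;> fin_cases j <;> simp [comp, bas]
      simp only [e]
      simp)
    rw [compL_apply, Real.norm_eq_abs] at h3
    exact h3
  · rw [fderiv_zero_of_not_differentiableAt hd]
    have : comp i ((0 : E3 →L[ℝ] E3) (bas j)) = 0 := by
      fin_cases i <;> rfl
    rw [this, abs_zero]
    exact hK i j

theorem LipAt.mlip {K : ℝ} (hK : 0 ≤ K) {f : E3 → E3} {X : E3} (h : LipAt K f X) :
    MLip (fun _ _ => K) f X := by
  obtain ⟨U, hU, hUK⟩ := h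
  refine ⟨U, hU, fun a ha b hb i => ?_⟩
  rw [← comp_sub, ← Finset.mul_sum]
  refine (comp_le_norm i _).trans ?_
  have h1 := hUK a ha b hb
  rw [dist_eq_norm, dist_eq_norm] at h1
  refine h1.trans ?_
  have h2 := norm_le_sum_comp (a - b)
  simp only [comp_sub] at h2
  exact mul_le_mul_of_nonneg_left h2 hK

/-! elementary facts -/

theorem norm3 (X : E3) : ‖X‖ = max |X.1| (max |X.2.1| |X.2.2|) := by
  simp [Prod.norm_def]

theorem norm2 (w : E2) : ‖w‖ = max |w.1| |w.2| := by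
  simp [Prod.norm_def]

theorem lipAt_of_open {K : ℝ} {f : E3 → E3} {X : E3} {U : Set E3} (hU : IsOpen U) (hX : X ∈ U)
    (h : ∀ a ∈ U, ∀ b ∈ U, ‖f a - f b‖ ≤ K * ‖a - b‖) : LipAt K f X :=
  ⟨U, hU.mem_nhds hX, fun a ha b hb => by
    rw [dist_eq_norm, dist_eq_norm]; exact h a ha b hb⟩

theorem Par.Valid.mi_pos {P : Par} (hP : P.Valid) : 0 < P.mi := hP.mu_pos.trans_le hP.mu_le
theorem Par.Valid.mo_pos {P : Par} (hP : P.Valid) : 0 < P.mo := hP.mi_pos.trans_le hP.mi_le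
theorem Par.Valid.th_pos {P : Par} (hP : P.Valid) : 0 < P.th := by
  have := hP.mo_th; have := hP.mo_pos; have := hP.mu_pos; linarith

theorem ratio_ge {P P' : Par} (hP : P.Valid) (hP' : P'.Valid) :
    64 ≤ (P.N : ℝ) ^ 2 / P'.th := by
  have h1 : (2:ℝ) ≤ P.N := by exact_mod_cast hP.N_ge
  have h2 := hP'.th_le
  have h3 := hP'.th_pos
  rw [le_div_iff₀ h3]
  nlinarith

theorem dep_diff {P : Par} (hP : P.Valid) (a b : ℝ) : |P.dep a - P.dep b| = |a - b| / P.mu := by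
  unfold Par.dep
  rw [← sub_div, abs_div, abs_of_pos hP.mu_pos]
  congr 1
  rw [show (1 - a) - (1 - b) = -(a - b) by ring, abs_neg]

theorem bnd_sf_lip {P : Par} (hP : P.Valid) (a b : ℝ) :
    |P.sf a - P.sf b| ≤ 2 * π / P.mu * |a - b| := by
  unfold Par.sf
  have h := cl_lip (4 * P.dep a) (4 * P.dep b)
  rw [← mul_sub, abs_mul, dep_diff hP, abs_of_pos (by norm_num : (0:ℝ) < 4)] at h
  rw [← mul_sub, abs_mul, abs_of_pos (by positivity : (0:ℝ) < π / 2)]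
  rw [show (1 - cl (4 * P.dep a)) - (1 - cl (4 * P.dep b)) =
    -(cl (4 * P.dep a) - cl (4 * P.dep b)) by ring, abs_neg]
  calc π / 2 * |cl (4 * P.dep a) - cl (4 * P.dep b)| ≤ π / 2 * (4 * (|a - b| / P.mu)) := by
        gcongr
    _ = 2 * π / P.mu * |a - b| := by ring

theorem bnd_af_lip {P : Par} (hP : P.Valid) (a b : ℝ) :
    |P.af a - P.af b| ≤ 2 * π / P.mu * |a - b| := by
  unfold Par.af
  have h := cl_lip (4 * P.dep a - 1) (4 * P.dep b - 1)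
  rw [show (4 * P.dep a - 1) - (4 * P.dep b - 1) = 4 * (P.dep a - P.dep b) by ring,
    abs_mul, dep_diff hP, abs_of_pos (by norm_num : (0:ℝ) < 4)] at h
  rw [← mul_sub, abs_mul, abs_of_pos (by positivity : (0:ℝ) < π / 2)]
  rw [show (1 - cl (4 * P.dep a - 1)) - (1 - cl (4 * P.dep b - 1)) =
    -(cl (4 * P.dep a - 1) - cl (4 * P.dep b - 1)) by ring, abs_neg]
  calc π / 2 * |cl (4 * P.dep a - 1) - cl (4 * P.dep b - 1)| ≤
        π / 2 * (4 * (|a - b| / P.mu)) := by gcongr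
    _ = 2 * π / P.mu * |a - b| := by ring

theorem uf_lip {P : Par} (hP : P.Valid) (a b : ℝ) :
    |P.uf a - P.uf b| ≤ 4 / P.mu * |a - b| := by
  unfold Par.uf
  have h := cl_lip (4 * P.dep a - 2) (4 * P.dep b - 2)
  rw [show (4 * P.dep a - 2) - (4 * P.dep b - 2) = 4 * (P.dep a - P.dep b) by ring,
    abs_mul, dep_diff hP, abs_of_pos (by norm_num : (0:ℝ) < 4)] at h
  calc _ ≤ 4 * (|a - b| / P.mu) := h
    _ = 4 / P.mu * |a - b| := by ring

theorem sf_bd (P : Par) (a : ℝ) : 0 ≤ P.sf a ∧ P.sf a ≤ π / 2 := by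
  unfold Par.sf
  have h1 := cl_nonneg (4 * P.dep a)
  have h2 := cl_le_one (4 * P.dep a)
  have h3 := Real.pi_pos
  constructor
  · exact mul_nonneg (by positivity) (by linarith)
  · nlinarith

theorem uf_bd (P : Par) (a : ℝ) : |P.uf a| ≤ 1 := by
  unfold Par.uf
  rw [abs_of_nonneg (cl_nonneg _)]
  exact cl_le_one _

theorem cut_bd (th r : ℝ) : 0 ≤ cut th r ∧ cut th r ≤ 1 := ⟨cl_nonneg _, cl_le_one _⟩

theorem cut_lip {th : ℝ} (hth : 0 < th) (r r' : ℝ) : |cut th r - cut th r'| ≤ 1 / th * |r - r'| := by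
  unfold cut
  refine (cl_lip _ _).trans (le_of_eq ?_)
  rw [← sub_div, abs_div, abs_of_pos hth]
  rw [show (1 - th - r) - (1 - th - r') = -(r - r') by ring, abs_neg]
  ring

theorem WW_lip : ∃ C : ℝ, 1 ≤ C ∧ ∀ P P' P'' : Par, Compat P P' P'' → ∀ u u' w w', |u| ≤ 1 →
    |u'| ≤ 1 → ‖WW P P' P'' u w - WW P P' P'' u' w'‖ ≤
      C * ((P'.N : ℝ) ^ 2 / P''.th) * ‖w - w'‖ + C * |u - u'| := by
  obtain ⟨C, hC, h⟩ := VV_lip
  refine ⟨C, hC, fun P P' P'' hc u u' w w' hu hu' => ?_⟩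
  have hl := lam_pos hc.v
  have hl0 : 0 < P.lam := by linarith
  have h1 := h P' P'' hc.v' hc.v'' u u' (-(w.2 / P.lam), w.1 / P.lam)
    (-(w'.2 / P.lam), w'.1 / P.lam) hu hu'
  set a := VV P' P'' u (-(w.2 / P.lam), w.1 / P.lam) with ha
  set a' := VV P' P'' u' (-(w'.2 / P.lam), w'.1 / P.lam) with ha'
  have e1 : ‖((-(w.2 / P.lam), w.1 / P.lam) : E2) - (-(w'.2 / P.lam), w'.1 / P.lam)‖ =
      ‖w - w'‖ / P.lam := by
    rw [norm2, norm2]
    simp only [Prod.fst_sub, Prod.snd_sub]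
    rw [show -(w.2 / P.lam) - -(w'.2 / P.lam) = -((w.2 - w'.2) / P.lam) by ring,
      show w.1 / P.lam - w'.1 / P.lam = (w.1 - w'.1) / P.lam by ring, abs_neg, abs_div, abs_div,
      abs_of_pos hl0, max_div_div_right hl0.le, max_comm]
  have e2 : ‖WW P P' P'' u w - WW P P' P'' u' w'‖ = P.lam * ‖a - a'‖ := by
    unfold WW
    rw [← ha, ← ha', norm2, norm2]
    simp only [Prod.fst_sub, Prod.snd_sub]
    rw [show P.lam * a.2 - P.lam * a'.2 = P.lam * (a.2 - a'.2) by ring,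
      show -(P.lam * a.1) - -(P.lam * a'.1) = -(P.lam * (a.1 - a'.1)) by ring, abs_neg, abs_mul,
      abs_mul, abs_of_pos hl0, ← mul_max_of_nonneg _ _ hl0.le, max_comm]
  rw [e1] at h1
  rw [e2]
  have hr := ratio_ge hc.v' hc.v''
  calc P.lam * ‖a - a'‖ ≤ P.lam * (C * ((P'.N : ℝ) ^ 2 / P''.th) * (‖w - w'‖ / P.lam) +
        C * |u - u'|) := by gcongr
    _ = C * ((P'.N : ℝ) ^ 2 / P''.th) * ‖w - w'‖ + P.lam * (C * |u - u'|) := by
        field_simp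
    _ ≤ C * ((P'.N : ℝ) ^ 2 / P''.th) * ‖w - w'‖ + 1 * (C * |u - u'|) := by
        gcongr
        exact hl.2.le
    _ = _ := by ring

theorem norm_sub_le3 {a b : E3} {K : ℝ} (h1 : |a.1 - b.1| ≤ K) (h2 : |a.2.1 - b.2.1| ≤ K)
    (h3 : |a.2.2 - b.2.2| ≤ K) : ‖a - b‖ ≤ K := by
  rw [norm3]
  exact max_le h1 (max_le h2 h3)

theorem le_norm_sub3 (a b : E3) :
    |a.1 - b.1| ≤ ‖a - b‖ ∧ |a.2.1 - b.2.1| ≤ ‖a - b‖ ∧ |a.2.2 - b.2.2| ≤ ‖a - b‖ := by
  rw [norm3]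
  exact ⟨le_max_left _ _, (le_max_left _ _).trans (le_max_right _ _),
    (le_max_right _ _).trans (le_max_right _ _)⟩

theorem norm_sub_le2 {a b : E2} {K : ℝ} (h1 : |a.1 - b.1| ≤ K) (h2 : |a.2 - b.2| ≤ K) :
    ‖a - b‖ ≤ K := by
  rw [norm2]
  exact max_le h1 h2

theorem le_norm_sub2 (a b : E2) : |a.1 - b.1| ≤ ‖a - b‖ ∧ |a.2 - b.2| ≤ ‖a - b‖ := by
  rw [norm2]
  exact ⟨le_max_left _ _, le_max_right _ _⟩

theorem blk_inner : ∃ C : ℝ, 1 ≤ C ∧ ∀ P P' P'' : Par, Compat P P' P'' → ∀ X : E3,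
    ‖X‖ < P.lam →
    LipAt (C * (1 / P.mi) * ((P.N : ℝ) ^ 2 / P'.th) * ((P'.N : ℝ) ^ 2 / P''.th))
      (Blk P P' P'') X := by
  obtain ⟨CF, hCF, hF⟩ := Fpl_lip_in
  obtain ⟨CV, hCV, hV⟩ := VV_lip
  obtain ⟨CW, hCW, hW⟩ := WW_lip
  refine ⟨CF * CV * CW, ?_, ?_⟩
  · exact one_le_mul_of_one_le_of_one_le (one_le_mul_of_one_le_of_one_le hCF hCV) hCW
  intro P P' P'' hc X hX
  have r1 := ratio_ge hc.v hc.v'
  have r2 := ratio_ge hc.v' hc.v''
  have hmi := hc.v.mi_pos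
  let g1 : E3 → E3 := fun X => ((WW P P' P'' 1 (X.1, X.2.1)).1,
      (WW P P' P'' 1 (X.1, X.2.1)).2, X.2.2)
  have l1 : LipAt (CW * ((P'.N : ℝ) ^ 2 / P''.th)) g1 X := by
    refine lipAt_of_lip (fun a b => ?_) X
    rw [dist_eq_norm, dist_eq_norm]
    have h1 := hW P P' P'' hc 1 1 (a.1, a.2.1) (b.1, b.2.1) (by simp) (by simp)
    rw [sub_self, abs_zero, mul_zero, add_zero] at h1
    have h2 := le_norm_sub3 a b
    have h3 : ‖((a.1, a.2.1) : E2) - (b.1, b.2.1)‖ ≤ ‖a - b‖ := norm_sub_le2 h2.1 h2.2.1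
    have h4 := le_norm_sub2 (WW P P' P'' 1 (a.1, a.2.1)) (WW P P' P'' 1 (b.1, b.2.1))
    have h5 : CW * ((P'.N : ℝ) ^ 2 / P''.th) * ‖((a.1, a.2.1) : E2) - (b.1, b.2.1)‖ ≤
        CW * ((P'.N : ℝ) ^ 2 / P''.th) * ‖a - b‖ := by gcongr
    have h6 : 1 * ‖a - b‖ ≤ CW * ((P'.N : ℝ) ^ 2 / P''.th) * ‖a - b‖ := by
      gcongr
      nlinarith
    rw [one_mul] at h6
    exact norm_sub_le3 (h4.1.trans (h1.trans h5)) (h4.2.trans (h1.trans h5)) (h2.2.2.trans h6)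
  have l2 : LipAt (CV * ((P.N : ℝ) ^ 2 / P'.th)) (ThN P P') (g1 X) := by
    refine lipAt_of_lip (fun a b => ?_) _
    rw [dist_eq_norm, dist_eq_norm]
    have h1 := hV P P' hc.v hc.v' 1 1 (a.1, a.2.2) (b.1, b.2.2) (by simp) (by simp)
    rw [sub_self, abs_zero, mul_zero, add_zero] at h1
    have h2 := le_norm_sub3 a b
    have h3 : ‖((a.1, a.2.2) : E2) - (b.1, b.2.2)‖ ≤ ‖a - b‖ := norm_sub_le2 h2.1 h2.2.2
    have h4 := le_norm_sub2 (VV P P' 1 (a.1, a.2.2)) (VV P P' 1 (b.1, b.2.2))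
    have h5 : CV * ((P.N : ℝ) ^ 2 / P'.th) * ‖((a.1, a.2.2) : E2) - (b.1, b.2.2)‖ ≤
        CV * ((P.N : ℝ) ^ 2 / P'.th) * ‖a - b‖ := by gcongr
    have h6 : 1 * ‖a - b‖ ≤ CV * ((P.N : ℝ) ^ 2 / P'.th) * ‖a - b‖ := by
      gcongr
      nlinarith
    rw [one_mul] at h6
    exact norm_sub_le3 (h4.1.trans (h1.trans h5)) (h2.2.1.trans h6) (h4.2.trans (h1.trans h5))
  have l3 : LipAt (CF / P.mi) (Fpl P) (ThN P P' (g1 X)) := hF P hc.v _ (Blk_norm_lt hc hX).2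
  have l4 := LipAt.comp (f := ThN P P' ∘ g1) (g := Fpl P) (x := X) (by positivity) l3
    (LipAt.comp (by positivity) l2 l1)
  have l5 := l4.congr (g := Blk P P' P'') (by
    have : {Y : E3 | ‖Y‖ < P.lam} ∈ 𝓝 X := (isOpen_lt continuous_norm continuous_const).mem_nhds hX
    filter_upwards [this] with Y hY
    exact (Blk_K hc (le_of_lt hY)).symm)
  refine l5.mono (le_of_eq ?_)
  ring

section zones
variable {P P' P'' : Par}

/-- plain zone -/
theorem lip_plain {CF : ℝ} (hF : ∀ P : Par, P.Valid → ∀ X : E3, P.lam < ‖X‖ → ‖X‖ < 1 →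
    LipAt (CF / P.mu) (Fpl P) X) (hc : Compat P P' P'') {X : E3} (h1 : P.lam < ‖X‖)
    (h2 : ‖X‖ < 1)
    (hN : P.lam * (1 - P'.th) < |X.1| ∨ P.lam < |X.2.2|)
    (hE : 1 - P.th < ‖X.2‖)
    (hT : 1 - P.mu / 2 < |X.2.2| ∨ P.lam * P'.lam * (1 - P''.th) < |X.2.1| ∨
      P.lam * P'.lam < |X.1|) : LipAt (CF / P.mu) (Blk P P' P'') X := by
  refine (hF P hc.v X h1 h2).congr ?_
  have c1 : Continuous (fun Y : E3 => |Y.1|) := by fun_prop
  have c2 : Continuous (fun Y : E3 => |Y.2.1|) := by fun_prop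
  have c3 : Continuous (fun Y : E3 => |Y.2.2|) := by fun_prop
  have c4 : Continuous (fun Y : E3 => ‖Y.2‖) := by fun_prop
  have eN : ∀ᶠ Y in 𝓝 X, P.lam * (1 - P'.th) ≤ |Y.1| ∨ P.lam ≤ |Y.2.2| := by
    rcases hN with h | h
    · filter_upwards [(isOpen_lt continuous_const c1).mem_nhds h] with Y hY
      exact Or.inl (le_of_lt hY)
    · filter_upwards [(isOpen_lt continuous_const c3).mem_nhds h] with Y hY
      exact Or.inr (le_of_lt hY)
  have eE : ∀ᶠ Y in 𝓝 X, 1 - P.th ≤ ‖Y.2‖ := by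
    filter_upwards [(isOpen_lt continuous_const c4).mem_nhds hE] with Y hY
    exact le_of_lt hY
  have eT : ∀ᶠ Y in 𝓝 X, 1 - P.mu / 2 ≤ |Y.2.2| ∨ P.lam * P'.lam * (1 - P''.th) ≤ |Y.2.1| ∨
      P.lam * P'.lam ≤ |Y.1| := by
    rcases hT with h | h | h
    · filter_upwards [(isOpen_lt continuous_const c3).mem_nhds h] with Y hY
      exact Or.inl (le_of_lt hY)
    · filter_upwards [(isOpen_lt continuous_const c2).mem_nhds h] with Y hY
      exact Or.inr (Or.inl (le_of_lt hY))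
    · filter_upwards [(isOpen_lt continuous_const c1).mem_nhds h] with Y hY
      exact Or.inr (Or.inr (le_of_lt hY))
  filter_upwards [eN, eE, eT] with Y h1 h2 h3
  exact (Blk_plain hc h1 h2 h3).symm

/-- N zone -/
theorem lip_N {CV : ℝ} (hCV : 1 ≤ CV) (hV : ∀ P P' : Par, P.Valid → P'.Valid → ∀ u u' q q',
    |u| ≤ 1 → |u'| ≤ 1 →
    ‖VV P P' u q - VV P P' u' q'‖ ≤ CV * ((P.N : ℝ) ^ 2 / P'.th) * ‖q - q'‖ + CV * |u - u'|)
    (hc : Compat P P' P'') {X : E3} (hy : P.lam < |X.2.1|) (hx : |X.1| < (1 - P.mo) * |X.2.1|)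
    (hz : |X.2.2| < |X.2.1|) : LipAt (CV * ((P.N : ℝ) ^ 2 / P'.th)) (Blk P P' P'') X := by
  have r1 := ratio_ge hc.v hc.v'
  have c1 : Continuous (fun Y : E3 => |Y.1|) := by fun_prop
  have c2 : Continuous (fun Y : E3 => |Y.2.1|) := by fun_prop
  have c3 : Continuous (fun Y : E3 => |Y.2.2|) := by fun_prop
  have hU : IsOpen {Y : E3 | P.lam < |Y.2.1| ∧ |Y.1| < (1 - P.mo) * |Y.2.1| ∧
      |Y.2.2| < |Y.2.1|} :=
    (isOpen_lt continuous_const c2).inter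
      ((isOpen_lt c1 (continuous_const.mul c2)).inter (isOpen_lt c3 c2))
  refine lipAt_of_open hU ⟨hy, hx, hz⟩ ?_
  rintro ⟨a1, a2, a3⟩ ⟨ha1, ha2, ha3⟩ ⟨b1, b2, b3⟩ ⟨hb1, hb2, hb3⟩
  rw [Blk_N hc ha1 ha2.le ha3.le, Blk_N hc hb1 hb2.le hb3.le]
  have h1 := hV P P' hc.v hc.v' 1 1 (a1, a3) (b1, b3) (by simp) (by simp)
  rw [sub_self, abs_zero, mul_zero, add_zero] at h1
  have h2 := le_norm_sub3 (a1, a2, a3) (b1, b2, b3)
  have h3 : ‖((a1, a3) : E2) - (b1, b3)‖ ≤ ‖((a1, a2, a3) : E3) - (b1, b2, b3)‖ :=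
    norm_sub_le2 h2.1 h2.2.2
  have h4 := le_norm_sub2 (VV P P' 1 (a1, a3)) (VV P P' 1 (b1, b3))
  have h5 : CV * ((P.N : ℝ) ^ 2 / P'.th) * ‖((a1, a3) : E2) - (b1, b3)‖ ≤
      CV * ((P.N : ℝ) ^ 2 / P'.th) * ‖((a1, a2, a3) : E3) - (b1, b2, b3)‖ := by gcongr
  have h6 : 1 * ‖((a1, a2, a3) : E3) - (b1, b2, b3)‖ ≤
      CV * ((P.N : ℝ) ^ 2 / P'.th) * ‖((a1, a2, a3) : E3) - (b1, b2, b3)‖ := by
    gcongr
    nlinarith
  rw [one_mul] at h6
  refine norm_sub_le3 ?_ (h2.2.1.trans h6) (h4.2.trans (h1.trans h5))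
  have : |-(VV P P' 1 (a1, a3)).1 - -(VV P P' 1 (b1, b3)).1| =
      |(VV P P' 1 (a1, a3)).1 - (VV P P' 1 (b1, b3)).1| := by
    rw [← abs_neg]; congr 1; ring
  simp only [this]
  exact h4.1.trans (h1.trans h5)

/-- E zone -/
theorem lip_E (hc : Compat P P' P'') {X : E3} (hx : P.lam < |X.1|)
    (hζ : ‖X.2‖ < (1 - P.mo) * |X.1|) (h1' : |X.1| < 1) :
    LipAt (100 / P.mu) (Blk P P' P'') X := by
  have hmu := hc.v.mu_pos
  have hth := hc.v.th_pos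
  have c1 : Continuous (fun Y : E3 => |Y.1|) := by fun_prop
  have c4 : Continuous (fun Y : E3 => ‖Y.2‖) := by fun_prop
  have hU : IsOpen {Y : E3 | P.lam < |Y.1| ∧ ‖Y.2‖ < (1 - P.mo) * |Y.1| ∧ |Y.1| < 1} :=
    (isOpen_lt continuous_const c1).inter
      ((isOpen_lt c4 (continuous_const.mul c1)).inter (isOpen_lt c1 continuous_const))
  refine lipAt_of_open hU ⟨hx, hζ, h1'⟩ ?_
  rintro ⟨a1, a2⟩ ⟨ha1, ha2, ha3⟩ ⟨b1, b2⟩ ⟨hb1, hb2, hb3⟩
  simp only at ha1 ha2 ha3 hb1 hb2 hb3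
  rw [Blk_E hc ha1 ha2.le, Blk_E hc hb1 hb2.le]
  set D := ‖((a1, a2) : E3) - (b1, b2)‖ with hD
  have d1 : |a1 - b1| ≤ D := (le_norm_sub3 (a1, a2) (b1, b2)).1
  have d2 : ‖a2 - b2‖ ≤ D := by
    have h := le_norm_sub3 (a1, a2) (b1, b2)
    exact norm_sub_le2 h.2.1 h.2.2
  have hD0 : 0 ≤ D := norm_nonneg _
  have d3 : |‖a2‖ - ‖b2‖| ≤ D := (abs_norm_sub_norm_le _ _).trans d2
  have d4 : abs (|a1| - |b1|) ≤ D := (abs_abs_sub_abs_le_abs_sub _ _).trans d1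
  have hmuth : P.mu ≤ P.th := by have := hc.v.mo_th; have := hc.v.mo_pos; linarith
  -- angle difference
  have s1 := bnd_sf_lip hc.v |a1| |b1|
  have s2 := sf_bd P |a1|
  have s2' := sf_bd P |b1|
  have s3 := cut_bd P.th ‖a2‖
  have s3' := cut_bd P.th ‖b2‖
  have s4 := cut_lip hth ‖a2‖ ‖b2‖
  have hpi : π < 3.15 := Real.pi_lt_d2
  have hpi0 := Real.pi_pos
  set sa := P.sf |a1| with hsa
  set sb := P.sf |b1| with hsb
  set ca := cut P.th ‖a2‖ with hca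
  set cb := cut P.th ‖b2‖ with hcb
  have t1 : |sa - sb| ≤ 2 * π / P.mu * D := s1.trans (by gcongr)
  have t2 : |ca - cb| ≤ 1 / P.mu * D := by
    refine s4.trans ?_
    gcongr
  have t3 : |(π + 2 * sa * (1 - ca)) - (π + 2 * sb * (1 - cb))| ≤ 16 / P.mu * D := by
    have e : (π + 2 * sa * (1 - ca)) - (π + 2 * sb * (1 - cb)) =
        2 * (sa - sb) * (1 - ca) - 2 * sb * (ca - cb) := by ring
    rw [e]
    have u0 : 1 - ca ≤ 1 := by linarith
    have u0' : 0 ≤ 1 - ca := by linarith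
    have u1 : |2 * (sa - sb) * (1 - ca)| ≤ 2 * (2 * π / P.mu * D) * 1 := by
      rw [abs_mul, abs_mul, abs_of_nonneg (by linarith : 0 ≤ 1 - ca),
        abs_of_pos (by norm_num : (0:ℝ) < 2)]
      gcongr
    have u2 : |2 * sb * (ca - cb)| ≤ 2 * (π / 2) * (1 / P.mu * D) := by
      rw [abs_mul, abs_mul, abs_of_nonneg s2'.1, abs_of_pos (by norm_num : (0:ℝ) < 2)]
      gcongr
      exact s2'.2
    refine (abs_sub _ _).trans ((add_le_add u1 u2).trans ?_)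
    have e2 : 2 * (2 * π / P.mu * D) * 1 + 2 * (π / 2) * (1 / P.mu * D) =
        (5 * π) / P.mu * D := by ring
    rw [e2]
    gcongr
    linarith
  have t4 := refl_lip (π + 2 * sa * (1 - ca)) (π + 2 * sb * (1 - cb)) a2 b2
  have hmo1 : (1 - P.mo) * |a1| ≤ 1 := by
    have := hc.v.mo_pos
    have := abs_nonneg a1
    nlinarith
  have t5 : min ‖a2‖ ‖b2‖ ≤ 1 := (min_le_left _ _).trans (ha2.le.trans hmo1)
  have t6 : 4 * min ‖a2‖ ‖b2‖ * |(π + 2 * sa * (1 - ca)) - (π + 2 * sb * (1 - cb))| ≤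
      4 * 1 * (16 / P.mu * D) := by
    gcongr
  have hmu1 : P.mu ≤ 1 := by have := hc.v.th_le; linarith
  have t7 : 33 * ‖a2 - b2‖ ≤ 33 / P.mu * D := by
    have : 33 ≤ 33 / P.mu := by
      rw [le_div_iff₀ hmu]; nlinarith
    calc 33 * ‖a2 - b2‖ ≤ 33 * D := by gcongr
      _ ≤ 33 / P.mu * D := by gcongr
  have t8 : ‖refl (π + 2 * sa * (1 - ca)) a2 - refl (π + 2 * sb * (1 - cb)) b2‖ ≤
      100 / P.mu * D := by
    refine t4.trans ((add_le_add t7 t6).trans ?_)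
    have : 33 / P.mu * D + 4 * 1 * (16 / P.mu * D) = 97 / P.mu * D := by ring
    rw [this]
    gcongr
    norm_num
  have t9 := le_norm_sub2 (refl (π + 2 * sa * (1 - ca)) a2) (refl (π + 2 * sb * (1 - cb)) b2)
  have t10 : |a1 - b1| ≤ 100 / P.mu * D := by
    refine d1.trans ?_
    have : 1 ≤ 100 / P.mu := by rw [le_div_iff₀ hmu]; linarith
    nlinarith
  exact norm_sub_le3 t10 (t9.1.trans t8) (t9.2.trans t8)

/-- B zone: the fine estimate -/
theorem est_B {CW : ℝ} (hCW : 1 ≤ CW) (hW : ∀ P P' P'' : Par, Compat P P' P'' →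
    ∀ u u' w w', |u| ≤ 1 → |u'| ≤ 1 → ‖WW P P' P'' u w - WW P P' P'' u' w'‖ ≤
      CW * ((P'.N : ℝ) ^ 2 / P''.th) * ‖w - w'‖ + CW * |u - u'|)
    (hc : Compat P P' P'') {X : E3} (hz : P.lam < |X.2.2|)
    (hz' : |X.2.2| < 1 - P.mu / 2) (hy : |X.2.1| < (1 - P.mo) * |X.2.2|)
    (hx : |X.1| < |X.2.2|) : ∃ U ∈ 𝓝 X, ∀ a ∈ U, ∀ b ∈ U,
      |(Blk P P' P'' a).1 - (Blk P P' P'' b).1| ≤
        CW * ((P'.N : ℝ) ^ 2 / P''.th) * ‖((a.1, a.2.1) : E2) - (b.1, b.2.1)‖ +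
        CW * (4 / P.mu) * |a.2.2 - b.2.2| ∧
      |(Blk P P' P'' a).2.1 - (Blk P P' P'' b).2.1| ≤
        CW * ((P'.N : ℝ) ^ 2 / P''.th) * ‖((a.1, a.2.1) : E2) - (b.1, b.2.1)‖ +
        CW * (4 / P.mu) * |a.2.2 - b.2.2| ∧
      |(Blk P P' P'' a).2.2 - (Blk P P' P'' b).2.2| ≤ |a.2.2 - b.2.2| := by
  have hmu := hc.v.mu_pos
  have c1 : Continuous (fun Y : E3 => |Y.1|) := by fun_prop
  have c2 : Continuous (fun Y : E3 => |Y.2.1|) := by fun_prop
  have c3 : Continuous (fun Y : E3 => |Y.2.2|) := by fun_prop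
  have hU : IsOpen {Y : E3 | (P.lam < |Y.2.2| ∧ |Y.2.2| < 1 - P.mu / 2) ∧
      |Y.2.1| < (1 - P.mo) * |Y.2.2| ∧ |Y.1| < |Y.2.2|} :=
    ((isOpen_lt continuous_const c3).inter (isOpen_lt c3 continuous_const)).inter
      ((isOpen_lt c2 (continuous_const.mul c3)).inter (isOpen_lt c1 c3))
  refine ⟨_, hU.mem_nhds ⟨⟨hz, hz'⟩, hy, hx⟩, ?_⟩
  rintro ⟨a1, a2, a3⟩ ⟨⟨ha1, ha2⟩, ha3, ha4⟩ ⟨b1, b2, b3⟩ ⟨⟨hb1, hb2⟩, hb3, hb4⟩
  simp only at ha1 ha2 ha3 ha4 hb1 hb2 hb3 hb4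
  rw [Blk_B hc ha1 ha2.le ha3.le ha4.le, Blk_B hc hb1 hb2.le hb3.le hb4.le]
  have k1 := uf_bd P |a3|
  have k2 := uf_bd P |b3|
  have k3 := uf_lip hc.v |a3| |b3|
  set ua := P.uf |a3| with hua
  set ub := P.uf |b3| with hub
  have h1 := hW P P' P'' hc ua ub (a1, a2) (b1, b2) k1 k2
  have h2 : |ua - ub| ≤ 4 / P.mu * |a3 - b3| := by
    refine k3.trans ?_
    have := abs_abs_sub_abs_le_abs_sub a3 b3
    gcongr
  have h3 : CW * |ua - ub| ≤ CW * (4 / P.mu) * |a3 - b3| := by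
    calc CW * |ua - ub| ≤ CW * (4 / P.mu * |a3 - b3|) := by gcongr
      _ = _ := by ring
  have h4 := le_norm_sub2 (WW P P' P'' ua (a1, a2)) (WW P P' P'' ub (b1, b2))
  have h5 := h1.trans (add_le_add_right h3 _)
  refine ⟨h4.1.trans h5, ?_, le_refl _⟩
  have : |-(WW P P' P'' ua (a1, a2)).2 - -(WW P P' P'' ub (b1, b2)).2| =
      |(WW P P' P'' ua (a1, a2)).2 - (WW P P' P'' ub (b1, b2)).2| := by
    rw [← abs_neg]; congr 1; ring
  simp only [this]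
  exact h4.2.trans h5

/-- B zone -/
theorem lip_B {CW : ℝ} (hCW : 1 ≤ CW) (hW : ∀ P P' P'' : Par, Compat P P' P'' →
    ∀ u u' w w', |u| ≤ 1 → |u'| ≤ 1 → ‖WW P P' P'' u w - WW P P' P'' u' w'‖ ≤
      CW * ((P'.N : ℝ) ^ 2 / P''.th) * ‖w - w'‖ + CW * |u - u'|)
    (hc : Compat P P' P'') {X : E3} (hz : P.lam < |X.2.2|)
    (hz' : |X.2.2| < 1 - P.mu / 2) (hy : |X.2.1| < (1 - P.mo) * |X.2.2|)
    (hx : |X.1| < |X.2.2|) :
    LipAt (CW * ((P'.N : ℝ) ^ 2 / P''.th) + CW * (4 / P.mu)) (Blk P P' P'') X := by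
  obtain ⟨U, hU, h⟩ := est_B hCW hW hc hz hz' hy hx
  have hmu := hc.v.mu_pos
  have r2 := ratio_ge hc.v' hc.v''
  refine ⟨U, hU, fun a ha b hb => ?_⟩
  rw [dist_eq_norm, dist_eq_norm]
  obtain ⟨e1, e2, e3⟩ := h a ha b hb
  have d := le_norm_sub3 a b
  have d' : ‖((a.1, a.2.1) : E2) - (b.1, b.2.1)‖ ≤ ‖a - b‖ := norm_sub_le2 d.1 d.2.1
  have k : CW * ((P'.N : ℝ) ^ 2 / P''.th) * ‖((a.1, a.2.1) : E2) - (b.1, b.2.1)‖ +
        CW * (4 / P.mu) * |a.2.2 - b.2.2| ≤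
      (CW * ((P'.N : ℝ) ^ 2 / P''.th) + CW * (4 / P.mu)) * ‖a - b‖ := by
    rw [add_mul]
    have := d.2.2
    gcongr
  have k2 : 1 * ‖a - b‖ ≤ (CW * ((P'.N : ℝ) ^ 2 / P''.th) + CW * (4 / P.mu)) * ‖a - b‖ := by
    have : 0 ≤ CW * (4 / P.mu) := by positivity
    gcongr
    nlinarith
  rw [one_mul] at k2
  exact norm_sub_le3 (e1.trans k) (e2.trans k) ((e3.trans d.2.2).trans k2)

/-- parameter inequalities -/
theorem Compat.ineqs (hc : Compat P P' P'') :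
    P.lam = 1 - P.mu ∧ 1 / 2 < P.lam ∧ P.lam < 1 ∧ 0 < P'.lam ∧ P'.lam < 1 ∧
    1 - P.th ≤ (1 - P.mo) * P.lam ∧ P.mo < 1 / 16 ∧
    P.lam * (1 - P'.th) ≤ (1 - P.mo) * P.lam ∧ P.lam * (1 - P'.th) < P.lam ∧
    P.lam * P'.lam < P.lam ∧ P.lam * P'.lam * (1 - P''.th) ≤ (1 - P.mo) * P.lam ∧
    P.lam * P'.lam * (1 - P''.th) < P.lam ∧ 1 - P.th < P.lam := by
  have e : P.lam = 1 - P.mu := rfl
  have h1 := hc.v.mu_pos
  have h2 := hc.v.mo_pos
  have h3 := hc.v.mo_th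
  have h4 := hc.v.th_le
  have h5 := lam_pos hc.v
  have h6 := lam_pos hc.v'
  have h7 := hc.mo1
  have h8 := hc.mo2
  have h9 := hc.v'.th_pos
  have h10 := hc.v''.th_pos
  have h11 := hc.v''.th_le
  have k0 : 1 / 2 < P.lam := by rw [e]; linarith
  have k1 : P.lam * P'.lam < P.lam := by nlinarith
  have k2 : P.lam * P'.lam * (1 - P''.th) ≤ P.lam * (1 - P''.th) := by
    refine mul_le_mul_of_nonneg_right k1.le (by linarith)
  have k3 : 0 < P'.lam := by linarith [h6.1]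
  refine ⟨e, k0, h5.2, k3, h6.2, ?_, by linarith, by nlinarith, by nlinarith, k1, ?_, ?_, ?_⟩
  · rw [e]; nlinarith
  · refine k2.trans ?_
    nlinarith
  · refine k2.trans_lt ?_
    nlinarith
  · rw [e]; linarith

end zones

theorem blk_collar : ∃ C : ℝ, 1 ≤ C ∧ ∀ P P' P'' : Par, Compat P P' P'' → ∀ X : E3,
    P.lam < ‖X‖ → ‖X‖ < 1 → |X.2.2| ≠ 1 - P.mu / 2 →
    LipAt (C / P.mu + C * ((P.N : ℝ) ^ 2 / P'.th) + C * ((P'.N : ℝ) ^ 2 / P''.th))
      (Blk P P' P'') X := by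
  obtain ⟨CF, hCF, hF⟩ := Fpl_lip
  obtain ⟨CV, hCV, hV⟩ := VV_lip
  obtain ⟨CW, hCW, hW⟩ := WW_lip
  refine ⟨100 + CF + CV + 4 * CW, by linarith, ?_⟩
  intro P P' P'' hc X h1 h2 h3
  have hmu := hc.v.mu_pos
  have r1 := ratio_ge hc.v hc.v'
  have r2 := ratio_ge hc.v' hc.v''
  have r1' : 0 ≤ (P.N : ℝ) ^ 2 / P'.th := by linarith
  have r2' : 0 ≤ (P'.N : ℝ) ^ 2 / P''.th := by linarith
  obtain ⟨q1, q2, q3, q4, q5, q6, q7, q8, q9, q10, q11, q12, q13⟩ := hc.ineqs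
  -- the bounds
  set C := 100 + CF + CV + 4 * CW with hC
  have z1 : 0 ≤ C * ((P.N : ℝ) ^ 2 / P'.th) := by positivity
  have z2 : 0 ≤ C * ((P'.N : ℝ) ^ 2 / P''.th) := by positivity
  have z3 : 0 ≤ C / P.mu := by positivity
  have bF : CF / P.mu ≤ C / P.mu + C * ((P.N : ℝ) ^ 2 / P'.th) +
      C * ((P'.N : ℝ) ^ 2 / P''.th) := by
    have : CF / P.mu ≤ C / P.mu := by gcongr; linarith
    linarith
  have bE : 100 / P.mu ≤ C / P.mu + C * ((P.N : ℝ) ^ 2 / P'.th) +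
      C * ((P'.N : ℝ) ^ 2 / P''.th) := by
    have : 100 / P.mu ≤ C / P.mu := by gcongr; linarith
    linarith
  have bN : CV * ((P.N : ℝ) ^ 2 / P'.th) ≤ C / P.mu + C * ((P.N : ℝ) ^ 2 / P'.th) +
      C * ((P'.N : ℝ) ^ 2 / P''.th) := by
    have : CV * ((P.N : ℝ) ^ 2 / P'.th) ≤ C * ((P.N : ℝ) ^ 2 / P'.th) := by gcongr; linarith
    linarith
  have bB : CW * ((P'.N : ℝ) ^ 2 / P''.th) + CW * (4 / P.mu) ≤ C / P.mu +
      C * ((P.N : ℝ) ^ 2 / P'.th) + C * ((P'.N : ℝ) ^ 2 / P''.th) := by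
    have u1 : CW * ((P'.N : ℝ) ^ 2 / P''.th) ≤ C * ((P'.N : ℝ) ^ 2 / P''.th) := by
      gcongr; linarith
    have u2 : CW * (4 / P.mu) ≤ C / P.mu := by
      rw [mul_div_assoc']
      gcongr
      linarith
    linarith
  obtain ⟨x, y, z⟩ := X
  have hn : ‖((x, y, z) : E3)‖ = max |x| (max |y| |z|) := norm3 _
  have hn2 : ‖((y, z) : E2)‖ = max |y| |z| := norm2 _
  have hyn : |y| ≤ ‖((x, y, z) : E3).2‖ := by
    change |y| ≤ ‖((y, z) : E2)‖
    rw [hn2]; exact le_max_left _ _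
  have hzn : |z| ≤ ‖((x, y, z) : E3).2‖ := by
    change |z| ≤ ‖((y, z) : E2)‖
    rw [hn2]; exact le_max_right _ _
  simp only at h3
  have hz1 : |z| < 1 := by
    rw [hn] at h2
    exact lt_of_le_of_lt ((le_max_right _ _).trans (le_max_right _ _)) h2
  by_cases cy : |x| ≤ |y| ∧ |z| ≤ |y|
  · have e : ‖((x, y, z) : E3)‖ = |y| := by
      rw [hn, max_eq_left cy.2, max_eq_right cy.1]
    have l1 : P.lam < |y| := by rw [← e]; exact h1
    by_cases cN : |x| < (1 - P.mo) * |y| ∧ |z| < |y|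
    · exact (lip_N hCV hV hc l1 cN.1 cN.2).mono bN
    · refine (lip_plain hF hc h1 h2 ?_ (by linarith) (Or.inr (Or.inl (by
        change _ < |y|; linarith)))).mono bF
      change P.lam * (1 - P'.th) < |x| ∨ P.lam < |z|
      by_cases cx : |x| < (1 - P.mo) * |y|
      · right
        have : ¬ |z| < |y| := fun h => cN ⟨cx, h⟩
        linarith
      · left
        push Not at cx
        have : (1 - P.mo) * P.lam < (1 - P.mo) * |y| := by
          apply mul_lt_mul_of_pos_left l1; linarith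
        linarith
  · by_cases cx : |y| ≤ |x| ∧ |z| ≤ |x|
    · have e : ‖((x, y, z) : E3)‖ = |x| := by
        rw [hn, max_eq_left (max_le cx.1 cx.2)]
      have l1 : P.lam < |x| := by rw [← e]; exact h1
      by_cases cE : ‖((x, y, z) : E3).2‖ < (1 - P.mo) * |x|
      · exact (lip_E hc l1 cE (by change |x| < 1; rw [← e]; exact h2)).mono bE
      · push Not at cE
        have : (1 - P.mo) * P.lam < (1 - P.mo) * |x| := by
          apply mul_lt_mul_of_pos_left l1; linarith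
        refine (lip_plain hF hc h1 h2 (Or.inl ?_) (by linarith) (Or.inr (Or.inr ?_))).mono bF
        · change _ < |x|; linarith
        · change _ < |x|; linarith
    · have cz : |x| ≤ |z| ∧ |y| ≤ |z| := by
        by_contra hcon
        rcases le_total |x| |y| with h | h
        · rcases le_total |z| |y| with h' | h'
          · exact cy ⟨h, h'⟩
          · exact hcon ⟨h.trans h', h'⟩
        · rcases le_total |z| |x| with h' | h'
          · exact cx ⟨h, h'⟩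
          · exact hcon ⟨h', h.trans h'⟩
      have e : ‖((x, y, z) : E3)‖ = |z| := by
        rw [hn, max_eq_right cz.2, max_eq_right cz.1]
      have l1 : P.lam < |z| := by rw [← e]; exact h1
      rcases lt_or_gt_of_ne h3 with hzz | hzz
      · by_cases cB : |y| < (1 - P.mo) * |z| ∧ |x| < |z|
        · exact (lip_B hCW hW hc l1 hzz cB.1 cB.2).mono bB
        · refine (lip_plain hF hc h1 h2 (Or.inr l1) (by linarith) (Or.inr ?_)).mono bF
          change P.lam * P'.lam * (1 - P''.th) < |y| ∨ P.lam * P'.lam < |x|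
          by_cases cy' : |y| < (1 - P.mo) * |z|
          · right
            have : ¬ |x| < |z| := fun h => cB ⟨cy', h⟩
            linarith
          · left
            push Not at cy'
            have : (1 - P.mo) * P.lam < (1 - P.mo) * |z| := by
              apply mul_lt_mul_of_pos_left l1; linarith
            linarith
      · exact (lip_plain hF hc h1 h2 (Or.inr l1) (by linarith) (Or.inl hzz)).mono bF

theorem blk_coreN : ∃ C : ℝ, 1 ≤ C ∧ ∀ P P' P'' : Par, Compat P P' P'' → ∀ X : E3,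
    P.lam < |X.2.1| → ‖((X.1, X.2.2) : E2)‖ < 1 - P.th →
    LipAt (C * ((P.N : ℝ) ^ 2 / P'.th)) (Blk P P' P'') X := by
  obtain ⟨CV, hCV, hV⟩ := VV_lip
  refine ⟨CV, hCV, fun P P' P'' hc X hy hq => ?_⟩
  obtain ⟨q1, q2, q3, q4, q5, q6, q7, q8, q9, q10, q11, q12, q13⟩ := hc.ineqs
  rw [norm2] at hq
  have hx : |X.1| < 1 - P.th := lt_of_le_of_lt (le_max_left _ _) hq
  have hz : |X.2.2| < 1 - P.th := lt_of_le_of_lt (le_max_right _ _) hq
  have : (1 - P.mo) * P.lam < (1 - P.mo) * |X.2.1| := by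
    apply mul_lt_mul_of_pos_left hy; linarith
  exact lip_N hCV hV hc hy (by linarith) (by linarith)

theorem blk_coreE : ∀ P P' P'' : Par, Compat P P' P'' → ∀ X : E3,
    P.lam < |X.1| → ‖X.2‖ < 1 - 2 * P.th → LipAt 1 (Blk P P' P'') X := by
  intro P P' P'' hc X hx hq
  obtain ⟨q1, q2, q3, q4, q5, q6, q7, q8, q9, q10, q11, q12, q13⟩ := hc.ineqs
  have hth := hc.v.th_pos
  have c1 : Continuous (fun Y : E3 => |Y.1|) := by fun_prop
  have c4 : Continuous (fun Y : E3 => ‖Y.2‖) := by fun_prop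
  have hU : IsOpen {Y : E3 | P.lam < |Y.1| ∧ ‖Y.2‖ < 1 - 2 * P.th} :=
    (isOpen_lt continuous_const c1).inter (isOpen_lt c4 continuous_const)
  have key : ∀ Y ∈ {Y : E3 | P.lam < |Y.1| ∧ ‖Y.2‖ < 1 - 2 * P.th},
      Blk P P' P'' Y = (Y.1, -Y.2.1, Y.2.2) := by
    rintro ⟨y1, y2⟩ ⟨hy1, hy2⟩
    simp only at hy1 hy2
    have h1 : (1 - P.mo) * P.lam < (1 - P.mo) * |y1| := by
      apply mul_lt_mul_of_pos_left hy1; linarith
    rw [Blk_E hc hy1 (by linarith)]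
    have h2 : cut P.th ‖y2‖ = 1 := by
      unfold cut cl
      have : 1 ≤ (1 - P.th - ‖y2‖) / P.th := by
        rw [le_div_iff₀ hth]; linarith
      rw [min_eq_left this]
      norm_num
    rw [h2, sub_self, mul_zero, add_zero, refl_pi]
  refine lipAt_of_open hU ⟨hx, hq⟩ ?_
  intro a ha b hb
  rw [key a ha, key b hb, one_mul]
  have h := le_norm_sub3 a b
  refine norm_sub_le3 h.1 ?_ h.2.2
  have : |-a.2.1 - -b.2.1| = |a.2.1 - b.2.1| := by
    rw [← abs_neg]; congr 1; ring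
  simp only [this]
  exact h.2.1

/-- bound matrix in the T core -/
noncomputable def KT (A B : ℝ) (i j : Fin 3) : ℝ :=
  if i = 2 then (if j = 2 then 1 else 0) else (if j = 2 then A else B)

theorem mlip_KT {A B : ℝ} {f : E3 → E3} {X : E3} {U : Set E3} (hU : U ∈ 𝓝 X)
    (h : ∀ a ∈ U, ∀ b ∈ U,
      |(f a).1 - (f b).1| ≤ B * (|a.1 - b.1| + |a.2.1 - b.2.1|) + A * |a.2.2 - b.2.2| ∧
      |(f a).2.1 - (f b).2.1| ≤ B * (|a.1 - b.1| + |a.2.1 - b.2.1|) + A * |a.2.2 - b.2.2| ∧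
      |(f a).2.2 - (f b).2.2| ≤ |a.2.2 - b.2.2|) : MLip (KT A B) f X := by
  refine ⟨U, hU, fun a ha b hb i => ?_⟩
  obtain ⟨h1, h2, h3⟩ := h a ha b hb
  rw [Fin.sum_univ_three]
  have c0 : ∀ Y : E3, comp 0 Y = Y.1 := fun _ => rfl
  have c1 : ∀ Y : E3, comp 1 Y = Y.2.1 := fun _ => rfl
  have c2 : ∀ Y : E3, comp 2 Y = Y.2.2 := fun _ => rfl
  have i02 : ¬ (0 : Fin 3) = 2 := by decide
  have i12 : ¬ (1 : Fin 3) = 2 := by decide
  have hi : i = 0 ∨ i = 1 ∨ i = 2 := by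
    fin_cases i
    · exact Or.inl rfl
    · exact Or.inr (Or.inl rfl)
    · exact Or.inr (Or.inr rfl)
  rcases hi with rfl | rfl | rfl
  · simp only [c0, c1, c2, KT, if_neg i02, if_neg i12, if_true]
    linarith
  · simp only [c0, c1, c2, KT, if_neg i02, if_neg i12, if_true]
    linarith
  · simp only [c0, c1, c2, KT, if_neg i02, if_neg i12, if_true]
    linarith

theorem blk_coreT : ∃ C : ℝ, 1 ≤ C ∧ ∀ P P' P'' : Par, Compat P P' P'' → ∀ X : E3,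
    P.lam < |X.2.2| → |X.2.2| < 1 → ‖((X.1, X.2.1) : E2)‖ < 1 - P.th →
    |X.2.2| ≠ 1 - P.mu / 2 →
    MLip (KT (C / P.mu) (C * ((P'.N : ℝ) ^ 2 / P''.th))) (Blk P P' P'') X := by
  obtain ⟨CW, hCW, hW⟩ := WW_lip
  refine ⟨51 + 4 * CW, by linarith, ?_⟩
  intro P P' P'' hc X hz hz1 hq h3
  obtain ⟨q1, q2, q3, q4, q5, q6, q7, q8, q9, q10, q11, q12, q13⟩ := hc.ineqs
  have hmu := hc.v.mu_pos
  have r2 := ratio_ge hc.v' hc.v''
  have r2' : 0 ≤ (P'.N : ℝ) ^ 2 / P''.th := by linarith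
  have hzz : (1 - P.mo) * P.lam < (1 - P.mo) * |X.2.2| := by
    apply mul_lt_mul_of_pos_left hz; linarith
  have hq' : ‖((X.1, X.2.1) : E2)‖ < (1 - P.mo) * |X.2.2| := by linarith
  have hx : |X.1| < 1 - P.th := lt_of_le_of_lt (by rw [norm2]; exact le_max_left _ _) hq
  have hy : |X.2.1| < 1 - P.th := lt_of_le_of_lt (by rw [norm2]; exact le_max_right _ _) hq
  rcases lt_or_gt_of_ne h3 with h4 | h4
  · obtain ⟨U, hU, h⟩ := est_B hCW hW hc hz h4 (by linarith) (by linarith)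
    refine mlip_KT hU (fun a ha b hb => ?_)
    obtain ⟨e1, e2, e3⟩ := h a ha b hb
    have k0 : ‖((a.1, a.2.1) : E2) - (b.1, b.2.1)‖ ≤ |a.1 - b.1| + |a.2.1 - b.2.1| := by
      have u1 := abs_nonneg (a.1 - b.1)
      have u2 := abs_nonneg (a.2.1 - b.2.1)
      refine norm_sub_le2 ?_ ?_
      · change |a.1 - b.1| ≤ _; linarith
      · change |a.2.1 - b.2.1| ≤ _; linarith
    have k : CW * ((P'.N : ℝ) ^ 2 / P''.th) * ‖((a.1, a.2.1) : E2) - (b.1, b.2.1)‖ +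
        CW * (4 / P.mu) * |a.2.2 - b.2.2| ≤
        (51 + 4 * CW) * ((P'.N : ℝ) ^ 2 / P''.th) * (|a.1 - b.1| + |a.2.1 - b.2.1|) +
        (51 + 4 * CW) / P.mu * |a.2.2 - b.2.2| := by
      have u2 : CW * (4 / P.mu) ≤ (51 + 4 * CW) / P.mu := by
        rw [mul_div_assoc']
        gcongr
        linarith
      have u3 : CW ≤ 51 + 4 * CW := by linarith
      gcongr
    exact ⟨e1.trans k, e2.trans k, e3⟩
  · have c3 : Continuous (fun Y : E3 => |Y.2.2|) := by fun_prop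
    have c5 : Continuous (fun Y : E3 => ‖((Y.1, Y.2.1) : E2)‖) := by fun_prop
    have hU : IsOpen {Y : E3 | (P.lam < |Y.2.2| ∧ 1 - P.mu / 2 < |Y.2.2|) ∧
        ‖((Y.1, Y.2.1) : E2)‖ < (1 - P.mo) * |Y.2.2| ∧ ‖((Y.1, Y.2.1) : E2)‖ < 1} :=
      ((isOpen_lt continuous_const c3).inter (isOpen_lt continuous_const c3)).inter
        ((isOpen_lt c5 (continuous_const.mul c3)).inter (isOpen_lt c5 continuous_const))
    refine mlip_KT (hU.mem_nhds ⟨⟨hz, h4⟩, hq', by linarith⟩) ?_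
    rintro ⟨a1, a2, a3⟩ ⟨⟨ha1, ha2⟩, ha3, ha4⟩ ⟨b1, b2, b3⟩ ⟨⟨hb1, hb2⟩, hb3, hb4⟩
    simp only at ha1 ha2 ha3 ha4 hb1 hb2 hb3 hb4
    rw [Blk_T hc ha1 ha3.le ha2.le, Blk_T hc hb1 hb3.le hb2.le]
    have k1 := bnd_af_lip hc.v |a3| |b3|
    have k2 := refl_lip (-2 * P.af |a3|) (-2 * P.af |b3|) (a1, a2) (b1, b2)
    set ua := P.af |a3| with hua
    set ub := P.af |b3| with hub
    have k3 : |(-2 * ua) - (-2 * ub)| ≤ 4 * π / P.mu * |a3 - b3| := by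
      rw [← mul_sub, abs_mul, abs_neg, abs_of_pos (by norm_num : (0:ℝ) < 2)]
      have := abs_abs_sub_abs_le_abs_sub a3 b3
      calc 2 * |ua - ub| ≤ 2 * (2 * π / P.mu * |a3 - b3|) := by
            gcongr
            refine k1.trans ?_
            gcongr
        _ = _ := by ring
    have k4 : min ‖((a1, a2) : E2)‖ ‖((b1, b2) : E2)‖ ≤ 1 := (min_le_left _ _).trans ha4.le
    have k5 : 4 * min ‖((a1, a2) : E2)‖ ‖((b1, b2) : E2)‖ * |(-2 * ua) - (-2 * ub)| ≤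
        4 * 1 * (4 * π / P.mu * |a3 - b3|) := by gcongr
    have k0 : ‖((a1, a2) : E2) - (b1, b2)‖ ≤ |a1 - b1| + |a2 - b2| := by
      have u1 := abs_nonneg (a1 - b1)
      have u2 := abs_nonneg (a2 - b2)
      refine norm_sub_le2 ?_ ?_
      · change |a1 - b1| ≤ _; linarith
      · change |a2 - b2| ≤ _; linarith
    have k6 : 33 * ‖((a1, a2) : E2) - (b1, b2)‖ ≤
        (51 + 4 * CW) * ((P'.N : ℝ) ^ 2 / P''.th) * (|a1 - b1| + |a2 - b2|) := by
      have : 33 ≤ (51 + 4 * CW) * ((P'.N : ℝ) ^ 2 / P''.th) := by nlinarith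
      calc 33 * ‖((a1, a2) : E2) - (b1, b2)‖ ≤ 33 * (|a1 - b1| + |a2 - b2|) := by gcongr
        _ ≤ _ := by gcongr
    have k7 : 4 * 1 * (4 * π / P.mu * |a3 - b3|) ≤ (51 + 4 * CW) / P.mu * |a3 - b3| := by
      have hpi : π < 3.15 := Real.pi_lt_d2
      have : 4 * 1 * (4 * π / P.mu * |a3 - b3|) = (16 * π) / P.mu * |a3 - b3| := by ring
      rw [this]
      gcongr
      linarith
    have k8 := k2.trans (add_le_add k6 (k5.trans k7))
    have k9 := le_norm_sub2 (refl (-2 * ua) (a1, a2)) (refl (-2 * ub) (b1, b2))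
    exact ⟨k9.1.trans k8, k9.2.trans k8, le_refl _⟩

end Pool.Agent.JAC
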