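import Pool.Agent.Lib.MP_3b5712_an.Defs

set_option autoImplicit false

open Filter Topology Set

namespace Pool.Agent.JAC

section
variable {X Y Z : Type*}

theorem OpenAt.comp [TopologicalSpace X] [TopologicalSpace Y] [TopologicalSpace Z]
    {f : X → Y} {g : Y → Z} {x : X} (hg : OpenAt g (f x)) (hf : OpenAt f x) :
    OpenAt (g ∘ f) x := by
  unfold OpenAt at *
  rw [← Filter.map_map]
  exact hg.trans (Filter.map_mono hf)

theorem OpenAt.congr [TopologicalSpace X] [TopologicalSpace Y] {f g : X → Y} {x : X}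
    (hf : OpenAt f x) (h : f =ᶠ[𝓝 x] g) : OpenAt g x := by
  unfold OpenAt at *
  rw [← Filter.map_congr h, ← h.eq_of_nhds]
  exact hf

theorem openAt_iff [TopologicalSpace X] [TopologicalSpace Y] {f : X → Y} {x : X} :
    OpenAt f x ↔ ∀ U ∈ 𝓝 x, f '' U ∈ 𝓝 (f x) := by
  unfold OpenAt
  constructor
  · intro h U hU
    exact h (Filter.image_mem_map hU)
  · intro h V hV
    have := h _ (Filter.mem_map.mp hV)
    exact Filter.mem_of_superset this (Set.image_preimage_subset _ _)

theorem isOpenMap_of_openAt [TopologicalSpace X] [TopologicalSpace Y] {f : X → Y}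
    (h : ∀ x, OpenAt f x) : IsOpenMap f := isOpenMap_iff_nhds_le.mpr h

theorem IsOpenMap.openAt [TopologicalSpace X] [TopologicalSpace Y] {f : X → Y}
    (h : IsOpenMap f) (x : X) : OpenAt f x := isOpenMap_iff_nhds_le.mp h x

theorem openAt_of_inverse [TopologicalSpace X] [TopologicalSpace Y] {f : X → Y} {g : Y → X}
    (hg : Continuous g) (hgf : ∀ x, g (f x) = x) (hfg : ∀ y, f (g y) = y) (x : X) :
    OpenAt f x := by
  rw [openAt_iff]
  intro U hU
  have h1 : g ⁻¹' U ∈ 𝓝 (f x) := hg.continuousAt (by rw [hgf]; exact hU)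
  exact Filter.mem_of_superset h1 (fun y hy => ⟨g y, hy, hfg y⟩)

variable [PseudoMetricSpace X] [PseudoMetricSpace Y] [PseudoMetricSpace Z]

theorem LipAt.mono {K L : ℝ} {f : X → Y} {x : X} (h : LipAt K f x) (hKL : K ≤ L) :
    LipAt L f x := by
  obtain ⟨U, hU, h⟩ := h
  exact ⟨U, hU, fun a ha b hb => (h a ha b hb).trans (by gcongr)⟩

theorem LipAt.congr {K : ℝ} {f g : X → Y} {x : X} (hf : LipAt K f x) (h : f =ᶠ[𝓝 x] g) :
    LipAt K g x := by
  obtain ⟨U, hU, hK⟩ := hf
  refine ⟨U ∩ {y | f y = g y}, Filter.inter_mem hU h, ?_⟩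
  rintro a ⟨ha, ha'⟩ b ⟨hb, hb'⟩
  change f a = g a at ha'
  change f b = g b at hb'
  rw [← ha', ← hb']
  exact hK a ha b hb

theorem LipAt.continuousAt {K : ℝ} {f : X → Y} {x : X} (h : LipAt K f x) : ContinuousAt f x := by
  obtain ⟨U, hU, h⟩ := h
  have hK : LipAt (max K 0) f x := LipAt.mono ⟨U, hU, h⟩ (le_max_left _ _)
  obtain ⟨U, hU, h⟩ := hK
  have hx := mem_of_mem_nhds hU
  rw [Metric.continuousAt_iff]
  intro ε hε
  obtain ⟨δ, hδ, hδU⟩ := Metric.mem_nhds_iff.mp hU
  refine ⟨min δ (ε / (max K 0 + 1)), lt_min hδ (by positivity), ?_⟩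
  intro y hy
  have hy1 : y ∈ U := hδU (lt_of_lt_of_le hy (min_le_left _ _))
  have hy2 : dist y x < ε / (max K 0 + 1) := lt_of_lt_of_le hy (min_le_right _ _)
  have hpos : 0 < max K 0 + 1 := by positivity
  have h3 := h y hy1 x hx
  rw [lt_div_iff₀ hpos] at hy2
  have h4 : (0:ℝ) ≤ dist y x := dist_nonneg
  nlinarith

theorem LipAt.comp {K L : ℝ} {f : X → Y} {g : Y → Z} {x : X} (hK : 0 ≤ K)
    (hg : LipAt K g (f x)) (hf : LipAt L f x) : LipAt (K * L) (g ∘ f) x := by
  have hc := hf.continuousAt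
  obtain ⟨U, hU, h⟩ := hf
  obtain ⟨V, hV, h'⟩ := hg
  refine ⟨U ∩ f ⁻¹' V, Filter.inter_mem hU (hc hV), ?_⟩
  rintro a ⟨ha, ha'⟩ b ⟨hb, hb'⟩
  calc dist ((g ∘ f) a) ((g ∘ f) b) ≤ K * dist (f a) (f b) := h' _ ha' _ hb'
    _ ≤ K * (L * dist a b) := by gcongr; exact h _ ha _ hb
    _ = K * L * dist a b := by ring

theorem LipAt.comp' {f : X → Y} {g : Y → Z} {x : X}
    (hg : ∃ K, LipAt K g (f x)) (hf : ∃ L, LipAt L f x) : ∃ K, LipAt K (g ∘ f) x := by
  obtain ⟨K, hK⟩ := hg
  obtain ⟨L, hL⟩ := hf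
  exact ⟨_, LipAt.comp (le_max_right K 0) (hK.mono (le_max_left _ _)) hL⟩

theorem lipAt_of_lip {K : ℝ} {f : X → Y} (h : ∀ a b, dist (f a) (f b) ≤ K * dist a b) (x : X) :
    LipAt K f x := ⟨univ, univ_mem, fun a _ b _ => h a b⟩

end

section
variable {X : Type*} [PseudoMetricSpace X]

theorem Good.continuous {f : X → X} (h : Good f) : Continuous f := by
  rw [continuous_iff_continuousAt]
  intro x
  obtain ⟨K, hK⟩ := h.lip x
  exact hK.continuousAt

theorem Good.comp {f g : X → X} (hg : Good g) (hf : Good f) : Good (g ∘ f) where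
  opn x := (hg.opn (f x)).comp (hf.opn x)
  lip x := LipAt.comp' (hg.lip (f x)) (hf.lip x)
  fin y := by
    rw [Set.preimage_comp]
    exact (hg.fin y).preimage' (fun b _ => hf.fin b)

theorem Good.of_inverse {f g : X → X} (hf : ∀ x, ∃ K, LipAt K f x) (hg : Continuous g)
    (hgf : ∀ x, g (f x) = x) (hfg : ∀ x, f (g x) = x) : Good f where
  opn x := openAt_of_inverse hg hgf hfg x
  lip := hf
  fin y := by
    apply (Set.finite_singleton (g y)).subset
    intro x hx
    simp only [mem_preimage, mem_singleton_iff] at hx ⊢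
    rw [← hx, hgf]

theorem Good.id : Good (fun x : X => x) :=
  Good.of_inverse (g := fun x => x) (fun x => ⟨1, lipAt_of_lip (fun a b => by simp) x⟩)
    continuous_id (fun _ => rfl) (fun _ => rfl)

end

section patch
set_option linter.unusedSectionVars false
variable {E : Type*} [NormedAddCommGroup E] [NormedSpace ℝ E]

/-- crossing point on a segment -/
theorem exists_frontier_segment {A : Set E} {a b : E} (ha : a ∈ A) (hb : b ∉ A) :
    ∃ c ∈ segment ℝ a b, c ∈ frontier A := by
  have hconn : IsPreconnected (segment ℝ a b) := (convex_segment a b).isPreconnected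
  by_contra hcon
  push Not at hcon
  have hcov : segment ℝ a b ⊆ interior A ∪ interior Aᶜ := by
    intro x hx
    by_cases hxA : x ∈ interior A
    · exact Or.inl hxA
    · right
      rw [interior_compl]
      intro hxc
      exact hcon x hx ⟨hxc, hxA⟩
  have h1 : (segment ℝ a b ∩ interior A).Nonempty := by
    refine ⟨a, left_mem_segment ℝ a b, ?_⟩
    rcases hcov (left_mem_segment ℝ a b) with h | h
    · exact h
    · exact absurd ha (interior_subset h)
  have h2 : (segment ℝ a b ∩ interior Aᶜ).Nonempty := by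
    refine ⟨b, right_mem_segment ℝ a b, ?_⟩
    rcases hcov (right_mem_segment ℝ a b) with h | h
    · exact absurd (interior_subset h) hb
    · exact h
  obtain ⟨c, -, hc1, hc2⟩ := hconn _ _ isOpen_interior isOpen_interior hcov h1 h2
  exact absurd (interior_subset hc1) (interior_subset hc2)

open Classical in
/-- piecewise map -/
noncomputable def pat (A : Set E) (f g : E → E) (x : E) : E := if x ∈ A then f x else g x

theorem pat_eqOn_left {A : Set E} {f g : E → E} {x : E} (hx : x ∈ A) : pat A f g x = f x := by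
  simp [pat, hx]

theorem pat_eqOn_right {A : Set E} {f g : E → E} {x : E} (hx : x ∉ A) : pat A f g x = g x := by
  simp [pat, hx]

/-- pointwise patching: openness and local Lipschitz. -/
theorem patch_at {A : Set E} (hA : IsClosed A) {f g : E → E} {B : Set E} {x : E}
    (hf : x ∈ A → OpenAt f x ∧ ∃ K, LipAt K f x)
    (hg : x ∈ closure Aᶜ → OpenAt g x ∧ ∃ K, LipAt K g x)
    (hfB : ∀ y, f y ∈ B → y ∈ A) (hgB : ∀ y ∈ A, g y ∈ B)
    (heq : ∀ y ∈ frontier A, f y = g y) :
    OpenAt (pat A f g) x ∧ ∃ K, LipAt K (pat A f g) x := by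
  classical
  by_cases hxi : x ∈ interior A
  · have hev : f =ᶠ[𝓝 x] pat A f g := by
      filter_upwards [mem_interior_iff_mem_nhds.mp hxi] with y hy
      simp [pat, hy]
    obtain ⟨h1, K, h2⟩ := hf (interior_subset hxi)
    exact ⟨h1.congr hev, K, h2.congr hev⟩
  · by_cases hxA : x ∈ A
    · have hfr : x ∈ frontier A := ⟨subset_closure hxA, hxi⟩
      have hcl : x ∈ closure Aᶜ := by
        rw [closure_compl]; exact hxi
      obtain ⟨h1, K, h2⟩ := hf hxA
      obtain ⟨h3, L, h4⟩ := hg hcl
      have hxeq := heq x hfr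
      constructor
      · rw [openAt_iff] at *
        intro U hU
        have e1 := h1 U hU
        have e2 := h3 U hU
        rw [← hxeq] at e2
        have e3 : pat A f g x = f x := by simp [pat, hxA]
        rw [e3]
        refine Filter.mem_of_superset (Filter.inter_mem e1 e2) ?_
        rintro y ⟨⟨p, hp, hpy⟩, ⟨q, hq, hqy⟩⟩
        by_cases hy : y ∈ B
        · have : p ∈ A := hfB p (by rw [hpy]; exact hy)
          exact ⟨p, hp, by simp [pat, this, hpy]⟩
        · have : q ∉ A := fun hqA => hy (by rw [← hqy]; exact hgB q hqA)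
          exact ⟨q, hq, by simp [pat, this, hqy]⟩
      · -- Lipschitz
        have h2' := h2.mono (le_max_left K L)
        have h4' := h4.mono (le_max_right K L)
        obtain ⟨U, hU, hUK⟩ := h2'
        obtain ⟨V, hV, hVK⟩ := h4'
        obtain ⟨r, hr, hrUV⟩ := Metric.mem_nhds_iff.mp (Filter.inter_mem hU hV)
        have key : ∀ a ∈ Metric.ball x r, ∀ b ∈ Metric.ball x r, a ∈ A → b ∉ A →
            dist (f a) (g b) ≤ max K L * dist a b := by
          intro a ha b hb haA hbA
          obtain ⟨c, hc, hcf⟩ := exists_frontier_segment haA hbA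
          have hcb : c ∈ Metric.ball x r := (convex_ball x r).segment_subset ha hb hc
          have d1 := hUK a (hrUV ha).1 c (hrUV hcb).1
          have d2 := hVK c (hrUV hcb).2 b (hrUV hb).2
          have d3 : dist a c + dist c b = dist a b := dist_add_dist_of_mem_segment hc
          calc dist (f a) (g b) ≤ dist (f a) (f c) + dist (f c) (g b) := dist_triangle _ _ _
            _ = dist (f a) (f c) + dist (g c) (g b) := by rw [heq c hcf]
            _ ≤ max K L * dist a c + max K L * dist c b := add_le_add d1 d2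
            _ = max K L * dist a b := by rw [← mul_add, d3]
        refine ⟨max K L, Metric.ball x r, Metric.ball_mem_nhds x hr, ?_⟩
        intro a ha b hb
        by_cases haA : a ∈ A <;> by_cases hbA : b ∈ A
        · simpa [pat, haA, hbA] using hUK a (hrUV ha).1 b (hrUV hb).1
        · simpa [pat, haA, hbA] using key a ha b hb haA hbA
        · have := key b hb a ha hbA haA
          rw [dist_comm, dist_comm b a] at this
          simpa [pat, haA, hbA] using this
        · simpa [pat, haA, hbA] using hVK a (hrUV ha).2 b (hrUV hb).2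
    · have hev : g =ᶠ[𝓝 x] pat A f g := by
        filter_upwards [hA.isOpen_compl.mem_nhds hxA] with y hy
        simp [pat, show y ∉ A from hy]
      obtain ⟨h1, K, h2⟩ := hg (subset_closure hxA)
      exact ⟨h1.congr hev, K, h2.congr hev⟩

theorem Good.patch {A : Set E} (hA : IsClosed A) {f g : E → E} {B : Set E}
    (hf : ∀ x ∈ A, OpenAt f x ∧ ∃ K, LipAt K f x)
    (hg : ∀ x ∈ closure Aᶜ, OpenAt g x ∧ ∃ K, LipAt K g x)
    (hff : ∀ y, (A ∩ f ⁻¹' {y}).Finite) (hgf : ∀ y, (Aᶜ ∩ g ⁻¹' {y}).Finite)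
    (hfB : ∀ y, f y ∈ B → y ∈ A) (hgB : ∀ y ∈ A, g y ∈ B)
    (heq : ∀ y ∈ frontier A, f y = g y) : Good (pat A f g) where
  opn x := (patch_at hA (hf x) (hg x) hfB hgB heq).1
  lip x := (patch_at hA (hf x) (hg x) hfB hgB heq).2
  fin y := by
    classical
    apply ((hff y).union (hgf y)).subset
    intro x hx
    by_cases hxA : x ∈ A
    · left
      refine ⟨hxA, ?_⟩
      simpa [pat, hxA] using hx
    · right
      refine ⟨hxA, ?_⟩
      simpa [pat, hxA] using hx

end patch

end Pool.Agent.JAC
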