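import Mathlib

/-!
Definitions for MP_3b5712_an (S04391). See the paper proof PROOF.md.
All norms are sup norms (`Prod.norm_def`).
-/

set_option autoImplicit false

open Filter Topology Set

namespace Pool.Agent.JAC

/-- pointwise openness of a map -/
def OpenAt {X Y : Type*} [TopologicalSpace X] [TopologicalSpace Y] (f : X → Y) (x : X) : Prop :=
  𝓝 (f x) ≤ Filter.map f (𝓝 x)

/-- `f` is `K`-Lipschitz in a neighbourhood of `x` -/
def LipAt {X Y : Type*} [PseudoMetricSpace X] [PseudoMetricSpace Y] (K : ℝ) (f : X → Y) (x : X) :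
    Prop :=
  ∃ U ∈ 𝓝 x, ∀ a ∈ U, ∀ b ∈ U, dist (f a) (f b) ≤ K * dist a b

/-- open, locally Lipschitz, finite fibres -/
structure Good {X : Type*} [PseudoMetricSpace X] (f : X → X) : Prop where
  opn : ∀ x, OpenAt f x
  lip : ∀ x, ∃ K, LipAt K f x
  fin : ∀ y, (f ⁻¹' {y}).Finite

/-! ### planar maps -/

abbrev E2 := ℝ × ℝ
abbrev E3 := ℝ × ℝ × ℝ

/-- clamp to `[0,1]` -/
noncomputable def cl (x : ℝ) : ℝ := max 0 (min 1 x)

/-- clip to `[-b,b]` -/
noncomputable def clip (b x : ℝ) : ℝ := max (-b) (min b x)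

/-- sup norm of the unit vector of angle `φ` -/
noncomputable def nrm (φ : ℝ) : ℝ := max |Real.cos φ| |Real.sin φ|

/-- square polar coordinates -/
noncomputable def pol (r φ : ℝ) : E2 := (r * Real.cos φ / nrm φ, r * Real.sin φ / nrm φ)

/-- angle of a planar vector -/
noncomputable def ang (w : E2) : ℝ := Complex.arg ⟨w.1, w.2⟩

/-- rotation by `t` along the square rings -/
noncomputable def rot (t : ℝ) (w : E2) : E2 := pol ‖w‖ (ang w + t)

/-- reflection along the square rings: `φ ↦ c - φ` -/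
noncomputable def refl (c : ℝ) (w : E2) : E2 := pol ‖w‖ (c - ang w)

/-- triangle wave: `2`-Lipschitz, `π/2`-periodic, `= 2 φ` for `|φ| ≤ π/8` -/
noncomputable def delta (φ : ℝ) : ℝ :=
  (‖((4 * φ + Real.pi / 2 : ℝ) : AddCircle (2 * Real.pi))‖ - Real.pi / 2) / 2

/-- ring map of degree `-3` -/
noncomputable def ring (D : ℝ → ℝ) (w : E2) : E2 := pol ‖w‖ (-3 * ang w + D (ang w))

/-- the basic degree `-3` ring map -/
noncomputable def QQ (w : E2) : E2 := ring delta w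

noncomputable def shUp (v : E2) : E2 := (v.1, v.2 + max 0 (1 - ‖v‖) / 4)
noncomputable def shDn (v : E2) : E2 := (v.1, v.2 - max 0 (1 - ‖v‖) / 4)
/-- inverse of `shUp` -/
noncomputable def shUpInv : E2 → E2 := Function.invFun shUp

/-- the inner planar branched map -/
noncomputable def kin (w : E2) : E2 :=
  if 1 / 4 ≤ w.2 then shDn (QQ (shUpInv w))
  else if w.2 ≤ -(1 / 4) then
    ((shDn (QQ (shUpInv (w.1, -w.2)))).1, -(shDn (QQ (shUpInv (w.1, -w.2)))).2)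
  else (w.1, -w.2)

noncomputable def kt (a : ℝ) (w : E2) : E2 :=
  if ‖w‖ ≤ 1 / 2 then (1 / 2 : ℝ) • kin ((2 : ℝ) • w)
  else ring (fun φ => (1 - cl (2 * ‖w‖ - 1)) * delta φ + cl (2 * ‖w‖ - 1) * delta (φ + a)) w

/-- the planar family `k_a` -/
noncomputable def ka (a : ℝ) (w : E2) : E2 := rot (-3 * a) (kt a (rot (-a) w))

/-! ### the plain block map in space -/

/-- depth variable -/
noncomputable def rho (lam : ℝ) (X : E3) : ℝ := max ‖X‖ lam

noncomputable def X3 (lam : ℝ) (s : ℝ → ℝ) (X : E3) : E3 := (X.1, rot (s (rho lam X)) X.2)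

noncomputable def K3 (lam : ℝ) (a : ℝ → ℝ) (X : E3) : E3 :=
  (rho lam X * (ka (a (rho lam X)) ((rho lam X)⁻¹ * X.1, (rho lam X)⁻¹ * X.2.1)).1,
   rho lam X * (ka (a (rho lam X)) ((rho lam X)⁻¹ * X.1, (rho lam X)⁻¹ * X.2.1)).2,
   X.2.2)

/-- coordinate compression at level `ρ` with edge width `m` -/
noncomputable def Hc (m ρ x : ℝ) : ℝ :=
  x / (8 * (1 - m)) + (7 / (8 * m) - 1 / (8 * (1 - m))) * (x - clip ((1 - m) * ρ) x)

/-- inverse of `Hc m ρ` -/
noncomputable def Hi (m ρ u : ℝ) : ℝ :=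
  (8 * m / 7) * u + (8 * (1 - m) - 8 * m / 7) * clip (ρ / 8) u

noncomputable def H3 (lam : ℝ) (m : ℝ → ℝ) (X : E3) : E3 :=
  (Hc (m (rho lam X)) (rho lam X) X.1, Hc (m (rho lam X)) (rho lam X) X.2.1,
    Hc (m (rho lam X)) (rho lam X) X.2.2)

noncomputable def H3i (lam : ℝ) (m : ℝ → ℝ) (X : E3) : E3 :=
  (Hi (m (rho lam X)) (rho lam X) X.1, Hi (m (rho lam X)) (rho lam X) X.2.1,
    Hi (m (rho lam X)) (rho lam X) X.2.2)

/-- parameters of one block -/
structure Par where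
  mu : ℝ
  mo : ℝ
  mi : ℝ
  g : ℝ
  th : ℝ
  N : ℕ

namespace Par

/-- conditions on the parameters of one block -/
structure Valid (P : Par) : Prop where
  mu_pos : 0 < P.mu
  mu_le : P.mu ≤ P.mi
  mi_le : P.mi ≤ P.mo
  mo_le : P.mo ≤ 16 * P.mi
  mo_th : P.mo + P.mu ≤ P.th
  th_le : P.th ≤ 1 / 16
  g_pos : 1 / 2 ≤ P.g
  g_lt : P.g < 1
  N_ge : 2 ≤ P.N

noncomputable def lam (P : Par) : ℝ := 1 - P.mu
noncomputable def hh (P : Par) : ℝ := P.lam * P.g / P.N
noncomputable def cen (P : Par) (i : ℕ) : ℝ := P.lam * (2 * i + 1 - P.N) / P.N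
noncomputable def dep (P : Par) (ρ : ℝ) : ℝ := (1 - ρ) / P.mu
noncomputable def sf (P : Par) (ρ : ℝ) : ℝ := Real.pi / 2 * (1 - cl (4 * P.dep ρ))
noncomputable def af (P : Par) (ρ : ℝ) : ℝ := Real.pi / 2 * (1 - cl (4 * P.dep ρ - 1))
noncomputable def uf (P : Par) (ρ : ℝ) : ℝ := cl (4 * P.dep ρ - 2)
noncomputable def mf (P : Par) (ρ : ℝ) : ℝ := P.mo + (P.mi - P.mo) * P.uf ρ

/-- child box chart -/
noncomputable def ch (P : Par) (i : ℕ) (X : E3) : E3 :=
  (P.lam * X.2.2, -(P.lam * X.1), P.cen i + P.hh * X.2.1)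

/-- inverse of the child box chart -/
noncomputable def chi (P : Par) (i : ℕ) (X : E3) : E3 :=
  (-(X.2.1 / P.lam), (X.2.2 - P.cen i) / P.hh, X.1 / P.lam)

end Par

noncomputable def Fpl (P : Par) (X : E3) : E3 :=
  H3i P.lam P.mf (X3 P.lam P.sf (K3 P.lam P.af
    (X3 P.lam (fun ρ => -P.sf ρ) (H3 P.lam P.mf X))))

/-- cut-off function of the contents: `1` for `r ≤ 1 - 2 th`, `0` for `r ≥ 1 - th` -/
noncomputable def cut (th r : ℝ) : ℝ := cl ((1 - th - r) / th)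

/-- half-turn twist on the strip `i` (planar coordinates `(x,z)` of the N-face) -/
noncomputable def gst (P P' : Par) (i : ℕ) (u : ℝ) (q : E2) : E2 :=
  (P.lam * (rot (u * Real.pi * cut P'.th ‖(((q.2 - P.cen i) / P.hh, q.1 / P.lam) : E2)‖)
      ((q.2 - P.cen i) / P.hh, q.1 / P.lam)).2,
   P.cen i + P.hh * (rot (u * Real.pi * cut P'.th ‖(((q.2 - P.cen i) / P.hh, q.1 / P.lam) : E2)‖)
      ((q.2 - P.cen i) / P.hh, q.1 / P.lam)).1)

/-- content family -/
noncomputable def VV (P P' : Par) (u : ℝ) (q : E2) : E2 :=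
  q + ∑ i ∈ Finset.range P.N, (gst P P' i u q - q)

noncomputable def ThE (P : Par) (X : E3) : E3 :=
  (X.1, rot (2 * P.sf |X.1| * cut P.th ‖X.2‖) X.2)

noncomputable def ThN (P P' : Par) (X : E3) : E3 :=
  ((VV P P' 1 (X.1, X.2.2)).1, X.2.1, (VV P P' 1 (X.1, X.2.2)).2)

noncomputable def ThT (P P' P'' : Par) (X : E3) : E3 :=
  (P.lam * (VV P' P'' (P.uf |X.2.2|) (-(X.2.1 / P.lam), X.1 / P.lam)).2,
   -(P.lam * (VV P' P'' (P.uf |X.2.2|) (-(X.2.1 / P.lam), X.1 / P.lam)).1),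
   X.2.2)

/-- the block map -/
noncomputable def Blk (P P' P'' : Par) (X : E3) : E3 :=
  Fpl P (ThN P P' (ThT P P' P'' (ThE P X)))

end Pool.Agent.JAC
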