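import Pool.Agent.Lib.MP_3b5712_an.K3

set_option autoImplicit false

open Filter Topology Set Real

namespace Pool.Agent.JAC

/-! TASK H: the plain block map `Fpl` -/

theorem cl_nonneg (x : ℝ) : 0 ≤ cl x := le_max_left _ _

theorem cl_le_one (x : ℝ) : cl x ≤ 1 := max_le zero_le_one (min_le_left _ _)

theorem cl_of_le {x : ℝ} (h : x ≤ 0) : cl x = 0 := by
  unfold cl; rw [max_eq_left]; exact (min_le_right _ _).trans h

theorem cl_of_ge {x : ℝ} (h : 1 ≤ x) : cl x = 1 := by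
  unfold cl; rw [min_eq_left h]; exact max_eq_right zero_le_one

theorem cl_lip (x y : ℝ) : |cl x - cl y| ≤ |x - y| := by
  unfold cl
  calc |max 0 (min 1 x) - max 0 (min 1 y)| ≤ |min 1 x - min 1 y| := abs_max_sub_max_le_abs' _ _ _
    _ ≤ |x - y| := abs_min_sub_min_le_abs' _ _ _
where
  abs_max_sub_max_le_abs' (a b c : ℝ) : |max a b - max a c| ≤ |b - c| := by
    have := abs_max_sub_max_le_max a b a c
    simpa using this
  abs_min_sub_min_le_abs' (a b c : ℝ) : |min a b - min a c| ≤ |b - c| := by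
    have := abs_min_sub_min_le_max a b a c
    simpa using this

theorem lam_facts {P : Par} (hP : P.Valid) :
    0 < P.lam ∧ P.lam < 1 ∧ 0 < P.mi ∧ 0 < P.mo ∧ P.mo ≤ 1 / 16 ∧ P.mu ≤ 1 / 16 := by
  have h1 := hP.mu_pos
  have h2 := hP.mu_le
  have h3 := hP.mi_le
  have h4 := hP.mo_th
  have h5 := hP.th_le
  unfold Par.lam
  refine ⟨?_, ?_, ?_, ?_, ?_, ?_⟩ <;> linarith

theorem mf_pos {P : Par} (hP : P.Valid) (r : ℝ) : P.mi ≤ P.mf r ∧ P.mf r ≤ P.mo := by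
  have h1 : 0 ≤ P.uf r := cl_nonneg _
  have h2 : P.uf r ≤ 1 := cl_le_one _
  have h3 := hP.mi_le
  unfold Par.mf
  constructor <;> nlinarith

theorem mf_pos' {P : Par} (hP : P.Valid) (r : ℝ) : 0 < P.mf r ∧ P.mf r < 1 := by
  obtain ⟨-, -, h1, h2, h3, -⟩ := lam_facts hP
  obtain ⟨h4, h5⟩ := mf_pos hP r
  constructor <;> linarith

theorem cl_dep_lip {P : Par} (hP : P.Valid) (c r r' : ℝ) :
    |cl (4 * P.dep r - c) - cl (4 * P.dep r' - c)| ≤ 4 / P.mu * |r - r'| := by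
  have hmu := hP.mu_pos
  calc |cl (4 * P.dep r - c) - cl (4 * P.dep r' - c)|
      ≤ |(4 * P.dep r - c) - (4 * P.dep r' - c)| := cl_lip _ _
    _ = |(4 / P.mu) * (r' - r)| := by
        congr 1
        unfold Par.dep
        field_simp
        ring
    _ = 4 / P.mu * |r - r'| := by
        rw [abs_mul, abs_of_pos (by positivity), abs_sub_comm]

theorem sf_lip {P : Par} (hP : P.Valid) (r r' : ℝ) :
    |P.sf r - P.sf r'| ≤ π / 2 * (4 / P.mu) * |r - r'| := by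
  have h := cl_dep_lip hP 0 r r'
  simp only [sub_zero] at h
  have e : P.sf r - P.sf r' = -(π / 2) * (cl (4 * P.dep r) - cl (4 * P.dep r')) := by
    unfold Par.sf; ring
  rw [e, abs_mul, abs_neg, abs_of_pos (by positivity : 0 < π / 2), mul_assoc]
  gcongr

theorem af_lip {P : Par} (hP : P.Valid) (r r' : ℝ) :
    |P.af r - P.af r'| ≤ π / 2 * (4 / P.mu) * |r - r'| := by
  have h := cl_dep_lip hP 1 r r'
  have e : P.af r - P.af r' = -(π / 2) * (cl (4 * P.dep r - 1) - cl (4 * P.dep r' - 1)) := by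
    unfold Par.af; ring
  rw [e, abs_mul, abs_neg, abs_of_pos (by positivity : 0 < π / 2), mul_assoc]
  gcongr

theorem mf_lip {P : Par} (hP : P.Valid) (r r' : ℝ) :
    |P.mf r - P.mf r'| ≤ 4 * P.mo / P.mu * |r - r'| := by
  have h := cl_dep_lip hP 2 r r'
  have h3 := hP.mi_le
  obtain ⟨-, -, h4, -, -, -⟩ := lam_facts hP
  have hmu := hP.mu_pos
  have e : P.mf r - P.mf r' = (P.mi - P.mo) * (cl (4 * P.dep r - 2) - cl (4 * P.dep r' - 2)) := by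
    unfold Par.mf Par.uf; ring
  have h5 : |P.mi - P.mo| ≤ P.mo := by
    rw [abs_of_nonpos (by linarith)]; linarith
  rw [e, abs_mul]
  calc |P.mi - P.mo| * |cl (4 * P.dep r - 2) - cl (4 * P.dep r' - 2)|
      ≤ P.mo * (4 / P.mu * |r - r'|) := by
        apply mul_le_mul h5 h (abs_nonneg _) (by linarith)
    _ = 4 * P.mo / P.mu * |r - r'| := by ring

theorem Fpl_rho {P : Par} (hP : P.Valid) (X : E3) : rho P.lam (Fpl P X) = rho P.lam X := by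
  have hl := (lam_facts hP).1
  have hm := mf_pos' hP
  unfold Fpl
  rw [H3i_rho hl hm, X3_rho, K3_rho hl, X3_rho, H3_rho hl hm]

theorem Fpl_good {P : Par} (hP : P.Valid) : Good (Fpl P) := by
  have hl := (lam_facts hP).1
  have hm := mf_pos' hP
  have hmL : ∀ r, ∃ K, LipAt K P.mf r := fun r => ⟨_, lipAt_of_lip (fun a b => by
    rw [Real.dist_eq, Real.dist_eq]; exact mf_lip hP a b) r⟩
  have hsL : ∀ r, ∃ K, LipAt K P.sf r := fun r => ⟨_, lipAt_of_lip (fun a b => by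
    rw [Real.dist_eq, Real.dist_eq]; exact sf_lip hP a b) r⟩
  have hsL' : ∀ r, ∃ K, LipAt K (fun ρ => -P.sf ρ) r := fun r => ⟨_, lipAt_of_lip (fun a b => by
    rw [Real.dist_eq, Real.dist_eq, neg_sub_neg, abs_sub_comm]; exact sf_lip hP a b) r⟩
  have haL : ∀ r, ∃ K, LipAt K P.af r := fun r => ⟨_, lipAt_of_lip (fun a b => by
    rw [Real.dist_eq, Real.dist_eq]; exact af_lip hP a b) r⟩
  exact (H3i_good hl hm hmL).comp ((X3_good P.lam hsL).comp ((K3_good hl haL).comp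
    ((X3_good P.lam hsL').comp (H3_good hl hm hmL))))

/-- explicit formula -/
theorem Fpl_eq {P : Par} (hP : P.Valid) (X : E3) {ρ s a m : ℝ} (hρ : rho P.lam X = ρ)
    (hs : P.sf ρ = s) (ha : P.af ρ = a) (hm : P.mf ρ = m) {η k θ : E2}
    (hη : rot (-s) (Hc m ρ X.2.1, Hc m ρ X.2.2) = η)
    (hk : ka a (ρ⁻¹ * Hc m ρ X.1, ρ⁻¹ * η.1) = k)
    (hθ : rot s (ρ * k.2, η.2) = θ) :
    Fpl P X = (Hi m ρ (ρ * k.1), Hi m ρ θ.1, Hi m ρ θ.2) := by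
  have hl := (lam_facts hP).1
  have hm' := mf_pos' hP
  have e1 : H3 P.lam P.mf X = (Hc m ρ X.1, Hc m ρ X.2.1, Hc m ρ X.2.2) := by
    unfold H3; rw [hρ, hm]
  have r1 : rho P.lam (H3 P.lam P.mf X) = ρ := (H3_rho hl hm' X).trans hρ
  have e2 : X3 P.lam (fun ρ => -P.sf ρ) (H3 P.lam P.mf X) = (Hc m ρ X.1, η) := by
    unfold X3
    rw [r1, e1]
    simp only
    rw [hs, hη]
  have r2 : rho P.lam (X3 P.lam (fun ρ => -P.sf ρ) (H3 P.lam P.mf X)) = ρ := by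
    rw [X3_rho, r1]
  have e3 : K3 P.lam P.af (X3 P.lam (fun ρ => -P.sf ρ) (H3 P.lam P.mf X))
      = (ρ * k.1, ρ * k.2, η.2) := by
    unfold K3
    rw [r2, e2, ha]
    simp only
    rw [hk]
  have r3 : rho P.lam (K3 P.lam P.af (X3 P.lam (fun ρ => -P.sf ρ) (H3 P.lam P.mf X))) = ρ := by
    rw [K3_rho hl, r2]
  have e4 : X3 P.lam P.sf (K3 P.lam P.af (X3 P.lam (fun ρ => -P.sf ρ) (H3 P.lam P.mf X)))
      = (ρ * k.1, θ) := by
    rw [X3, r3, e3]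
    simp only
    rw [hs, hθ]
  have r4 : rho P.lam (X3 P.lam P.sf (K3 P.lam P.af (X3 P.lam (fun ρ => -P.sf ρ)
      (H3 P.lam P.mf X)))) = ρ := by
    rw [X3_rho, r3]
  unfold Fpl
  rw [H3i, r4, e4, hm]

theorem dep_lam {P : Par} (hP : P.Valid) : P.dep P.lam = 1 := by
  have hmu := hP.mu_pos
  unfold Par.dep Par.lam
  field_simp
  ring

theorem sf_zero {P : Par} {ρ : ℝ} (h : 1 ≤ 4 * P.dep ρ) : P.sf ρ = 0 := by
  unfold Par.sf; rw [cl_of_ge h]; ring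

theorem af_zero {P : Par} {ρ : ℝ} (h : 2 ≤ 4 * P.dep ρ) : P.af ρ = 0 := by
  unfold Par.af; rw [cl_of_ge (by linarith)]; ring

theorem af_half {P : Par} {ρ : ℝ} (h : 4 * P.dep ρ ≤ 1) : P.af ρ = π / 2 := by
  unfold Par.af; rw [cl_of_le (by linarith)]; ring

theorem rho_of_le {P : Par} {X : E3} (hX : ‖X‖ ≤ P.lam) : rho P.lam X = P.lam := by
  unfold rho; exact max_eq_right hX

/-- formula in the inner part -/
theorem Fpl_inner {P : Par} (hP : P.Valid) {X : E3} (hX : ‖X‖ ≤ P.lam) :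
    Fpl P X = (Hi P.mi P.lam (P.lam * (ka 0 (P.lam⁻¹ * Hc P.mi P.lam X.1,
        P.lam⁻¹ * Hc P.mi P.lam X.2.1)).1),
      Hi P.mi P.lam (P.lam * (ka 0 (P.lam⁻¹ * Hc P.mi P.lam X.1,
        P.lam⁻¹ * Hc P.mi P.lam X.2.1)).2), X.2.2) := by
  obtain ⟨hl, hl1, hmi, hmo, hmo1, hmu1⟩ := lam_facts hP
  have hd := dep_lam hP
  have hs : P.sf P.lam = 0 := sf_zero (by rw [hd]; norm_num)
  have ha : P.af P.lam = 0 := af_zero (by rw [hd]; norm_num)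
  have hm : P.mf P.lam = P.mi := by
    unfold Par.mf Par.uf; rw [hd, cl_of_ge (by norm_num)]; ring
  have hmi1 : P.mi < 1 := by have := hP.mi_le; linarith
  rw [Fpl_eq hP X (rho_of_le hX) hs ha hm (η := (Hc P.mi P.lam X.2.1, Hc P.mi P.lam X.2.2))
    (by rw [neg_zero, rot_zero]) rfl (rot_zero _), Hi_Hc hmi hmi1 hl]

theorem Fpl_z {P : Par} (hP : P.Valid) {X : E3} (hX : ‖X‖ ≤ P.lam) :
    (Fpl P X).2.2 = X.2.2 := by rw [Fpl_inner hP hX]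

theorem norm_ch_le {P : Par} (hP : P.Valid) {i : ℕ} (hi : i < P.N) {X : E3} (hX : ‖X‖ ≤ 1) :
    ‖P.ch i X‖ ≤ P.lam := by
  obtain ⟨hl, hl1, hmi, hmo, hmo1, hmu1⟩ := lam_facts hP
  rw [Prod.norm_def, max_le_iff, Prod.norm_def, max_le_iff] at hX
  obtain ⟨h1, h2, h3⟩ := hX
  rw [Real.norm_eq_abs] at h1 h2 h3
  have hN : (0 : ℝ) < P.N := by
    have := hP.N_ge
    have : 0 < P.N := by omega
    exact_mod_cast this
  have hi' : (i : ℝ) + 1 ≤ P.N := by exact_mod_cast hi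
  have hi0 : (0 : ℝ) ≤ i := Nat.cast_nonneg i
  have hg := hP.g_lt
  have hg0 := hP.g_pos
  unfold Par.ch
  rw [Prod.norm_def, max_le_iff, Prod.norm_def, max_le_iff]
  simp only [Real.norm_eq_abs]
  refine ⟨?_, ?_, ?_⟩
  · rw [abs_mul, abs_of_pos hl]; nlinarith
  · rw [abs_neg, abs_mul, abs_of_pos hl]; nlinarith
  · have hy := abs_le.mp h2
    have e1 : P.cen i + P.hh * X.2.1 = P.lam * ((2 * i + 1 - P.N) + P.g * X.2.1) / P.N := by
      unfold Par.cen Par.hh; ring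
    have hgy : |P.g * X.2.1| ≤ 1 := by
      rw [abs_mul, abs_of_pos (by linarith : 0 < P.g)]
      nlinarith [abs_nonneg X.2.1]
    have hgy' := abs_le.mp hgy
    rw [e1, abs_div, abs_mul, abs_of_pos hl, abs_of_pos hN, div_le_iff₀ hN]
    have : |(2 * (i : ℝ) + 1 - P.N) + P.g * X.2.1| ≤ P.N := by
      rw [abs_le]; constructor <;> linarith
    nlinarith

theorem sub_norm_le {P : Par} {X : E3} {ρ : ℝ} (h : ‖X‖ = ρ) (hρ : P.lam ≤ ρ) :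
    rho P.lam X = ρ := by
  unfold rho; rw [h]; exact max_eq_left hρ

/-- matching of the plain maps -/
theorem Fpl_match {P P' : Par} (hP : P.Valid) (hP' : P'.Valid) (hm : P'.mo = P.mi) {i : ℕ}
    (hi : i < P.N) {X : E3} (hX : ‖X‖ = 1) : Fpl P (P.ch i X) = P.ch i (Fpl P' X) := by
  obtain ⟨hl, hl1, hmi, hmo, hmo1, hmu1⟩ := lam_facts hP
  have hmi1 : P.mi < 1 := by have := hP.mi_le; linarith
  have hl' := (lam_facts hP').2.1
  have hρ : rho P'.lam X = 1 := sub_norm_le hX hl'.le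
  have hd : P'.dep 1 = 0 := by unfold Par.dep; simp
  have hs : P'.sf 1 = π / 2 := by
    unfold Par.sf; rw [hd, cl_of_le (by norm_num)]; ring
  have ha : P'.af 1 = π / 2 := af_half (by rw [hd]; norm_num)
  have hmf : P'.mf 1 = P.mi := by
    unfold Par.mf Par.uf; rw [hd, cl_of_le (by norm_num), hm]; ring
  obtain ⟨x, y, z⟩ := X
  have e1 : P.ch i (x, y, z) = (P.lam * z, -(P.lam * x), P.cen i + P.hh * y) := rfl
  have c1 : P.lam⁻¹ * Hc P.mi P.lam (P.lam * z) = Hc P.mi 1 z := by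
    have := Hc_smul (m := P.mi) (ρ := 1) hl z
    rw [mul_one] at this
    rw [this, ← mul_assoc, inv_mul_cancel₀ hl.ne', one_mul]
  have c2 : P.lam⁻¹ * Hc P.mi P.lam (-(P.lam * x)) = -Hc P.mi 1 x := by
    have := Hc_smul (m := P.mi) (ρ := 1) hl x
    rw [mul_one] at this
    rw [Hc_neg hmi1.le hl.le, this, mul_neg, ← mul_assoc, inv_mul_cancel₀ hl.ne', one_mul]
  have c3 : ∀ u, Hi P.mi P.lam (P.lam * u) = P.lam * Hi P.mi 1 u := by
    intro u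
    have := Hi_smul (m := P.mi) (ρ := 1) hl u
    rwa [mul_one] at this
  rw [Fpl_inner hP (norm_ch_le hP hi hX.le), e1]
  simp only
  rw [c1, c2, c3, c3]
  obtain ⟨p, q, hpq⟩ : ∃ p q : ℝ, ka 0 (Hc P.mi 1 z, -Hc P.mi 1 x) = (p, q) := ⟨_, _, rfl⟩
  have hk : ka (π / 2) ((1 : ℝ)⁻¹ * Hc P.mi 1 x, (1 : ℝ)⁻¹ * Hc P.mi 1 z) = (-q, p) := by
    rw [inv_one, one_mul, one_mul, ka_half, rot_neg_half]
    simp only
    rw [hpq, rot_half]
  rw [Fpl_eq hP' (x, y, z) hρ hs ha hmf (η := (Hc P.mi 1 z, -Hc P.mi 1 y))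
    (rot_neg_half _) hk (θ := (Hc P.mi 1 y, p)) (by
      rw [rot_half]
      simp)]
  rw [hpq]
  unfold Par.ch
  simp only [one_mul]
  rw [Hi_Hc hmi hmi1 one_pos, Hi_neg zero_le_one]
  simp

theorem Hc_abs_self {m ρ y : ℝ} (hm : 0 < m) (hm1 : m < 1) (hρ : 0 < ρ) (hy : |y| = ρ) :
    Hc m ρ y = y := by
  rcases abs_choice y with h | h
  · rw [h] at hy; rw [hy]; exact Hc_self hm hm1 hρ
  · rw [h] at hy
    have : y = -ρ := by linarith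
    rw [this, Hc_neg hm1.le hρ.le, Hc_self hm hm1 hρ]

theorem Hi_abs_self {m ρ y : ℝ} (hm : 0 < m) (hm1 : m < 1) (hρ : 0 < ρ) (hy : |y| = ρ) :
    Hi m ρ y = y := by
  rcases abs_choice y with h | h
  · rw [h] at hy; rw [hy]; exact Hi_self hm hm1 hρ
  · rw [h] at hy
    have : y = -ρ := by linarith
    rw [this, Hi_neg hρ.le, Hi_self hm hm1 hρ]

/-- the core coordinates are compressed -/
theorem abs_core {m ρ x : ℝ} (hm1 : m ≤ 1 / 16) (hx : |x| ≤ (1 - m) * ρ) :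
    |x / (8 * (1 - m))| ≤ ρ / 8 := by
  have h1 : 0 < 1 - m := by linarith
  rw [abs_div, abs_of_pos (by positivity : 0 < 8 * (1 - m)), div_le_iff₀ (by positivity)]
  linarith

theorem abs_inv_mul_le {ρ u c : ℝ} (hρ : 0 < ρ) (hu : |u| ≤ c * ρ) : |ρ⁻¹ * u| ≤ c := by
  rw [abs_mul, abs_of_pos (inv_pos.mpr hρ), inv_mul_le_iff₀ hρ]
  linarith

theorem Fpl_N {P : Par} (hP : P.Valid) {x y z : ℝ} (hy : P.lam ≤ |y|)
    (hx : |x| ≤ (1 - P.mo) * |y|) (hz : |z| ≤ |y|) : Fpl P (x, y, z) = (-x, y, z) := by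
  obtain ⟨hl, hl1, hmi, hmo, hmo1, hmu1⟩ := lam_facts hP
  obtain ⟨ρ, hρ⟩ : ∃ ρ, ρ = |y| := ⟨_, rfl⟩
  rw [← hρ] at hy hx hz
  have hρ0 : 0 < ρ := lt_of_lt_of_le hl hy
  have hr : rho P.lam (x, y, z) = ρ := by
    apply sub_norm_le _ hy
    rw [Prod.norm_def, Prod.norm_def]
    simp only [Real.norm_eq_abs]
    rw [← hρ, max_eq_left hz]
    apply max_eq_right
    nlinarith
  obtain ⟨m, hm⟩ : ∃ m, P.mf ρ = m := ⟨_, rfl⟩
  have hm1 := mf_pos hP ρ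
  rw [hm] at hm1
  have hm0 : 0 < m := by linarith [hm1.1]
  have hm16 : m ≤ 1 / 16 := by linarith [hm1.2]
  have hmlt : m < 1 := by linarith
  have hx' : |x| ≤ (1 - m) * ρ := hx.trans (by nlinarith [hm1.2])
  have cx : Hc m ρ x = x / (8 * (1 - m)) := Hc_small hx'
  have cy : Hc m ρ y = y := Hc_abs_self hm0 hmlt hρ0 hρ.symm
  have hx8 : |Hc m ρ x| ≤ ρ / 8 := by rw [cx]; exact abs_core hm16 hx'
  have hx8' : |ρ⁻¹ * Hc m ρ x| ≤ 1 / 8 := abs_inv_mul_le hρ0 (by linarith)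
  have hzρ : |Hc m ρ z| ≤ ρ := (abs_Hc_le hm0 hmlt hρ0 z).mpr hz
  have hfin : ∀ {k θ : E2}, ρ * k.1 = -Hc m ρ x → θ = (Hc m ρ y, Hc m ρ z) →
      (Hi m ρ (ρ * k.1), Hi m ρ θ.1, Hi m ρ θ.2) = (-x, y, z) := by
    intro k θ h1 h2
    rw [h1, h2]
    simp only
    rw [Hi_neg hρ0.le, Hi_Hc hm0 hmlt hρ0, Hi_Hc hm0 hmlt hρ0, Hi_Hc hm0 hmlt hρ0]
  by_cases hd : 1 ≤ 4 * P.dep ρ
  · have hs : P.sf ρ = 0 := sf_zero hd
    have hk : ka (P.af ρ) (ρ⁻¹ * Hc m ρ x, ρ⁻¹ * Hc m ρ y)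
        = (-(ρ⁻¹ * Hc m ρ x), ρ⁻¹ * Hc m ρ y) := by
      have hy1 : |ρ⁻¹ * Hc m ρ y| = 1 := by
        rw [cy, abs_mul, abs_of_pos (inv_pos.mpr hρ0), ← hρ, inv_mul_cancel₀ hρ0.ne']
      rw [ka_out, QQ_y]
      · simp only
        rw [hy1]; linarith
      · rw [Prod.norm_def]
        simp only [Real.norm_eq_abs]
        rw [hy1]
        exact le_max_right _ _
    rw [Fpl_eq hP (x, y, z) hr hs rfl hm (η := (Hc m ρ y, Hc m ρ z)) (by
      rw [neg_zero, rot_zero]) hk (rot_zero _)]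
    apply hfin
    · simp only
      rw [mul_neg, mul_inv_cancel_left₀ hρ0.ne']
    · simp only
      rw [mul_inv_cancel_left₀ hρ0.ne']
  · push Not at hd
    have ha : P.af ρ = π / 2 := af_half hd.le
    obtain ⟨η, hη⟩ : ∃ η, rot (-P.sf ρ) (Hc m ρ y, Hc m ρ z) = η := ⟨_, rfl⟩
    have hηn : ‖η‖ ≤ ρ := by
      rw [← hη, norm_rot, Prod.norm_def]
      simp only [Real.norm_eq_abs]
      apply max_le _ hzρ
      rw [cy, ← hρ]
    have hη1 : |η.1| ≤ ρ := (norm_fst_le η).trans hηn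
    have hk : ka (π / 2) (ρ⁻¹ * Hc m ρ x, ρ⁻¹ * η.1) = (-(ρ⁻¹ * Hc m ρ x), ρ⁻¹ * η.1) := by
      rw [ka_band']
      · rw [Prod.norm_def]
        simp only [Real.norm_eq_abs]
        apply max_le (by linarith)
        exact abs_inv_mul_le hρ0 (by linarith)
      · exact hx8'
    rw [Fpl_eq hP (x, y, z) hr rfl ha hm hη hk rfl]
    apply hfin
    · simp only
      rw [mul_neg, mul_inv_cancel_left₀ hρ0.ne']
    · simp only
      rw [mul_inv_cancel_left₀ hρ0.ne']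
      change rot (P.sf ρ) η = _
      rw [← hη, rot_rot, add_neg_cancel, rot_zero]

theorem Fpl_E {P : Par} (hP : P.Valid) {x : ℝ} {ζ : E2} (hx : P.lam ≤ |x|)
    (hζ : ‖ζ‖ ≤ (1 - P.mo) * |x|) : Fpl P (x, ζ) = (x, refl (π + 2 * P.sf |x|) ζ) := by
  obtain ⟨hl, hl1, hmi, hmo, hmo1, hmu1⟩ := lam_facts hP
  obtain ⟨ρ, hρ⟩ : ∃ ρ, ρ = |x| := ⟨_, rfl⟩
  rw [← hρ] at hx hζ ⊢
  have hρ0 : 0 < ρ := lt_of_lt_of_le hl hx
  have hr : rho P.lam (x, ζ) = ρ := by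
    apply sub_norm_le _ hx
    rw [Prod.norm_def]
    simp only [Real.norm_eq_abs]
    rw [← hρ]
    apply max_eq_left
    nlinarith
  obtain ⟨m, hm⟩ : ∃ m, P.mf ρ = m := ⟨_, rfl⟩
  obtain ⟨s, hs⟩ : ∃ s, P.sf ρ = s := ⟨_, rfl⟩
  have hm1 := mf_pos hP ρ
  rw [hm] at hm1
  have hm0 : 0 < m := by linarith [hm1.1]
  have hm16 : m ≤ 1 / 16 := by linarith [hm1.2]
  have hmlt : m < 1 := by linarith
  have h1m : 0 < 8 * (1 - m) := by linarith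
  have hζ' : ‖ζ‖ ≤ (1 - m) * ρ := hζ.trans (by nlinarith [hm1.2])
  have hζ1 : |ζ.1| ≤ (1 - m) * ρ := (norm_fst_le ζ).trans hζ'
  have hζ2 : |ζ.2| ≤ (1 - m) * ρ := (norm_snd_le ζ).trans hζ'
  have cx : Hc m ρ x = x := Hc_abs_self hm0 hmlt hρ0 hρ.symm
  have cζ : ((Hc m ρ ζ.1, Hc m ρ ζ.2) : E2) = (8 * (1 - m))⁻¹ • ζ := by
    rw [Hc_small hζ1, Hc_small hζ2]
    ext
    · simp only [Prod.smul_fst, smul_eq_mul]; ring
    · simp only [Prod.smul_snd, smul_eq_mul]; ring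
  obtain ⟨η, hη⟩ : ∃ η, rot (-s) (Hc m ρ ζ.1, Hc m ρ ζ.2) = η := ⟨_, rfl⟩
  have hηn : ‖η‖ ≤ ρ / 8 := by
    rw [← hη, norm_rot, cζ, norm_smul, Real.norm_eq_abs, abs_of_pos (inv_pos.mpr h1m),
      inv_mul_le_iff₀ h1m]
    linarith
  have hη1 : |η.1| ≤ ρ / 8 := (norm_fst_le η).trans hηn
  have hx1 : |ρ⁻¹ * Hc m ρ x| = 1 := by
    rw [cx, abs_mul, abs_of_pos (inv_pos.mpr hρ0), ← hρ, inv_mul_cancel₀ hρ0.ne']
  have hk : ka (P.af ρ) (ρ⁻¹ * Hc m ρ x, ρ⁻¹ * η.1) = (ρ⁻¹ * Hc m ρ x, -(ρ⁻¹ * η.1)) := by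
    rw [ka_out, QQ_x]
    · simp only
      rw [hx1]
      have := abs_inv_mul_le (c := 1 / 8) hρ0 (show |η.1| ≤ 1 / 8 * ρ by linarith)
      linarith
    · rw [Prod.norm_def]
      simp only [Real.norm_eq_abs]
      rw [hx1]
      exact le_max_left _ _
  obtain ⟨θ, hθ⟩ : ∃ θ, rot s (-η.1, η.2) = θ := ⟨_, rfl⟩
  have hθ' : θ = (8 * (1 - m))⁻¹ • refl (π + 2 * s) ζ := by
    rw [← hθ, ← refl_pi, rot_refl, ← hη, refl_rot, cζ, refl_smul _ (inv_pos.mpr h1m).le]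
    congr 2
    ring
  have hθn : ‖θ‖ ≤ ρ / 8 := by
    rw [hθ', norm_smul, norm_refl, Real.norm_eq_abs, abs_of_pos (inv_pos.mpr h1m),
      inv_mul_le_iff₀ h1m]
    linarith
  have hθ1 : |θ.1| ≤ ρ / 8 := (norm_fst_le θ).trans hθn
  have hθ2 : |θ.2| ≤ ρ / 8 := (norm_snd_le θ).trans hθn
  rw [Fpl_eq hP (x, ζ) hr hs rfl hm hη hk (θ := θ) (by
    simp only
    rw [mul_neg, mul_inv_cancel_left₀ hρ0.ne']
    exact hθ)]
  simp only
  rw [mul_inv_cancel_left₀ hρ0.ne', Hi_Hc hm0 hmlt hρ0, Hi_small hθ1, Hi_small hθ2, hθ', hs]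
  congr 1
  ext
  · simp only [Prod.smul_fst, smul_eq_mul]
    rw [mul_inv_cancel_left₀ h1m.ne']
  · simp only [Prod.smul_snd, smul_eq_mul]
    rw [mul_inv_cancel_left₀ h1m.ne']

theorem Fpl_T {P : Par} (hP : P.Valid) {x y z : ℝ} (hz : P.lam ≤ |z|)
    (hw : ‖((x, y) : E2)‖ ≤ (1 - P.mo) * |z|) :
    Fpl P (x, y, z) = ((refl (-2 * P.af |z|) (x, y)).1, (refl (-2 * P.af |z|) (x, y)).2, z) := by
  obtain ⟨hl, hl1, hmi, hmo, hmo1, hmu1⟩ := lam_facts hP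
  obtain ⟨ρ, hρ⟩ : ∃ ρ, ρ = |z| := ⟨_, rfl⟩
  rw [← hρ] at hz hw ⊢
  have hρ0 : 0 < ρ := lt_of_lt_of_le hl hz
  have hwx : |x| ≤ (1 - P.mo) * ρ := (norm_fst_le ((x, y) : E2)).trans hw
  have hwy : |y| ≤ (1 - P.mo) * ρ := (norm_snd_le ((x, y) : E2)).trans hw
  have hr : rho P.lam (x, y, z) = ρ := by
    apply sub_norm_le _ hz
    rw [Prod.norm_def, Prod.norm_def]
    simp only [Real.norm_eq_abs]
    rw [← hρ, max_eq_right (a := |y|) (by nlinarith)]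
    apply max_eq_right
    nlinarith
  obtain ⟨m, hm⟩ : ∃ m, P.mf ρ = m := ⟨_, rfl⟩
  have hm1 := mf_pos hP ρ
  rw [hm] at hm1
  have hm0 : 0 < m := by linarith [hm1.1]
  have hm16 : m ≤ 1 / 16 := by linarith [hm1.2]
  have hmlt : m < 1 := by linarith
  have h1m : 0 < 8 * (1 - m) := by linarith
  have hx' : |x| ≤ (1 - m) * ρ := hwx.trans (by nlinarith [hm1.2])
  have hy' : |y| ≤ (1 - m) * ρ := hwy.trans (by nlinarith [hm1.2])
  have cx : Hc m ρ x = x / (8 * (1 - m)) := Hc_small hx'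
  have cy : Hc m ρ y = y / (8 * (1 - m)) := Hc_small hy'
  have cz : Hc m ρ z = z := Hc_abs_self hm0 hmlt hρ0 hρ.symm
  have hx8 : |Hc m ρ x| ≤ ρ / 8 := by rw [cx]; exact abs_core hm16 hx'
  have hy8 : |Hc m ρ y| ≤ ρ / 8 := by rw [cy]; exact abs_core hm16 hy'
  have hx8' : |ρ⁻¹ * Hc m ρ x| ≤ 1 / 8 := abs_inv_mul_le hρ0 (by linarith)
  have hy8' : |ρ⁻¹ * Hc m ρ y| ≤ 1 / 8 := abs_inv_mul_le hρ0 (by linarith)
  by_cases hd : 1 ≤ 4 * P.dep ρ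
  · have hs : P.sf ρ = 0 := sf_zero hd
    obtain ⟨a, ha⟩ : ∃ a, P.af ρ = a := ⟨_, rfl⟩
    have cw : ((ρ⁻¹ * Hc m ρ x, ρ⁻¹ * Hc m ρ y) : E2)
        = (ρ⁻¹ * (8 * (1 - m))⁻¹) • ((x, y) : E2) := by
      rw [cx, cy]
      ext
      · simp only [Prod.smul_fst, smul_eq_mul]; ring
      · simp only [Prod.smul_snd, smul_eq_mul]; ring
    have hpos : 0 < ρ⁻¹ * (8 * (1 - m))⁻¹ := by positivity
    obtain ⟨v, hv⟩ : ∃ v, refl (-2 * a) (x, y) = v := ⟨_, rfl⟩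
    have hk : ka a (ρ⁻¹ * Hc m ρ x, ρ⁻¹ * Hc m ρ y) = (ρ⁻¹ * (8 * (1 - m))⁻¹) • v := by
      rw [ka_center, cw, refl_smul _ hpos.le, hv]
      rw [Prod.norm_def]
      simp only [Real.norm_eq_abs]
      exact max_le hx8' hy8'
    have hvn : ‖v‖ ≤ (1 - m) * ρ := by
      rw [← hv, norm_refl, Prod.norm_def]
      simp only [Real.norm_eq_abs]
      exact max_le hx' hy'
    have hs1 : ∀ t : ℝ, ρ * (ρ⁻¹ * (8 * (1 - m))⁻¹ * t) = (8 * (1 - m))⁻¹ * t := by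
      intro t; field_simp
    have hHi : ∀ t : ℝ, |t| ≤ (1 - m) * ρ → Hi m ρ ((8 * (1 - m))⁻¹ * t) = t := by
      intro t ht
      rw [Hi_small, mul_inv_cancel_left₀ h1m.ne']
      rw [abs_mul, abs_of_pos (inv_pos.mpr h1m), inv_mul_le_iff₀ h1m]
      linarith
    rw [Fpl_eq hP (x, y, z) hr hs ha hm (η := (Hc m ρ y, Hc m ρ z)) (by
      rw [neg_zero, rot_zero]) hk (rot_zero _)]
    simp only [Prod.smul_fst, Prod.smul_snd, smul_eq_mul]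
    rw [hs1, hs1, hHi _ ((norm_fst_le v).trans hvn), hHi _ ((norm_snd_le v).trans hvn),
      Hi_Hc hm0 hmlt hρ0, ha, hv]
  · push Not at hd
    have ha : P.af ρ = π / 2 := af_half hd.le
    have hv : refl (-2 * P.af ρ) (x, y) = (-x, y) := by
      rw [ha]
      have e : (-2 * (π / 2) : ℝ) = π + ((-1 : ℤ) : ℝ) * (2 * π) := by push_cast; ring
      rw [e, refl_add_int, refl_pi]
    obtain ⟨η, hη⟩ : ∃ η, rot (-P.sf ρ) (Hc m ρ y, Hc m ρ z) = η := ⟨_, rfl⟩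
    have hηn : ‖η‖ ≤ ρ := by
      rw [← hη, norm_rot, Prod.norm_def]
      simp only [Real.norm_eq_abs]
      apply max_le (by linarith)
      rw [cz, ← hρ]
    have hη1 : |η.1| ≤ ρ := (norm_fst_le η).trans hηn
    have hk : ka (π / 2) (ρ⁻¹ * Hc m ρ x, ρ⁻¹ * η.1) = (-(ρ⁻¹ * Hc m ρ x), ρ⁻¹ * η.1) := by
      rw [ka_band']
      · rw [Prod.norm_def]
        simp only [Real.norm_eq_abs]
        apply max_le (by linarith)
        exact abs_inv_mul_le hρ0 (by linarith)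
      · exact hx8'
    have hθ : rot (P.sf ρ) (ρ * (ρ⁻¹ * η.1), η.2) = (Hc m ρ y, Hc m ρ z) := by
      rw [mul_inv_cancel_left₀ hρ0.ne']
      change rot (P.sf ρ) η = _
      rw [← hη, rot_rot, add_neg_cancel, rot_zero]
    rw [Fpl_eq hP (x, y, z) hr rfl ha hm hη hk hθ, hv]
    simp only
    rw [mul_neg, mul_inv_cancel_left₀ hρ0.ne', Hi_neg hρ0.le, Hi_Hc hm0 hmlt hρ0, Hi_Hc hm0 hmlt hρ0,
      Hi_Hc hm0 hmlt hρ0]

theorem Fpl_B {P : Par} (hP : P.Valid) {x y z : ℝ} (hz : P.lam ≤ |z|) (hz' : |z| ≤ 1 - P.mu / 2)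
    (hy : |y| ≤ (1 - P.mo) * |z|) (hx : |x| ≤ |z|) : Fpl P (x, y, z) = (x, -y, z) := by
  obtain ⟨hl, hl1, hmi, hmo, hmo1, hmu1⟩ := lam_facts hP
  have hmu := hP.mu_pos
  obtain ⟨ρ, hρ⟩ : ∃ ρ, ρ = |z| := ⟨_, rfl⟩
  rw [← hρ] at hz hz' hy hx
  have hρ0 : 0 < ρ := lt_of_lt_of_le hl hz
  have hr : rho P.lam (x, y, z) = ρ := by
    apply sub_norm_le _ hz
    rw [Prod.norm_def, Prod.norm_def]
    simp only [Real.norm_eq_abs]
    rw [← hρ, max_eq_right (a := |y|) (by nlinarith)]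
    exact max_eq_right hx
  have hd : 2 ≤ 4 * P.dep ρ := by
    unfold Par.dep
    rw [← mul_div_assoc, le_div_iff₀ hmu]
    linarith
  have hs : P.sf ρ = 0 := sf_zero (by linarith)
  have ha : P.af ρ = 0 := af_zero hd
  obtain ⟨m, hm⟩ : ∃ m, P.mf ρ = m := ⟨_, rfl⟩
  have hm1 := mf_pos hP ρ
  rw [hm] at hm1
  have hm0 : 0 < m := by linarith [hm1.1]
  have hm16 : m ≤ 1 / 16 := by linarith [hm1.2]
  have hmlt : m < 1 := by linarith
  have hy' : |y| ≤ (1 - m) * ρ := hy.trans (by nlinarith [hm1.2])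
  have cy : Hc m ρ y = y / (8 * (1 - m)) := Hc_small hy'
  have hy8 : |Hc m ρ y| ≤ ρ / 8 := by rw [cy]; exact abs_core hm16 hy'
  have hy8' : |ρ⁻¹ * Hc m ρ y| ≤ 1 / 8 := abs_inv_mul_le hρ0 (by linarith)
  have hxρ : |Hc m ρ x| ≤ ρ := (abs_Hc_le hm0 hmlt hρ0 x).mpr hx
  have hk : ka 0 (ρ⁻¹ * Hc m ρ x, ρ⁻¹ * Hc m ρ y) = (ρ⁻¹ * Hc m ρ x, -(ρ⁻¹ * Hc m ρ y)) := by
    rw [ka_band]
    · rw [Prod.norm_def]
      simp only [Real.norm_eq_abs]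
      apply max_le _ (by linarith)
      exact abs_inv_mul_le hρ0 (by linarith)
    · exact hy8'
  rw [Fpl_eq hP (x, y, z) hr hs ha hm (η := (Hc m ρ y, Hc m ρ z)) (by
    rw [neg_zero, rot_zero]) hk (rot_zero _)]
  simp only
  rw [mul_neg, mul_inv_cancel_left₀ hρ0.ne', mul_inv_cancel_left₀ hρ0.ne', Hi_neg hρ0.le,
    Hi_Hc hm0 hmlt hρ0, Hi_Hc hm0 hmlt hρ0, Hi_Hc hm0 hmlt hρ0]

end Pool.Agent.JAC
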