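import Pool.Agent.Lib.MP_3b5712_an.Assemble

set_option autoImplicit false

open Filter Topology Set MeasureTheory

namespace Pool.Agent.JAC

theorem fderiv_bound_of_lipAt {E : Type*} [NormedAddCommGroup E] [NormedSpace ℝ E]
    (h : E → ℝ) (A : Set E) (hA : IsCompact A) (hl : ∀ x ∈ A, ∃ K, LipAt K h x) (e : E) :
    ∃ M, ∀ x ∈ A, |fderiv ℝ h x e| ≤ M := by
  refine hA.induction_on (p := fun s => ∃ M, ∀ x ∈ s, |fderiv ℝ h x e| ≤ M) ?_ ?_ ?_ ?_
  · exact ⟨0, fun x hx => absurd hx (notMem_empty x)⟩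
  · rintro s t hst ⟨M, hM⟩
    exact ⟨M, fun x hx => hM x (hst hx)⟩
  · rintro s t ⟨M, hM⟩ ⟨N, hN⟩
    refine ⟨max M N, ?_⟩
    rintro x (hx | hx)
    · exact (hM x hx).trans (le_max_left _ _)
    · exact (hN x hx).trans (le_max_right _ _)
  · intro x hx
    obtain ⟨K, U, hU, hK⟩ := hl x hx
    obtain ⟨r, hr, hrU⟩ := Metric.mem_nhds_iff.mp hU
    refine ⟨Metric.ball x r, mem_nhdsWithin_of_mem_nhds (Metric.ball_mem_nhds x hr),
      max K 0 * ‖e‖, ?_⟩
    intro y hy
    have h1 : ‖fderiv ℝ h y‖ ≤ max K 0 := by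
      have hL : LipschitzOnWith (Real.toNNReal K) h (Metric.ball x r) := by
        apply LipschitzOnWith.of_dist_le_mul
        intro a ha b hb
        refine (hK a (hrU ha) b (hrU hb)).trans ?_
        gcongr
        exact Real.le_coe_toNNReal K
      have := norm_fderiv_le_of_lipschitzOn ℝ (Metric.isOpen_ball.mem_nhds hy) hL
      simpa [Real.coe_toNNReal'] using this
    calc |fderiv ℝ h y e| = ‖fderiv ℝ h y e‖ := (Real.norm_eq_abs _).symm
      _ ≤ ‖fderiv ℝ h y‖ * ‖e‖ := ContinuousLinearMap.le_opNorm _ _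
      _ ≤ _ := by gcongr

/-- the map on the whole space -/
theorem global_map :
    ∃ (F : (Fin 3 → ℝ) → (Fin 3 → ℝ)) (g : (Fin 3 → ℝ) → Matrix (Fin 3) (Fin 3) ℝ)
      (C R : Set (Fin 3 → ℝ)),
      Continuous F ∧ IsOpenMap F ∧ (∀ x y, ∀ᶠ z in 𝓝[≠] x, F z ≠ y) ∧
      (∀ (r : ℝ) (i j : Fin 3), IntegrableOn (fun x => g x i j) (Metric.ball 0 r)) ∧
      (∀ (i j : Fin 3) (φ : (Fin 3 → ℝ) → ℝ),
        ContDiff ℝ ((⊤ : ℕ∞) : WithTop ℕ∞) φ → HasCompactSupport φ →
        ∫ x, F x i * (fderiv ℝ φ x) (Pi.single j (1 : ℝ)) = -∫ x, g x i j * φ x) ∧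
      IsClosed C ∧ C ⊆ Metric.ball 0 1 ∧ 0 < volume C ∧ (∀ x ∈ C, F x = x ∧ g x = 1) ∧
      IsOpen R ∧ R.Nonempty ∧ R ⊆ Metric.ball 0 1 ∧
      (∀ x ∈ R, F x = ![x 0, -x 1, x 2] ∧ g x = !![1, 0, 0; 0, -1, 0; 0, 0, 1]) := by
  obtain ⟨f, C, R, hCcl, hCball, hCpos, hfc, hop, hdis, hid, hlip, hRo, hRne, hRb, hRm, hint⟩ :=
    exists_f
  set Ω : Set (Fin 3 → ℝ) := Metric.ball 0 1 with hΩ
  set C' : Set (Fin 3 → ℝ) := toP ⁻¹' C with hC'
  have hC'cl : IsClosed C' := hCcl.preimage continuous_toP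
  have hballeq : toP ⁻¹' (Metric.ball 0 1) = Ω := by
    ext v
    simp only [mem_preimage, Metric.mem_ball, dist_zero_right, hΩ, norm_toP]
  have hC'Ω : C' ⊆ Ω := by
    rw [← hballeq]; exact preimage_mono hCball
  set F : (Fin 3 → ℝ) → (Fin 3 → ℝ) := ff f with hF
  have hFc : Continuous F := continuous_toF.comp (hfc.comp continuous_toP)
  set h : Fin 3 → (Fin 3 → ℝ) → ℝ := fun i v => F v i - v i with hh
  have hhc : ∀ i, Continuous (h i) := fun i =>
    ((continuous_apply i).comp hFc).sub (continuous_apply i)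
  have hh0 : ∀ i, ∀ v ∈ C', h i v = 0 := by
    intro i v hv
    have h1 : f (toP v) = toP v := hid _ hv
    change toF (f (toP v)) i - v i = 0
    rw [h1, toF_toP, sub_self]
  have hhl : ∀ i v, v ∉ C' → ∃ K, LipAt K (h i) v := by
    intro i v hv
    obtain ⟨K, hK⟩ := hlip (toP v) hv
    exact ⟨K + 1, ff_lipAt hK i⟩
  -- almost everywhere differentiability
  have hnull : volume {v : Fin 3 → ℝ | v ∉ C' ∧ ¬DifferentiableAt ℝ f (toP v)} = 0 := by
    have h1 := ae_diff_of_lipAt (volume : Measure E3) C f hlip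
    have h2 := mp_toP.measure_preimage (s := {x | x ∉ C ∧ ¬DifferentiableAt ℝ f x})
      (NullMeasurableSet.of_null h1)
    rw [h1] at h2
    exact h2
  have hderiv : ∀ i j v, DifferentiableAt ℝ f (toP v) →
      |fderiv ℝ (h i) v (Pi.single j (1 : ℝ))| ≤ |comp i (fderiv ℝ f (toP v) (bas j))| + 1 := by
    intro i j v hd
    have hcompL : ∀ Y : E3, comp i Y = (ContinuousLinearMap.proj (R := ℝ) (φ := fun _ : Fin 3 => ℝ) i)
        (toPL.symm.toContinuousLinearEquiv Y) := by
      intro Y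
      rw [← toF_apply]; rfl
    have e1 : HasFDerivAt F ((toPL.symm.toContinuousLinearEquiv : E3 →L[ℝ] (Fin 3 → ℝ)).comp
        ((fderiv ℝ f (toP v)).comp (toPL.toContinuousLinearEquiv : (Fin 3 → ℝ) →L[ℝ] E3))) v := by
      have a1 : HasFDerivAt (toPL.toContinuousLinearEquiv : (Fin 3 → ℝ) →L[ℝ] E3)
        (toPL.toContinuousLinearEquiv : (Fin 3 → ℝ) →L[ℝ] E3) v :=
        ContinuousLinearMap.hasFDerivAt _
      have a2 : HasFDerivAt f (fderiv ℝ f (toP v)) (toP v) := hd.hasFDerivAt
      have a3 := a2.comp v a1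
      exact ((toPL.symm.toContinuousLinearEquiv : E3 →L[ℝ] (Fin 3 → ℝ)).hasFDerivAt).comp v a3
    have e2 : HasFDerivAt (h i) ((ContinuousLinearMap.proj (R := ℝ) (φ := fun _ : Fin 3 => ℝ) i).comp
        ((toPL.symm.toContinuousLinearEquiv : E3 →L[ℝ] (Fin 3 → ℝ)).comp
        ((fderiv ℝ f (toP v)).comp (toPL.toContinuousLinearEquiv : (Fin 3 → ℝ) →L[ℝ] E3))) -
        ContinuousLinearMap.proj (R := ℝ) (φ := fun _ : Fin 3 => ℝ) i) v :=
      (((ContinuousLinearMap.proj (R := ℝ) (φ := fun _ : Fin 3 => ℝ) i).hasFDerivAt).comp v e1).sub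
        (ContinuousLinearMap.proj (R := ℝ) (φ := fun _ : Fin 3 => ℝ) i).hasFDerivAt
    rw [e2.fderiv]
    have e3 : ((ContinuousLinearMap.proj (R := ℝ) (φ := fun _ : Fin 3 => ℝ) i).comp
        ((toPL.symm.toContinuousLinearEquiv : E3 →L[ℝ] (Fin 3 → ℝ)).comp
        ((fderiv ℝ f (toP v)).comp (toPL.toContinuousLinearEquiv : (Fin 3 → ℝ) →L[ℝ] E3))) -
        ContinuousLinearMap.proj (R := ℝ) (φ := fun _ : Fin 3 => ℝ) i) (Pi.single j (1 : ℝ)) =
        comp i (fderiv ℝ f (toP v) (bas j)) - (Pi.single j (1 : ℝ) : Fin 3 → ℝ) i := by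
      rw [hcompL, ← lin_toP_single]
      rfl
    rw [e3]
    refine (abs_sub _ _).trans ?_
    gcongr
    by_cases hij : i = j
    · subst hij; simp
    · simp [Pi.single_apply, hij]
  have hintF : ∀ i j, ∫⁻ v in Ω \ C', ENNReal.ofReal |fderiv ℝ (h i) v (Pi.single j (1 : ℝ))|
      < ⊤ := by
    intro i j
    have h1 : ∫⁻ v in Ω \ C', ENNReal.ofReal |fderiv ℝ (h i) v (Pi.single j (1 : ℝ))| ≤
        ∫⁻ v in Ω \ C', (ENNReal.ofReal |comp i (fderiv ℝ f (toP v) (bas j))| + 1) := by
      apply lintegral_mono_ae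
      rw [ae_restrict_iff' (Metric.isOpen_ball.measurableSet.diff hC'cl.measurableSet)]
      have : ∀ᵐ v : Fin 3 → ℝ, ¬(v ∉ C' ∧ ¬DifferentiableAt ℝ f (toP v)) := by
        rw [ae_iff]; simpa using hnull
      filter_upwards [this] with v hv hvm
      have hd : DifferentiableAt ℝ f (toP v) := by
        by_contra hcon
        exact hv ⟨hvm.2, hcon⟩
      calc ENNReal.ofReal |fderiv ℝ (h i) v (Pi.single j (1 : ℝ))|
          ≤ ENNReal.ofReal (|comp i (fderiv ℝ f (toP v) (bas j))| + 1) :=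
            ENNReal.ofReal_le_ofReal (hderiv i j v hd)
        _ = _ := by
            rw [ENNReal.ofReal_add (abs_nonneg _) zero_le_one, ENNReal.ofReal_one]
    refine lt_of_le_of_lt h1 ?_
    have hmeas : Measurable fun X : E3 => ENNReal.ofReal |comp i (fderiv ℝ f X (bas j))| := by
      apply ENNReal.measurable_ofReal.comp
      have m1 : Measurable fun X : E3 => fderiv ℝ f X (bas j) :=
        measurable_fderiv_apply_const ℝ f (bas j)
      exact ((continuous_comp i).measurable.comp m1).abs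
    rw [lintegral_add_right _ measurable_const]
    apply ENNReal.add_lt_top.mpr
    constructor
    · have h2 : ∫⁻ v in Ω \ C', ENNReal.ofReal |comp i (fderiv ℝ f (toP v) (bas j))| =
          ∫⁻ X in Metric.ball 0 1 \ C, ENNReal.ofReal |comp i (fderiv ℝ f X (bas j))| := by
        have h3 : Ω \ C' = toP ⁻¹' (Metric.ball 0 1 \ C) := by
          rw [← hballeq]; rfl
        rw [h3]
        exact mp_toP.setLIntegral_comp_preimage
          (Metric.isOpen_ball.measurableSet.diff hCcl.measurableSet) hmeas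
      rw [h2]
      exact hint i j
    · rw [lintegral_const, one_mul, Measure.restrict_apply_univ]
      exact lt_of_le_of_lt (measure_mono sdiff_subset) measure_ball_lt_top
  -- integrability on all balls
  have hintR : ∀ (r : ℝ) (i j : Fin 3), ∫⁻ v in Metric.ball 0 r \ C',
      ENNReal.ofReal |fderiv ℝ (h i) v (Pi.single j (1 : ℝ))| < ⊤ := by
    intro r i j
    have hK : IsCompact (Metric.closedBall (0 : Fin 3 → ℝ) r \ Ω) :=
      (isCompact_closedBall _ _).diff Metric.isOpen_ball
    obtain ⟨M, hM⟩ := fderiv_bound_of_lipAt (h i) _ hK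
      (fun x hx => hhl i x (fun hc => hx.2 (hC'Ω hc))) (Pi.single j (1 : ℝ))
    have hsub : Metric.ball (0 : Fin 3 → ℝ) r \ C' ⊆
        (Ω \ C') ∪ (Metric.closedBall (0 : Fin 3 → ℝ) r \ Ω) := by
      rintro x ⟨hx, hxC⟩
      by_cases hxΩ : x ∈ Ω
      · exact Or.inl ⟨hxΩ, hxC⟩
      · exact Or.inr ⟨Metric.ball_subset_closedBall hx, hxΩ⟩
    refine lt_of_le_of_lt (lintegral_mono_set hsub) ?_
    refine lt_of_le_of_lt (lintegral_union_le _ _ _) ?_
    refine ENNReal.add_lt_top.mpr ⟨hintF i j, ?_⟩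
    calc ∫⁻ v in Metric.closedBall (0 : Fin 3 → ℝ) r \ Ω,
          ENNReal.ofReal |fderiv ℝ (h i) v (Pi.single j (1 : ℝ))|
        ≤ ∫⁻ v in Metric.closedBall (0 : Fin 3 → ℝ) r \ Ω, ENNReal.ofReal M := by
          apply setLIntegral_mono_ae measurable_const.aemeasurable
          exact Eventually.of_forall (fun x hx => ENNReal.ofReal_le_ofReal (hM x hx))
      _ = ENNReal.ofReal M * volume (Metric.closedBall (0 : Fin 3 → ℝ) r \ Ω) := by
          rw [lintegral_const, Measure.restrict_apply_univ]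
      _ < ⊤ := ENNReal.mul_lt_top ENNReal.ofReal_lt_top hK.measure_lt_top
  -- the weak derivative
  set g : (Fin 3 → ℝ) → Matrix (Fin 3) (Fin 3) ℝ := fun v i j =>
    (if i = j then 1 else 0) +
      ({x | h i x ≠ 0}.indicator (fun x => fderiv ℝ (h i) x (Pi.single j (1 : ℝ)))) v with hg
  have hindmeas : ∀ i j, Measurable
      ({x | h i x ≠ 0}.indicator (fun x => fderiv ℝ (h i) x (Pi.single j (1 : ℝ)))) := by
    intro i j
    apply Measurable.indicator
    · exact measurable_fderiv_apply_const ℝ (h i) _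
    · exact ((hhc i).measurable (measurableSet_singleton (0 : ℝ)).compl)
  have hindint : ∀ (r : ℝ) (i j : Fin 3), IntegrableOn
      ({x | h i x ≠ 0}.indicator (fun x => fderiv ℝ (h i) x (Pi.single j (1 : ℝ))))
      (Metric.ball 0 r) := by
    intro r i j
    refine ⟨(hindmeas i j).aestronglyMeasurable, ?_⟩
    unfold HasFiniteIntegral
    refine lt_of_le_of_lt ?_ (hintR r i j)
    have hsub : ∀ v, ‖({x | h i x ≠ 0}.indicator
        (fun x => fderiv ℝ (h i) x (Pi.single j (1 : ℝ)))) v‖ₑ ≤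
        (C'ᶜ).indicator (fun v => ENNReal.ofReal |fderiv ℝ (h i) v (Pi.single j (1 : ℝ))|) v := by
      intro v
      by_cases hv : h i v ≠ 0
      · have hvC : v ∈ C'ᶜ := fun hvC => hv (hh0 i v hvC)
        rw [indicator_of_mem hvC, indicator_of_mem (show v ∈ {x | h i x ≠ 0} from hv)]
        rw [← Real.norm_eq_abs, ofReal_norm]
      · rw [indicator_of_notMem (show v ∉ {x | h i x ≠ 0} from hv)]
        simp
    calc ∫⁻ v in Metric.ball 0 r, ‖({x | h i x ≠ 0}.indicator
        (fun x => fderiv ℝ (h i) x (Pi.single j (1 : ℝ)))) v‖ₑ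
        ≤ ∫⁻ v in Metric.ball 0 r, (C'ᶜ).indicator
          (fun v => ENNReal.ofReal |fderiv ℝ (h i) v (Pi.single j (1 : ℝ))|) v :=
          lintegral_mono hsub
      _ = ∫⁻ v in Metric.ball 0 r \ C', ENNReal.ofReal |fderiv ℝ (h i) v (Pi.single j (1 : ℝ))| := by
          rw [lintegral_indicator hC'cl.measurableSet.compl,
            Measure.restrict_restrict hC'cl.measurableSet.compl]
          congr 2
          rw [inter_comm]; rfl
  refine ⟨F, g, C', toP ⁻¹' R, hFc, ?_, ?_, ?_, ?_, hC'cl, hC'Ω, ?_, ?_,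
    hRo.preimage continuous_toP, ?_, ?_, ?_⟩
  · have h1 : IsOpenMap f := isOpenMap_of_openAt hop
    exact (toPL.symm.toHomeomorph.isOpenMap).comp (h1.comp toPL.toHomeomorph.isOpenMap)
  · intro x y
    have h1 := hdis (toP x) (toP y)
    have h2 : Tendsto toP (𝓝[≠] x) (𝓝[≠] (toP x)) := by
      apply tendsto_nhdsWithin_of_tendsto_nhds_of_eventually_within
      · exact continuous_toP.continuousAt.mono_left nhdsWithin_le_nhds
      · filter_upwards [self_mem_nhdsWithin] with z hz
        intro hcon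
        apply hz
        have := congrArg toF hcon
        simpa [toF_toP] using this
    filter_upwards [h2.eventually h1] with z hz hcon
    apply hz
    have := congrArg toP hcon
    simpa [hF, ff, toP_toF] using this
  · intro r i j
    haveI hfin : IsFiniteMeasure (volume.restrict (Metric.ball (0 : Fin 3 → ℝ) r)) := ⟨by
      rw [Measure.restrict_apply_univ]; exact measure_ball_lt_top⟩
    have h1 : Integrable (fun _ : Fin 3 → ℝ => (if i = j then (1 : ℝ) else 0))
      (volume.restrict (Metric.ball 0 r)) := integrable_const _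
    exact h1.add (hindint r i j)
  · intro i j φ hφ hφs
    obtain ⟨r, hr⟩ := hφs.isCompact.isBounded.subset_ball (0 : Fin 3 → ℝ)
    have w1 := weak_deriv' (volume : Measure (Fin 3 → ℝ)) C' hC'cl (h i) (hhc i) (hh0 i) (hhl i)
      (Metric.ball 0 r) Metric.isOpen_ball (Pi.single j (1 : ℝ)) (hintR r i j) φ hφ hφs hr
    have hφc : Continuous φ := hφ.continuous
    have hcφ : Continuous (fun x => fderiv ℝ φ x (Pi.single j (1 : ℝ))) :=
      (hφ.continuous_fderiv (by simp)).clm_apply continuous_const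
    have hsφ : HasCompactSupport (fun x => fderiv ℝ φ x (Pi.single j (1 : ℝ))) :=
      hφs.fderiv_apply (𝕜 := ℝ) _
    -- the coordinate function
    have w2 : ∫ x, x i * fderiv ℝ φ x (Pi.single j (1 : ℝ)) =
        -∫ x, (if i = j then (1 : ℝ) else 0) * φ x := by
      have hpr : Differentiable ℝ (fun x : Fin 3 → ℝ => x i) :=
        fun x => (ContinuousLinearMap.proj (R := ℝ) (φ := fun _ : Fin 3 => ℝ) i).differentiableAt
      have hfp : ∀ x : Fin 3 → ℝ, fderiv ℝ (fun x : Fin 3 → ℝ => x i) x (Pi.single j (1 : ℝ)) =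
          if i = j then 1 else 0 := by
        intro x
        have : fderiv ℝ (fun x : Fin 3 → ℝ => x i) x =
            ContinuousLinearMap.proj (R := ℝ) (φ := fun _ : Fin 3 => ℝ) i :=
          (ContinuousLinearMap.proj (R := ℝ) (φ := fun _ : Fin 3 => ℝ) i).hasFDerivAt.fderiv
        rw [this]
        simp [Pi.single_apply]
      have key := integral_mul_fderiv_eq_neg_fderiv_mul_of_integrable (𝕜 := ℝ)
        (μ := (volume : Measure (Fin 3 → ℝ))) (f := fun x : Fin 3 → ℝ => x i) (g := φ)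
        (v := Pi.single j (1 : ℝ)) ?_ ?_ ?_ (fun x _ => hpr x) (fun x _ => hφ.differentiable (by simp) x)
      · rw [key]
        congr 2
        ext x
        rw [hfp]
      · simp only [hfp]
        exact (hφc.integrable_of_hasCompactSupport hφs).const_mul _
      · exact ((continuous_apply i).mul hcφ).integrable_of_hasCompactSupport hsφ.mul_left
      · exact ((continuous_apply i).mul hφc).integrable_of_hasCompactSupport hφs.mul_left
    have hφint0 : Integrable φ := hφc.integrable_of_hasCompactSupport hφs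
    obtain ⟨Mφ, hMφ⟩ := hφs.exists_bound_of_continuous hφc
    have i1 : Integrable (fun x => ({x | h i x ≠ 0}.indicator
        (fun x => fderiv ℝ (h i) x (Pi.single j (1 : ℝ)))) x * φ x) := by
      have j1 : IntegrableOn (fun x => ({x | h i x ≠ 0}.indicator
          (fun x => fderiv ℝ (h i) x (Pi.single j (1 : ℝ)))) x * φ x) (Metric.ball 0 r) :=
        (hindint r i j).mul_bdd (c := Mφ) hφc.aestronglyMeasurable
          (Eventually.of_forall hMφ)
      refine (integrableOn_iff_integrable_of_support_subset ?_).mp j1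
      intro x hx
      apply hr
      apply subset_tsupport
      intro h0
      apply hx
      simp [h0]
    have i2 : Integrable (fun x => (if i = j then (1 : ℝ) else 0) * φ x) := hφint0.const_mul _
    have i3 : Integrable (fun x => h i x * fderiv ℝ φ x (Pi.single j (1 : ℝ))) :=
      ((hhc i).mul hcφ).integrable_of_hasCompactSupport hsφ.mul_left
    have i4 : Integrable (fun x : Fin 3 → ℝ => x i * fderiv ℝ φ x (Pi.single j (1 : ℝ))) :=
      ((continuous_apply i).mul hcφ).integrable_of_hasCompactSupport hsφ.mul_left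
    calc ∫ x, F x i * fderiv ℝ φ x (Pi.single j (1 : ℝ))
        = (∫ x, h i x * fderiv ℝ φ x (Pi.single j (1 : ℝ))) +
          ∫ x, x i * fderiv ℝ φ x (Pi.single j (1 : ℝ)) := by
          rw [← integral_add i3 i4]
          congr 1
          ext x
          simp only [hh]
          ring
      _ = -((∫ x, (if i = j then (1 : ℝ) else 0) * φ x) + ∫ x,
            ({x | h i x ≠ 0}.indicator (fun x => fderiv ℝ (h i) x (Pi.single j (1 : ℝ)))) x
              * φ x) := by
          rw [w1, w2]; ring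
      _ = -∫ x, g x i j * φ x := by
          rw [← integral_add i2 i1]
          congr 2
          ext x
          simp only [hg]
          ring
  · rw [hC', mp_toP.measure_preimage hCcl.measurableSet.nullMeasurableSet]
    exact hCpos
  · intro v hv
    constructor
    · have h1 : f (toP v) = toP v := hid _ hv
      change toF (f (toP v)) = v
      rw [h1, toF_toP]
    · ext i j
      simp only [hg]
      rw [indicator_of_notMem (show v ∉ {x | h i x ≠ 0} from fun hcon => hcon (hh0 i v hv)),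
        add_zero, Matrix.one_apply]
  · obtain ⟨X, hX⟩ := hRne
    exact ⟨toF X, by simpa [toP_toF] using hX⟩
  · intro v hv
    have := hRb hv
    rw [← hballeq]; exact this
  · intro v hv
    have hev : ∀ᶠ w in 𝓝 v, F w = ![w 0, -w 1, w 2] := by
      have ho : IsOpen (toP ⁻¹' R) := hRo.preimage continuous_toP
      filter_upwards [ho.mem_nhds hv] with w hw
      change toF (f (toP w)) = _
      rw [(hRm _ hw).1]
      rfl
    have hFv := hev.self_of_nhds
    refine ⟨hFv, ?_⟩
    have hv1' : v 1 ≠ 0 := (hRm _ hv).2.1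
    have e0 : h 0 v = 0 := by simp only [hh]; rw [hFv]; simp
    have e2 : h 2 v = 0 := by simp only [hh]; rw [hFv]; simp
    have e1 : h 1 v ≠ 0 := by
      simp only [hh]; rw [hFv]
      simp only [Matrix.cons_val_one, Matrix.cons_val_zero]
      intro hcon
      apply hv1'
      linarith
    have hev1 : h 1 =ᶠ[𝓝 v] fun w => -2 * w 1 := by
      filter_upwards [hev] with w hw
      simp only [hh]; rw [hw]
      simp only [Matrix.cons_val_one, Matrix.cons_val_zero]
      ring
    have hd1 : HasFDerivAt (fun w : Fin 3 → ℝ => -2 * w 1)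
        ((-2 : ℝ) • (ContinuousLinearMap.proj (R := ℝ) (φ := fun _ : Fin 3 => ℝ) 1)) v :=
      ((ContinuousLinearMap.proj (R := ℝ) (φ := fun _ : Fin 3 => ℝ) 1).hasFDerivAt).const_mul _
    have hd : fderiv ℝ (h 1) v =
        ((-2 : ℝ) • (ContinuousLinearMap.proj (R := ℝ) (φ := fun _ : Fin 3 => ℝ) 1)) := by
      rw [hev1.fderiv_eq, hd1.fderiv]
    ext i j
    simp only [hg]
    fin_cases i
    · have : v ∉ {x | h 0 x ≠ 0} := fun hcon => hcon e0
      fin_cases j <;> simp [this, indicator_of_notMem, e0]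
    · have : v ∈ {x | h 1 x ≠ 0} := e1
      fin_cases j <;> simp [e1, hd] <;> norm_num
    · have : v ∉ {x | h 2 x ≠ 0} := fun hcon => hcon e2
      fin_cases j <;> simp [this, indicator_of_notMem, e2]

end Pool.Agent.JAC
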