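import Pool.Agent.Lib.MP_3b5712_an.Polar

set_option autoImplicit false

open Filter Topology Set Real

namespace Pool.Agent.JAC

/-! TASK C2: ring rotations and reflections -/

/-! rotations -/

theorem norm_rot (t : ℝ) (w : E2) : ‖rot t w‖ = ‖w‖ := by
  unfold rot
  rw [norm_pol, abs_of_nonneg (norm_nonneg w)]

theorem rot_pol (t φ : ℝ) {r : ℝ} (hr : 0 ≤ r) : rot t (pol r φ) = pol r (φ + t) := by
  rcases eq_or_lt_of_le hr with h | h
  · unfold rot
    rw [← h]; simp [pol_zero]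
  · unfold rot
    have h1 : ‖pol r φ‖ = r := by rw [norm_pol, abs_of_pos h]
    have h2 := pol_ang (pol r φ)
    rw [h1] at h2
    obtain ⟨n, hn⟩ := pol_inj h h2
    rw [h1, hn]
    have : φ + n * (2 * π) + t = (φ + t) + n * (2 * π) := by ring
    rw [this, pol_add_int]

theorem rot_rot (s t : ℝ) (w : E2) : rot s (rot t w) = rot (s + t) w := by
  have h : rot t w = pol ‖w‖ (ang w + t) := rfl
  rw [h, rot_pol _ _ (norm_nonneg w)]
  unfold rot
  congr 1; ring

theorem rot_zero (w : E2) : rot 0 w = w := by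
  unfold rot
  rw [add_zero, pol_ang]

theorem rot_smul (t : ℝ) {c : ℝ} (hc : 0 ≤ c) (w : E2) : rot t (c • w) = c • rot t w := by
  have h : c • w = pol (c * ‖w‖) (ang w) := by rw [pol_smul, pol_ang]
  rw [h, rot_pol _ _ (mul_nonneg hc (norm_nonneg w)), pol_smul]
  rfl

theorem rot_pi (w : E2) : rot π w = -w := by
  unfold rot
  rw [pol_add_pi, pol_ang]

theorem rot_half (w : E2) : rot (π / 2) w = (-w.2, w.1) := by
  unfold rot
  rw [pol_add_half, pol_ang]

theorem rot_neg_half (w : E2) : rot (-(π / 2)) w = (w.2, -w.1) := by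
  have h := rot_rot (π / 2) (-(π / 2)) w
  rw [add_neg_cancel, rot_zero, rot_half] at h
  have h1 : -(rot (-(π / 2)) w).2 = w.1 := congrArg Prod.fst h
  have h2 : (rot (-(π / 2)) w).1 = w.2 := congrArg Prod.snd h
  ext
  · exact h2
  · change (rot (-(π / 2)) w).2 = -w.1
    rw [← h1, neg_neg]

theorem rot_lip (t t' : ℝ) (w w' : E2) :
    ‖rot t w - rot t' w'‖ ≤ 33 * ‖w - w'‖ + 4 * min ‖w‖ ‖w'‖ * |t - t'| := by
  have hnn : 0 ≤ ‖w - w'‖ := norm_nonneg _
  by_cases hw : w = 0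
  · subst hw
    have h0 : rot t (0 : E2) = 0 := by unfold rot; rw [norm_zero, pol_zero]
    rw [h0, zero_sub, norm_neg, norm_rot, zero_sub, norm_neg, norm_zero]
    have := norm_nonneg w'
    have h1 : min 0 ‖w'‖ = 0 := min_eq_left this
    rw [h1]; linarith
  · have hr : 0 < ‖w‖ := norm_pos_iff.mpr hw
    obtain ⟨φ', h1, h2⟩ := ang_lift w' hw (pol_ang w).symm
    have e1 : rot t w = pol ‖w‖ (ang w + t) := rfl
    have e2 : rot t' w' = pol ‖w'‖ (φ' + t') := by
      conv_lhs => rw [h1]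
      rw [rot_pol _ _ (norm_nonneg w')]
    rw [e1, e2]
    refine (pol_lip _ _ _ _).trans ?_
    rw [abs_of_nonneg (norm_nonneg w), abs_of_nonneg (norm_nonneg w')]
    have h3 : |ang w + t - (φ' + t')| ≤ |ang w - φ'| + |t - t'| := by
      have : ang w + t - (φ' + t') = (ang w - φ') + (t - t') := by ring
      rw [this]; exact abs_add_le _ _
    have h4 : |‖w‖ - ‖w'‖| ≤ ‖w - w'‖ := abs_norm_sub_norm_le w w'
    have hm : 0 ≤ min ‖w‖ ‖w'‖ := le_min (norm_nonneg _) (norm_nonneg _)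
    have hm1 : min ‖w‖ ‖w'‖ ≤ ‖w‖ := min_le_left _ _
    have h5 : min ‖w‖ ‖w'‖ * |ang w - φ'| ≤ 8 * ‖w - w'‖ := by
      calc min ‖w‖ ‖w'‖ * |ang w - φ'| ≤ ‖w‖ * (8 * ‖w - w'‖ / ‖w‖) :=
            mul_le_mul hm1 h2 (abs_nonneg _) hr.le
        _ = 8 * ‖w - w'‖ := by field_simp
    have h6 := mul_le_mul_of_nonneg_left h3 (mul_nonneg (by norm_num : (0:ℝ) ≤ 4) hm)
    nlinarith

/-! reflections -/

theorem norm_refl (c : ℝ) (w : E2) : ‖refl c w‖ = ‖w‖ := by
  unfold refl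
  rw [norm_pol, abs_of_nonneg (norm_nonneg w)]

theorem refl_pol (c φ : ℝ) {r : ℝ} (hr : 0 ≤ r) : refl c (pol r φ) = pol r (c - φ) := by
  rcases eq_or_lt_of_le hr with h | h
  · unfold refl
    rw [← h]; simp [pol_zero]
  · unfold refl
    have h1 : ‖pol r φ‖ = r := by rw [norm_pol, abs_of_pos h]
    have h2 := pol_ang (pol r φ)
    rw [h1] at h2
    obtain ⟨n, hn⟩ := pol_inj h h2
    rw [h1, hn]
    have : c - (φ + n * (2 * π)) = (c - φ) + ((-n : ℤ) : ℝ) * (2 * π) := by push_cast; ring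
    rw [this, pol_add_int]

theorem refl_zero (w : E2) : refl 0 w = (w.1, -w.2) := by
  unfold refl
  rw [zero_sub, pol_neg, pol_ang]

theorem refl_pi (w : E2) : refl π w = (-w.1, w.2) := by
  unfold refl
  rw [pol_pi_sub, pol_ang]

theorem refl_rot (c t : ℝ) (w : E2) : refl c (rot t w) = refl (c - t) w := by
  have h : rot t w = pol ‖w‖ (ang w + t) := rfl
  rw [h, refl_pol _ _ (norm_nonneg w)]
  unfold refl
  congr 1; ring

theorem rot_refl (c t : ℝ) (w : E2) : rot t (refl c w) = refl (c + t) w := by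
  have h : refl c w = pol ‖w‖ (c - ang w) := rfl
  rw [h, rot_pol _ _ (norm_nonneg w)]
  unfold refl
  congr 1; ring

theorem refl_add_int (c : ℝ) (n : ℤ) (w : E2) : refl (c + n * (2 * π)) w = refl c w := by
  unfold refl
  have : c + n * (2 * π) - ang w = (c - ang w) + n * (2 * π) := by ring
  rw [this, pol_add_int]

theorem refl_smul (t : ℝ) {c : ℝ} (hc : 0 ≤ c) (w : E2) : refl t (c • w) = c • refl t w := by
  have h : c • w = pol (c * ‖w‖) (ang w) := by rw [pol_smul, pol_ang]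
  rw [h, refl_pol _ _ (mul_nonneg hc (norm_nonneg w)), pol_smul]
  rfl

theorem refl_lip (t t' : ℝ) (w w' : E2) :
    ‖refl t w - refl t' w'‖ ≤ 33 * ‖w - w'‖ + 4 * min ‖w‖ ‖w'‖ * |t - t'| := by
  have hnn : 0 ≤ ‖w - w'‖ := norm_nonneg _
  by_cases hw : w = 0
  · subst hw
    have h0 : refl t (0 : E2) = 0 := by unfold refl; rw [norm_zero, pol_zero]
    rw [h0, zero_sub, norm_neg, norm_refl, zero_sub, norm_neg, norm_zero]
    have := norm_nonneg w'
    have h1 : min 0 ‖w'‖ = 0 := min_eq_left this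
    rw [h1]; linarith
  · have hr : 0 < ‖w‖ := norm_pos_iff.mpr hw
    obtain ⟨φ', h1, h2⟩ := ang_lift w' hw (pol_ang w).symm
    have e1 : refl t w = pol ‖w‖ (t - ang w) := rfl
    have e2 : refl t' w' = pol ‖w'‖ (t' - φ') := by
      conv_lhs => rw [h1]
      rw [refl_pol _ _ (norm_nonneg w')]
    rw [e1, e2]
    refine (pol_lip _ _ _ _).trans ?_
    rw [abs_of_nonneg (norm_nonneg w), abs_of_nonneg (norm_nonneg w')]
    have h3 : |t - ang w - (t' - φ')| ≤ |ang w - φ'| + |t - t'| := by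
      have : t - ang w - (t' - φ') = -(ang w - φ') + (t - t') := by ring
      rw [this]
      refine (abs_add_le _ _).trans ?_
      rw [abs_neg]
    have h4 : |‖w‖ - ‖w'‖| ≤ ‖w - w'‖ := abs_norm_sub_norm_le w w'
    have hm : 0 ≤ min ‖w‖ ‖w'‖ := le_min (norm_nonneg _) (norm_nonneg _)
    have hm1 : min ‖w‖ ‖w'‖ ≤ ‖w‖ := min_le_left _ _
    have h5 : min ‖w‖ ‖w'‖ * |ang w - φ'| ≤ 8 * ‖w - w'‖ := by
      calc min ‖w‖ ‖w'‖ * |ang w - φ'| ≤ ‖w‖ * (8 * ‖w - w'‖ / ‖w‖) :=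
            mul_le_mul hm1 h2 (abs_nonneg _) hr.le
        _ = 8 * ‖w - w'‖ := by field_simp
    have h6 := mul_le_mul_of_nonneg_left h3 (mul_nonneg (by norm_num : (0:ℝ) ≤ 4) hm)
    nlinarith

end Pool.Agent.JAC
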