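import Pool.Agent.Lib.MP_3b5712_an.Hmap
import Pool.Agent.Lib.MP_3b5712_an.Rot

set_option autoImplicit false

open Filter Topology Set Real

namespace Pool.Agent.JAC

/-! TASK G2: the space homeomorphisms `H3`, `H3i`, `X3` -/

namespace G2

theorem of_lipschitzOn {X Y : Type*} [PseudoMetricSpace X] [PseudoMetricSpace Y]
    {K : NNReal} {f : X → Y} {x : X} {t : Set X} (ht : t ∈ 𝓝 x) (h : LipschitzOnWith K f t) :
    ∃ K, LipAt K f x := ⟨K, t, ht, fun a ha b hb => h.dist_le_mul a ha b hb⟩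

theorem of_contDiffAt {X Y : Type*} [NormedAddCommGroup X] [NormedSpace ℝ X]
    [NormedAddCommGroup Y] [NormedSpace ℝ Y] {f : X → Y} {x : X} (h : ContDiffAt ℝ 1 f x) :
    ∃ K, LipAt K f x := by
  obtain ⟨K, t, ht, hK⟩ := h.exists_lipschitzOnWith
  exact of_lipschitzOn ht hK

theorem of_lipschitz {X Y : Type*} [PseudoMetricSpace X] [PseudoMetricSpace Y]
    {K : NNReal} {f : X → Y} (h : LipschitzWith K f) (x : X) : ∃ K, LipAt K f x :=
  of_lipschitzOn (t := univ) univ_mem (h.lipschitzOnWith)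

section
variable {X Y Z : Type*} [PseudoMetricSpace X] [PseudoMetricSpace Y] [PseudoMetricSpace Z]

theorem ll_prod {f : X → Y} {g : X → Z} {x : X} (hf : ∃ K, LipAt K f x)
    (hg : ∃ K, LipAt K g x) : ∃ K, LipAt K (fun y => (f y, g y)) x := by
  obtain ⟨K, hK⟩ := hf
  obtain ⟨L, hL⟩ := hg
  obtain ⟨U, hU, hK⟩ := hK.mono (le_max_left K L)
  obtain ⟨V, hV, hL⟩ := hL.mono (le_max_right K L)
  refine ⟨max K L, U ∩ V, inter_mem hU hV, fun a ha b hb => ?_⟩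
  rw [Prod.dist_eq]
  exact max_le (hK a ha.1 b hb.1) (hL a ha.2 b hb.2)

theorem ll_contDiff₂ {f g : X → ℝ} {x : X} {F : ℝ × ℝ → ℝ}
    (hF : ContDiffAt ℝ 1 F (f x, g x)) (hf : ∃ K, LipAt K f x) (hg : ∃ K, LipAt K g x) :
    ∃ K, LipAt K (fun y => F (f y, g y)) x :=
  LipAt.comp' (g := F) (f := fun y => (f y, g y)) (of_contDiffAt hF) (ll_prod hf hg)

theorem ll_add {f g : X → ℝ} {x : X} (hf : ∃ K, LipAt K f x) (hg : ∃ K, LipAt K g x) :
    ∃ K, LipAt K (fun y => f y + g y) x :=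
  ll_contDiff₂ (F := fun p => p.1 + p.2) (by fun_prop) hf hg

theorem ll_sub {f g : X → ℝ} {x : X} (hf : ∃ K, LipAt K f x) (hg : ∃ K, LipAt K g x) :
    ∃ K, LipAt K (fun y => f y - g y) x :=
  ll_contDiff₂ (F := fun p => p.1 - p.2) (by fun_prop) hf hg

theorem ll_mul {f g : X → ℝ} {x : X} (hf : ∃ K, LipAt K f x) (hg : ∃ K, LipAt K g x) :
    ∃ K, LipAt K (fun y => f y * g y) x :=
  ll_contDiff₂ (F := fun p => p.1 * p.2) (by fun_prop) hf hg

theorem ll_div {f g : X → ℝ} {x : X} (h0 : g x ≠ 0) (hf : ∃ K, LipAt K f x)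
    (hg : ∃ K, LipAt K g x) : ∃ K, LipAt K (fun y => f y / g y) x :=
  ll_contDiff₂ (F := fun p => p.1 / p.2) (contDiffAt_fst.div contDiffAt_snd h0) hf hg

theorem ll_const (c : Y) (x : X) : ∃ K, LipAt K (fun _ : X => c) x :=
  ⟨0, lipAt_of_lip (fun a b => by simp) x⟩

theorem ll_max {f g : X → ℝ} {x : X} (hf : ∃ K, LipAt K f x) (hg : ∃ K, LipAt K g x) :
    ∃ K, LipAt K (fun y => max (f y) (g y)) x :=
  LipAt.comp' (g := fun p : ℝ × ℝ => max p.1 p.2) (f := fun y => (f y, g y))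
    (of_lipschitz (LipschitzWith.prod_fst.max LipschitzWith.prod_snd) _) (ll_prod hf hg)

theorem ll_min {f g : X → ℝ} {x : X} (hf : ∃ K, LipAt K f x) (hg : ∃ K, LipAt K g x) :
    ∃ K, LipAt K (fun y => min (f y) (g y)) x :=
  LipAt.comp' (g := fun p : ℝ × ℝ => min p.1 p.2) (f := fun y => (f y, g y))
    (of_lipschitz (LipschitzWith.prod_fst.min LipschitzWith.prod_snd) _) (ll_prod hf hg)

theorem ll_neg {f : X → ℝ} {x : X} (hf : ∃ K, LipAt K f x) :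
    ∃ K, LipAt K (fun y => - f y) x := by
  have := ll_sub (ll_const (0:ℝ) x) hf
  simpa using this

theorem ll_clip {f g : X → ℝ} {x : X} (hf : ∃ K, LipAt K f x) (hg : ∃ K, LipAt K g x) :
    ∃ K, LipAt K (fun y => clip (f y) (g y)) x :=
  ll_max (ll_neg hf) (ll_min hf hg)

/-- the map `(m, ρ, x) ↦ Hc m ρ x` -/
theorem ll_Hc {m ρ f : X → ℝ} {x : X} (hm0 : 0 < m x) (hm1 : m x < 1)
    (hm : ∃ K, LipAt K m x) (hρ : ∃ K, LipAt K ρ x) (hf : ∃ K, LipAt K f x) :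
    ∃ K, LipAt K (fun y => Hc (m y) (ρ y) (f y)) x := by
  have h1 : ∃ K, LipAt K (fun y => 8 * (1 - m y)) x :=
    ll_mul (ll_const 8 x) (ll_sub (ll_const 1 x) hm)
  have h2 : ∃ K, LipAt K (fun y => 8 * m y) x := ll_mul (ll_const 8 x) hm
  have h10 : 8 * (1 - m x) ≠ 0 := by
    have : 0 < 1 - m x := by linarith
    positivity
  have h20 : 8 * m x ≠ 0 := by positivity
  unfold Hc
  exact ll_add (ll_div h10 hf h1)
    (ll_mul (ll_sub (ll_div h20 (ll_const 7 x) h2) (ll_div h10 (ll_const 1 x) h1))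
      (ll_sub hf (ll_clip (ll_mul (ll_sub (ll_const 1 x) hm) hρ) hf)))

/-- the map `(m, ρ, x) ↦ Hi m ρ x` -/
theorem ll_Hi {m ρ f : X → ℝ} {x : X}
    (hm : ∃ K, LipAt K m x) (hρ : ∃ K, LipAt K ρ x) (hf : ∃ K, LipAt K f x) :
    ∃ K, LipAt K (fun y => Hi (m y) (ρ y) (f y)) x := by
  have h1 : ∃ K, LipAt K (fun y => 8 * (1 - m y)) x :=
    ll_mul (ll_const 8 x) (ll_sub (ll_const 1 x) hm)
  have h2 : ∃ K, LipAt K (fun y => 8 * m y / 7) x :=
    ll_div (by norm_num) (ll_mul (ll_const 8 x) hm) (ll_const 7 x)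
  unfold Hi
  exact ll_add (ll_mul h2 hf)
    (ll_mul (ll_sub h1 h2) (ll_clip (ll_div (by norm_num) hρ (ll_const 8 x)) hf))

end

theorem ll_rho (lam : ℝ) (X : E3) : ∃ K, LipAt K (rho lam) X :=
  ll_max (of_lipschitz lipschitzWith_one_norm X) (ll_const lam X)

theorem ll_fst (X : E3) : ∃ K, LipAt K (fun X : E3 => X.1) X :=
  of_lipschitz LipschitzWith.prod_fst X

theorem ll_snd (X : E3) : ∃ K, LipAt K (fun X : E3 => X.2) X :=
  of_lipschitz LipschitzWith.prod_snd X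

theorem ll_snd_fst (X : E3) : ∃ K, LipAt K (fun X : E3 => X.2.1) X :=
  LipAt.comp' (g := fun w : E2 => w.1) (f := fun X : E3 => X.2)
    (of_lipschitz LipschitzWith.prod_fst _) (ll_snd X)

theorem ll_snd_snd (X : E3) : ∃ K, LipAt K (fun X : E3 => X.2.2) X :=
  LipAt.comp' (g := fun w : E2 => w.2) (f := fun X : E3 => X.2)
    (of_lipschitz LipschitzWith.prod_snd _) (ll_snd X)

theorem rho_pos {lam : ℝ} (hl : 0 < lam) (X : E3) : 0 < rho lam X :=
  lt_of_lt_of_le hl (le_max_right _ _)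

theorem norm3 (X : E3) : ‖X‖ = max |X.1| (max |X.2.1| |X.2.2|) := by
  rw [Prod.norm_def, Prod.norm_def]; rfl

/-- the norm inequality of a coordinatewise map -/
theorem rho_coord {lam : ℝ} (X : E3) (g : ℝ → ℝ)
    (h1 : ∀ x, |g x| ≤ rho lam X ↔ |x| ≤ rho lam X)
    (h2 : ∀ x, |x| = rho lam X → |g x| = rho lam X) :
    rho lam ((g X.1, g X.2.1, g X.2.2) : E3) = rho lam X := by
  have hle : ∀ x, |x| ≤ ‖X‖ → |g x| ≤ rho lam X := fun x hx =>
    (h1 x).mpr (hx.trans (le_max_left _ _))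
  have hX1 : |X.1| ≤ ‖X‖ := by rw [norm3]; exact le_max_left _ _
  have hX2 : |X.2.1| ≤ ‖X‖ := by
    rw [norm3]; exact (le_max_left _ _).trans (le_max_right _ _)
  have hX3 : |X.2.2| ≤ ‖X‖ := by
    rw [norm3]; exact (le_max_right _ _).trans (le_max_right _ _)
  have hup : ‖((g X.1, g X.2.1, g X.2.2) : E3)‖ ≤ rho lam X := by
    rw [norm3]
    exact max_le (hle _ hX1) (max_le (hle _ hX2) (hle _ hX3))
  apply le_antisymm
  · exact max_le hup (le_max_right _ _)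
  · rcases le_total lam ‖X‖ with hc | hc
    · have hr : rho lam X = ‖X‖ := max_eq_left hc
      apply le_max_of_le_left
      rw [norm3 ((g X.1, g X.2.1, g X.2.2) : E3)]
      dsimp only
      rw [hr] at h2 ⊢
      rcases le_total |X.1| (max |X.2.1| |X.2.2|) with h3 | h3
      · rcases le_total |X.2.1| |X.2.2| with h4 | h4
        · have : |X.2.2| = ‖X‖ := by rw [norm3, max_eq_right h3, max_eq_right h4]
          exact (h2 _ this).ge.trans ((le_max_right _ _).trans (le_max_right _ _))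
        · have : |X.2.1| = ‖X‖ := by rw [norm3, max_eq_right h3, max_eq_left h4]
          exact (h2 _ this).ge.trans ((le_max_left _ _).trans (le_max_right _ _))
      · have : |X.1| = ‖X‖ := by rw [norm3, max_eq_left h3]
        exact (h2 _ this).ge.trans (le_max_left _ _)
    · have hr : rho lam X = lam := max_eq_right hc
      rw [hr]
      exact le_max_right _ _

end G2

open G2

theorem H3_rho {lam : ℝ} (hl : 0 < lam) {m : ℝ → ℝ} (hm : ∀ r, 0 < m r ∧ m r < 1) (X : E3) :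
    rho lam (H3 lam m X) = rho lam X := by
  obtain ⟨h0, h1⟩ := hm (rho lam X)
  have hρ := rho_pos hl X
  refine rho_coord X (fun x => Hc (m (rho lam X)) (rho lam X) x) (fun x => abs_Hc_le h0 h1 hρ x)
    (fun x hx => ?_)
  rcases abs_choice x with h | h
  · rw [h] at hx
    rw [hx, Hc_self h0 h1 hρ, abs_of_pos hρ]
  · rw [h] at hx
    have : x = - rho lam X := by linarith
    rw [this, Hc_neg h1.le hρ.le, Hc_self h0 h1 hρ, abs_neg, abs_of_pos hρ]

theorem H3i_rho {lam : ℝ} (hl : 0 < lam) {m : ℝ → ℝ} (hm : ∀ r, 0 < m r ∧ m r < 1) (X : E3) :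
    rho lam (H3i lam m X) = rho lam X := by
  obtain ⟨h0, h1⟩ := hm (rho lam X)
  have hρ := rho_pos hl X
  refine rho_coord X (fun x => Hi (m (rho lam X)) (rho lam X) x) (fun x => abs_Hi_le h0 h1 hρ x)
    (fun x hx => ?_)
  rcases abs_choice x with h | h
  · rw [h] at hx
    rw [hx, Hi_self h0 h1 hρ, abs_of_pos hρ]
  · rw [h] at hx
    have : x = - rho lam X := by linarith
    rw [this, Hi_neg hρ.le, Hi_self h0 h1 hρ, abs_neg, abs_of_pos hρ]

theorem H3i_H3 {lam : ℝ} (hl : 0 < lam) {m : ℝ → ℝ} (hm : ∀ r, 0 < m r ∧ m r < 1) (X : E3) :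
    H3i lam m (H3 lam m X) = X := by
  obtain ⟨h0, h1⟩ := hm (rho lam X)
  have hρ := rho_pos hl X
  rw [H3i, H3_rho hl hm]
  simp only [H3, Hi_Hc h0 h1 hρ]

theorem H3_H3i {lam : ℝ} (hl : 0 < lam) {m : ℝ → ℝ} (hm : ∀ r, 0 < m r ∧ m r < 1) (X : E3) :
    H3 lam m (H3i lam m X) = X := by
  obtain ⟨h0, h1⟩ := hm (rho lam X)
  have hρ := rho_pos hl X
  rw [H3, H3i_rho hl hm]
  simp only [H3i, Hc_Hi h0 h1 hρ]

namespace G2

theorem ll_mrho {lam : ℝ} {m : ℝ → ℝ} (hmL : ∀ r, ∃ K, LipAt K m r) (X : E3) :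
    ∃ K, LipAt K (fun X => m (rho lam X)) X :=
  LipAt.comp' (g := m) (f := rho lam) (hmL _) (ll_rho lam X)

theorem ll_H3 {lam : ℝ} {m : ℝ → ℝ} (hm : ∀ r, 0 < m r ∧ m r < 1)
    (hmL : ∀ r, ∃ K, LipAt K m r) (X : E3) : ∃ K, LipAt K (H3 lam m) X := by
  obtain ⟨h0, h1⟩ := hm (rho lam X)
  unfold H3
  exact ll_prod (ll_Hc h0 h1 (ll_mrho hmL X) (ll_rho lam X) (ll_fst X))
    (ll_prod (ll_Hc h0 h1 (ll_mrho hmL X) (ll_rho lam X) (ll_snd_fst X))
      (ll_Hc h0 h1 (ll_mrho hmL X) (ll_rho lam X) (ll_snd_snd X)))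

theorem ll_H3i {lam : ℝ} {m : ℝ → ℝ}
    (hmL : ∀ r, ∃ K, LipAt K m r) (X : E3) : ∃ K, LipAt K (H3i lam m) X := by
  unfold H3i
  exact ll_prod (ll_Hi (ll_mrho hmL X) (ll_rho lam X) (ll_fst X))
    (ll_prod (ll_Hi (ll_mrho hmL X) (ll_rho lam X) (ll_snd_fst X))
      (ll_Hi (ll_mrho hmL X) (ll_rho lam X) (ll_snd_snd X)))

theorem continuous_of_ll {X Y : Type*} [PseudoMetricSpace X] [PseudoMetricSpace Y] {f : X → Y}
    (h : ∀ x, ∃ K, LipAt K f x) : Continuous f :=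
  continuous_iff_continuousAt.mpr fun x => by
    obtain ⟨K, hK⟩ := h x
    exact hK.continuousAt

end G2

theorem H3_good {lam : ℝ} (hl : 0 < lam) {m : ℝ → ℝ} (hm : ∀ r, 0 < m r ∧ m r < 1)
    (hmL : ∀ r, ∃ K, LipAt K m r) : Good (H3 lam m) :=
  Good.of_inverse (ll_H3 hm hmL) (continuous_of_ll (ll_H3i (lam := lam) hmL)) (H3i_H3 hl hm)
    (H3_H3i hl hm)

theorem H3i_good {lam : ℝ} (hl : 0 < lam) {m : ℝ → ℝ} (hm : ∀ r, 0 < m r ∧ m r < 1)
    (hmL : ∀ r, ∃ K, LipAt K m r) : Good (H3i lam m) :=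
  Good.of_inverse (ll_H3i hmL) (continuous_of_ll (ll_H3 (lam := lam) hm hmL)) (H3_H3i hl hm)
    (H3i_H3 hl hm)

theorem X3_rho (lam : ℝ) (s : ℝ → ℝ) (X : E3) : rho lam (X3 lam s X) = rho lam X := by
  unfold rho
  congr 1
  rw [X3, Prod.norm_def, Prod.norm_def X]
  dsimp only
  rw [norm_rot]

namespace G2

theorem ll_rot {X : Type*} [PseudoMetricSpace X] {t : X → ℝ} {w : X → E2} {x : X}
    (ht : ∃ K, LipAt K t x) (hw : ∃ K, LipAt K w x) :
    ∃ K, LipAt K (fun y => rot (t y) (w y)) x := by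
  have hcw : ContinuousAt w x := by
    obtain ⟨K, hK⟩ := hw
    exact hK.continuousAt
  obtain ⟨K, hK⟩ := ht
  obtain ⟨L, hL⟩ := hw
  obtain ⟨U, hU, hK⟩ := hK.mono (le_max_left K 0)
  obtain ⟨V, hV, hL⟩ := hL.mono (le_max_left L 0)
  set M := ‖w x‖ + 1 with hM
  have hW : {y | ‖w y‖ < M} ∈ 𝓝 x :=
    hcw.norm.eventually (gt_mem_nhds (by rw [hM]; linarith))
  refine ⟨33 * max L 0 + 4 * M * max K 0, U ∩ V ∩ {y | ‖w y‖ < M},
    inter_mem (inter_mem hU hV) hW, fun a ha b hb => ?_⟩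
  have h1 := hK a ha.1.1 b hb.1.1
  have h2 := hL a ha.1.2 b hb.1.2
  rw [dist_eq_norm]
  have h3 := rot_lip (t a) (t b) (w a) (w b)
  rw [Real.dist_eq] at h1
  rw [dist_eq_norm] at h2
  have hM0 : 0 ≤ M := by positivity
  calc ‖rot (t a) (w a) - rot (t b) (w b)‖
      ≤ 33 * ‖w a - w b‖ + 4 * min ‖w a‖ ‖w b‖ * |t a - t b| := h3
    _ ≤ 33 * (max L 0 * dist a b) + 4 * M * (max K 0 * dist a b) := by
        gcongr
        exact (min_le_left _ _).trans (le_of_lt ha.2)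
    _ = (33 * max L 0 + 4 * M * max K 0) * dist a b := by ring

theorem ll_X3 (lam : ℝ) {s : ℝ → ℝ} (hs : ∀ r, ∃ K, LipAt K s r) (X : E3) :
    ∃ K, LipAt K (X3 lam s) X := by
  unfold X3
  exact ll_prod (ll_fst X) (ll_rot (ll_mrho hs X) (ll_snd X))

theorem X3_X3 (lam : ℝ) (s t : ℝ → ℝ) (h : ∀ r, s r + t r = 0) (X : E3) :
    X3 lam s (X3 lam t X) = X := by
  rw [X3, X3_rho]
  simp only [X3]
  rw [rot_rot, h, rot_zero]

end G2

theorem X3_good (lam : ℝ) {s : ℝ → ℝ} (hs : ∀ r, ∃ K, LipAt K s r) : Good (X3 lam s) :=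
  Good.of_inverse (g := X3 lam (fun r => - s r)) (ll_X3 lam hs)
    (continuous_of_ll (ll_X3 lam (fun r => ll_neg (hs r))))
    (X3_X3 lam _ _ (fun r => by simp)) (X3_X3 lam _ _ (fun r => by simp))

end Pool.Agent.JAC
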