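import Pool.Agent.Lib.MP_3b5712_an.Core

set_option autoImplicit false

open Filter Topology Set Real

namespace Pool.Agent.JAC

/-! TASK G1: the scalar maps `Hc`, `Hi` -/

theorem clip_of_abs_le {b x : ℝ} (h : |x| ≤ b) : clip b x = x := by
  unfold clip
  rw [abs_le] at h
  rw [min_eq_right h.2, max_eq_right h.1]

theorem clip_of_ge {b x : ℝ} (hb : 0 ≤ b) (h : b ≤ x) : clip b x = b := by
  unfold clip
  rw [min_eq_left h, max_eq_right (by linarith)]

theorem clip_of_le {b x : ℝ} (hb : 0 ≤ b) (h : x ≤ -b) : clip b x = -b := by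
  unfold clip
  rw [min_eq_right (by linarith), max_eq_left h]

theorem clip_cases {b : ℝ} (hb : 0 ≤ b) (x : ℝ) :
    (|x| ≤ b ∧ clip b x = x) ∨ (b < x ∧ clip b x = b) ∨ (x < -b ∧ clip b x = -b) := by
  rcases le_or_gt (|x|) b with h | h
  · exact Or.inl ⟨h, clip_of_abs_le h⟩
  · rcases lt_abs.mp h with h | h
    · exact Or.inr (Or.inl ⟨h, clip_of_ge hb h.le⟩)
    · exact Or.inr (Or.inr ⟨by linarith, clip_of_le hb (by linarith)⟩)

theorem clip_neg {b : ℝ} (hb : 0 ≤ b) (x : ℝ) : clip b (-x) = -clip b x := by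
  rcases clip_cases hb x with ⟨h, h'⟩ | ⟨h, h'⟩ | ⟨h, h'⟩
  · rw [h', clip_of_abs_le (by rwa [abs_neg])]
  · rw [h', clip_of_le hb (by linarith)]
  · rw [h', clip_of_ge hb (by linarith), neg_neg]

theorem abs_clip_sub_le (b b' x x' : ℝ) : |clip b x - clip b' x'| ≤ |x - x'| + |b - b'| := by
  unfold clip
  have h1 := abs_max_sub_max_le_max (-b) (min b x) (-b') (min b' x')
  have h2 := abs_min_sub_min_le_max b x b' x'
  have h3 : |-b - -b'| = |b - b'| := by
    rw [show -b - -b' = -(b - b') by ring, abs_neg]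
  have h4 : max |b - b'| |x - x'| ≤ |x - x'| + |b - b'| :=
    max_le (by linarith [abs_nonneg (x - x')]) (by linarith [abs_nonneg (b - b')])
  refine h1.trans (max_le ?_ (h2.trans h4))
  rw [h3]
  linarith [abs_nonneg (x - x')]

theorem abs_clip_le {b : ℝ} (hb : 0 ≤ b) (x : ℝ) : |clip b x| ≤ b := by
  rcases clip_cases hb x with ⟨h, h'⟩ | ⟨h, h'⟩ | ⟨h, h'⟩
  · rwa [h']
  · rw [h', abs_of_nonneg hb]
  · rw [h', abs_neg, abs_of_nonneg hb]

theorem abs_sub_clip_le {b x r : ℝ} (hb : 0 ≤ b) (hbr : b ≤ r) (hx : |x| ≤ r) :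
    |x - clip b x| ≤ r - b := by
  rw [abs_le] at hx
  rcases clip_cases hb x with ⟨h, h'⟩ | ⟨h, h'⟩ | ⟨h, h'⟩
  · rw [h', sub_self, abs_zero]; linarith
  · rw [h', abs_of_nonneg (by linarith)]; linarith
  · rw [h', abs_of_nonpos (by linarith)]; linarith

/-- `Hc` beyond the inner zone, on the right -/
theorem Hc_of_ge {m ρ : ℝ} (hm : 0 < m) (hm1 : m < 1) (hρ : 0 < ρ) {x : ℝ}
    (h : (1 - m) * ρ ≤ x) : Hc m ρ x = ρ / 8 + 7 / (8 * m) * (x - (1 - m) * ρ) := by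
  unfold Hc
  rw [clip_of_ge (mul_nonneg (by linarith) hρ.le) h]
  have h1 : (1 - m) ≠ 0 := by linarith
  field_simp
  ring

theorem Hc_small {m ρ x : ℝ} (hx : |x| ≤ (1 - m) * ρ) : Hc m ρ x = x / (8 * (1 - m)) := by
  unfold Hc
  rw [clip_of_abs_le hx, sub_self, mul_zero, add_zero]

theorem Hi_small {m ρ u : ℝ} (hu : |u| ≤ ρ / 8) : Hi m ρ u = 8 * (1 - m) * u := by
  unfold Hi
  rw [clip_of_abs_le hu]
  ring

theorem Hi_of_ge {m ρ : ℝ} (hρ : 0 < ρ) {u : ℝ}
    (h : ρ / 8 ≤ u) : Hi m ρ u = (1 - m) * ρ + 8 * m / 7 * (u - ρ / 8) := by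
  unfold Hi
  rw [clip_of_ge (by linarith) h]
  ring

theorem Hc_neg {m ρ : ℝ} (hm1 : m ≤ 1) (hρ : 0 ≤ ρ) (x : ℝ) : Hc m ρ (-x) = -Hc m ρ x := by
  unfold Hc
  rw [clip_neg (mul_nonneg (by linarith) hρ)]
  ring

theorem Hi_neg {m ρ : ℝ} (hρ : 0 ≤ ρ) (x : ℝ) : Hi m ρ (-x) = -Hi m ρ x := by
  unfold Hi
  rw [clip_neg (by linarith)]
  ring

theorem Hi_Hc {m ρ : ℝ} (hm : 0 < m) (hm1 : m < 1) (hρ : 0 < ρ) (x : ℝ) :
    Hi m ρ (Hc m ρ x) = x := by
  have h1 : (0 : ℝ) < 1 - m := by linarith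
  have key : ∀ y, (1 - m) * ρ ≤ y → Hi m ρ (Hc m ρ y) = y := by
    intro y hy
    rw [Hc_of_ge hm hm1 hρ hy, Hi_of_ge hρ (by
      have : 0 ≤ 7 / (8 * m) * (y - (1 - m) * ρ) :=
        mul_nonneg (by positivity) (by linarith)
      linarith)]
    field_simp
    ring
  rcases le_or_gt (|x|) ((1 - m) * ρ) with h | h
  · rw [Hc_small h, Hi_small]
    · field_simp
    · rw [abs_div, abs_of_pos (by positivity : (0 : ℝ) < 8 * (1 - m)), div_le_div_iff₀
        (by positivity) (by norm_num)]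
      nlinarith
  · rcases lt_abs.mp h with h | h
    · exact key x h.le
    · have := key (-x) h.le
      rw [Hc_neg hm1.le hρ.le, Hi_neg hρ.le] at this
      linarith

theorem Hc_Hi {m ρ : ℝ} (hm : 0 < m) (hm1 : m < 1) (hρ : 0 < ρ) (x : ℝ) :
    Hc m ρ (Hi m ρ x) = x := by
  have h1 : (0 : ℝ) < 1 - m := by linarith
  have key : ∀ y, ρ / 8 ≤ y → Hc m ρ (Hi m ρ y) = y := by
    intro y hy
    rw [Hi_of_ge hρ hy, Hc_of_ge hm hm1 hρ (by
      have : 0 ≤ 8 * m / 7 * (y - ρ / 8) :=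
        mul_nonneg (by positivity) (by linarith)
      linarith)]
    field_simp
    ring
  rcases le_or_gt (|x|) (ρ / 8) with h | h
  · rw [Hi_small h, Hc_small]
    · field_simp
    · rw [abs_mul, abs_of_pos (by positivity : (0 : ℝ) < 8 * (1 - m))]
      nlinarith
  · rcases lt_abs.mp h with h | h
    · exact key x h.le
    · have := key (-x) h.le
      rw [Hi_neg hρ.le, Hc_neg hm1.le hρ.le] at this
      linarith

theorem clip_smul {c : ℝ} (hc : 0 < c) (b x : ℝ) : clip (c * b) (c * x) = c * clip b x := by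
  unfold clip
  rw [mul_max_of_nonneg _ _ hc.le, mul_min_of_nonneg _ _ hc.le, mul_neg]

theorem Hc_smul {m ρ c : ℝ} (hc : 0 < c) (x : ℝ) : Hc m (c * ρ) (c * x) = c * Hc m ρ x := by
  unfold Hc
  rw [show (1 - m) * (c * ρ) = c * ((1 - m) * ρ) by ring, clip_smul hc]
  ring

theorem Hi_smul {m ρ c : ℝ} (hc : 0 < c) (x : ℝ) : Hi m (c * ρ) (c * x) = c * Hi m ρ x := by
  unfold Hi
  rw [show c * ρ / 8 = c * (ρ / 8) by ring, clip_smul hc]
  ring

theorem Hc_self {m ρ : ℝ} (hm : 0 < m) (hm1 : m < 1) (hρ : 0 < ρ) : Hc m ρ ρ = ρ := by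
  rw [Hc_of_ge hm hm1 hρ (by nlinarith)]
  field_simp
  ring

theorem Hi_self {m ρ : ℝ} (hm : 0 < m) (hm1 : m < 1) (hρ : 0 < ρ) : Hi m ρ ρ = ρ := by
  have := Hi_Hc hm hm1 hρ ρ
  rwa [Hc_self hm hm1 hρ] at this

theorem abs_Hc_le {m ρ : ℝ} (hm : 0 < m) (hm1 : m < 1) (hρ : 0 < ρ) (x : ℝ) :
    |Hc m ρ x| ≤ ρ ↔ |x| ≤ ρ := by
  have h1 : (0 : ℝ) < 1 - m := by linarith
  have hle : (1 - m) * ρ ≤ ρ := by nlinarith
  have key : ∀ y, (1 - m) * ρ ≤ y → (|Hc m ρ y| ≤ ρ ↔ |y| ≤ ρ) := by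
    intro y hy
    have hy0 : 0 ≤ y := le_trans (by positivity) hy
    have e := Hc_of_ge hm hm1 hρ hy
    have hq : 0 ≤ 7 / (8 * m) * (y - (1 - m) * ρ) :=
      mul_nonneg (by positivity) (by linarith)
    have h0 : 0 ≤ Hc m ρ y := by rw [e]; positivity
    rw [abs_of_nonneg h0, abs_of_nonneg hy0, e]
    have e2 : ρ / 8 + 7 / (8 * m) * (y - (1 - m) * ρ) - ρ = 7 / (8 * m) * (y - ρ) := by
      field_simp
      ring
    have hp : (0 : ℝ) < 7 / (8 * m) := by positivity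
    constructor
    · intro h
      have : 7 / (8 * m) * (y - ρ) ≤ 0 := by linarith
      by_contra hc
      push Not at hc
      have := mul_pos hp (sub_pos.mpr hc)
      linarith
    · intro h
      have : 7 / (8 * m) * (y - ρ) ≤ 0 := mul_nonpos_of_nonneg_of_nonpos hp.le (by linarith)
      linarith
  rcases le_or_gt (|x|) ((1 - m) * ρ) with h | h
  · constructor
    · intro _
      linarith
    · intro _
      rw [Hc_small h, abs_div, abs_of_pos (by positivity : (0 : ℝ) < 8 * (1 - m)),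
        div_le_iff₀ (by positivity)]
      nlinarith
  · rcases lt_abs.mp h with h | h
    · exact key x h.le
    · have := key (-x) h.le
      rwa [Hc_neg hm1.le hρ.le, abs_neg, abs_neg] at this

theorem abs_Hi_le {m ρ : ℝ} (hm : 0 < m) (hm1 : m < 1) (hρ : 0 < ρ) (x : ℝ) :
    |Hi m ρ x| ≤ ρ ↔ |x| ≤ ρ := by
  rw [← abs_Hc_le hm hm1 hρ (Hi m ρ x), Hc_Hi hm hm1 hρ]

/-- Lipschitz bounds -/
theorem Hc_lip {m m' ρ ρ' x x' : ℝ} (hm : 0 < m) (hm1 : m ≤ 1 / 16) (hm' : 0 < m')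
    (hm1' : m' ≤ 1 / 16) (hρ : 0 < ρ) (hρ1 : ρ ≤ 1) (hρ' : 0 < ρ') (hρ1' : ρ' ≤ 1)
    (hmm : m ≤ 16 * m') (hmm' : m' ≤ 16 * m)
    (hx : |x| ≤ ρ) (hx' : |x'| ≤ ρ') :
    |Hc m ρ x - Hc m' ρ' x'| ≤ 1000 / m * (|x - x'| + |ρ - ρ'| + |m - m'|) := by
  have h1 : (0 : ℝ) < 1 - m := by linarith
  have h1' : (0 : ℝ) < 1 - m' := by linarith
  set X := |x - x'| with hX
  set P := |ρ - ρ'| with hP
  set M := |m - m'| with hM
  have hX0 : 0 ≤ X := abs_nonneg _
  have hP0 : 0 ≤ P := abs_nonneg _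
  have hM0 : 0 ≤ M := abs_nonneg _
  set e := x - clip ((1 - m) * ρ) x with he
  set e' := x' - clip ((1 - m') * ρ') x' with he'
  have he'1 : |e'| ≤ m' := by
    have := abs_sub_clip_le (b := (1 - m') * ρ') (x := x') (r := ρ')
      (mul_nonneg h1'.le hρ'.le) (by nlinarith) hx'
    rw [← he'] at this
    nlinarith
  have hee : |e - e'| ≤ 2 * X + P + M := by
    have a1 : |(1 - m) * ρ - (1 - m') * ρ'| ≤ P + M := by
      rw [show (1 - m) * ρ - (1 - m') * ρ' = (1 - m) * (ρ - ρ') + (m' - m) * ρ' by ring]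
      refine (abs_add_le _ _).trans ?_
      rw [abs_mul, abs_mul, abs_of_pos h1, abs_of_pos hρ', abs_sub_comm m' m, ← hM, ← hP]
      nlinarith
    have a2 := abs_clip_sub_le ((1 - m) * ρ) ((1 - m') * ρ') x x'
    rw [he, he', show x - clip ((1 - m) * ρ) x - (x' - clip ((1 - m') * ρ') x') =
      (x - x') - (clip ((1 - m) * ρ) x - clip ((1 - m') * ρ') x') by ring]
    refine (abs_sub _ _).trans ?_
    linarith
  have hx1 : |x'| ≤ 1 := hx'.trans hρ1'
  -- first part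
  have t1 : |x / (8 * (1 - m)) - x' / (8 * (1 - m'))| ≤ X + M := by
    have q : x / (8 * (1 - m)) - x' / (8 * (1 - m')) =
        (x - x') * (1 / (8 * (1 - m))) + x' * ((m - m') * (1 / (8 * (1 - m) * (1 - m')))) := by
      field_simp
      ring
    rw [q]
    refine (abs_add_le _ _).trans ?_
    rw [abs_mul, abs_mul, abs_mul, ← hX, ← hM]
    have b1 : |1 / (8 * (1 - m))| ≤ 1 := by
      rw [abs_of_pos (by positivity), div_le_one (by positivity)]
      linarith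
    have b2 : |1 / (8 * (1 - m) * (1 - m'))| ≤ 1 := by
      rw [abs_of_pos (by positivity), div_le_one (by positivity)]
      nlinarith
    have c1 : X * |1 / (8 * (1 - m))| ≤ X * 1 := mul_le_mul_of_nonneg_left b1 hX0
    have c2 : |x'| * (M * |1 / (8 * (1 - m) * (1 - m'))|) ≤ 1 * (M * 1) :=
      mul_le_mul hx1 (mul_le_mul_of_nonneg_left b2 hM0) (by positivity) zero_le_one
    linarith
  -- coefficient
  set c := 7 / (8 * m) - 1 / (8 * (1 - m)) with hc
  set c' := 7 / (8 * m') - 1 / (8 * (1 - m')) with hc'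
  have hcb : |c| ≤ 1 / m := by
    have p1 : 0 < 1 / (8 * (1 - m)) := by positivity
    have p2 : 1 / (8 * (1 - m)) ≤ 7 / (8 * m) := by
      rw [div_le_div_iff₀ (by positivity) (by positivity)]
      nlinarith
    have p3 : 7 / (8 * m) ≤ 1 / m := by
      rw [div_le_div_iff₀ (by positivity) (by positivity)]
      nlinarith
    rw [abs_of_nonneg (by rw [hc]; linarith), hc]
    linarith
  have hcc : |c - c'| * m' ≤ 1 / m * M := by
    have q : c - c' = (m' - m) * (7 / (8 * m * m') + 1 / (8 * (1 - m) * (1 - m'))) := by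
      rw [hc, hc']
      field_simp
      ring
    have q2 : (7 / (8 * m * m') + 1 / (8 * (1 - m) * (1 - m'))) * m' ≤ 1 / m := by
      have p4 : 7 / (8 * m * m') * m' = 7 / (8 * m) := by
        field_simp
      have p5 : 1 / (8 * (1 - m) * (1 - m')) * m' ≤ 1 / (8 * m) := by
        rw [div_mul_eq_mul_div, div_le_div_iff₀ (by positivity) (by positivity)]
        nlinarith [mul_pos hm hm']
      have p6 : 7 / (8 * m) + 1 / (8 * m) = 1 / m := by
        field_simp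
        norm_num
      rw [add_mul, p4]
      linarith
    rw [q, abs_mul, abs_sub_comm, ← hM, mul_assoc, abs_of_pos (by positivity)]
    rw [mul_comm (1 / m) M]
    exact mul_le_mul_of_nonneg_left q2 hM0
  have t2 : |c * e - c' * e'| ≤ 1 / m * (2 * X + P + M) + 1 / m * M := by
    rw [show c * e - c' * e' = c * (e - e') + (c - c') * e' by ring]
    refine (abs_add_le _ _).trans ?_
    rw [abs_mul, abs_mul]
    have s1 : |c| * |e - e'| ≤ 1 / m * (2 * X + P + M) :=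
      mul_le_mul hcb hee (abs_nonneg _) (by positivity)
    have s2 : |c - c'| * |e'| ≤ |c - c'| * m' :=
      mul_le_mul_of_nonneg_left he'1 (abs_nonneg _)
    linarith
  have hm16 : 16 ≤ 1 / m := by
    rw [le_div_iff₀ hm]
    linarith
  have fin : |Hc m ρ x - Hc m' ρ' x'| ≤ (X + M) + (1 / m * (2 * X + P + M) + 1 / m * M) := by
    have e0 : Hc m ρ x - Hc m' ρ' x' =
        (x / (8 * (1 - m)) - x' / (8 * (1 - m'))) + (c * e - c' * e') := by
      unfold Hc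
      rw [he, he', hc, hc']
      ring
    rw [e0]
    exact (abs_add_le _ _).trans (add_le_add t1 t2)
  refine fin.trans ?_
  have e1 : 1000 / m = 1000 * (1 / m) := by ring
  rw [e1]
  nlinarith [mul_nonneg (by linarith : (0:ℝ) ≤ 1 / m - 16) (by linarith : (0:ℝ) ≤ X + M),
    mul_nonneg (by linarith : (0:ℝ) ≤ 1 / m) hX0, mul_nonneg (by linarith : (0:ℝ) ≤ 1 / m) hP0,
    mul_nonneg (by linarith : (0:ℝ) ≤ 1 / m) hM0]

theorem Hi_lip {m m' ρ ρ' x x' : ℝ} (hm : 0 < m) (hm1 : m ≤ 1 / 16) (hm' : 0 < m')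
    (hm1' : m' ≤ 1 / 16) (hρ : 0 < ρ) (hρ1 : ρ ≤ 1) (hρ' : 0 < ρ') (hρ1' : ρ' ≤ 1)
    (hx : |x| ≤ ρ) (hx' : |x'| ≤ ρ') :
    |Hi m ρ x - Hi m' ρ' x'| ≤ 20 * (|x - x'| + |ρ - ρ'| + |m - m'|) := by
  set X := |x - x'| with hX
  set P := |ρ - ρ'| with hP
  set M := |m - m'| with hM
  have hX0 : 0 ≤ X := abs_nonneg _
  have hP0 : 0 ≤ P := abs_nonneg _
  have hM0 : 0 ≤ M := abs_nonneg _
  set k := clip (ρ / 8) x with hk
  set k' := clip (ρ' / 8) x' with hk'
  have hkk : |k - k'| ≤ X + P := by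
    have := abs_clip_sub_le (ρ / 8) (ρ' / 8) x x'
    have h2 : |ρ / 8 - ρ' / 8| ≤ P := by
      rw [← sub_div, abs_div, abs_of_pos (by norm_num : (0:ℝ) < 8), ← hP]
      linarith
    linarith
  have hk1 : |k'| ≤ 1 := by
    have := abs_clip_le (b := ρ' / 8) (by linarith) x'
    rw [← hk'] at this
    linarith
  have hx1 : |x'| ≤ 1 := hx'.trans hρ1'
  have e0 : Hi m ρ x - Hi m' ρ' x' = (8 * m / 7) * (x - x') + (8 / 7 * (m - m')) * x' +
      ((8 * (1 - m) - 8 * m / 7) * (k - k') + (-(64 / 7) * (m - m')) * k') := by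
    unfold Hi
    rw [hk, hk']
    ring
  rw [e0]
  refine (abs_add_le _ _).trans ?_
  refine (add_le_add (abs_add_le _ _) (abs_add_le _ _)).trans ?_
  simp only [abs_mul]
  rw [← hX, ← hM]
  have a1 : |8 * m / 7| ≤ 1 := by
    rw [abs_of_pos (by positivity)]
    linarith
  have a2 : |8 * (1 - m) - 8 * m / 7| ≤ 8 := by
    rw [abs_of_nonneg (by linarith)]
    linarith
  have a3 : |(8 : ℝ) / 7| = 8 / 7 := abs_of_pos (by norm_num)
  have a4 : |-((64 : ℝ) / 7)| = 64 / 7 := by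
    rw [abs_neg, abs_of_pos (by norm_num)]
  rw [a3, a4]
  have b1 : |8 * m / 7| * X ≤ 1 * X := mul_le_mul_of_nonneg_right a1 hX0
  have b2 : 8 / 7 * M * |x'| ≤ 8 / 7 * M * 1 := mul_le_mul_of_nonneg_left hx1 (by positivity)
  have b3 : |8 * (1 - m) - 8 * m / 7| * |k - k'| ≤ 8 * (X + P) :=
    mul_le_mul a2 hkk (abs_nonneg _) (by norm_num)
  have b4 : 64 / 7 * M * |k'| ≤ 64 / 7 * M * 1 := mul_le_mul_of_nonneg_left hk1 (by positivity)
  have b5 : |8 * m / 7| * X = |8 * m| / |(7:ℝ)| * X := by rw [abs_div]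
  nlinarith

end Pool.Agent.JAC
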