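import Pool.Agent.Lib.MP_3b5712_an.Ring

set_option autoImplicit false

open Filter Topology Set Real

namespace Pool.Agent.JAC

/-! TASK D2: ring maps in space -/

/-- ring maps in space depending on `r = ‖(x,y)‖` and `z` -/
noncomputable def ring3 (D : ℝ → ℝ → ℝ → ℝ) (X : E3) : E3 :=
  ((ring (D ‖((X.1, X.2.1) : E2)‖ X.2.2) (X.1, X.2.1)).1,
   (ring (D ‖((X.1, X.2.1) : E2)‖ X.2.2) (X.1, X.2.1)).2, X.2.2)

structure RD (D : ℝ → ℝ → ℝ → ℝ) : Prop where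
  circ : ∀ r z, Circ (D r z)
  loc : ∀ r z, 0 < r → ∃ K, ∃ ε > 0, ∀ r' r'' z' z'', |r' - r| < ε → |r'' - r| < ε →
    |z' - z| < ε → |z'' - z| < ε → ∀ φ, |D r' z' φ - D r'' z'' φ| ≤ K * (|r' - r''| + |z' - z''|)

/-- the norm of a triple in terms of the planar part and the height -/
theorem norm_triple (p : E2) (z : ℝ) : ‖((p.1, p.2, z) : E3)‖ = max ‖p‖ |z| := by
  simp only [Prod.norm_def, Real.norm_eq_abs]
  rw [max_assoc]

theorem ring3_triple (D : ℝ → ℝ → ℝ → ℝ) (p : E2) (z : ℝ) :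
    ring3 D (p.1, p.2, z) = ((ring (D ‖p‖ z) p).1, (ring (D ‖p‖ z) p).2, z) := rfl

/-- solving the angle equation near a given angle -/
theorem exists_angle {D : ℝ → ℝ} (h : Circ D) (φ0 η t : ℝ) (hη : 0 ≤ η)
    (ht : |t - (-3 * φ0 + D φ0)| ≤ η) : ∃ φ, |φ - φ0| ≤ η ∧ -3 * φ + D φ = t := by
  have hcont : Continuous D := by
    have : LipschitzWith 2 D := by
      apply LipschitzWith.of_dist_le_mul
      intro x y
      rw [Real.dist_eq, Real.dist_eq]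
      exact h.lip x y
    exact this.continuous
  have hc : ContinuousOn (fun φ => -3 * φ + D φ) (Icc (φ0 - η) (φ0 + η)) := by
    fun_prop
  have h1 := h.lip (φ0 - η) φ0
  have h2 := h.lip (φ0 + η) φ0
  have e1 : |φ0 - η - φ0| = η := by
    rw [show φ0 - η - φ0 = -η by ring, abs_neg, abs_of_nonneg hη]
  have e2 : |φ0 + η - φ0| = η := by
    rw [show φ0 + η - φ0 = η by ring, abs_of_nonneg hη]
  rw [e1] at h1
  rw [e2] at h2
  have a1 := (abs_le.mp h1).1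
  have a2 := (abs_le.mp h2).2
  have a3 := abs_le.mp ht
  have hmem : t ∈ Icc (-3 * (φ0 + η) + D (φ0 + η)) (-3 * (φ0 - η) + D (φ0 - η)) := by
    constructor
    · linarith [a3.1]
    · linarith [a3.2]
  obtain ⟨φ, hφ, hφt⟩ := intermediate_value_Icc' (by linarith) hc hmem
  refine ⟨φ, ?_, hφt⟩
  rw [abs_le]
  constructor
  · linarith [hφ.1]
  · linarith [hφ.2]

theorem ring3_openAt {D : ℝ → ℝ → ℝ → ℝ} (h : RD D) {w : E2} (z : ℝ) (hw : w ≠ 0) :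
    OpenAt (ring3 D) (w.1, w.2, z) := by
  rw [openAt_iff]
  intro U hU
  have hr : 0 < ‖w‖ := norm_pos_iff.mpr hw
  obtain ⟨K, ε, hε, hK⟩ := h.loc ‖w‖ z hr
  have hcont : Continuous (fun q : ℝ × ℝ × ℝ =>
      (((pol q.1 q.2.1).1, (pol q.1 q.2.1).2, q.2.2) : E3)) := by
    have hp : Continuous (fun q : ℝ × ℝ × ℝ => pol q.1 q.2.1) :=
      continuous_pol.comp (continuous_fst.prodMk (continuous_fst.comp continuous_snd))
    exact (continuous_fst.comp hp).prodMk ((continuous_snd.comp hp).prodMk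
      (continuous_snd.comp continuous_snd))
  have hpre : (fun q : ℝ × ℝ × ℝ =>
      (((pol q.1 q.2.1).1, (pol q.1 q.2.1).2, q.2.2) : E3)) ⁻¹' U ∈ 𝓝 (‖w‖, ang w, z) := by
    apply hcont.continuousAt
    simp only [pol_ang]
    exact hU
  obtain ⟨η0, hη0, hball⟩ := Metric.mem_nhds_iff.mp hpre
  set η : ℝ := min (η0 / 2) (min ε 1) with hη
  have hηpos : 0 < η := lt_min (by positivity) (lt_min hε one_pos)
  have hη1 : η ≤ η0 / 2 := min_le_left _ _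
  have hη2 : η ≤ ε := (min_le_right _ _).trans (min_le_left _ _)
  set K' : ℝ := max K 0 with hK'
  have hK'0 : 0 ≤ K' := le_max_right _ _
  -- radius of the target neighbourhood
  set C : ℝ := 1 + 8 / ‖w‖ + 2 * K' with hC
  have hC1 : 1 ≤ C := by
    have : 0 ≤ 8 / ‖w‖ := by positivity
    rw [hC]; linarith
  have hC0 : 0 < C := by linarith
  set φ0 := ang w with hφ0
  set ψ0 := -3 * φ0 + D ‖w‖ z φ0 with hψ0
  have hwpol : w = pol ‖w‖ φ0 := (pol_ang w).symm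
  have hval : ring (D ‖w‖ z) w = pol ‖w‖ ψ0 := rfl
  rw [ring3_triple]
  rw [Metric.mem_nhds_iff]
  refine ⟨η / C, by positivity, ?_⟩
  rintro ⟨y1, y2, z'⟩ hY
  set W : E2 := ring (D ‖w‖ z) w with hW
  set W' : E2 := (y1, y2) with hW'
  have hdist : max ‖W' - W‖ |z' - z| < η / C := by
    have h1 : dist ((y1, y2, z') : E3) (W.1, W.2, z) = max ‖W' - W‖ |z' - z| := by
      rw [dist_eq_norm]
      have : ((y1, y2, z') : E3) - (W.1, W.2, z) = ((W' - W).1, (W' - W).2, z' - z) := rfl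
      rw [this, norm_triple]
    rw [← h1]
    exact hY
  have hd1 : ‖W' - W‖ < η / C := lt_of_le_of_lt (le_max_left _ _) hdist
  have hd2 : |z' - z| < η / C := lt_of_le_of_lt (le_max_right _ _) hdist
  have hηC : η / C ≤ η := div_le_self hηpos.le hC1
  have hWn : ‖W‖ = ‖w‖ := norm_ring _ _
  have hW0 : W ≠ 0 := by
    rw [← norm_pos_iff, hWn]; exact hr
  obtain ⟨ψ', hψ', hψ'd⟩ := ang_lift (w := W) W' hW0 (φ := ψ0) (by rw [hWn]; exact hval)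
  have hrr : |‖W'‖ - ‖w‖| ≤ ‖W' - W‖ := by
    rw [← hWn]
    exact abs_norm_sub_norm_le _ _
  rw [hWn, norm_sub_rev] at hψ'd
  have hDd : |D ‖W'‖ z' φ0 - D ‖w‖ z φ0| ≤ K' * (‖W' - W‖ + |z' - z|) := by
    refine (hK ‖W'‖ ‖w‖ z' z (by linarith) (by simpa using hε) (by linarith)
      (by simpa using hε) φ0).trans ?_
    have h0 : 0 ≤ |‖W'‖ - ‖w‖| + |z' - z| := by positivity
    calc K * (|‖W'‖ - ‖w‖| + |z' - z|) ≤ K' * (|‖W'‖ - ‖w‖| + |z' - z|) := by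
          gcongr
          exact le_max_left _ _
      _ ≤ K' * (‖W' - W‖ + |z' - z|) := by gcongr
  have htarget : |ψ' - (-3 * φ0 + D ‖W'‖ z' φ0)| ≤ η := by
    have e1 : ψ' - (-3 * φ0 + D ‖W'‖ z' φ0) =
        -(ψ0 - ψ') - (D ‖W'‖ z' φ0 - D ‖w‖ z φ0) := by
      rw [hψ0]; ring
    rw [e1]
    refine (abs_sub _ _).trans ?_
    rw [abs_neg]
    have e2 : 8 * ‖W' - W‖ / ‖w‖ ≤ 8 / ‖w‖ * (η / C) := by
      rw [mul_div_right_comm]
      gcongr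
    have e3 : K' * (‖W' - W‖ + |z' - z|) ≤ K' * (2 * (η / C)) := by
      gcongr
      linarith
    have e4 : 8 / ‖w‖ * (η / C) + K' * (2 * (η / C)) ≤ C * (η / C) := by
      have : 0 < η / C := by positivity
      rw [hC]
      nlinarith
    have e5 : C * (η / C) = η := by field_simp
    linarith
  obtain ⟨φ, hφ1, hφ2⟩ := exists_angle (h.circ ‖W'‖ z') φ0 η ψ' hηpos.le htarget
  refine ⟨((pol ‖W'‖ φ).1, (pol ‖W'‖ φ).2, z'), ?_, ?_⟩
  · have : ((‖W'‖, φ, z') : ℝ × ℝ × ℝ) ∈ Metric.ball (‖w‖, φ0, z) η0 := by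
      rw [Metric.mem_ball, Prod.dist_eq, Prod.dist_eq, max_lt_iff, max_lt_iff]
      simp only [Real.dist_eq]
      refine ⟨by linarith, by linarith, by linarith⟩
    exact hball this
  · rw [ring3_triple]
    have hn : ‖pol ‖W'‖ φ‖ = ‖W'‖ := by rw [norm_pol, abs_norm]
    rw [hn, ring_pol (h.circ ‖W'‖ z') (norm_nonneg _), hφ2, ← hψ']

theorem ring3_lipAt {D : ℝ → ℝ → ℝ → ℝ} (h : RD D) {w : E2} (z : ℝ) (hw : w ≠ 0) :
    ∃ K, LipAt K (ring3 D) (w.1, w.2, z) := by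
  have hr : 0 < ‖w‖ := norm_pos_iff.mpr hw
  obtain ⟨K, ε, hε, hK⟩ := h.loc ‖w‖ z hr
  set K' : ℝ := max K 0 with hK'
  have hK'0 : 0 ≤ K' := le_max_right _ _
  refine ⟨161 + 4 * (‖w‖ + ε) * (2 * K'), Metric.ball _ ε, Metric.ball_mem_nhds _ hε, ?_⟩
  have hK2 : ∀ r' r'' z' z'', |r' - ‖w‖| < ε → |r'' - ‖w‖| < ε →
    |z' - z| < ε → |z'' - z| < ε → ∀ φ,
      |D r' z' φ - D r'' z'' φ| ≤ K' * (|r' - r''| + |z' - z''|) := by
    intro r' r'' z' z'' h1 h2 h3 h4 φ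
    refine (hK r' r'' z' z'' h1 h2 h3 h4 φ).trans ?_
    gcongr
    exact le_max_left _ _
  rintro ⟨a1, a2, z1⟩ ha ⟨b1, b2, z2⟩ hb
  have key : ∀ (p q : E2) (s t : ℝ), dist ((p.1, p.2, s) : E3) (q.1, q.2, t) =
      max ‖p - q‖ |s - t| := by
    intro p q s t
    rw [dist_eq_norm]
    have : ((p.1, p.2, s) : E3) - (q.1, q.2, t) = ((p - q).1, (p - q).2, s - t) := rfl
    rw [this, norm_triple]
  have ha' : max ‖((a1, a2) : E2) - w‖ |z1 - z| < ε := by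
    rw [← key]; exact ha
  have hb' : max ‖((b1, b2) : E2) - w‖ |z2 - z| < ε := by
    rw [← key]; exact hb
  obtain ⟨ha1, ha2⟩ := max_lt_iff.mp ha'
  obtain ⟨hb1, hb2⟩ := max_lt_iff.mp hb'
  set A : E2 := (a1, a2) with hA
  set B : E2 := (b1, b2) with hB
  have e1 : ring3 D (a1, a2, z1) = ((ring (D ‖A‖ z1) A).1, (ring (D ‖A‖ z1) A).2, z1) := rfl
  have e2 : ring3 D (b1, b2, z2) = ((ring (D ‖B‖ z2) B).1, (ring (D ‖B‖ z2) B).2, z2) := rfl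
  have e3 : dist ((a1, a2, z1) : E3) (b1, b2, z2) = max ‖A - B‖ |z1 - z2| := key A B z1 z2
  rw [e1, e2, key, e3]
  set d := max ‖A - B‖ |z1 - z2| with hd
  have hd1 : ‖A - B‖ ≤ d := le_max_left _ _
  have hd2 : |z1 - z2| ≤ d := le_max_right _ _
  have hd0 : 0 ≤ d := (norm_nonneg _).trans hd1
  have hnA : |‖A‖ - ‖w‖| < ε := lt_of_le_of_lt (abs_norm_sub_norm_le _ _) ha1
  have hnB : |‖B‖ - ‖w‖| < ε := lt_of_le_of_lt (abs_norm_sub_norm_le _ _) hb1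
  have hnAB : |‖A‖ - ‖B‖| ≤ ‖A - B‖ := abs_norm_sub_norm_le _ _
  have h1 := ring_lip (h.circ ‖A‖ z1) (h.circ ‖B‖ z2) (hK2 ‖A‖ ‖B‖ z1 z2 hnA hnB ha2 hb2) A B
  have h2 : min ‖A‖ ‖B‖ ≤ ‖w‖ + ε := (min_le_left _ _).trans (by linarith [(abs_lt.mp hnA).2])
  have h3 : 4 * min ‖A‖ ‖B‖ * (K' * (|‖A‖ - ‖B‖| + |z1 - z2|)) ≤
      4 * (‖w‖ + ε) * (K' * (d + d)) := by
    have h30 : 0 ≤ min ‖A‖ ‖B‖ := le_min (norm_nonneg _) (norm_nonneg _)
    gcongr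
    exact hnAB.trans hd1
  apply max_le
  · calc ‖ring (D ‖A‖ z1) A - ring (D ‖B‖ z2) B‖
        ≤ 161 * ‖A - B‖ + 4 * min ‖A‖ ‖B‖ * (K' * (|‖A‖ - ‖B‖| + |z1 - z2|)) := h1
      _ ≤ 161 * d + 4 * (‖w‖ + ε) * (K' * (d + d)) := by gcongr
      _ = (161 + 4 * (‖w‖ + ε) * (2 * K')) * d := by ring
  · have : 0 ≤ 4 * (‖w‖ + ε) * (2 * K') := by positivity
    calc |z1 - z2| ≤ 1 * d := by rw [one_mul]; exact hd2
      _ ≤ (161 + 4 * (‖w‖ + ε) * (2 * K')) * d := by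
        gcongr
        linarith

theorem ring3_at {D : ℝ → ℝ → ℝ → ℝ} (h : RD D) {X : E3} (hX : ((X.1, X.2.1) : E2) ≠ 0) :
    OpenAt (ring3 D) X ∧ ∃ K, LipAt K (ring3 D) X :=
  ⟨ring3_openAt h X.2.2 hX, ring3_lipAt h X.2.2 hX⟩

theorem ring3_fin {D : ℝ → ℝ → ℝ → ℝ} (h : RD D) (Y : E3) : (ring3 D ⁻¹' {Y}).Finite := by
  have hf := (ring_fin (h.circ ‖((Y.1, Y.2.1) : E2)‖ Y.2.2) ((Y.1, Y.2.1) : E2)).image
    (fun v : E2 => ((v.1, v.2, Y.2.2) : E3))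
  apply hf.subset
  rintro ⟨x, y, z⟩ hX
  have hX' : ring3 D (x, y, z) = Y := hX
  have e1 : ring3 D (x, y, z) = ((ring (D ‖((x, y) : E2)‖ z) (x, y)).1,
    (ring (D ‖((x, y) : E2)‖ z) (x, y)).2, z) := rfl
  rw [e1] at hX'
  have hz : Y.2.2 = z := by rw [← hX']
  have hw : ((Y.1, Y.2.1) : E2) = ring (D ‖((x, y) : E2)‖ z) (x, y) := by rw [← hX']
  have hn : ‖((Y.1, Y.2.1) : E2)‖ = ‖((x, y) : E2)‖ := by rw [hw, norm_ring]
  refine ⟨(x, y), ?_, ?_⟩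
  · rw [mem_preimage, mem_singleton_iff, hn, hz]
    exact hw.symm
  · simp [hz]

end Pool.Agent.JAC
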