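import Pool.Agent.Lib.MP_3b5712_an.Ka
import Pool.Agent.Lib.MP_3b5712_an.Ring3
import Pool.Agent.Lib.MP_3b5712_an.H3

set_option autoImplicit false

open Filter Topology Set Real

namespace Pool.Agent.JAC

/-! TASK F2: the space map `K3` -/

/-! transport of `Good` -/

theorem Good.conj {X Y : Type*} [PseudoMetricSpace X] [PseudoMetricSpace Y] {f : Y → Y}
    (hf : Good f) {e : X → Y} {e' : Y → X} (he : ∀ a b, dist (e a) (e b) ≤ dist a b)
    (he' : ∀ a b, dist (e' a) (e' b) ≤ dist a b) (h1 : ∀ x, e' (e x) = x)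
    (h2 : ∀ y, e (e' y) = y) : Good (fun x => e' (f (e x))) := by
  have ce : Continuous e := by
    apply LipschitzWith.continuous (K := 1)
    apply LipschitzWith.of_dist_le_mul
    intro x y
    simpa using he x y
  have ce' : Continuous e' := by
    apply LipschitzWith.continuous (K := 1)
    apply LipschitzWith.of_dist_le_mul
    intro x y
    simpa using he' x y
  have l1 : ∀ x, ∃ K, LipAt K e x :=
    fun x => ⟨1, lipAt_of_lip (fun a b => by simpa using he a b) x⟩
  have l2 : ∀ y, ∃ K, LipAt K e' y :=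
    fun y => ⟨1, lipAt_of_lip (fun a b => by simpa using he' a b) y⟩
  refine ⟨?_, ?_, ?_⟩
  · intro x
    have o1 : OpenAt e x := openAt_of_inverse ce' h1 h2 x
    have o2 : OpenAt e' (f (e x)) := openAt_of_inverse ce h2 h1 _
    have o3 : OpenAt (f ∘ e) x := (hf.opn (e x)).comp o1
    exact OpenAt.comp (f := f ∘ e) (g := e') o2 o3
  · intro x
    have o3 : ∃ K, LipAt K (f ∘ e) x := LipAt.comp' (hf.lip (e x)) (l1 x)
    exact LipAt.comp' (f := f ∘ e) (g := e') (l2 _) o3
  · intro y
    have hfin := (hf.fin (e y)).image e'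
    apply hfin.subset
    intro x hx
    simp only [mem_preimage, mem_singleton_iff] at hx
    refine ⟨e x, ?_, h1 x⟩
    simp only [mem_preimage, mem_singleton_iff]
    rw [← hx, h2]

theorem Good.prod_id {k : E2 → E2} (hk : Good k) : Good (fun p : E2 × ℝ => (k p.1, p.2)) := by
  refine ⟨?_, ?_, ?_⟩
  · rintro ⟨w, z⟩
    unfold OpenAt
    have h1 : (fun p : E2 × ℝ => (k p.1, p.2)) = Prod.map k (_root_.id : ℝ → ℝ) := rfl
    rw [h1]
    change 𝓝 (k w, z) ≤ _
    rw [nhds_prod_eq (x := k w) (y := z), nhds_prod_eq (x := w) (y := z),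
      ← Filter.prod_map_map_eq']
    apply Filter.prod_mono
    · exact hk.opn w
    · simp
  · rintro ⟨w, z⟩
    obtain ⟨K, U, hU, hK⟩ := hk.lip w
    refine ⟨max K 1, U ×ˢ univ, ?_, ?_⟩
    · rw [nhds_prod_eq]
      exact Filter.prod_mem_prod hU univ_mem
    · rintro ⟨a, s⟩ ⟨ha, -⟩ ⟨b, t⟩ ⟨hb, -⟩
      have hK1 : 0 ≤ max K 1 := le_trans zero_le_one (le_max_right _ _)
      change dist (k a, s) (k b, t) ≤ _
      rw [Prod.dist_eq]
      apply max_le
      · calc dist (k a) (k b) ≤ K * dist a b := hK a ha b hb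
          _ ≤ max K 1 * dist a b := by
            apply mul_le_mul_of_nonneg_right (le_max_left _ _) dist_nonneg
          _ ≤ max K 1 * dist (a, s) (b, t) := by
            apply mul_le_mul_of_nonneg_left _ hK1
            rw [Prod.dist_eq]
            exact le_max_left _ _
      · calc dist s t ≤ 1 * dist (a, s) (b, t) := by
              rw [Prod.dist_eq, one_mul]
              exact le_max_right _ _
          _ ≤ max K 1 * dist (a, s) (b, t) := by
            apply mul_le_mul_of_nonneg_right (le_max_right _ _) dist_nonneg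
  · rintro ⟨v, z⟩
    apply ((hk.fin v).prod (Set.finite_singleton z)).subset
    rintro ⟨a, s⟩ hx
    simp only [mem_preimage, mem_singleton_iff, Prod.mk.injEq] at hx
    exact ⟨hx.1, hx.2⟩

theorem scal_lip {c : ℝ → ℝ} {L : ℝ} (hc : ∀ z z', |c z - c z'| ≤ L * |z - z'|) (x : E2 × ℝ) :
    ∃ K, LipAt K (fun p : E2 × ℝ => (c p.2 • p.1, p.2)) x := by
  obtain ⟨w, z⟩ := x
  have hL : 0 ≤ L := by
    have := hc 1 0
    have h2 := abs_nonneg (c 1 - c 0)
    simp at this
    linarith
  refine ⟨(|c z| + L) + L * (‖w‖ + 1) + 1, Metric.ball (w, z) 1,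
    Metric.ball_mem_nhds _ one_pos, ?_⟩
  rintro ⟨a, s⟩ ha ⟨b, t⟩ hb
  rw [Metric.mem_ball, Prod.dist_eq, max_lt_iff] at ha hb
  obtain ⟨ha1, ha2⟩ := ha
  obtain ⟨hb1, hb2⟩ := hb
  change dist a w < 1 at ha1
  change dist s z < 1 at ha2
  change dist b w < 1 at hb1
  change dist t z < 1 at hb2
  have hcs : |c s| ≤ |c z| + L := by
    have h1 := hc s z
    rw [Real.dist_eq] at ha2
    have h2 : |c s| ≤ |c s - c z| + |c z| := by
      have := abs_add_le (c s - c z) (c z)
      simpa using this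
    nlinarith
  have hb3 : ‖b‖ ≤ ‖w‖ + 1 := by
    rw [dist_eq_norm] at hb1
    have := norm_le_norm_add_norm_sub' b w
    linarith
  have hD1 : dist a b ≤ dist (a, s) (b, t) := by
    rw [Prod.dist_eq]
    exact le_max_left _ _
  have hD2 : dist s t ≤ dist (a, s) (b, t) := by
    rw [Prod.dist_eq]
    exact le_max_right _ _
  have hD0 : 0 ≤ dist (a, s) (b, t) := dist_nonneg
  have hw0 := norm_nonneg w
  have hcz0 := abs_nonneg (c z)
  change dist (c s • a, s) (c t • b, t) ≤ _
  rw [Prod.dist_eq]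
  apply max_le
  · change dist (c s • a) (c t • b) ≤ _
    rw [dist_eq_norm]
    have e1 : c s • a - c t • b = c s • (a - b) + (c s - c t) • b := by
      rw [smul_sub, sub_smul]
      abel
    rw [e1]
    calc ‖c s • (a - b) + (c s - c t) • b‖ ≤ ‖c s • (a - b)‖ + ‖(c s - c t) • b‖ := norm_add_le _ _
      _ = |c s| * ‖a - b‖ + |c s - c t| * ‖b‖ := by
        rw [norm_smul, norm_smul, Real.norm_eq_abs, Real.norm_eq_abs]
      _ ≤ (|c z| + L) * dist (a, s) (b, t) + (L * dist (a, s) (b, t)) * (‖w‖ + 1) := by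
        apply add_le_add
        · rw [← dist_eq_norm]
          exact mul_le_mul hcs hD1 dist_nonneg (by positivity)
        · apply mul_le_mul _ hb3 (norm_nonneg _) (by positivity)
          calc |c s - c t| ≤ L * |s - t| := hc s t
            _ ≤ L * dist (a, s) (b, t) := by
              rw [← Real.dist_eq]
              exact mul_le_mul_of_nonneg_left hD2 hL
      _ ≤ _ := by nlinarith
  · change dist s t ≤ _
    have h3 : 1 * dist (a, s) (b, t) ≤
        ((|c z| + L) + L * (‖w‖ + 1) + 1) * dist (a, s) (b, t) := by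
      apply mul_le_mul_of_nonneg_right _ hD0
      have : 0 ≤ L * (‖w‖ + 1) := by positivity
      linarith
    linarith

theorem scal_good {c d : ℝ → ℝ} {L M : ℝ} (hc : ∀ z z', |c z - c z'| ≤ L * |z - z'|)
    (hd : ∀ z z', |d z - d z'| ≤ M * |z - z'|) (hcd : ∀ z, c z * d z = 1) :
    Good (fun p : E2 × ℝ => (c p.2 • p.1, p.2)) := by
  apply Good.of_inverse (g := fun p : E2 × ℝ => (d p.2 • p.1, p.2)) (scal_lip hc)
  · rw [continuous_iff_continuousAt]
    intro x
    obtain ⟨K, hK⟩ := scal_lip hd x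
    exact hK.continuousAt
  · rintro ⟨w, z⟩
    change (d z • c z • w, z) = (w, z)
    rw [smul_smul, mul_comm, hcd, one_smul]
  · rintro ⟨w, z⟩
    change (c z • d z • w, z) = (w, z)
    rw [smul_smul, hcd, one_smul]

/-! assembling coordinates -/

/-- assemble planar part and height -/
def asm (w : E2) (z : ℝ) : E3 := (w.1, w.2, z)

theorem asm_eta (X : E3) : asm (X.1, X.2.1) X.2.2 = X := rfl

theorem norm_asm (w : E2) (z : ℝ) : ‖asm w z‖ = max ‖w‖ |z| := by
  unfold asm
  rw [Prod.norm_def, Prod.norm_def, Prod.norm_def]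
  simp only [Real.norm_eq_abs]
  rw [max_assoc]

/-- depth from the height only -/
noncomputable def tau (lam z : ℝ) : ℝ := max |z| lam

theorem rho_asm (lam : ℝ) (w : E2) (z : ℝ) : rho lam (asm w z) = max ‖w‖ (tau lam z) := by
  unfold rho tau
  rw [norm_asm, max_assoc]

theorem tau_ge (lam z : ℝ) : lam ≤ tau lam z := le_max_right _ _

theorem tau_lip (lam z z' : ℝ) : |tau lam z - tau lam z'| ≤ |z - z'| := by
  unfold tau
  calc |max |z| lam - max |z'| lam| ≤ |(|z| - |z'|)| := by
        have := abs_max_sub_max_le_max |z| lam |z'| lam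
        simpa using this
    _ ≤ |z - z'| := abs_abs_sub_abs_le _ _

theorem tau_inv_lip {lam : ℝ} (hl : 0 < lam) (z z' : ℝ) :
    |(tau lam z)⁻¹ - (tau lam z')⁻¹| ≤ (lam * lam)⁻¹ * |z - z'| := by
  have h1 := tau_ge lam z
  have h2 := tau_ge lam z'
  have p1 : 0 < tau lam z := lt_of_lt_of_le hl h1
  have p2 : 0 < tau lam z' := lt_of_lt_of_le hl h2
  have e1 : (tau lam z)⁻¹ - (tau lam z')⁻¹ =
      (tau lam z' - tau lam z) / (tau lam z * tau lam z') := by
    field_simp
  rw [e1, abs_div, abs_of_pos (mul_pos p1 p2), div_eq_mul_inv, mul_comm]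
  apply mul_le_mul
  · apply inv_anti₀ (by positivity)
    exact mul_le_mul h1 h2 hl.le p1.le
  · rw [abs_sub_comm]
    exact tau_lip lam z z'
  · exact abs_nonneg _
  · positivity

theorem K3_asm (lam : ℝ) (a : ℝ → ℝ) (w : E2) (z : ℝ) : K3 lam a (asm w z) =
    asm (rho lam (asm w z) • ka (a (rho lam (asm w z))) ((rho lam (asm w z))⁻¹ • w)) z := by
  rfl

theorem norm_QQ (w : E2) : ‖QQ w‖ = ‖w‖ := norm_ring _ _

theorem K3_rho {lam : ℝ} (hl : 0 < lam) (a : ℝ → ℝ) (X : E3) :
    rho lam (K3 lam a X) = rho lam X := by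
  obtain ⟨w, z, rfl⟩ : ∃ w z, X = asm w z := ⟨(X.1, X.2.1), X.2.2, rfl⟩
  rw [K3_asm]
  have hρ : 0 < rho lam (asm w z) := lt_of_lt_of_le hl (le_max_right _ _)
  set r := rho lam (asm w z) with hr
  rw [rho_asm, norm_smul, Real.norm_eq_abs, abs_of_pos hρ]
  have hr2 : r = max ‖w‖ (tau lam z) := by rw [hr, rho_asm]
  have hn : ‖r⁻¹ • w‖ = r⁻¹ * ‖w‖ := by
    rw [norm_smul, Real.norm_eq_abs, abs_of_pos (inv_pos.mpr hρ)]
  have hwr : ‖w‖ ≤ r := by rw [hr2]; exact le_max_left _ _
  rcases lt_or_eq_of_le hwr with hlt | heq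
  · have h1 : ‖r⁻¹ • w‖ < 1 := by
      rw [hn, inv_mul_lt_iff₀ hρ]
      linarith
    have h2 := ka_norm_lt (a := a r) h1
    have h3 : r = tau lam z := by
      rcases max_choice ‖w‖ (tau lam z) with h | h
      · rw [h] at hr2
        linarith
      · rw [h] at hr2
        exact hr2
    rw [h3] at h2 ⊢
    apply max_eq_right
    have h4 : 0 < tau lam z := by rw [← h3]; exact hρ
    nlinarith
  · have h1 : 1 ≤ ‖r⁻¹ • w‖ := by
      rw [hn, heq, inv_mul_cancel₀ hρ.ne']
    rw [ka_out h1, norm_QQ, hn, heq, inv_mul_cancel₀ hρ.ne', mul_one]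
    apply max_eq_left
    rw [hr2]
    exact le_max_right _ _

/-! rotations in space around the vertical axis -/

/-- rotation of the planar part -/
noncomputable def RR (lam : ℝ) (t : ℝ → ℝ) (X : E3) : E3 :=
  asm (rot (t (rho lam X)) (X.1, X.2.1)) X.2.2

/-- cyclic permutation of the coordinates -/
def pm (X : E3) : E3 := (X.2.2, X.1, X.2.1)
/-- inverse permutation -/
def pm' (X : E3) : E3 := (X.2.1, X.2.2, X.1)

theorem norm_pm (X : E3) : ‖pm X‖ = ‖X‖ := by
  unfold pm
  simp only [Prod.norm_def]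
  rw [max_comm, max_assoc]

theorem norm_pm' (X : E3) : ‖pm' X‖ = ‖X‖ := by
  have := norm_pm (pm' X)
  rw [← this]
  rfl

theorem RR_good (lam : ℝ) {t : ℝ → ℝ} (ht : ∀ r, ∃ K, LipAt K t r) : Good (RR lam t) := by
  have h1 := Good.conj (X3_good lam ht) (e := pm) (e' := pm')
    (by
      intro a b
      rw [dist_eq_norm, dist_eq_norm]
      have : pm a - pm b = pm (a - b) := rfl
      rw [this, norm_pm])
    (by
      intro a b
      rw [dist_eq_norm, dist_eq_norm]
      have : pm' a - pm' b = pm' (a - b) := rfl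
      rw [this, norm_pm'])
    (fun _ => rfl) (fun _ => rfl)
  have h2 : (fun x => pm' (X3 lam t (pm x))) = RR lam t := by
    funext X
    unfold X3 RR
    have : rho lam (pm X) = rho lam X := by
      unfold rho
      rw [norm_pm]
    rw [this]
    rfl
  rw [h2] at h1
  exact h1

/-! the middle map -/

/-- the middle region -/
def midA (lam : ℝ) : Set E3 := {X | ‖((X.1, X.2.1) : E2)‖ ≤ tau lam X.2.2 / 2}

/-- the inner part -/
noncomputable def midF (lam : ℝ) (X : E3) : E3 :=
  asm ((tau lam X.2.2 / 2) • kin ((2 * (tau lam X.2.2)⁻¹) • (X.1, X.2.1))) X.2.2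

/-- angle function of the outer part -/
noncomputable def midD (lam : ℝ) (a : ℝ → ℝ) (r z φ : ℝ) : ℝ :=
  (1 - cl (2 * (r / max r (tau lam z)) - 1)) * delta φ +
    cl (2 * (r / max r (tau lam z)) - 1) * delta (φ + a (max r (tau lam z)))

theorem k3_cl_nonneg (x : ℝ) : 0 ≤ cl x := le_max_left _ _

theorem k3_cl_le_one (x : ℝ) : cl x ≤ 1 := max_le zero_le_one (min_le_left _ _)

theorem k3_cl_lip (x y : ℝ) : |cl x - cl y| ≤ |x - y| := by
  unfold cl
  have h1 := abs_max_sub_max_le_max 0 (min 1 x) 0 (min 1 y)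
  have h2 := abs_min_sub_min_le_max 1 x 1 y
  simp at h1 h2
  exact h1.trans h2

theorem delta_abs (x : ℝ) : |delta x| ≤ 1 := by
  unfold delta
  have hp := Real.pi_pos
  have hp4 := Real.pi_le_four
  have h1 : ‖((4 * x + Real.pi / 2 : ℝ) : AddCircle (2 * Real.pi))‖ ≤ π := by
    have := AddCircle.norm_le_half_period (2 * Real.pi) (x := ((4 * x + Real.pi / 2 : ℝ) : AddCircle (2 * Real.pi))) (by positivity)
    rw [abs_of_pos (by positivity)] at this
    linarith
  have h0 := norm_nonneg ((4 * x + Real.pi / 2 : ℝ) : AddCircle (2 * Real.pi))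
  rw [abs_le]
  constructor <;> linarith

theorem midD_RD {lam : ℝ} (hl : 0 < lam) {a : ℝ → ℝ} (ha : ∀ r, ∃ K, LipAt K a r) :
    RD (midD lam a) := by
  constructor
  · intro r z
    constructor
    · intro φ
      unfold midD
      have e1 : delta (φ + 2 * π) = delta φ := by
        have := delta_int φ 1
        simpa using this
      have e2 : delta (φ + 2 * π + a (max r (tau lam z))) =
          delta (φ + a (max r (tau lam z))) := by
        have := delta_int (φ + a (max r (tau lam z))) 1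
        rw [← this]
        congr 1
        push_cast
        ring
      rw [e1, e2]
    · intro x y
      unfold midD
      set l := cl (2 * (r / max r (tau lam z)) - 1)
      set b := a (max r (tau lam z))
      have l0 : 0 ≤ l := k3_cl_nonneg _
      have l1 : l ≤ 1 := k3_cl_le_one _
      have d1 := delta_lip x y
      have d2 := delta_lip (x + b) (y + b)
      have e3 : x + b - (y + b) = x - y := by ring
      rw [e3] at d2
      have e4 : (1 - l) * delta x + l * delta (x + b) - ((1 - l) * delta y + l * delta (y + b)) =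
          (1 - l) * (delta x - delta y) + l * (delta (x + b) - delta (y + b)) := by ring
      rw [e4]
      calc |(1 - l) * (delta x - delta y) + l * (delta (x + b) - delta (y + b))|
          ≤ |(1 - l) * (delta x - delta y)| + |l * (delta (x + b) - delta (y + b))| :=
            abs_add_le _ _
        _ = (1 - l) * |delta x - delta y| + l * |delta (x + b) - delta (y + b)| := by
            rw [abs_mul, abs_mul, abs_of_nonneg l0, abs_of_nonneg (by linarith : 0 ≤ 1 - l)]
        _ ≤ (1 - l) * (2 * |x - y|) + l * (2 * |x - y|) :=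
            add_le_add (mul_le_mul_of_nonneg_left d1 (by linarith))
              (mul_le_mul_of_nonneg_left d2 l0)
        _ = 2 * |x - y| := by ring
  · intro r z hr
    obtain ⟨K0, hK0⟩ := ha (max r (tau lam z))
    obtain ⟨U, hU, hK⟩ := hK0.mono (le_max_left K0 0)
    set K := max K0 0
    have hKnn : 0 ≤ K := le_max_right _ _
    obtain ⟨δ, hδ, hδU⟩ := Metric.mem_nhds_iff.mp hU
    refine ⟨2 * (2 * (2 / lam)) + 2 * K, min δ r, lt_min hδ hr, ?_⟩
    intro r' r'' z' z'' h1 h2 h3 h4 φ
    have h1d := lt_of_lt_of_le h1 (min_le_left δ r)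
    have h1r := lt_of_lt_of_le h1 (min_le_right δ r)
    have h2d := lt_of_lt_of_le h2 (min_le_left δ r)
    have h2r := lt_of_lt_of_le h2 (min_le_right δ r)
    have h3d := lt_of_lt_of_le h3 (min_le_left δ r)
    have h4d := lt_of_lt_of_le h4 (min_le_left δ r)
    have r'pos : 0 < r' := by
      rw [abs_lt] at h1r
      linarith
    have r''pos : 0 < r'' := by
      rw [abs_lt] at h2r
      linarith
    have mlip : ∀ s s' y y' : ℝ, |max s (tau lam y) - max s' (tau lam y')| ≤
        max |s - s'| |y - y'| := by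
      intro s s' y y'
      calc |max s (tau lam y) - max s' (tau lam y')| ≤ max |s - s'| |tau lam y - tau lam y'| :=
            abs_max_sub_max_le_max _ _ _ _
        _ ≤ max |s - s'| |y - y'| := max_le_max le_rfl (tau_lip lam y y')
    set ρ' := max r' (tau lam z') with hρ'
    set ρ'' := max r'' (tau lam z'') with hρ''
    have m1 : ρ' ∈ U := by
      apply hδU
      rw [Metric.mem_ball, Real.dist_eq]
      exact (mlip r' r z' z).trans_lt (max_lt h1d h3d)
    have m2 : ρ'' ∈ U := by
      apply hδU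
      rw [Metric.mem_ball, Real.dist_eq]
      exact (mlip r'' r z'' z).trans_lt (max_lt h2d h4d)
    have hρρ : |ρ' - ρ''| ≤ |r' - r''| + |z' - z''| :=
      (mlip r' r'' z' z'').trans (max_le_add_of_nonneg (abs_nonneg _) (abs_nonneg _))
    have p' : lam ≤ ρ' := (tau_ge lam z').trans (le_max_right _ _)
    have p'' : lam ≤ ρ'' := (tau_ge lam z'').trans (le_max_right _ _)
    have p'0 : 0 < ρ' := lt_of_lt_of_le hl p'
    have p''0 : 0 < ρ'' := lt_of_lt_of_le hl p''
    have q'' : r'' ≤ ρ'' := le_max_left _ _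
    have hfrac : |r' / ρ' - r'' / ρ''| ≤ (2 / lam) * (|r' - r''| + |z' - z''|) := by
      have e1 : r' / ρ' - r'' / ρ'' = (r' - r'') / ρ' + (r'' / ρ'') * ((ρ'' - ρ') / ρ') := by
        field_simp
        ring
      rw [e1]
      have i1 : |(r' - r'') / ρ'| ≤ |r' - r''| / lam := by
        rw [abs_div, abs_of_pos p'0]
        exact div_le_div_of_nonneg_left (abs_nonneg _) hl p'
      have i2 : |(r'' / ρ'') * ((ρ'' - ρ') / ρ')| ≤ (|r' - r''| + |z' - z''|) / lam := by
        rw [abs_mul, abs_div, abs_div, abs_of_pos p'0, abs_of_pos p''0, abs_of_pos r''pos]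
        have j1 : r'' / ρ'' ≤ 1 := by
          rw [div_le_one p''0]
          exact q''
        have j2 : |ρ'' - ρ'| / ρ' ≤ (|r' - r''| + |z' - z''|) / lam := by
          rw [abs_sub_comm]
          exact div_le_div₀ (by positivity) hρρ hl p'
        calc r'' / ρ'' * (|ρ'' - ρ'| / ρ') ≤ 1 * (|ρ'' - ρ'| / ρ') :=
              mul_le_mul_of_nonneg_right j1 (by positivity)
          _ ≤ _ := by rw [one_mul]; exact j2
      calc |(r' - r'') / ρ' + r'' / ρ'' * ((ρ'' - ρ') / ρ')|
          ≤ |(r' - r'') / ρ'| + |r'' / ρ'' * ((ρ'' - ρ') / ρ')| := abs_add_le _ _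
        _ ≤ |r' - r''| / lam + (|r' - r''| + |z' - z''|) / lam := add_le_add i1 i2
        _ ≤ (|r' - r''| + |z' - z''|) / lam + (|r' - r''| + |z' - z''|) / lam := by
          gcongr
          linarith [abs_nonneg (z' - z'')]
        _ = (2 / lam) * (|r' - r''| + |z' - z''|) := by ring
    have hcl : |cl (2 * (r' / ρ') - 1) - cl (2 * (r'' / ρ'') - 1)| ≤
        2 * (2 / lam) * (|r' - r''| + |z' - z''|) := by
      calc |cl (2 * (r' / ρ') - 1) - cl (2 * (r'' / ρ'') - 1)|
          ≤ |2 * (r' / ρ') - 1 - (2 * (r'' / ρ'') - 1)| := k3_cl_lip _ _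
        _ = 2 * |r' / ρ' - r'' / ρ''| := by
          rw [← abs_of_pos (zero_lt_two (α := ℝ)), ← abs_mul, abs_of_pos (zero_lt_two (α := ℝ))]
          congr 1
          ring
        _ ≤ 2 * ((2 / lam) * (|r' - r''| + |z' - z''|)) :=
          mul_le_mul_of_nonneg_left hfrac zero_le_two
        _ = _ := by ring
    have haa : |a ρ' - a ρ''| ≤ K * (|r' - r''| + |z' - z''|) := by
      have := hK ρ' m1 ρ'' m2
      rw [Real.dist_eq, Real.dist_eq] at this
      exact this.trans (mul_le_mul_of_nonneg_left hρρ hKnn)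
    unfold midD
    rw [← hρ', ← hρ'']
    set l' := cl (2 * (r' / ρ') - 1)
    set l'' := cl (2 * (r'' / ρ'') - 1)
    have l'0 : 0 ≤ l' := k3_cl_nonneg _
    have l'1 : l' ≤ 1 := k3_cl_le_one _
    have e5 : (1 - l') * delta φ + l' * delta (φ + a ρ') -
        ((1 - l'') * delta φ + l'' * delta (φ + a ρ'')) =
        -((l' - l'') * delta φ) + ((l' - l'') * delta (φ + a ρ'') +
          l' * (delta (φ + a ρ') - delta (φ + a ρ''))) := by ring
    rw [e5]
    have t1 : |-((l' - l'') * delta φ)| ≤ 2 * (2 / lam) * (|r' - r''| + |z' - z''|) := by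
      rw [abs_neg, abs_mul]
      calc |l' - l''| * |delta φ| ≤ |l' - l''| * 1 :=
            mul_le_mul_of_nonneg_left (delta_abs φ) (abs_nonneg _)
        _ ≤ _ := by rw [mul_one]; exact hcl
    have t2 : |(l' - l'') * delta (φ + a ρ'')| ≤ 2 * (2 / lam) * (|r' - r''| + |z' - z''|) := by
      rw [abs_mul]
      calc |l' - l''| * |delta (φ + a ρ'')| ≤ |l' - l''| * 1 :=
            mul_le_mul_of_nonneg_left (delta_abs _) (abs_nonneg _)
        _ ≤ _ := by rw [mul_one]; exact hcl
    have t3 : |l' * (delta (φ + a ρ') - delta (φ + a ρ''))| ≤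
        2 * (K * (|r' - r''| + |z' - z''|)) := by
      rw [abs_mul, abs_of_nonneg l'0]
      have d := delta_lip (φ + a ρ') (φ + a ρ'')
      have e6 : φ + a ρ' - (φ + a ρ'') = a ρ' - a ρ'' := by ring
      rw [e6] at d
      calc l' * |delta (φ + a ρ') - delta (φ + a ρ'')| ≤ 1 * (2 * |a ρ' - a ρ''|) :=
            mul_le_mul l'1 d (abs_nonneg _) zero_le_one
        _ ≤ _ := by
          rw [one_mul]
          exact mul_le_mul_of_nonneg_left haa zero_le_two
    calc _ ≤ |-((l' - l'') * delta φ)| + |(l' - l'') * delta (φ + a ρ'') +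
          l' * (delta (φ + a ρ') - delta (φ + a ρ''))| := abs_add_le _ _
      _ ≤ |-((l' - l'') * delta φ)| + (|(l' - l'') * delta (φ + a ρ'')| +
          |l' * (delta (φ + a ρ') - delta (φ + a ρ''))|) := by
        gcongr
        exact abs_add_le _ _
      _ ≤ 2 * (2 / lam) * (|r' - r''| + |z' - z''|) + (2 * (2 / lam) * (|r' - r''| + |z' - z''|) +
          2 * (K * (|r' - r''| + |z' - z''|))) := by
        gcongr
      _ = _ := by ring

theorem ring_smul {D : ℝ → ℝ} (hD : Circ D) {c : ℝ} (hc : 0 ≤ c) (w : E2) :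
    ring D (c • w) = c • ring D w := by
  have h1 : c • w = pol (c * ‖w‖) (ang w) := by
    rw [pol_smul, pol_ang]
  have h2 : 0 ≤ c * ‖w‖ := mul_nonneg hc (norm_nonneg _)
  rw [h1, ring_pol hD h2, pol_smul]
  have h3 : ring D w = pol ‖w‖ (-3 * ang w + D (ang w)) := rfl
  rw [h3]

theorem midF_good {lam : ℝ} (hl : 0 < lam) : Good (midF lam) := by
  have hc : ∀ z z', |2 * (tau lam z)⁻¹ - 2 * (tau lam z')⁻¹| ≤
      (2 * (lam * lam)⁻¹) * |z - z'| := by
    intro z z'
    rw [← mul_sub, abs_mul, abs_of_pos (zero_lt_two (α := ℝ)), mul_assoc]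
    exact mul_le_mul_of_nonneg_left (tau_inv_lip hl z z') zero_le_two
  have hd : ∀ z z', |tau lam z / 2 - tau lam z' / 2| ≤ 1 * |z - z'| := by
    intro z z'
    have := tau_lip lam z z'
    rw [← sub_div, abs_div, abs_of_pos (zero_lt_two (α := ℝ)), one_mul]
    have h0 := abs_nonneg (tau lam z - tau lam z')
    linarith
  have hcd : ∀ z, 2 * (tau lam z)⁻¹ * (tau lam z / 2) = 1 := by
    intro z
    have : 0 < tau lam z := lt_of_lt_of_le hl (tau_ge lam z)
    field_simp
  have g1 := scal_good hc hd hcd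
  have g2 := scal_good hd hc (fun z => by rw [mul_comm]; exact hcd z)
  have g3 := kin_good.prod_id
  have g4 := (g2.comp g3).comp g1
  have g5 := Good.conj g4 (X := E3) (e := fun X : E3 => ((X.1, X.2.1), X.2.2))
    (e' := fun p : E2 × ℝ => asm p.1 p.2)
    (by
      intro p q
      rw [dist_eq_norm, dist_eq_norm]
      have e1 : (((p.1, p.2.1), p.2.2) : E2 × ℝ) - ((q.1, q.2.1), q.2.2) =
        (((p - q).1, (p - q).2.1), (p - q).2.2) := rfl
      rw [e1]
      apply le_of_eq
      simp only [Prod.norm_def]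
      rw [max_assoc])
    (by
      intro p q
      rw [dist_eq_norm, dist_eq_norm]
      have e1 : asm p.1 p.2 - asm q.1 q.2 = asm (p - q).1 (p - q).2 := rfl
      rw [e1, norm_asm, Prod.norm_def]
      exact le_of_eq rfl)
    (fun _ => rfl) (fun _ => rfl)
  exact g5

theorem midA_closed (lam : ℝ) : IsClosed (midA lam) := by
  unfold midA
  apply isClosed_le
  · fun_prop
  · unfold tau
    fun_prop

theorem mid_good {lam : ℝ} (hl : 0 < lam) {a : ℝ → ℝ} (ha : ∀ r, ∃ K, LipAt K a r) :
    Good (pat (midA lam) (midF lam) (ring3 (midD lam a))) := by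
  have hRD := midD_RD hl ha
  have hF := midF_good hl
  apply Good.patch (midA_closed lam) (B := midA lam)
  · intro x _
    exact ⟨hF.opn x, hF.lip x⟩
  · intro x hx
    apply ring3_at hRD
    have h1 : closure (midA lam)ᶜ ⊆ {X : E3 | lam / 2 ≤ ‖((X.1, X.2.1) : E2)‖} := by
      apply closure_minimal
      · intro X hX
        simp only [midA, mem_compl_iff, mem_ofPred_eq, not_le] at hX
        have := tau_ge lam X.2.2
        simp only [mem_ofPred_eq]
        linarith
      · apply isClosed_le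
        · fun_prop
        · fun_prop
    have h2 := h1 hx
    simp only [mem_ofPred_eq] at h2
    intro h3
    rw [h3, norm_zero] at h2
    linarith
  · intro y
    exact (hF.fin y).subset (fun x hx => hx.2)
  · intro y
    exact (ring3_fin hRD y).subset (fun x hx => hx.2)
  · intro X hX
    have ht : 0 < tau lam X.2.2 := lt_of_lt_of_le hl (tau_ge lam _)
    by_contra hcon
    have hcon' : tau lam X.2.2 / 2 < ‖((X.1, X.2.1) : E2)‖ := not_le.mp hcon
    have hn : ‖(2 * (tau lam X.2.2)⁻¹) • ((X.1, X.2.1) : E2)‖ =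
        (2 * (tau lam X.2.2)⁻¹) * ‖((X.1, X.2.1) : E2)‖ := by
      rw [norm_smul, Real.norm_eq_abs, abs_of_pos (by positivity)]
    have h1 : 1 ≤ ‖(2 * (tau lam X.2.2)⁻¹) • ((X.1, X.2.1) : E2)‖ := by
      rw [hn]
      have h5 : (2 * (tau lam X.2.2)⁻¹) * (tau lam X.2.2 / 2) ≤
          (2 * (tau lam X.2.2)⁻¹) * ‖((X.1, X.2.1) : E2)‖ :=
        mul_le_mul_of_nonneg_left hcon'.le (by positivity)
      have h6 : (2 * (tau lam X.2.2)⁻¹) * (tau lam X.2.2 / 2) = 1 := by field_simp
      linarith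
    have hX' : ‖(tau lam X.2.2 / 2) • kin ((2 * (tau lam X.2.2)⁻¹) • ((X.1, X.2.1) : E2))‖ ≤
        tau lam X.2.2 / 2 := hX
    rw [kin_outside h1, norm_smul, norm_QQ, hn, Real.norm_eq_abs, abs_of_pos (by positivity)] at hX'
    have h7 : tau lam X.2.2 / 2 * (2 * (tau lam X.2.2)⁻¹ * ‖((X.1, X.2.1) : E2)‖) =
        ‖((X.1, X.2.1) : E2)‖ := by field_simp
    rw [h7] at hX'
    linarith
  · intro X hX
    change ‖ring _ ((X.1, X.2.1) : E2)‖ ≤ tau lam X.2.2 / 2
    rw [norm_ring]
    exact hX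
  · intro X hX
    have ht : 0 < tau lam X.2.2 := lt_of_lt_of_le hl (tau_ge lam _)
    have h1 : ‖((X.1, X.2.1) : E2)‖ = tau lam X.2.2 / 2 := by
      have hsub : frontier (midA lam) ⊆
          {X : E3 | ‖((X.1, X.2.1) : E2)‖ = tau lam X.2.2 / 2} := by
        unfold midA
        apply frontier_le_subset_eq
        · fun_prop
        · unfold tau
          fun_prop
      exact hsub hX
    have hn : ‖(2 * (tau lam X.2.2)⁻¹) • ((X.1, X.2.1) : E2)‖ = 1 := by
      rw [norm_smul, Real.norm_eq_abs, abs_of_pos (by positivity), h1]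
      field_simp
    have h2 : midF lam X = asm (QQ (X.1, X.2.1)) X.2.2 := by
      unfold midF
      rw [kin_outside hn.ge, QQ_smul (by positivity), smul_smul]
      have h6 : (tau lam X.2.2 / 2) * (2 * (tau lam X.2.2)⁻¹) = 1 := by field_simp
      rw [h6, one_smul]
    have h3 : midD lam a ‖((X.1, X.2.1) : E2)‖ X.2.2 = delta := by
      funext φ
      unfold midD
      have h4 : max ‖((X.1, X.2.1) : E2)‖ (tau lam X.2.2) = tau lam X.2.2 := by
        apply max_eq_right
        rw [h1]
        linarith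
      rw [h4, h1]
      have h5 : 2 * (tau lam X.2.2 / 2 / tau lam X.2.2) - 1 = 0 := by
        field_simp
        ring
      rw [h5]
      have h6 : cl 0 = 0 := by
        unfold cl
        simp
      rw [h6]
      ring
    rw [h2]
    unfold ring3
    rw [h3]
    rfl

theorem mid_rho {lam : ℝ} (hl : 0 < lam) (a : ℝ → ℝ) (X : E3) :
    rho lam (pat (midA lam) (midF lam) (ring3 (midD lam a)) X) = rho lam X := by
  by_cases hX : X ∈ midA lam
  · rw [pat_eqOn_left hX]
    have ht : 0 < tau lam X.2.2 := lt_of_lt_of_le hl (tau_ge lam _)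
    have h0 : ‖((X.1, X.2.1) : E2)‖ ≤ tau lam X.2.2 / 2 := hX
    have h1 : rho lam X = tau lam X.2.2 := by
      rw [← asm_eta X, rho_asm]
      apply max_eq_right
      change _ ≤ tau lam X.2.2
      linarith
    rw [h1]
    unfold midF
    rw [rho_asm]
    apply max_eq_right
    have hn : ‖(2 * (tau lam X.2.2)⁻¹) • ((X.1, X.2.1) : E2)‖ ≤ 1 := by
      rw [norm_smul, Real.norm_eq_abs, abs_of_pos (by positivity)]
      calc 2 * (tau lam X.2.2)⁻¹ * ‖((X.1, X.2.1) : E2)‖ ≤
          2 * (tau lam X.2.2)⁻¹ * (tau lam X.2.2 / 2) :=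
            mul_le_mul_of_nonneg_left h0 (by positivity)
        _ = 1 := by field_simp
    have hk : ‖kin ((2 * (tau lam X.2.2)⁻¹) • ((X.1, X.2.1) : E2))‖ ≤ 1 := by
      rcases lt_or_eq_of_le hn with h | h
      · exact (kin_inside h).le
      · rw [kin_outside h.ge, norm_QQ, h]
    rw [norm_smul, Real.norm_eq_abs, abs_of_pos (by positivity)]
    nlinarith
  · rw [pat_eqOn_right hX]
    have h2 : ring3 (midD lam a) X =
        asm (ring (midD lam a ‖((X.1, X.2.1) : E2)‖ X.2.2) (X.1, X.2.1)) X.2.2 := rfl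
    rw [h2, rho_asm, norm_ring]
    conv_rhs => rw [← asm_eta X, rho_asm]

/-- the middle map is the scaled planar map -/
theorem mid_eq {lam : ℝ} (hl : 0 < lam) {a : ℝ → ℝ} (ha : ∀ r, ∃ K, LipAt K a r) (w : E2) (z : ℝ) :
    pat (midA lam) (midF lam) (ring3 (midD lam a)) (asm w z) =
      asm (rho lam (asm w z) • kt (a (rho lam (asm w z))) ((rho lam (asm w z))⁻¹ • w)) z := by
  have ht : 0 < tau lam z := lt_of_lt_of_le hl (tau_ge lam _)
  have hρ : 0 < rho lam (asm w z) := lt_of_lt_of_le hl (le_max_right _ _)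
  have hn : ‖(rho lam (asm w z))⁻¹ • w‖ = (rho lam (asm w z))⁻¹ * ‖w‖ := by
    rw [norm_smul, Real.norm_eq_abs, abs_of_pos (inv_pos.mpr hρ)]
  by_cases hX : asm w z ∈ midA lam
  · rw [pat_eqOn_left hX]
    have h0 : ‖w‖ ≤ tau lam z / 2 := hX
    have h1 : rho lam (asm w z) = tau lam z := by
      rw [rho_asm]
      apply max_eq_right
      linarith
    rw [h1] at hn ⊢
    unfold kt
    rw [if_pos]
    · change asm ((tau lam z / 2) • kin ((2 * (tau lam z)⁻¹) • w)) z = _
      rw [smul_smul, smul_smul]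
      congr 2
      ring
    · rw [hn, inv_mul_le_iff₀ ht]
      linarith
  · rw [pat_eqOn_right hX]
    have h0 : tau lam z / 2 < ‖w‖ := by
      have : ¬ ‖w‖ ≤ tau lam z / 2 := hX
      linarith
    have h1 : ¬ ‖(rho lam (asm w z))⁻¹ • w‖ ≤ 1 / 2 := by
      rw [hn, not_le, lt_inv_mul_iff₀ hρ, rho_asm]
      rcases max_choice ‖w‖ (tau lam z) with h | h
      · rw [h]
        have : 0 < ‖w‖ := lt_trans (by positivity) h0
        linarith
      · rw [h]
        linarith
    unfold kt
    rw [if_neg h1]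
    have hm : max ‖w‖ (tau lam z) = rho lam (asm w z) := (rho_asm lam w z).symm
    have hD : (fun φ => (1 - cl (2 * ‖(rho lam (asm w z))⁻¹ • w‖ - 1)) * delta φ +
        cl (2 * ‖(rho lam (asm w z))⁻¹ • w‖ - 1) * delta (φ + a (rho lam (asm w z)))) =
        midD lam a ‖w‖ z := by
      funext φ
      unfold midD
      rw [hn, hm]
      have e : (rho lam (asm w z))⁻¹ * ‖w‖ = ‖w‖ / rho lam (asm w z) := by
        rw [div_eq_mul_inv, mul_comm]
      rw [e]
    rw [hD, ring_smul ((midD_RD hl ha).circ _ _) (inv_pos.mpr hρ).le, smul_smul,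
      mul_inv_cancel₀ hρ.ne', one_smul]
    rfl

theorem K3_eq {lam : ℝ} (hl : 0 < lam) {a : ℝ → ℝ} (ha : ∀ r, ∃ K, LipAt K a r) :
    K3 lam a = RR lam (fun r => -3 * a r) ∘
      (pat (midA lam) (midF lam) (ring3 (midD lam a)) ∘ RR lam (fun r => -a r)) := by
  funext X
  obtain ⟨w, z, rfl⟩ : ∃ w z, X = asm w z := ⟨(X.1, X.2.1), X.2.2, rfl⟩
  have hρ : 0 < rho lam (asm w z) := lt_of_lt_of_le hl (le_max_right _ _)
  have h1 : RR lam (fun r => -a r) (asm w z) = asm (rot (-a (rho lam (asm w z))) w) z := rfl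
  have h2 : rho lam (asm (rot (-a (rho lam (asm w z))) w) z) = rho lam (asm w z) := by
    rw [rho_asm, norm_rot, rho_asm]
  have h3 : pat (midA lam) (midF lam) (ring3 (midD lam a)) (RR lam (fun r => -a r) (asm w z)) =
      asm (rho lam (asm w z) • kt (a (rho lam (asm w z))) ((rho lam (asm w z))⁻¹ •
        rot (-a (rho lam (asm w z))) w)) z := by
    rw [h1, mid_eq hl ha, h2]
  have h4 : rho lam (pat (midA lam) (midF lam) (ring3 (midD lam a))
      (RR lam (fun r => -a r) (asm w z))) = rho lam (asm w z) := by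
    rw [mid_rho hl, h1, h2]
  change _ = RR lam (fun r => -3 * a r) (pat (midA lam) (midF lam) (ring3 (midD lam a))
      (RR lam (fun r => -a r) (asm w z)))
  have h5 : ∀ Y : E3, RR lam (fun r => -3 * a r) Y =
      asm (rot (-3 * a (rho lam Y)) (Y.1, Y.2.1)) Y.2.2 := fun _ => rfl
  rw [h5, h4, h3, K3_asm]
  unfold ka
  change _ = asm (rot (-3 * a (rho lam (asm w z)))
    (rho lam (asm w z) • kt (a (rho lam (asm w z))) ((rho lam (asm w z))⁻¹ •
        rot (-a (rho lam (asm w z))) w))) z
  rw [rot_smul _ hρ.le, rot_smul _ (inv_pos.mpr hρ).le]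

theorem K3_good {lam : ℝ} (hl : 0 < lam) {a : ℝ → ℝ} (ha : ∀ r, ∃ K, LipAt K a r) :
    Good (K3 lam a) := by
  rw [K3_eq hl ha]
  have ha1 : ∀ r, ∃ K, LipAt K (fun r => -a r) r := by
    intro r
    obtain ⟨K, U, hU, hK⟩ := ha r
    refine ⟨K, U, hU, fun x hx y hy => ?_⟩
    rw [dist_neg_neg]
    exact hK x hx y hy
  have ha3 : ∀ r, ∃ K, LipAt K (fun r => -3 * a r) r := by
    intro r
    obtain ⟨K, U, hU, hK⟩ := ha r
    refine ⟨3 * K, U, hU, fun x hx y hy => ?_⟩
    have := hK x hx y hy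
    rw [Real.dist_eq] at this ⊢
    have e : -3 * a x - -3 * a y = -3 * (a x - a y) := by ring
    rw [e, abs_mul]
    norm_num
    linarith
  exact (RR_good lam ha3).comp ((mid_good hl ha).comp (RR_good lam ha1))

end Pool.Agent.JAC
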