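import Pool.Agent.Lib.MP_3b5712_an.Kin

set_option autoImplicit false

open Filter Topology Set Real

namespace Pool.Agent.JAC

/-! TASK F1: the planar family `ka` -/

namespace Kaux

theorem cl_nonneg (x : ℝ) : 0 ≤ cl x := le_max_left _ _

theorem cl_le_one (x : ℝ) : cl x ≤ 1 := max_le zero_le_one (min_le_left _ _)

theorem cl_of_nonpos {x : ℝ} (h : x ≤ 0) : cl x = 0 := by
  unfold cl
  exact max_eq_left ((min_le_right _ _).trans h)

theorem cl_of_one_le {x : ℝ} (h : 1 ≤ x) : cl x = 1 := by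
  unfold cl
  rw [min_eq_left h]
  exact max_eq_right zero_le_one

theorem cl_lip (x y : ℝ) : |cl x - cl y| ≤ |x - y| := by
  have h1 : |cl x - cl y| ≤ |min 1 x - min 1 y| := by
    unfold cl
    refine (abs_max_sub_max_le_max 0 (min 1 x) 0 (min 1 y)).trans ?_
    simp
  have h2 : |min 1 x - min 1 y| ≤ |x - y| := by
    refine (abs_min_sub_min_le_max 1 x 1 y).trans ?_
    simp
  exact h1.trans h2

theorem delta_abs (x : ℝ) : |delta x| ≤ 1 := by
  unfold delta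
  have h0 : 0 ≤ ‖((4 * x + Real.pi / 2 : ℝ) : AddCircle (2 * Real.pi))‖ := norm_nonneg _
  have h1 : ‖((4 * x + Real.pi / 2 : ℝ) : AddCircle (2 * Real.pi))‖ ≤ |2 * Real.pi| / 2 :=
    AddCircle.norm_le_half_period (2 * Real.pi) (by positivity)
  rw [abs_of_pos (by positivity : (0:ℝ) < 2 * Real.pi)] at h1
  have hpi := Real.pi_le_four
  rw [abs_le]
  constructor <;> linarith

/-- the angular perturbation -/
noncomputable def DD (a l : ℝ) (φ : ℝ) : ℝ := (1 - l) * delta φ + l * delta (φ + a)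

theorem circ_DD (a : ℝ) {l : ℝ} (h0 : 0 ≤ l) (h1 : l ≤ 1) : Circ (DD a l) where
  per φ := by
    unfold DD
    have e1 : delta (φ + 2 * π) = delta φ := circ_delta.per φ
    have e2 : delta (φ + 2 * π + a) = delta (φ + a) := by
      rw [show φ + 2 * π + a = (φ + a) + 2 * π by ring]
      exact circ_delta.per _
    rw [e1, e2]
  lip x y := by
    unfold DD
    have e1 := delta_lip x y
    have e2 := delta_lip (x + a) (y + a)
    rw [show x + a - (y + a) = x - y by ring] at e2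
    have e3 : (1 - l) * delta x + l * delta (x + a) - ((1 - l) * delta y + l * delta (y + a))
        = (1 - l) * (delta x - delta y) + l * (delta (x + a) - delta (y + a)) := by ring
    rw [e3]
    refine (abs_add_le _ _).trans ?_
    rw [abs_mul, abs_mul, abs_of_nonneg h0, abs_of_nonneg (by linarith : 0 ≤ 1 - l)]
    have e4 := mul_le_mul_of_nonneg_left e1 (by linarith : 0 ≤ 1 - l)
    have e5 := mul_le_mul_of_nonneg_left e2 h0
    linarith

theorem DD_diff (a a' l l' φ : ℝ) (h0 : 0 ≤ l') (h1 : l' ≤ 1) :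
    |DD a l φ - DD a' l' φ| ≤ 2 * |l - l'| + 2 * |a - a'| := by
  unfold DD
  have e1 := delta_lip (φ + a) (φ + a')
  rw [show φ + a - (φ + a') = a - a' by ring] at e1
  have e3 : (1 - l) * delta φ + l * delta (φ + a) - ((1 - l') * delta φ + l' * delta (φ + a'))
        = (l - l') * (delta (φ + a) - delta φ) + l' * (delta (φ + a) - delta (φ + a')) := by ring
  rw [e3]
  refine (abs_add_le _ _).trans ?_
  rw [abs_mul, abs_mul, abs_of_nonneg h0]
  have e4 : |delta (φ + a) - delta φ| ≤ 2 := by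
    have := delta_abs (φ + a)
    have := delta_abs φ
    rw [abs_le] at *
    constructor <;> linarith
  have e5 : |l - l'| * |delta (φ + a) - delta φ| ≤ |l - l'| * 2 :=
    mul_le_mul_of_nonneg_left e4 (abs_nonneg _)
  have e6 : l' * |delta (φ + a) - delta (φ + a')| ≤ 1 * (2 * |a - a'|) :=
    mul_le_mul h1 e1 (abs_nonneg _) zero_le_one
  linarith

/-- the outer formula -/
noncomputable def ktr (a : ℝ) (w : E2) : E2 := ring (DD a (cl (2 * ‖w‖ - 1))) w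

theorem kt_eq (a : ℝ) (w : E2) :
    kt a w = if ‖w‖ ≤ 1 / 2 then (1 / 2 : ℝ) • kin ((2 : ℝ) • w) else ktr a w := rfl

theorem DD_zero (a : ℝ) : DD a 0 = delta := by
  funext φ
  simp [DD]

theorem ktr_half {a : ℝ} {w : E2} (h : ‖w‖ ≤ 1 / 2) : ktr a w = QQ w := by
  unfold ktr
  rw [cl_of_nonpos (by linarith), DD_zero]
  rfl

theorem kt_outer {a : ℝ} {w : E2} (h : 1 / 2 ≤ ‖w‖) : kt a w = ktr a w := by
  rw [kt_eq]
  split_ifs with h'
  · have h2 : ‖(2 : ℝ) • w‖ = 2 * ‖w‖ := by rw [norm_smul]; simp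
    rw [ktr_half h', kin_outside (by rw [h2]; linarith), QQ_smul (by norm_num : (0:ℝ) ≤ 2),
      smul_smul]
    norm_num
  · rfl

theorem kt_inner {a : ℝ} {w : E2} (h : ‖w‖ ≤ 1 / 2) : kt a w = (1 / 2 : ℝ) • kin ((2 : ℝ) • w) := by
  rw [kt_eq, if_pos h]

theorem norm_two (w : E2) : ‖(2 : ℝ) • w‖ = 2 * ‖w‖ := by rw [norm_smul]; simp

theorem ktr_norm (a : ℝ) (w : E2) : ‖ktr a w‖ = ‖w‖ := norm_ring _ _

theorem kt_norm_lt {a : ℝ} {w : E2} (h : ‖w‖ < 1) : ‖kt a w‖ < 1 := by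
  rcases le_or_gt (1 / 2) ‖w‖ with h1 | h1
  · rw [kt_outer h1, ktr_norm]
    exact h
  · rw [kt_inner h1.le, norm_smul]
    have h2 : ‖(2 : ℝ) • w‖ < 1 := by rw [norm_two]; linarith
    have h3 := kin_inside h2
    have h4 : ‖(1 / 2 : ℝ)‖ = 1 / 2 := by norm_num
    rw [h4]
    linarith

theorem kt_norm_le {a : ℝ} {w : E2} (h : ‖w‖ ≤ 1) : ‖kt a w‖ ≤ 1 := by
  rcases lt_or_eq_of_le h with h1 | h1
  · exact (kt_norm_lt h1).le
  · rw [kt_outer (by rw [h1]; norm_num), ktr_norm, h1]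

theorem ktr_lip (a a' : ℝ) {w w' : E2} (hw : ‖w‖ ≤ 1) :
    ‖ktr a w - ktr a' w'‖ ≤ 177 * ‖w - w'‖ + 8 * |a - a'| := by
  have hl0 := cl_nonneg (2 * ‖w‖ - 1)
  have hl1 := cl_le_one (2 * ‖w‖ - 1)
  have hl0' := cl_nonneg (2 * ‖w'‖ - 1)
  have hl1' := cl_le_one (2 * ‖w'‖ - 1)
  have h1 := ring_lip (circ_DD a hl0 hl1) (circ_DD a' hl0' hl1')
    (fun φ => DD_diff a a' _ _ φ hl0' hl1') w w'
  have h2 : |cl (2 * ‖w‖ - 1) - cl (2 * ‖w'‖ - 1)| ≤ 2 * ‖w - w'‖ := by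
    refine (cl_lip _ _).trans ?_
    rw [show 2 * ‖w‖ - 1 - (2 * ‖w'‖ - 1) = 2 * (‖w‖ - ‖w'‖) by ring, abs_mul,
      abs_of_pos (by norm_num : (0:ℝ) < 2)]
    have := abs_norm_sub_norm_le w w'
    linarith
  have h3 : min ‖w‖ ‖w'‖ ≤ 1 := (min_le_left _ _).trans hw
  have h3' : 0 ≤ min ‖w‖ ‖w'‖ := le_min (norm_nonneg _) (norm_nonneg _)
  have h4 : 0 ≤ 2 * |cl (2 * ‖w‖ - 1) - cl (2 * ‖w'‖ - 1)| + 2 * |a - a'| := by positivity
  have h5 : 4 * min ‖w‖ ‖w'‖ * (2 * |cl (2 * ‖w‖ - 1) - cl (2 * ‖w'‖ - 1)| + 2 * |a - a'|)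
      ≤ 4 * 1 * (2 * |cl (2 * ‖w‖ - 1) - cl (2 * ‖w'‖ - 1)| + 2 * |a - a'|) := by
    gcongr
  unfold ktr
  linarith

theorem kt_lip_aux {C : ℝ} (hC : ∀ w w', ‖kin w - kin w'‖ ≤ C * ‖w - w'‖)
    (hC1 : 1 ≤ C) (a a' : ℝ) {w w' : E2} (hw : ‖w‖ ≤ 1 / 2) (hw' : ‖w'‖ ≤ 1) :
    ‖kt a w - kt a' w'‖ ≤ (2 * C + 177) * ‖w - w'‖ + 8 * |a - a'| := by
  have hin : ∀ (b b' : ℝ) {v v' : E2}, ‖v‖ ≤ 1 / 2 → ‖v'‖ ≤ 1 / 2 →
      ‖kt b v - kt b' v'‖ ≤ C * ‖v - v'‖ := by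
    intro b b' v v' hv hv'
    rw [kt_inner hv, kt_inner hv', ← smul_sub, norm_smul]
    have h1 := hC ((2 : ℝ) • v) ((2 : ℝ) • v')
    rw [← smul_sub, norm_two] at h1
    have h4 : ‖(1 / 2 : ℝ)‖ = 1 / 2 := by norm_num
    rw [h4]
    linarith
  have hd : 0 ≤ ‖w - w'‖ := norm_nonneg _
  have ha : 0 ≤ |a - a'| := abs_nonneg _
  rcases le_or_gt ‖w'‖ (1 / 2) with h1 | h1
  · have := hin a a' hw h1
    nlinarith
  · -- intermediate point
    have hpos : 0 < ‖w'‖ := by linarith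
    set c : ℝ := 1 / (2 * ‖w'‖) with hc
    have hc0 : 0 < c := by positivity
    have hcw : c * ‖w'‖ = 1 / 2 := by
      rw [hc]; field_simp
    have hc1 : c ≤ 1 := by
      rw [hc, div_le_one (by positivity)]
      linarith
    have hv : ‖c • w'‖ = 1 / 2 := by
      rw [norm_smul, Real.norm_of_nonneg hc0.le, hcw]
    have hd1 : ‖c • w' - w'‖ = ‖w'‖ - 1 / 2 := by
      have : c • w' - w' = (c - 1) • w' := by rw [sub_smul, one_smul]
      rw [this, norm_smul, Real.norm_of_nonpos (by linarith)]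
      linarith [hcw]
    have hd2 : ‖w'‖ - 1 / 2 ≤ ‖w - w'‖ := by
      have h3 := abs_norm_sub_norm_le w w'
      have h4 := neg_abs_le (‖w‖ - ‖w'‖)
      linarith
    have hd3 : ‖w - c • w'‖ ≤ 2 * ‖w - w'‖ := by
      have h3 : ‖w - c • w'‖ ≤ ‖w - w'‖ + ‖w' - c • w'‖ := by
        have := norm_sub_le_norm_sub_add_norm_sub w w' (c • w')
        exact this
      rw [norm_sub_rev w' (c • w')] at h3
      linarith
    have e1 := hin a a hw hv.le
    have e2 : ‖kt a (c • w') - kt a' w'‖ ≤ 177 * ‖c • w' - w'‖ + 8 * |a - a'| := by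
      rw [kt_outer hv.ge, kt_outer h1.le]
      exact ktr_lip a a' (by rw [hv]; norm_num)
    have e3 : ‖kt a w - kt a' w'‖ ≤ ‖kt a w - kt a (c • w')‖ + ‖kt a (c • w') - kt a' w'‖ :=
      norm_sub_le_norm_sub_add_norm_sub _ _ _
    have e4 : C * ‖w - c • w'‖ ≤ C * (2 * ‖w - w'‖) := by gcongr
    nlinarith

theorem kt_lip : ∃ C : ℝ, 1 ≤ C ∧ ∀ a a' w w', ‖w‖ ≤ 1 → ‖w'‖ ≤ 1 →
    ‖kt a w - kt a' w'‖ ≤ C * ‖w - w'‖ + 8 * |a - a'| := by
  obtain ⟨C, hC1, hC⟩ := kin_lip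
  refine ⟨2 * C + 177, by linarith, ?_⟩
  intro a a' w w' hw hw'
  rcases le_or_gt ‖w‖ (1 / 2) with h1 | h1
  · exact kt_lip_aux hC hC1 a a' h1 hw'
  · rcases le_or_gt ‖w'‖ (1 / 2) with h2 | h2
    · have := kt_lip_aux hC hC1 a' a h2 hw
      rw [norm_sub_rev, norm_sub_rev w w', abs_sub_comm a a']
      exact this
    · rw [kt_outer h1.le, kt_outer h2.le]
      have h3 := ktr_lip a a' (w := w) (w' := w') hw
      have hd : 0 ≤ ‖w - w'‖ := norm_nonneg _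
      nlinarith

theorem rot_two_pi (t : ℝ) (w : E2) : rot (t - 2 * π) w = rot t w := by
  unfold rot
  have := pol_add_int ‖w‖ (ang w + t) (-1)
  rw [← this]
  congr 1
  push_cast
  ring

theorem kt_half_eq (v : E2) : kt (π / 2) v = kt 0 v := by
  rw [kt_eq, kt_eq]
  have : ktr (π / 2) v = ktr 0 v := by
    unfold ktr
    congr 1
    funext φ
    unfold DD
    rw [delta_half, add_zero]
  rw [this]

theorem kt_band {a : ℝ} {v : E2} (h1 : ‖v‖ ≤ 1 / 2) (h2 : |v.2| ≤ 1 / 8) :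
    kt a v = (v.1, -v.2) := by
  rw [kt_inner h1, kin_band]
  · ext <;> simp
  · simp only [Prod.smul_snd, smul_eq_mul, abs_mul]
    rw [abs_of_pos (by norm_num : (0:ℝ) < 2)]
    linarith

end Kaux

open Kaux

theorem ka_out {a : ℝ} {w : E2} (h : 1 ≤ ‖w‖) : ka a w = QQ w := by
  unfold ka
  have hn : ‖rot (-a) w‖ = ‖w‖ := norm_rot _ _
  rw [kt_outer (by rw [hn]; linarith)]
  unfold ktr
  rw [hn, cl_of_one_le (by linarith)]
  have hr : 0 ≤ ‖w‖ := norm_nonneg _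
  have e1 : rot (-a) w = pol ‖w‖ (ang w + -a) := rfl
  rw [e1, ring_pol (circ_DD a zero_le_one le_rfl) hr, rot_pol _ _ hr]
  unfold QQ ring DD
  congr 1
  rw [show ang w + -a + a = ang w by ring]
  ring

theorem ka_norm_lt {a : ℝ} {w : E2} (h : ‖w‖ < 1) : ‖ka a w‖ < 1 := by
  unfold ka
  rw [norm_rot]
  exact kt_norm_lt (by rw [norm_rot]; exact h)

theorem ka_zero (w : E2) : ka 0 w = kt 0 w := by
  unfold ka
  rw [show (-3 * 0 : ℝ) = 0 by ring, neg_zero, rot_zero, rot_zero]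

theorem ka_band {w : E2} (h1 : ‖w‖ ≤ 1) (h2 : |w.2| ≤ 1 / 8) : ka 0 w = (w.1, -w.2) := by
  rw [ka_zero]
  rcases le_or_gt ‖w‖ (1 / 2) with h | h
  · exact kt_band h h2
  · rw [kt_outer h.le]
    unfold ktr
    have e1 : DD 0 (cl (2 * ‖w‖ - 1)) = delta := by
      funext φ
      unfold DD
      rw [add_zero]
      ring
    rw [e1]
    have e2 : ‖w‖ = max |w.1| |w.2| := by rw [Prod.norm_def]; simp
    have e3 : 1 / 2 < |w.1| := by
      rw [e2] at h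
      rcases lt_max_iff.mp h with h3 | h3
      · exact h3
      · linarith
    exact QQ_x (by linarith)

theorem ka_half (w : E2) : ka (π / 2) w = rot (π / 2) (ka 0 (rot (-(π / 2)) w)) := by
  rw [ka_zero, ← kt_half_eq]
  unfold ka
  rw [← rot_two_pi (π / 2)]
  congr 1
  ring

theorem ka_band' {w : E2} (h1 : ‖w‖ ≤ 1) (h2 : |w.1| ≤ 1 / 8) :
    ka (π / 2) w = (-w.1, w.2) := by
  rw [ka_half, ka_band (by rw [norm_rot]; exact h1), rot_half, rot_neg_half]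
  · simp
  · rw [rot_neg_half]
    simpa using h2

theorem ka_center {a : ℝ} {w : E2} (h : ‖w‖ ≤ 1 / 8) : ka a w = refl (-2 * a) w := by
  unfold ka
  have hn : ‖rot (-a) w‖ = ‖w‖ := norm_rot _ _
  have h2 : |(rot (-a) w).2| ≤ ‖rot (-a) w‖ := by
    have : ‖(rot (-a) w).2‖ ≤ ‖rot (-a) w‖ := norm_snd_le _
    simpa using this
  rw [kt_band (by rw [hn]; linarith) (by linarith), ← refl_zero, refl_rot, rot_refl]
  congr 1
  ring

theorem ka_lip : ∃ C : ℝ, 1 ≤ C ∧ ∀ a a' w w', ‖w‖ ≤ 1 → ‖w'‖ ≤ 1 →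
    ‖ka a w - ka a' w'‖ ≤ C * (‖w - w'‖ + |a - a'|) := by
  obtain ⟨C, hC1, hC⟩ := kt_lip
  refine ⟨33 * (33 * C + 4 * C + 8) + 12, by linarith, ?_⟩
  intro a a' w w' hw hw'
  unfold ka
  have hn : ‖rot (-a) w‖ ≤ 1 := by rw [norm_rot]; exact hw
  have hn' : ‖rot (-a') w'‖ ≤ 1 := by rw [norm_rot]; exact hw'
  have e1 := rot_lip (-3 * a) (-3 * a') (kt a (rot (-a) w)) (kt a' (rot (-a') w'))
  have e2 := hC a a' _ _ hn hn'
  have e3 := rot_lip (-a) (-a') w w'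
  have m1 : min ‖kt a (rot (-a) w)‖ ‖kt a' (rot (-a') w')‖ ≤ 1 :=
    (min_le_left _ _).trans (kt_norm_le hn)
  have m2 : min ‖w‖ ‖w'‖ ≤ 1 := (min_le_left _ _).trans hw
  have a1 : |(-3 * a) - (-3 * a')| = 3 * |a - a'| := by
    rw [show (-3 * a) - (-3 * a') = (-3) * (a - a') by ring, abs_mul]
    norm_num
  have a2 : |(-a) - (-a')| = |a - a'| := by
    rw [show (-a) - (-a') = -(a - a') by ring, abs_neg]
  rw [a1] at e1
  rw [a2] at e3
  have hd : 0 ≤ ‖w - w'‖ := norm_nonneg _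
  have ha : 0 ≤ |a - a'| := abs_nonneg _
  have f1 : 4 * min ‖kt a (rot (-a) w)‖ ‖kt a' (rot (-a') w')‖ * (3 * |a - a'|)
      ≤ 4 * 1 * (3 * |a - a'|) := by gcongr
  have f2 : 4 * min ‖w‖ ‖w'‖ * |a - a'| ≤ 4 * 1 * |a - a'| := by gcongr
  have f3 : C * ‖rot (-a) w - rot (-a') w'‖ ≤ C * (33 * ‖w - w'‖ + 4 * |a - a'|) := by
    apply mul_le_mul_of_nonneg_left _ (by linarith)
    linarith
  nlinarith [mul_nonneg (by linarith : (0:ℝ) ≤ C) hd, mul_nonneg (by linarith : (0:ℝ) ≤ C) ha]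

end Pool.Agent.JAC
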