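import Pool.Agent.Lib.MP_3b5712_an.Ring

set_option autoImplicit false

open Filter Topology Set Real

namespace Pool.Agent.JAC

/-! TASK E: the inner planar branched map `kin` -/

namespace KinAux

/-- the vertical bump -/
noncomputable def bump (v : E2) : ℝ := max 0 (1 - ‖v‖) / 4

theorem bump_nonneg (v : E2) : 0 ≤ bump v := by
  unfold bump
  have : (0:ℝ) ≤ max 0 (1 - ‖v‖) := le_max_left _ _
  linarith

theorem bump_lip (v w : E2) : |bump v - bump w| ≤ 1 / 4 * ‖v - w‖ := by
  unfold bump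
  have h1 : |max 0 (1 - ‖v‖) - max 0 (1 - ‖w‖)| ≤ |(1 - ‖v‖) - (1 - ‖w‖)| := by
    have := abs_max_sub_max_le_abs (1 - ‖v‖) (1 - ‖w‖) 0
    rwa [max_comm _ (0:ℝ), max_comm _ (0:ℝ)] at this
  have h2 : |(1 - ‖v‖) - (1 - ‖w‖)| ≤ ‖v - w‖ := by
    have : (1 - ‖v‖) - (1 - ‖w‖) = ‖w‖ - ‖v‖ := by ring
    rw [this, abs_sub_comm]
    exact abs_norm_sub_norm_le v w
  have h3 : max 0 (1 - ‖v‖) / 4 - max 0 (1 - ‖w‖) / 4 =
      (max 0 (1 - ‖v‖) - max 0 (1 - ‖w‖)) / 4 := by ring
  rw [h3, abs_div, abs_of_pos (by norm_num : (0:ℝ) < 4)]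
  linarith

theorem bump_of_one_le {v : E2} (h : 1 ≤ ‖v‖) : bump v = 0 := by
  unfold bump
  rw [max_eq_left (by linarith)]
  norm_num

theorem bump_of_le_one {v : E2} (h : ‖v‖ ≤ 1) : bump v = (1 - ‖v‖) / 4 := by
  unfold bump
  rw [max_eq_right (by linarith)]

theorem norm_fst (v : E2) : |v.1| ≤ ‖v‖ := by
  rw [Prod.norm_def]
  exact le_max_left _ _

theorem norm_snd (v : E2) : |v.2| ≤ ‖v‖ := by
  rw [Prod.norm_def]
  exact le_max_right _ _

theorem norm_mk (x y : ℝ) : ‖((x, y) : E2)‖ = max |x| |y| := rfl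

theorem norm_mk_neg (x y : ℝ) : ‖((x, -y) : E2)‖ = ‖((x, y) : E2)‖ := by
  rw [norm_mk, norm_mk, abs_neg]

/-- vertical shifts -/
noncomputable def sh (c : ℝ) (v : E2) : E2 := (v.1, v.2 + c * bump v)

theorem shUp_eq (v : E2) : shUp v = sh 1 v := by
  unfold shUp sh bump
  ring_nf

theorem shDn_eq (v : E2) : shDn v = sh (-1) v := by
  unfold shDn sh bump
  ring_nf

theorem sh_sub {c : ℝ} (hc : |c| ≤ 1) (v w : E2) :
    ‖(sh c v - sh c w) - (v - w)‖ ≤ 1 / 4 * ‖v - w‖ := by
  have : (sh c v - sh c w) - (v - w) = (0, c * (bump v - bump w)) := by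
    unfold sh
    ext
    · simp
    · simp; ring
  rw [this, norm_mk, abs_zero, abs_mul, max_eq_right (by positivity)]
  have h1 := bump_lip v w
  have h2 : |c| * |bump v - bump w| ≤ 1 * |bump v - bump w| := by gcongr
  linarith

theorem sh_upper {c : ℝ} (hc : |c| ≤ 1) (v w : E2) :
    ‖sh c v - sh c w‖ ≤ 5 / 4 * ‖v - w‖ := by
  have h1 := sh_sub hc v w
  have h2 : sh c v - sh c w = ((sh c v - sh c w) - (v - w)) + (v - w) := by abel
  calc ‖sh c v - sh c w‖ = ‖((sh c v - sh c w) - (v - w)) + (v - w)‖ := by rw [← h2]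
    _ ≤ ‖(sh c v - sh c w) - (v - w)‖ + ‖v - w‖ := norm_add_le _ _
    _ ≤ 5 / 4 * ‖v - w‖ := by linarith

theorem sh_lower {c : ℝ} (hc : |c| ≤ 1) (v w : E2) :
    ‖v - w‖ ≤ 4 / 3 * ‖sh c v - sh c w‖ := by
  have h1 := sh_sub hc v w
  have h2 : v - w = (sh c v - sh c w) - ((sh c v - sh c w) - (v - w)) := by abel
  have h3 : ‖v - w‖ ≤ ‖sh c v - sh c w‖ + ‖(sh c v - sh c w) - (v - w)‖ := by
    calc ‖v - w‖ = ‖(sh c v - sh c w) - ((sh c v - sh c w) - (v - w))‖ := by rw [← h2]
      _ ≤ _ := norm_sub_le _ _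
  linarith

theorem sh_inj {c : ℝ} (hc : |c| ≤ 1) : Function.Injective (sh c) := by
  intro v w h
  have h1 := sh_lower hc v w
  rw [h, sub_self, norm_zero, mul_zero] at h1
  exact sub_eq_zero.mp (norm_le_zero_iff.mp h1)

theorem sh_surj {c : ℝ} (hc : |c| ≤ 1) : Function.Surjective (sh c) := by
  intro w
  have hK : ContractingWith (1 / 4 : NNReal) (fun v : E2 => w - (sh c v - v)) := by
    refine ⟨by
      rw [← NNReal.coe_lt_coe]; norm_num, LipschitzWith.of_dist_le_mul ?_⟩
    intro a b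
    rw [dist_eq_norm, dist_eq_norm]
    have h1 : w - (sh c a - a) - (w - (sh c b - b)) = -((sh c a - sh c b) - (a - b)) := by abel
    rw [h1, norm_neg]
    have := sh_sub hc a b
    simpa using this
  refine ⟨hK.fixedPoint _, ?_⟩
  have h2 : w - (sh c (hK.fixedPoint _) - hK.fixedPoint _) = hK.fixedPoint _ :=
    hK.fixedPoint_isFixedPt
  have h3 : sh c (hK.fixedPoint _) - hK.fixedPoint _ = w - hK.fixedPoint _ := by
    rw [← h2]
    simp only [sub_sub_cancel]
    rw [h2]
  have h4 := sub_left_inj.mp h3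
  exact h4

theorem sh_of_one_le {c : ℝ} {v : E2} (h : 1 ≤ ‖v‖) : sh c v = v := by
  unfold sh
  rw [bump_of_one_le h, mul_zero, add_zero]

theorem norm_sh_lt {c : ℝ} (hc : |c| ≤ 1) {v : E2} (h : ‖v‖ < 1) : ‖sh c v‖ < 1 := by
  unfold sh
  rw [norm_mk, bump_of_le_one h.le]
  apply max_lt
  · exact (norm_fst v).trans_lt h
  · have h1 : |v.2 + c * ((1 - ‖v‖) / 4)| ≤ |v.2| + |c| * ((1 - ‖v‖) / 4) := by
      refine (abs_add_le _ _).trans ?_
      rw [abs_mul, abs_of_nonneg (by linarith : 0 ≤ (1 - ‖v‖) / 4)]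
    have h2 : |c| * ((1 - ‖v‖) / 4) ≤ 1 * ((1 - ‖v‖) / 4) := by
      apply mul_le_mul_of_nonneg_right hc
      linarith
    have h3 := norm_snd v
    linarith

theorem one_le_norm_of_sh {c : ℝ} (hc : |c| ≤ 1) {v : E2} (h : 1 ≤ ‖sh c v‖) : 1 ≤ ‖v‖ := by
  by_contra hcon
  exact absurd (norm_sh_lt hc (not_le.mp hcon)) (not_lt.mpr h)

theorem one_abs : |(1:ℝ)| ≤ 1 := by norm_num
theorem neg_one_abs : |(-1:ℝ)| ≤ 1 := by norm_num

theorem shUp_fun : shUp = sh 1 := funext shUp_eq
theorem shDn_fun : shDn = sh (-1) := funext shDn_eq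

theorem inv_up (v : E2) : shUpInv (shUp v) = v := by
  unfold shUpInv
  rw [shUp_fun]
  exact Function.leftInverse_invFun (sh_inj one_abs) v

theorem up_inv (w : E2) : shUp (shUpInv w) = w := by
  unfold shUpInv
  rw [shUp_fun]
  exact Function.rightInverse_invFun (sh_surj one_abs) w

/-- inverse of `shDn` -/
noncomputable def dnInv : E2 → E2 := Function.invFun shDn

theorem dnInv_dn (v : E2) : dnInv (shDn v) = v := by
  unfold dnInv
  rw [shDn_fun]
  exact Function.leftInverse_invFun (sh_inj neg_one_abs) v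

theorem dn_dnInv (w : E2) : shDn (dnInv w) = w := by
  unfold dnInv
  rw [shDn_fun]
  exact Function.rightInverse_invFun (sh_surj neg_one_abs) w

theorem shUpInv_lip (v w : E2) : ‖shUpInv v - shUpInv w‖ ≤ 4 / 3 * ‖v - w‖ := by
  have := sh_lower one_abs (shUpInv v) (shUpInv w)
  rwa [← shUp_eq, ← shUp_eq, up_inv, up_inv] at this

theorem dnInv_lip (v w : E2) : ‖dnInv v - dnInv w‖ ≤ 4 / 3 * ‖v - w‖ := by
  have := sh_lower neg_one_abs (dnInv v) (dnInv w)
  rwa [← shDn_eq, ← shDn_eq, dn_dnInv, dn_dnInv] at this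

theorem continuous_of_lip {f : E2 → E2} {K : ℝ}
    (h : ∀ v w, ‖f v - f w‖ ≤ K * ‖v - w‖) : Continuous f := by
  rw [continuous_iff_continuousAt]
  intro x
  exact (lipAt_of_lip (K := K) (fun a b => by rw [dist_eq_norm, dist_eq_norm]; exact h a b)
    x).continuousAt

theorem continuous_shUpInv : Continuous shUpInv := continuous_of_lip shUpInv_lip
theorem continuous_dnInv : Continuous dnInv := continuous_of_lip dnInv_lip
theorem continuous_shDn : Continuous shDn := by
  rw [shDn_fun]; exact continuous_of_lip (sh_upper neg_one_abs)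
theorem continuous_shUp : Continuous shUp := by
  rw [shUp_fun]; exact continuous_of_lip (sh_upper one_abs)

theorem shUpInv_of_one_le {w : E2} (h : 1 ≤ ‖w‖) : shUpInv w = w := by
  have : shUp w = w := by rw [shUp_eq, sh_of_one_le h]
  conv_lhs => rw [← this]
  exact inv_up w

theorem norm_shUpInv_lt {w : E2} (h : ‖w‖ < 1) : ‖shUpInv w‖ < 1 := by
  by_contra hcon
  push Not at hcon
  have h1 : shUp (shUpInv w) = shUpInv w := by rw [shUp_eq, sh_of_one_le hcon]
  rw [up_inv] at h1
  rw [← h1] at hcon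
  linarith

theorem norm_QQ (w : E2) : ‖QQ w‖ = ‖w‖ := norm_ring _ _

/-- the upper branch -/
noncomputable def TT (w : E2) : E2 := shDn (QQ (shUpInv w))

/-- the mirror -/
def RR (w : E2) : E2 := (w.1, -w.2)

theorem RR_RR (w : E2) : RR (RR w) = w := by
  unfold RR
  simp

theorem RR_sub (v w : E2) : ‖RR v - RR w‖ = ‖v - w‖ := by
  have : RR v - RR w = RR (v - w) := by
    unfold RR
    ext <;> simp <;> ring
  rw [this]
  exact norm_mk_neg _ _

theorem continuous_RR : Continuous RR := by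
  unfold RR
  fun_prop

theorem norm_RR (w : E2) : ‖RR w‖ = ‖w‖ := norm_mk_neg _ _

theorem kin_eq (w : E2) : kin w =
    if 1 / 4 ≤ w.2 then TT w else if w.2 ≤ -(1 / 4) then RR (TT (RR w)) else RR w := rfl

theorem kin_up {w : E2} (h : 1 / 4 ≤ w.2) : kin w = TT w := by
  rw [kin_eq, if_pos h]

theorem kin_RR (w : E2) : kin (RR w) = RR (kin w) := by
  rw [kin_eq w, kin_eq (RR w)]
  have e : (RR w).2 = -w.2 := rfl
  rw [e]
  by_cases h1 : 1 / 4 ≤ w.2
  · rw [if_neg (by linarith), if_pos (by linarith), if_pos h1, RR_RR]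
  · by_cases h2 : w.2 ≤ -(1 / 4)
    · rw [if_pos (by linarith), if_neg h1, if_pos h2, RR_RR]
    · rw [if_neg (by linarith), if_neg (by linarith), if_neg h1, if_neg h2]

theorem TT_key {v : E2} (h : |v.2| ≤ 3 / 8 * |v.1|) : shDn (QQ v) = RR (shUp v) := by
  rw [QQ_x h, shDn_eq, shUp_eq]
  unfold sh RR
  have : bump (v.1, -v.2) = bump v := by
    unfold bump
    rw [norm_mk_neg]
  rw [this]
  ext <;> simp <;> ring

theorem TT_key' {w : E2} (h : |(shUpInv w).2| ≤ 3 / 8 * |(shUpInv w).1|) : TT w = RR w := by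
  unfold TT
  rw [TT_key h, up_inv]

/-- on the line `w.2 = 1/4` -/
theorem line {w : E2} (h : w.2 = 1 / 4) :
    (shUpInv w).1 = w.1 ∧ |(shUpInv w).2| ≤ 1 / 4 * |(shUpInv w).1| := by
  have h0 := up_inv w
  set v := shUpInv w with hv
  rw [shUp_eq] at h0
  have h1 : v.1 = w.1 := by
    have := congrArg Prod.fst h0
    exact this
  have h2 : v.2 + bump v = 1 / 4 := by
    have := congrArg Prod.snd h0
    unfold sh at this
    simp only [one_mul] at this
    rw [this, h]
  refine ⟨h1, ?_⟩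
  have hn : ‖v‖ = max |v.1| |v.2| := rfl
  by_cases h3 : 1 ≤ ‖v‖
  · rw [bump_of_one_le h3, add_zero] at h2
    rw [hn, h2] at h3
    rcases le_max_iff.mp h3 with h4 | h4
    · rw [h2, abs_of_pos (by norm_num)]
      linarith
    · rw [abs_of_pos (by norm_num)] at h4
      norm_num at h4
  · push Not at h3
    rw [bump_of_le_one h3.le] at h2
    have h4 : v.2 = ‖v‖ / 4 := by linarith
    have h5 : |v.2| = ‖v‖ / 4 := by
      rw [h4, abs_of_nonneg (by positivity)]
    rcases le_total |v.1| |v.2| with h6 | h6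
    · rw [max_eq_right h6] at hn
      have h7 : |v.2| = 0 := by linarith
      rw [h7]
      positivity
    · rw [max_eq_left h6] at hn
      rw [h5, hn]
      linarith

theorem TT_line {w : E2} (h : w.2 = 1 / 4) : TT w = RR w := by
  obtain ⟨-, h2⟩ := line h
  apply TT_key'
  have : 0 ≤ |(shUpInv w).1| := abs_nonneg _
  linarith

theorem band {w : E2} (h : |w.2| ≤ 1 / 4) : kin w = RR w := by
  rw [kin_eq]
  obtain ⟨h1, h2⟩ := abs_le.mp h
  by_cases h3 : 1 / 4 ≤ w.2
  · rw [if_pos h3]
    exact TT_line (le_antisymm h2 h3)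
  · rw [if_neg h3]
    by_cases h4 : w.2 ≤ -(1 / 4)
    · rw [if_pos h4]
      have h5 : (RR w).2 = 1 / 4 := by
        change -w.2 = 1 / 4
        linarith
      rw [TT_line h5, RR_RR]
    · rw [if_neg h4]

/-! symmetry of `QQ` -/

theorem delta_mid {x : ℝ} (h1 : π / 8 ≤ x) (h2 : x ≤ 3 * π / 8) : delta x = π / 2 - 2 * x := by
  have hp := Real.pi_pos
  have e1 : delta (π / 8) = 2 * (π / 8) :=
    delta_small (by rw [abs_of_pos (by positivity)])
  have e2 : delta (3 * π / 8) = 2 * (-(π / 8)) := by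
    have := delta_half (-(π / 8))
    rw [show -(π / 8) + π / 2 = 3 * π / 8 by ring] at this
    rw [this]
    exact delta_small (by rw [abs_neg, abs_of_pos (by positivity)])
  have l1 := delta_lip x (π / 8)
  have l2 := delta_lip x (3 * π / 8)
  rw [abs_of_nonneg (by linarith : 0 ≤ x - π / 8)] at l1
  rw [abs_of_nonpos (by linarith : x - 3 * π / 8 ≤ 0)] at l2
  have a1 := (abs_le.mp l1).1
  have a2 := (abs_le.mp l2).2
  apply le_antisymm
  · linarith
  · linarith

theorem delta_per_nat (x : ℝ) (n : ℕ) : delta (x + n * (π / 2)) = delta x := by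
  induction n with
  | zero => simp
  | succ k ih =>
    rw [show x + ((k + 1 : ℕ) : ℝ) * (π / 2) = (x + k * (π / 2)) + π / 2 by push_cast; ring,
      delta_half, ih]

theorem delta_per (x : ℝ) (n : ℤ) : delta (x + n * (π / 2)) = delta x := by
  obtain ⟨k, rfl | rfl⟩ := n.eq_nat_or_neg
  · simpa using delta_per_nat x k
  · have := delta_per_nat (x + ((-(k:ℤ) : ℤ) : ℝ) * (π / 2)) k
    rw [← this]
    congr 1
    push_cast
    ring

theorem delta_neg_aux {x : ℝ} (h1 : -(π / 8) ≤ x) (h2 : x ≤ 3 * π / 8) :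
    delta (-x) = -delta x := by
  have hp := Real.pi_pos
  by_cases h3 : x ≤ π / 8
  · have h4 : |x| ≤ π / 8 := abs_le.mpr ⟨h1, h3⟩
    rw [delta_small h4, delta_small (by rwa [abs_neg])]
    ring
  · push Not at h3
    rw [delta_mid h3.le h2]
    have h5 := delta_half (-x)
    rw [← h5, delta_mid (by linarith) (by linarith)]
    ring

theorem delta_neg (x : ℝ) : delta (-x) = -delta x := by
  have hp := Real.pi_pos
  have hp2 : 0 < π / 2 := by positivity
  set n : ℤ := ⌊(x + π / 8) / (π / 2)⌋ with hn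
  have h1 : (n : ℝ) * (π / 2) ≤ x + π / 8 := by
    have := Int.floor_le ((x + π / 8) / (π / 2))
    rwa [le_div_iff₀ hp2] at this
  have h2 : x + π / 8 < (n + 1) * (π / 2) := by
    have := Int.lt_floor_add_one ((x + π / 8) / (π / 2))
    rwa [div_lt_iff₀ hp2] at this
  set y := x - n * (π / 2) with hy
  have h3 : -(π / 8) ≤ y := by linarith
  have h4 : y ≤ 3 * π / 8 := by
    have : x + π / 8 < n * (π / 2) + π / 2 := by linarith
    linarith
  have h5 : delta x = delta y := by
    have := delta_per y n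
    rw [show y + n * (π / 2) = x by rw [hy]; ring] at this
    exact this
  have h6 : delta (-x) = delta (-y) := by
    have := delta_per (-y) (-n)
    rw [show -y + ((-n : ℤ) : ℝ) * (π / 2) = -x by rw [hy]; push_cast; ring] at this
    exact this
  rw [h5, h6]
  exact delta_neg_aux h3 h4

theorem pol_neg' (r φ : ℝ) : pol r (-φ) = RR (pol r φ) := pol_neg r φ

theorem QQ_RR (w : E2) : QQ (RR w) = RR (QQ w) := by
  have h1 : RR w = pol ‖w‖ (-(ang w)) := by
    rw [pol_neg', pol_ang]
  have h2 : QQ (RR w) = pol ‖w‖ (-3 * (-(ang w)) + delta (-(ang w))) := by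
    rw [h1]
    exact ring_pol circ_delta (norm_nonneg w) _
  have h3 : QQ w = pol ‖w‖ (-3 * ang w + delta (ang w)) := rfl
  rw [h2, h3, ← pol_neg', delta_neg]
  congr 1
  ring

theorem outside {w : E2} (h : 1 ≤ ‖w‖) : kin w = QQ w := by
  have hT : ∀ v : E2, 1 ≤ ‖v‖ → TT v = QQ v := by
    intro v hv
    unfold TT
    rw [shUpInv_of_one_le hv, shDn_eq, sh_of_one_le (by rw [norm_QQ]; exact hv)]
  rw [kin_eq]
  by_cases h1 : 1 / 4 ≤ w.2
  · rw [if_pos h1, hT w h]
  · rw [if_neg h1]
    by_cases h2 : w.2 ≤ -(1 / 4)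
    · rw [if_pos h2, hT _ (by rw [norm_RR]; exact h), QQ_RR, RR_RR]
    · rw [if_neg h2]
      push Not at h1 h2
      have h3 : |w.2| ≤ 1 / 4 := abs_le.mpr ⟨h2.le, h1.le⟩
      have h4 : 1 ≤ |w.1| := by
        rw [Prod.norm_def] at h
        rcases le_max_iff.mp h with h5 | h5
        · exact h5
        · exfalso
          have : (1:ℝ) ≤ |w.2| := h5
          linarith
      rw [QQ_x (by linarith)]
      rfl

theorem inside {w : E2} (h : ‖w‖ < 1) : ‖kin w‖ < 1 := by
  have hT : ∀ v : E2, ‖v‖ < 1 → ‖TT v‖ < 1 := by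
    intro v hv
    unfold TT
    rw [shDn_eq]
    apply norm_sh_lt neg_one_abs
    rw [norm_QQ]
    exact norm_shUpInv_lt hv
  rw [kin_eq]
  split_ifs
  · exact hT w h
  · rw [norm_RR]
    exact hT _ (by rw [norm_RR]; exact h)
  · rw [norm_RR]
    exact h

theorem QQ_lip (v w : E2) : ‖QQ v - QQ w‖ ≤ 161 * ‖v - w‖ := by
  have h1 := ring_lip circ_delta circ_delta (e := 0) (fun φ => by simp) v w
  rw [mul_zero, add_zero] at h1
  exact h1

theorem TT_lip (v w : E2) : ‖TT v - TT w‖ ≤ 300 * ‖v - w‖ := by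
  unfold TT
  rw [shDn_eq, shDn_eq]
  have h1 := sh_upper neg_one_abs (QQ (shUpInv v)) (QQ (shUpInv w))
  have h2 := QQ_lip (shUpInv v) (shUpInv w)
  have h3 := shUpInv_lip v w
  have h4 : 0 ≤ ‖v - w‖ := norm_nonneg _
  nlinarith

/-- gluing Lipschitz bounds along a horizontal line -/
theorem glue {f : E2 → E2} {K t : ℝ}
    (h1 : ∀ v w : E2, t ≤ v.2 → t ≤ w.2 → ‖f v - f w‖ ≤ K * ‖v - w‖)
    (h2 : ∀ v w : E2, v.2 ≤ t → w.2 ≤ t → ‖f v - f w‖ ≤ K * ‖v - w‖) (v w : E2) :
    ‖f v - f w‖ ≤ K * ‖v - w‖ := by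
  have key : ∀ v w : E2, t ≤ v.2 → w.2 ≤ t → ‖f v - f w‖ ≤ K * ‖v - w‖ := by
    intro v w hv hw
    by_cases heq : v.2 = w.2
    · exact h1 v w hv (by rw [← heq]; exact hv)
    · have hlt : w.2 < v.2 := lt_of_le_of_ne (hw.trans hv) (Ne.symm heq)
      set s := (v.2 - t) / (v.2 - w.2) with hs
      have hpos : 0 < v.2 - w.2 := by linarith
      have hs0 : 0 ≤ s := div_nonneg (by linarith) hpos.le
      have hs1 : s ≤ 1 := by
        rw [hs, div_le_one hpos]
        linarith
      set c : E2 := v + s • (w - v) with hc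
      have hc2 : c.2 = t := by
        have : c.2 = v.2 + s * (w.2 - v.2) := rfl
        rw [this, hs]
        field_simp
        ring
      have e1 : ‖v - c‖ = s * ‖v - w‖ := by
        have : v - c = s • (v - w) := by
          rw [hc, smul_sub, smul_sub]
          abel
        rw [this, norm_smul, Real.norm_of_nonneg hs0]
      have e2 : ‖c - w‖ = (1 - s) * ‖v - w‖ := by
        have : c - w = (1 - s) • (v - w) := by
          rw [hc, smul_sub, smul_sub, sub_smul, sub_smul, one_smul, one_smul]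
          abel
        rw [this, norm_smul, Real.norm_of_nonneg (by linarith)]
      have d1 := h1 v c hv hc2.ge
      have d2 := h2 c w hc2.le hw
      calc ‖f v - f w‖ = ‖(f v - f c) + (f c - f w)‖ := by congr 1; abel
        _ ≤ ‖f v - f c‖ + ‖f c - f w‖ := norm_add_le _ _
        _ ≤ K * ‖v - c‖ + K * ‖c - w‖ := add_le_add d1 d2
        _ = K * ‖v - w‖ := by rw [e1, e2]; ring
  rcases le_total t v.2 with hv | hv <;> rcases le_total t w.2 with hw | hw
  · exact h1 v w hv hw
  · exact key v w hv hw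
  · rw [norm_sub_rev, norm_sub_rev v w]
    exact key w v hw hv
  · exact h2 v w hv hw

theorem lip300 (v w : E2) : ‖kin v - kin w‖ ≤ 300 * ‖v - w‖ := by
  apply glue (t := 1 / 4)
  · intro v w hv hw
    rw [kin_up hv, kin_up hw]
    exact TT_lip v w
  · -- below the line 1/4
    have hcase : ∀ v w : E2, v.2 ≤ 1 / 4 → w.2 ≤ 1 / 4 →
        ‖(if v.2 ≤ -(1 / 4) then RR (TT (RR v)) else RR v) -
          (if w.2 ≤ -(1 / 4) then RR (TT (RR w)) else RR w)‖ ≤ 300 * ‖v - w‖ := by
      intro v w _ _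
      apply glue (f := fun v : E2 => if v.2 ≤ -(1 / 4) then RR (TT (RR v)) else RR v)
        (t := -(1 / 4))
      · intro v w hv hw
        have hh : ∀ v : E2, -(1 / 4) ≤ v.2 →
            (if v.2 ≤ -(1 / 4) then RR (TT (RR v)) else RR v) = RR v := by
          intro v hv
          split_ifs with h
          · have h5 : (RR v).2 = 1 / 4 := by
              change -v.2 = 1 / 4
              linarith
            rw [TT_line h5, RR_RR]
          · rfl
        simp only [hh v hv, hh w hw]
        rw [RR_sub]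
        have : 0 ≤ ‖v - w‖ := norm_nonneg _
        linarith
      · intro v w hv hw
        simp only [if_pos hv, if_pos hw]
        rw [RR_sub]
        refine (TT_lip _ _).trans ?_
        rw [RR_sub]
    intro v w hv hw
    have hk : ∀ v : E2, v.2 ≤ 1 / 4 →
        kin v = (if v.2 ≤ -(1 / 4) then RR (TT (RR v)) else RR v) := by
      intro v hv
      rw [kin_eq]
      by_cases h : 1 / 4 ≤ v.2
      · have h' : v.2 = 1 / 4 := le_antisymm hv h
        rw [if_pos h, if_neg (by linarith), TT_line h']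
      · rw [if_neg h]
    rw [hk v hv, hk w hw]
    exact hcase v w hv hw

theorem shUpInv_ne_zero {w : E2} (h : w ≠ (0, 1 / 4)) : shUpInv w ≠ 0 := by
  intro h0
  apply h
  have := up_inv w
  rw [h0] at this
  rw [← this, shUp_eq]
  unfold sh
  rw [bump_of_le_one (by simp)]
  simp

theorem openAt_RR (w : E2) : OpenAt RR w :=
  openAt_of_inverse continuous_RR RR_RR RR_RR w

theorem openAt_shDn (w : E2) : OpenAt shDn w :=
  openAt_of_inverse continuous_dnInv dnInv_dn dn_dnInv w

theorem openAt_shUpInv (w : E2) : OpenAt shUpInv w :=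
  openAt_of_inverse continuous_shUp up_inv inv_up w

theorem openAt_TT {w : E2} (h : w ≠ (0, 1 / 4)) : OpenAt TT w := by
  have h1 : OpenAt QQ (shUpInv w) := by
    have := ring_openAt circ_delta (shUpInv_ne_zero h)
    exact this
  have h2 : OpenAt (QQ ∘ shUpInv) w := h1.comp (openAt_shUpInv w)
  have h3 : OpenAt (shDn ∘ (QQ ∘ shUpInv)) w := (openAt_shDn _).comp h2
  exact h3

theorem openAt_nonneg {w : E2} (hw : 0 ≤ w.2) : OpenAt kin w := by
  rcases lt_trichotomy w.2 (1 / 4) with h | h | h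
  · -- the band
    apply (openAt_RR w).congr
    have : {v : E2 | |v.2| < 1 / 4} ∈ 𝓝 w := by
      apply IsOpen.mem_nhds
      · exact isOpen_lt (by fun_prop) continuous_const
      · change |w.2| < 1 / 4
        rw [abs_of_nonneg hw]
        exact h
    filter_upwards [this] with v hv
    exact (band (le_of_lt hv)).symm
  · by_cases hx : w.1 = 0
    · -- the branch point
      have hw' : w = (0, 1 / 4) := Prod.ext hx h
      rw [openAt_iff]
      intro U hU
      have e0 : shUp 0 = w := by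
        rw [hw', shUp_eq]
        unfold sh
        rw [bump_of_le_one (by simp)]
        simp
      have hkw : kin w = shDn 0 := by
        rw [kin_up h.ge]
        unfold TT
        rw [← e0, inv_up]
        have : QQ (0 : E2) = 0 := by
          have := norm_QQ 0
          rw [norm_zero] at this
          exact norm_eq_zero.mp this
        rw [this]
      have h1 : shUp ⁻¹' U ∈ 𝓝 (0 : E2) := by
        apply continuous_shUp.continuousAt
        rw [e0]
        exact hU
      obtain ⟨δ, hδ, hball⟩ := Metric.mem_nhds_iff.mp h1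
      have h2 : dnInv ⁻¹' (Metric.ball 0 δ) ∈ 𝓝 (kin w) := by
        apply continuous_dnInv.continuousAt
        rw [hkw, dnInv_dn]
        exact Metric.ball_mem_nhds _ hδ
      refine Filter.mem_of_superset h2 ?_
      intro y hy
      have hy' : ‖dnInv y‖ < δ := by
        have : dnInv y ∈ Metric.ball (0 : E2) δ := hy
        rwa [mem_ball_zero_iff] at this
      obtain ⟨v, hv1, hv2, hv3⟩ := QQ_surj_up (dnInv y)
      refine ⟨shUp v, ?_, ?_⟩
      · apply hball
        rw [mem_ball_zero_iff, hv2]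
        exact hy'
      · have hge : 1 / 4 ≤ (shUp v).2 := by
          rw [shUp_eq]
          change 1 / 4 ≤ v.2 + 1 * bump v
          rw [one_mul]
          rcases le_total 1 ‖v‖ with h5 | h5
          · rw [bump_of_one_le h5]
            linarith
          · rw [bump_of_le_one h5]
            linarith
        rw [kin_up hge]
        unfold TT
        rw [inv_up, hv3, dn_dnInv]
    · apply (openAt_RR w).congr
      obtain ⟨l1, l2⟩ := line h
      have hopen : {v : E2 | |(shUpInv v).2| < 3 / 8 * |(shUpInv v).1|} ∈ 𝓝 w := by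
        apply IsOpen.mem_nhds
        · have hc := continuous_shUpInv
          exact isOpen_lt (by fun_prop) (by fun_prop)
        · change |(shUpInv w).2| < 3 / 8 * |(shUpInv w).1|
          have : 0 < |(shUpInv w).1| := by
            rw [l1]
            exact abs_pos.mpr hx
          linarith
      have hopen2 : {v : E2 | 0 < v.2} ∈ 𝓝 w := by
        apply IsOpen.mem_nhds
        · exact isOpen_lt continuous_const continuous_snd
        · change 0 < w.2
          rw [h]
          norm_num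
      filter_upwards [hopen, hopen2] with v hv hv2
      by_cases hv3 : 1 / 4 ≤ v.2
      · rw [kin_up hv3, TT_key' (le_of_lt hv)]
      · push Not at hv3
        have : 0 < v.2 := hv2
        rw [band (by rw [abs_of_pos this]; exact hv3.le)]
  · -- above
    have hne : w ≠ (0, 1 / 4) := by
      intro hcon
      rw [hcon] at h
      exact lt_irrefl _ h
    apply (openAt_TT hne).congr
    have : {v : E2 | 1 / 4 < v.2} ∈ 𝓝 w := by
      apply IsOpen.mem_nhds
      · exact isOpen_lt continuous_const continuous_snd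
      · exact h
    filter_upwards [this] with v hv
    exact (kin_up (le_of_lt hv)).symm

theorem openAt_kin (w : E2) : OpenAt kin w := by
  rcases le_total 0 w.2 with h | h
  · exact openAt_nonneg h
  · have h1 : OpenAt kin (RR w) := openAt_nonneg (by change 0 ≤ -w.2; linarith)
    have h2 : OpenAt (RR ∘ (kin ∘ RR)) w := (openAt_RR _).comp (h1.comp (openAt_RR w))
    have h3 : RR ∘ (kin ∘ RR) = kin := by
      funext v
      change RR (kin (RR v)) = kin v
      rw [kin_RR, RR_RR]
    rwa [h3] at h2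

theorem TT_fin (y : E2) : (TT ⁻¹' {y}).Finite := by
  have h1 : (QQ ⁻¹' {dnInv y}).Finite := ring_fin circ_delta (dnInv y)
  apply (h1.image shUp).subset
  intro w hw
  have hw' : TT w = y := hw
  refine ⟨shUpInv w, ?_, up_inv w⟩
  change QQ (shUpInv w) = dnInv y
  rw [← hw']
  unfold TT
  rw [dnInv_dn]

theorem kin_fin (y : E2) : (kin ⁻¹' {y}).Finite := by
  have h1 := TT_fin y
  have h2 : (RR '' (TT ⁻¹' {RR y})).Finite := (TT_fin (RR y)).image RR
  have h3 : ({RR y} : Set E2).Finite := Set.finite_singleton _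
  apply ((h1.union h2).union h3).subset
  intro w hw
  have hw' : kin w = y := hw
  rw [kin_eq] at hw'
  split_ifs at hw' with c1 c2
  · exact Or.inl (Or.inl hw')
  · refine Or.inl (Or.inr ⟨RR w, ?_, RR_RR w⟩)
    change TT (RR w) = RR y
    rw [← hw', RR_RR]
  · right
    change w = RR y
    rw [← hw', RR_RR]

end KinAux

open KinAux

theorem shUpInv_shUp (v : E2) : shUpInv (shUp v) = v := inv_up v

theorem shUp_shUpInv (w : E2) : shUp (shUpInv w) = w := up_inv w

theorem kin_band {w : E2} (h : |w.2| ≤ 1 / 4) : kin w = (w.1, -w.2) := band h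

theorem kin_outside {w : E2} (h : 1 ≤ ‖w‖) : kin w = QQ w := outside h

theorem kin_inside {w : E2} (h : ‖w‖ < 1) : ‖kin w‖ < 1 := inside h

theorem kin_lip : ∃ C : ℝ, 1 ≤ C ∧ ∀ w w', ‖kin w - kin w'‖ ≤ C * ‖w - w'‖ :=
  ⟨300, by norm_num, lip300⟩

theorem kin_good : Good kin where
  opn := openAt_kin
  lip x := ⟨300, lipAt_of_lip (fun a b => by
    rw [dist_eq_norm, dist_eq_norm]; exact lip300 a b) x⟩
  fin := kin_fin

end Pool.Agent.JAC
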