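import Pool.Agent.Lib.MP_3b5712_an.FplS

set_option autoImplicit false

open Filter Topology Set Real

namespace Pool.Agent.JAC

/-! TASK K: Lipschitz bounds of the plain block -/

namespace LipF

theorem lam_bounds {P : Par} (hP : P.Valid) : 1 / 2 ≤ P.lam ∧ P.lam ≤ 1 := by
  have h1 := hP.mu_pos
  have h2 := hP.mo_th
  have h3 := hP.th_le
  have h4 := hP.mu_le
  have h5 := hP.mi_le
  unfold Par.lam
  constructor <;> linarith

theorem m_bounds {P : Par} (hP : P.Valid) (r : ℝ) :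
    0 < P.mf r ∧ P.mf r ≤ 1 / 16 ∧ P.mi ≤ P.mf r ∧ P.mf r ≤ P.mo := by
  have h1 := hP.mu_pos
  have h2 := hP.mo_th
  have h3 := hP.th_le
  have h4 := hP.mu_le
  have h5 := hP.mi_le
  obtain ⟨h6, h7⟩ := mf_pos hP r
  refine ⟨by linarith, by linarith, h6, h7⟩

theorem m_cond {P : Par} (hP : P.Valid) (r : ℝ) : 0 < P.mf r ∧ P.mf r < 1 := by
  obtain ⟨h1, h2, -, -⟩ := m_bounds hP r
  exact ⟨h1, by linarith⟩

theorem dep_diff {P : Par} (hP : P.Valid) (r s : ℝ) : |P.dep r - P.dep s| = |r - s| / P.mu := by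
  have h1 := hP.mu_pos
  unfold Par.dep
  rw [← sub_div, abs_div, abs_of_pos h1]
  congr 1
  rw [show 1 - r - (1 - s) = -(r - s) by ring, abs_neg]

theorem uf_diff {P : Par} (hP : P.Valid) (r s : ℝ) :
    |P.uf r - P.uf s| ≤ 4 * (|r - s| / P.mu) := by
  unfold Par.uf
  refine (cl_lip _ _).trans ?_
  rw [show 4 * P.dep r - 2 - (4 * P.dep s - 2) = 4 * (P.dep r - P.dep s) by ring, abs_mul,
    dep_diff hP, abs_of_pos (by norm_num : (0:ℝ) < 4)]

theorem sf_diff {P : Par} (hP : P.Valid) (r s : ℝ) :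
    |P.sf r - P.sf s| ≤ 8 * (|r - s| / P.mu) := by
  have h1 := hP.mu_pos
  unfold Par.sf
  have h2 := cl_lip (4 * P.dep r) (4 * P.dep s)
  rw [show 4 * P.dep r - (4 * P.dep s) = 4 * (P.dep r - P.dep s) by ring, abs_mul,
    dep_diff hP, abs_of_pos (by norm_num : (0:ℝ) < 4)] at h2
  rw [show π / 2 * (1 - cl (4 * P.dep r)) - π / 2 * (1 - cl (4 * P.dep s)) =
    -(π / 2 * (cl (4 * P.dep r) - cl (4 * P.dep s))) by ring, abs_neg, abs_mul,
    abs_of_pos (by positivity : (0:ℝ) < π / 2)]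
  have h3 := pi_le_four
  calc π / 2 * |cl (4 * P.dep r) - cl (4 * P.dep s)| ≤ 2 * (4 * (|r - s| / P.mu)) := by
        gcongr
        linarith
    _ = _ := by ring

theorem af_diff {P : Par} (hP : P.Valid) (r s : ℝ) :
    |P.af r - P.af s| ≤ 8 * (|r - s| / P.mu) := by
  have h1 := hP.mu_pos
  unfold Par.af
  have h2 := cl_lip (4 * P.dep r - 1) (4 * P.dep s - 1)
  rw [show 4 * P.dep r - 1 - (4 * P.dep s - 1) = 4 * (P.dep r - P.dep s) by ring, abs_mul,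
    dep_diff hP, abs_of_pos (by norm_num : (0:ℝ) < 4)] at h2
  rw [show π / 2 * (1 - cl (4 * P.dep r - 1)) - π / 2 * (1 - cl (4 * P.dep s - 1)) =
    -(π / 2 * (cl (4 * P.dep r - 1) - cl (4 * P.dep s - 1))) by ring, abs_neg, abs_mul,
    abs_of_pos (by positivity : (0:ℝ) < π / 2)]
  have h3 := pi_le_four
  calc π / 2 * |cl (4 * P.dep r - 1) - cl (4 * P.dep s - 1)| ≤ 2 * (4 * (|r - s| / P.mu)) := by
        gcongr
        linarith
    _ = _ := by ring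

theorem mf_diff {P : Par} (hP : P.Valid) (r s : ℝ) :
    |P.mf r - P.mf s| ≤ 60 * P.mi * (|r - s| / P.mu) := by
  have h1 := hP.mu_pos
  have h5 := hP.mi_le
  have h6 := hP.mo_le
  have h7 : 0 < P.mi := lt_of_lt_of_le h1 hP.mu_le
  unfold Par.mf
  rw [show P.mo + (P.mi - P.mo) * P.uf r - (P.mo + (P.mi - P.mo) * P.uf s) =
    -((P.mo - P.mi) * (P.uf r - P.uf s)) by ring, abs_neg, abs_mul,
    abs_of_nonneg (by linarith : 0 ≤ P.mo - P.mi)]
  calc (P.mo - P.mi) * |P.uf r - P.uf s| ≤ (15 * P.mi) * (4 * (|r - s| / P.mu)) := by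
        gcongr
        · linarith
        · exact uf_diff hP r s
    _ = _ := by ring

theorem norm3_le {X : E3} {c : ℝ} (h1 : |X.1| ≤ c) (h2 : |X.2.1| ≤ c) (h3 : |X.2.2| ≤ c) :
    ‖X‖ ≤ c := by
  rw [Prod.norm_def, Prod.norm_def]
  exact max_le h1 (max_le h2 h3)

theorem abs_fst_le (X : E3) : |X.1| ≤ ‖X‖ := norm_fst_le X

theorem norm_snd3 (X : E3) : ‖X.2‖ ≤ ‖X‖ := norm_snd_le X

theorem abs_snd_le (X : E3) : |X.2.1| ≤ ‖X‖ := (norm_fst_le X.2).trans (norm_snd_le X)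

theorem abs_thd_le (X : E3) : |X.2.2| ≤ ‖X‖ := (norm_snd_le X.2).trans (norm_snd_le X)

theorem norm2_le {X : E2} {c : ℝ} (h1 : |X.1| ≤ c) (h2 : |X.2| ≤ c) : ‖X‖ ≤ c := by
  rw [Prod.norm_def]
  exact max_le h1 h2

/-- `rho` is 1-Lipschitz -/
theorem rho_lip (lam : ℝ) (X Y : E3) : |rho lam X - rho lam Y| ≤ ‖X - Y‖ := by
  unfold rho
  have := abs_max_sub_max_le_max ‖X‖ lam ‖Y‖ lam
  simp only [sub_self, abs_zero] at this
  refine this.trans (max_le (abs_norm_sub_norm_le X Y) (norm_nonneg _))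

theorem norm_le_rho (lam : ℝ) (X : E3) : ‖X‖ ≤ rho lam X := le_max_left _ _

theorem le_rho (lam : ℝ) (X : E3) : lam ≤ rho lam X := le_max_right _ _

/-- stage 1 -/
theorem H3_diff {P : Par} (hP : P.Valid) {X Y : E3} (hX : rho P.lam X ≤ 1)
    (hY : rho P.lam Y ≤ 1) :
    ‖H3 P.lam P.mf X - H3 P.lam P.mf Y‖ ≤ 1000 / P.mi * ‖X - Y‖ +
      61000 * (|rho P.lam X - rho P.lam Y| / P.mu) := by
  obtain ⟨hl, -⟩ := lam_bounds hP
  have hmu := hP.mu_pos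
  have hmi : 0 < P.mi := lt_of_lt_of_le hmu hP.mu_le
  obtain ⟨a1, a2, a3, a4⟩ := m_bounds hP (rho P.lam X)
  obtain ⟨b1, b2, b3, b4⟩ := m_bounds hP (rho P.lam Y)
  have hmo := hP.mo_le
  have key : ∀ x y : ℝ, |x| ≤ ‖X‖ → |y| ≤ ‖Y‖ → |x - y| ≤ ‖X - Y‖ →
      |Hc (P.mf (rho P.lam X)) (rho P.lam X) x - Hc (P.mf (rho P.lam Y)) (rho P.lam Y) y| ≤
      1000 / P.mi * ‖X - Y‖ + 61000 * (|rho P.lam X - rho P.lam Y| / P.mu) := by
    intro x y hx hy hxy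
    have h1 := Hc_lip (m := P.mf (rho P.lam X)) (m' := P.mf (rho P.lam Y)) (ρ := rho P.lam X)
      (ρ' := rho P.lam Y) (x := x) (x' := y) a1 a2 b1 b2
      (by linarith [le_rho P.lam X]) hX (by linarith [le_rho P.lam Y]) hY
      (by linarith) (by linarith) (hx.trans (norm_le_rho _ _)) (hy.trans (norm_le_rho _ _))
    refine h1.trans ?_
    have h2 := mf_diff hP (rho P.lam X) (rho P.lam Y)
    have h3 : 1000 / P.mf (rho P.lam X) ≤ 1000 / P.mi := by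
      gcongr
    calc 1000 / P.mf (rho P.lam X) * (|x - y| + |rho P.lam X - rho P.lam Y| +
          |P.mf (rho P.lam X) - P.mf (rho P.lam Y)|) ≤
        1000 / P.mi * (‖X - Y‖ + |rho P.lam X - rho P.lam Y| +
          60 * P.mi * (|rho P.lam X - rho P.lam Y| / P.mu)) := by
          gcongr
      _ = 1000 / P.mi * ‖X - Y‖ + 1000 * (|rho P.lam X - rho P.lam Y| / P.mi) +
          60000 * (|rho P.lam X - rho P.lam Y| / P.mu) := by
          field_simp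
          ring
      _ ≤ 1000 / P.mi * ‖X - Y‖ + 1000 * (|rho P.lam X - rho P.lam Y| / P.mu) +
          60000 * (|rho P.lam X - rho P.lam Y| / P.mu) := by
          gcongr
          exact hP.mu_le
      _ = _ := by ring
  apply norm3_le
  · exact key _ _ (abs_fst_le X) (abs_fst_le Y) (abs_fst_le (X - Y))
  · exact key _ _ (abs_snd_le X) (abs_snd_le Y) (abs_snd_le (X - Y))
  · exact key _ _ (abs_thd_le X) (abs_thd_le Y) (abs_thd_le (X - Y))

/-- stage 5 -/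
theorem H3i_diff {P : Par} (hP : P.Valid) {X Y : E3} (hX : rho P.lam X ≤ 1)
    (hY : rho P.lam Y ≤ 1) :
    ‖H3i P.lam P.mf X - H3i P.lam P.mf Y‖ ≤ 20 * ‖X - Y‖ +
      100 * (|rho P.lam X - rho P.lam Y| / P.mu) := by
  obtain ⟨hl, -⟩ := lam_bounds hP
  have hmu := hP.mu_pos
  have hmi : 0 < P.mi := lt_of_lt_of_le hmu hP.mu_le
  obtain ⟨a1, a2, a3, a4⟩ := m_bounds hP (rho P.lam X)
  obtain ⟨b1, b2, b3, b4⟩ := m_bounds hP (rho P.lam Y)
  have hmu1 : P.mu ≤ 1 / 16 := by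
    have := hP.mo_th; have := hP.th_le; have := hP.mi_le; linarith
  have hmi1 : P.mi ≤ 1 / 16 := by linarith
  have key : ∀ x y : ℝ, |x| ≤ ‖X‖ → |y| ≤ ‖Y‖ → |x - y| ≤ ‖X - Y‖ →
      |Hi (P.mf (rho P.lam X)) (rho P.lam X) x - Hi (P.mf (rho P.lam Y)) (rho P.lam Y) y| ≤
      20 * ‖X - Y‖ + 100 * (|rho P.lam X - rho P.lam Y| / P.mu) := by
    intro x y hx hy hxy
    have h1 := Hi_lip (m := P.mf (rho P.lam X)) (m' := P.mf (rho P.lam Y)) (ρ := rho P.lam X)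
      (ρ' := rho P.lam Y) (x := x) (x' := y) a1 a2 b1 b2
      (by linarith [le_rho P.lam X]) hX (by linarith [le_rho P.lam Y]) hY
      (hx.trans (norm_le_rho _ _)) (hy.trans (norm_le_rho _ _))
    refine h1.trans ?_
    have h2 := mf_diff hP (rho P.lam X) (rho P.lam Y)
    have h3 : 60 * P.mi * (|rho P.lam X - rho P.lam Y| / P.mu) ≤
        60 * (1 / 16) * (|rho P.lam X - rho P.lam Y| / P.mu) := by
      gcongr
    have h4 : |rho P.lam X - rho P.lam Y| ≤ 1 / 16 * (|rho P.lam X - rho P.lam Y| / P.mu) := by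
      have : |rho P.lam X - rho P.lam Y| = P.mu * (|rho P.lam X - rho P.lam Y| / P.mu) := by
        field_simp
      calc |rho P.lam X - rho P.lam Y| = P.mu * (|rho P.lam X - rho P.lam Y| / P.mu) := this
        _ ≤ 1 / 16 * (|rho P.lam X - rho P.lam Y| / P.mu) := by gcongr
    have h5 : 0 ≤ |rho P.lam X - rho P.lam Y| / P.mu := by positivity
    nlinarith
  apply norm3_le
  · exact key _ _ (abs_fst_le X) (abs_fst_le Y) (abs_fst_le (X - Y))
  · exact key _ _ (abs_snd_le X) (abs_snd_le Y) (abs_snd_le (X - Y))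
  · exact key _ _ (abs_thd_le X) (abs_thd_le Y) (abs_thd_le (X - Y))

/-- stages 2 and 4 -/
theorem X3_diff {P : Par} {s : ℝ → ℝ}
    (hs : ∀ r t, |s r - s t| ≤ 8 * (|r - t| / P.mu)) {X Y : E3} (hX : rho P.lam X ≤ 1) :
    ‖X3 P.lam s X - X3 P.lam s Y‖ ≤ 33 * ‖X - Y‖ +
      32 * (|rho P.lam X - rho P.lam Y| / P.mu) := by
  have h1 := rot_lip (s (rho P.lam X)) (s (rho P.lam Y)) X.2 Y.2
  have h2 := hs (rho P.lam X) (rho P.lam Y)
  have h0 : 0 ≤ |rho P.lam X - rho P.lam Y| / P.mu := by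
    have := (abs_nonneg _).trans h2
    linarith
  have h3 : min ‖X.2‖ ‖Y.2‖ ≤ 1 :=
    (min_le_left _ _).trans ((norm_snd_le X).trans ((norm_le_rho _ _).trans hX))
  have h4 : ‖X.2 - Y.2‖ ≤ ‖X - Y‖ := norm_snd_le (X - Y)
  have h5 : 4 * min ‖X.2‖ ‖Y.2‖ * |s (rho P.lam X) - s (rho P.lam Y)| ≤
      4 * 1 * (8 * (|rho P.lam X - rho P.lam Y| / P.mu)) := by
    gcongr
  rw [Prod.norm_def]
  apply max_le
  · have h6 : ‖X.1 - Y.1‖ ≤ ‖X - Y‖ := norm_fst_le (X - Y)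
    have h7 := norm_nonneg (X - Y)
    change ‖X.1 - Y.1‖ ≤ _
    linarith
  · change ‖rot (s (rho P.lam X)) X.2 - rot (s (rho P.lam Y)) Y.2‖ ≤ _
    linarith

theorem norm_ka_le {a : ℝ} {w : E2} (h : ‖w‖ ≤ 1) : ‖ka a w‖ ≤ 1 := by
  rcases h.lt_or_eq with h1 | h1
  · exact (ka_norm_lt h1).le
  · rw [ka_out h1.ge]
    unfold QQ
    rw [norm_ring, h1]

/-- stage 3 -/
theorem K3_diff {C : ℝ} (hC : 1 ≤ C) (hka : ∀ a a' w w', ‖w‖ ≤ 1 → ‖w'‖ ≤ 1 →
    ‖ka a w - ka a' w'‖ ≤ C * (‖w - w'‖ + |a - a'|)) {P : Par} (hP : P.Valid) {X Y : E3}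
    (hX : rho P.lam X ≤ 1) (hY : rho P.lam Y ≤ 1) :
    ‖K3 P.lam P.af X - K3 P.lam P.af Y‖ ≤ 2 * C * ‖X - Y‖ +
      11 * C * (|rho P.lam X - rho P.lam Y| / P.mu) := by
  obtain ⟨hl, -⟩ := lam_bounds hP
  have hmu := hP.mu_pos
  have hmu1 : P.mu ≤ 1 / 16 := by
    have := hP.mo_th; have := hP.th_le; have := hP.mi_le; have := hP.mu_le; linarith
  set r := rho P.lam X with hr
  set s := rho P.lam Y with hs
  have hr0 : 1 / 2 ≤ r := hl.trans (le_rho _ _)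
  have hs0 : 1 / 2 ≤ s := hl.trans (le_rho _ _)
  have hrp : 0 < r := by linarith
  have hsp : 0 < s := by linarith
  set v : E2 := (r⁻¹ * X.1, r⁻¹ * X.2.1) with hv
  set w : E2 := (s⁻¹ * Y.1, s⁻¹ * Y.2.1) with hw
  have hvn : ‖v‖ ≤ 1 := by
    apply norm2_le
    · change |r⁻¹ * X.1| ≤ 1
      rw [abs_mul, abs_of_pos (inv_pos.mpr hrp), inv_mul_le_iff₀ hrp, mul_one]
      exact (abs_fst_le X).trans (norm_le_rho _ _)
    · change |r⁻¹ * X.2.1| ≤ 1
      rw [abs_mul, abs_of_pos (inv_pos.mpr hrp), inv_mul_le_iff₀ hrp, mul_one]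
      exact (abs_snd_le X).trans (norm_le_rho _ _)
  have hwn : ‖w‖ ≤ 1 := by
    apply norm2_le
    · change |s⁻¹ * Y.1| ≤ 1
      rw [abs_mul, abs_of_pos (inv_pos.mpr hsp), inv_mul_le_iff₀ hsp, mul_one]
      exact (abs_fst_le Y).trans (norm_le_rho _ _)
    · change |s⁻¹ * Y.2.1| ≤ 1
      rw [abs_mul, abs_of_pos (inv_pos.mpr hsp), inv_mul_le_iff₀ hsp, mul_one]
      exact (abs_snd_le Y).trans (norm_le_rho _ _)
  have hcoord : ∀ x y : ℝ, |y| ≤ s → |x - y| ≤ ‖X - Y‖ →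
      |r⁻¹ * x - s⁻¹ * y| ≤ 2 * ‖X - Y‖ + 2 * |r - s| := by
    intro x y hy hxy
    have e1 : r⁻¹ * x - s⁻¹ * y = r⁻¹ * (x - y) + (r⁻¹ * (s⁻¹ * y)) * (s - r) := by
      field_simp
      ring
    have e2 : |r⁻¹| ≤ 2 := by
      rw [abs_of_pos (inv_pos.mpr hrp)]
      rw [inv_le_comm₀ hrp (by norm_num)]
      linarith
    have e3 : |s⁻¹ * y| ≤ 1 := by
      rw [abs_mul, abs_of_pos (inv_pos.mpr hsp), inv_mul_le_iff₀ hsp, mul_one]
      exact hy
    rw [e1]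
    calc |r⁻¹ * (x - y) + (r⁻¹ * (s⁻¹ * y)) * (s - r)|
        ≤ |r⁻¹ * (x - y)| + |(r⁻¹ * (s⁻¹ * y)) * (s - r)| := abs_add_le _ _
      _ = |r⁻¹| * |x - y| + |r⁻¹| * |s⁻¹ * y| * |s - r| := by
          simp only [abs_mul]
      _ ≤ 2 * ‖X - Y‖ + 2 * 1 * |s - r| := by
          gcongr
      _ = _ := by rw [abs_sub_comm s r]; ring
  have hvw : ‖v - w‖ ≤ 2 * ‖X - Y‖ + 2 * |r - s| := by
    apply norm2_le
    · exact hcoord _ _ ((abs_fst_le Y).trans (norm_le_rho _ _)) (abs_fst_le (X - Y))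
    · exact hcoord _ _ ((abs_snd_le Y).trans (norm_le_rho _ _)) (abs_snd_le (X - Y))
  have hk1 := hka (P.af r) (P.af s) v w hvn hwn
  have hk2 := norm_ka_le (a := P.af r) hvn
  have ha := af_diff hP r s
  have hrs : |r - s| ≤ 1 / 16 * (|r - s| / P.mu) := by
    have : |r - s| = P.mu * (|r - s| / P.mu) := by field_simp
    calc |r - s| = P.mu * (|r - s| / P.mu) := this
      _ ≤ 1 / 16 * (|r - s| / P.mu) := by gcongr
  have hq : 0 ≤ |r - s| / P.mu := by positivity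
  have hkk : ‖ka (P.af r) v - ka (P.af s) w‖ ≤
      C * (2 * ‖X - Y‖ + 10 * (|r - s| / P.mu)) := by
    refine hk1.trans (mul_le_mul_of_nonneg_left ?_ (by linarith))
    linarith
  have hfin : ∀ p q : ℝ, |p| ≤ 1 → |p - q| ≤ C * (2 * ‖X - Y‖ + 10 * (|r - s| / P.mu)) →
      |r * p - s * q| ≤ 2 * C * ‖X - Y‖ + 11 * C * (|r - s| / P.mu) := by
    intro p q hp hpq
    have e1 : r * p - s * q = (r - s) * p + s * (p - q) := by ring
    rw [e1]
    calc |(r - s) * p + s * (p - q)| ≤ |(r - s) * p| + |s * (p - q)| := abs_add_le _ _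
      _ = |r - s| * |p| + |s| * |p - q| := by simp only [abs_mul]
      _ ≤ |r - s| * 1 + 1 * (C * (2 * ‖X - Y‖ + 10 * (|r - s| / P.mu))) := by
          gcongr
          rw [abs_of_pos hsp]
          exact hY
      _ ≤ _ := by nlinarith
  apply norm3_le
  · exact hfin _ _ ((norm_fst_le _).trans hk2) ((norm_fst_le (ka (P.af r) v - ka (P.af s) w)).trans hkk)
  · exact hfin _ _ ((norm_snd_le _).trans hk2) ((norm_snd_le (ka (P.af r) v - ka (P.af s) w)).trans hkk)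
  · have e1 : |X.2.2 - Y.2.2| ≤ ‖X - Y‖ := abs_thd_le (X - Y)
    change |X.2.2 - Y.2.2| ≤ _
    have e2 := norm_nonneg (X - Y)
    nlinarith

theorem Fpl_diff : ∃ C : ℝ, 1 ≤ C ∧ ∀ P : Par, P.Valid → ∀ X Y : E3, rho P.lam X ≤ 1 →
    rho P.lam Y ≤ 1 → ‖Fpl P X - Fpl P Y‖ ≤ C * (1 / P.mi * ‖X - Y‖ +
      |rho P.lam X - rho P.lam Y| / P.mu) := by
  obtain ⟨C, hC, hka⟩ := ka_lip
  refine ⟨10 ^ 10 * C, by nlinarith, ?_⟩
  intro P hP X Y hX hY
  obtain ⟨hl, -⟩ := lam_bounds hP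
  have hl0 : 0 < P.lam := by linarith
  have hmu := hP.mu_pos
  have hmi : 0 < P.mi := lt_of_lt_of_le hmu hP.mu_le
  have hm := m_cond hP
  set A := H3 P.lam P.mf X with hA
  set A' := H3 P.lam P.mf Y with hA'
  have rA : rho P.lam A = rho P.lam X := H3_rho hl0 hm X
  have rA' : rho P.lam A' = rho P.lam Y := H3_rho hl0 hm Y
  set B := X3 P.lam (fun ρ => -P.sf ρ) A with hB
  set B' := X3 P.lam (fun ρ => -P.sf ρ) A' with hB'
  have rB : rho P.lam B = rho P.lam X := (X3_rho _ _ _).trans rA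
  have rB' : rho P.lam B' = rho P.lam Y := (X3_rho _ _ _).trans rA'
  set D := K3 P.lam P.af B with hD
  set D' := K3 P.lam P.af B' with hD'
  have rD : rho P.lam D = rho P.lam X := (K3_rho hl0 _ _).trans rB
  have rD' : rho P.lam D' = rho P.lam Y := (K3_rho hl0 _ _).trans rB'
  set F := X3 P.lam P.sf D with hF
  set F' := X3 P.lam P.sf D' with hF'
  have rF : rho P.lam F = rho P.lam X := (X3_rho _ _ _).trans rD
  have rF' : rho P.lam F' = rho P.lam Y := (X3_rho _ _ _).trans rD'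
  have h1 := H3_diff hP hX hY
  have h2 := X3_diff (P := P) (s := fun ρ => -P.sf ρ) (X := A) (Y := A')
    (fun r t => by
      rw [show -P.sf r - -P.sf t = -(P.sf r - P.sf t) by ring, abs_neg]
      exact sf_diff hP r t) (rA.trans_le hX)
  have h3 := K3_diff hC hka hP (X := B) (Y := B') (rB.trans_le hX) (rB'.trans_le hY)
  have h4 := X3_diff (P := P) (s := P.sf) (X := D) (Y := D') (sf_diff hP)
    (rD.trans_le hX)
  have h5 := H3i_diff hP (X := F) (Y := F') (rF.trans_le hX) (rF'.trans_le hY)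
  rw [rA, rA'] at h2
  rw [rB, rB'] at h3
  rw [rD, rD'] at h4
  rw [rF, rF'] at h5
  set q := |rho P.lam X - rho P.lam Y| / P.mu with hq
  have hq0 : 0 ≤ q := by positivity
  set e := 1 / P.mi * ‖X - Y‖ with he
  have he0 : 0 ≤ e := by positivity
  have h1' : ‖A - A'‖ ≤ 1000 * e + 61000 * q := by
    refine h1.trans (le_of_eq ?_)
    rw [he]; ring
  have h2' : ‖B - B'‖ ≤ 33000 * e + 2013032 * q := by
    change ‖B - B'‖ ≤ _ at h2
    linarith
  have h3' : ‖D - D'‖ ≤ C * (66000 * e + 4026075 * q) := by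
    change ‖D - D'‖ ≤ _ at h3
    refine h3.trans ?_
    nlinarith
  have h4' : ‖F - F'‖ ≤ C * (2178000 * e + 132860507 * q) := by
    change ‖F - F'‖ ≤ _ at h4
    refine h4.trans ?_
    nlinarith
  change ‖H3i P.lam P.mf F - H3i P.lam P.mf F'‖ ≤ _
  refine h5.trans ?_
  nlinarith [mul_nonneg (by linarith : (0:ℝ) ≤ C) he0, mul_nonneg (by linarith : (0:ℝ) ≤ C) hq0]

end LipF

open LipF

theorem Fpl_lip : ∃ C : ℝ, 1 ≤ C ∧ ∀ P : Par, P.Valid → ∀ X : E3, P.lam < ‖X‖ → ‖X‖ < 1 →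
    LipAt (C / P.mu) (Fpl P) X := by
  obtain ⟨C, hC, h⟩ := Fpl_diff
  refine ⟨2 * C, by linarith, ?_⟩
  intro P hP X _ hX1
  have hmu := hP.mu_pos
  have hmi : 0 < P.mi := lt_of_lt_of_le hmu hP.mu_le
  obtain ⟨-, hl⟩ := lam_bounds hP
  refine ⟨{Y | ‖Y‖ < 1}, (isOpen_lt continuous_norm continuous_const).mem_nhds hX1, ?_⟩
  intro a ha b hb
  rw [dist_eq_norm, dist_eq_norm]
  refine (h P hP a b (max_le (le_of_lt ha) hl) (max_le (le_of_lt hb) hl)).trans ?_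
  have h1 := rho_lip P.lam a b
  calc C * (1 / P.mi * ‖a - b‖ + |rho P.lam a - rho P.lam b| / P.mu)
      ≤ C * (1 / P.mu * ‖a - b‖ + ‖a - b‖ / P.mu) := by
        gcongr
        exact hP.mu_le
    _ = 2 * C / P.mu * ‖a - b‖ := by
        field_simp
        ring

theorem Fpl_lip_in : ∃ C : ℝ, 1 ≤ C ∧ ∀ P : Par, P.Valid → ∀ X : E3, ‖X‖ < P.lam →
    LipAt (C / P.mi) (Fpl P) X := by
  obtain ⟨C, hC, h⟩ := Fpl_diff
  refine ⟨C, hC, ?_⟩
  intro P hP X hX1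
  obtain ⟨-, hl⟩ := lam_bounds hP
  refine ⟨{Y | ‖Y‖ < P.lam}, (isOpen_lt continuous_norm continuous_const).mem_nhds hX1, ?_⟩
  intro a ha b hb
  have ea : rho P.lam a = P.lam := max_eq_right (le_of_lt ha)
  have eb : rho P.lam b = P.lam := max_eq_right (le_of_lt hb)
  rw [dist_eq_norm, dist_eq_norm]
  refine (h P hP a b (ea.trans_le hl) (eb.trans_le hl)).trans (le_of_eq ?_)
  rw [ea, eb, sub_self, abs_zero, zero_div, add_zero]
  ring

end Pool.Agent.JAC
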