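import Pool.Agent.Lib.MP_3b5712_an.Core

set_option autoImplicit false

open Filter Topology Set Real

namespace Pool.Agent.JAC

/-! TASK C1: square polar coordinates -/

theorem half_le_nrm (φ : ℝ) : 1 / 2 ≤ nrm φ := by
  unfold nrm
  by_contra h
  push Not at h
  have h1 := (le_max_left |Real.cos φ| |Real.sin φ|).trans_lt h
  have h2 := (le_max_right |Real.cos φ| |Real.sin φ|).trans_lt h
  have h3 := Real.sin_sq_add_cos_sq φ
  have h4 := sq_abs (Real.cos φ)
  have h5 := sq_abs (Real.sin φ)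
  have h6 := abs_nonneg (Real.cos φ)
  have h7 := abs_nonneg (Real.sin φ)
  nlinarith

theorem nrm_pos (φ : ℝ) : 0 < nrm φ := by
  have := half_le_nrm φ
  linarith

theorem nrm_le_one (φ : ℝ) : nrm φ ≤ 1 :=
  max_le (Real.abs_cos_le_one φ) (Real.abs_sin_le_one φ)

theorem norm_pol (r φ : ℝ) : ‖pol r φ‖ = |r| := by
  have hn := nrm_pos φ
  unfold pol
  rw [Prod.norm_def]
  simp only [Real.norm_eq_abs, abs_div, abs_mul]
  rw [abs_of_pos hn]
  have : max (|r| * |Real.cos φ| / nrm φ) (|r| * |Real.sin φ| / nrm φ)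
      = |r| * (max |Real.cos φ| |Real.sin φ|) / nrm φ := by
    rw [mul_max_of_nonneg _ _ (abs_nonneg r), max_div_div_right hn.le]
  rw [this]
  change |r| * nrm φ / nrm φ = |r|
  field_simp

theorem pol_zero (φ : ℝ) : pol 0 φ = 0 := by
  unfold pol; simp

theorem pol_smul (c r φ : ℝ) : pol (c * r) φ = c • pol r φ := by
  unfold pol
  ext <;> simp <;> ring

theorem norm_E2_eq (w : E2) : ‖w‖ = max |w.1| |w.2| := by
  rw [Prod.norm_def, Real.norm_eq_abs, Real.norm_eq_abs]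

/-- Euclidean norm of a planar vector as a complex number -/
theorem pol_ang (w : E2) : pol ‖w‖ (ang w) = w := by
  by_cases hw : w = 0
  · subst hw; simp [pol_zero]
  have hne : (⟨w.1, w.2⟩ : ℂ) ≠ 0 := by
    intro h
    apply hw
    have h1 := congrArg Complex.re h
    have h2 := congrArg Complex.im h
    simp at h1 h2
    ext <;> simp [h1, h2]
  set z : ℂ := ⟨w.1, w.2⟩ with hz
  have hpos : 0 < ‖z‖ := norm_pos_iff.mpr hne
  have hc : Real.cos (ang w) = w.1 / ‖z‖ := by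
    unfold ang
    rw [Complex.cos_arg hne]
  have hs : Real.sin (ang w) = w.2 / ‖z‖ := by
    unfold ang
    rw [Complex.sin_arg]
  have hn : nrm (ang w) = ‖w‖ / ‖z‖ := by
    unfold nrm
    rw [hc, hs, abs_div, abs_div, abs_of_pos hpos, max_div_div_right hpos.le, norm_E2_eq]
  have hw' : 0 < ‖w‖ := norm_pos_iff.mpr hw
  unfold pol
  rw [hn, hc, hs]
  ext
  · simp only; field_simp
  · simp only; field_simp

theorem nrm_add_int (φ : ℝ) (n : ℤ) : nrm (φ + n * (2 * π)) = nrm φ := by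
  unfold nrm
  rw [Real.cos_add_int_mul_two_pi, Real.sin_add_int_mul_two_pi]

theorem pol_add_int (r φ : ℝ) (n : ℤ) : pol r (φ + n * (2 * π)) = pol r φ := by
  unfold pol
  rw [nrm_add_int, Real.cos_add_int_mul_two_pi, Real.sin_add_int_mul_two_pi]

/-- if the unit directions are proportional with positive factors they are equal -/
theorem cos_sin_of_pol_eq {r φ ψ : ℝ} (hr : 0 < r) (h : pol r φ = pol r ψ) :
    Real.cos φ = Real.cos ψ ∧ Real.sin φ = Real.sin ψ := by
  have hn := nrm_pos φ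
  have hm := nrm_pos ψ
  unfold pol at h
  have h1 := congrArg Prod.fst h
  have h2 := congrArg Prod.snd h
  simp only at h1 h2
  have h1' : Real.cos φ * nrm ψ = Real.cos ψ * nrm φ := by
    rw [div_eq_div_iff hn.ne' hm.ne'] at h1
    have : r * (Real.cos φ * nrm ψ) = r * (Real.cos ψ * nrm φ) := by linarith
    exact mul_left_cancel₀ hr.ne' this
  have h2' : Real.sin φ * nrm ψ = Real.sin ψ * nrm φ := by
    rw [div_eq_div_iff hn.ne' hm.ne'] at h2
    have : r * (Real.sin φ * nrm ψ) = r * (Real.sin ψ * nrm φ) := by linarith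
    exact mul_left_cancel₀ hr.ne' this
  have h3 := Real.sin_sq_add_cos_sq φ
  have h4 := Real.sin_sq_add_cos_sq ψ
  have h5 : nrm ψ ^ 2 = nrm φ ^ 2 := by
    have e1 : (Real.cos φ * nrm ψ) ^ 2 + (Real.sin φ * nrm ψ) ^ 2 = nrm ψ ^ 2 := by
      have : (Real.cos φ * nrm ψ) ^ 2 + (Real.sin φ * nrm ψ) ^ 2
        = (Real.sin φ ^ 2 + Real.cos φ ^ 2) * nrm ψ ^ 2 := by ring
      rw [this, h3, one_mul]
    have e2 : (Real.cos ψ * nrm φ) ^ 2 + (Real.sin ψ * nrm φ) ^ 2 = nrm φ ^ 2 := by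
      have : (Real.cos ψ * nrm φ) ^ 2 + (Real.sin ψ * nrm φ) ^ 2
        = (Real.sin ψ ^ 2 + Real.cos ψ ^ 2) * nrm φ ^ 2 := by ring
      rw [this, h4, one_mul]
    rw [← e1, ← e2, h1', h2']
  have h6 : nrm ψ = nrm φ := by
    exact (pow_left_inj₀ hm.le hn.le two_ne_zero).mp h5
  rw [h6] at h1' h2'
  exact ⟨mul_right_cancel₀ hn.ne' h1', mul_right_cancel₀ hn.ne' h2'⟩

theorem pol_inj {r φ ψ : ℝ} (hr : 0 < r) (h : pol r φ = pol r ψ) :
    ∃ n : ℤ, φ = ψ + n * (2 * π) := by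
  obtain ⟨hc, hs⟩ := cos_sin_of_pol_eq hr h
  have h1 : Real.cos (φ - ψ) = 1 := by
    rw [Real.cos_sub, hc, hs]
    have := Real.sin_sq_add_cos_sq ψ
    nlinarith
  obtain ⟨n, hn⟩ := (Real.cos_eq_one_iff _).mp h1
  exact ⟨n, by linarith⟩

theorem abs_nrm_sub (φ ψ : ℝ) : |nrm φ - nrm ψ| ≤ |φ - ψ| := by
  unfold nrm
  refine (abs_max_sub_max_le_max _ _ _ _).trans ?_
  apply max_le
  · refine (abs_abs_sub_abs_le_abs_sub _ _).trans ?_
    have := Real.abs_cos_sub_cos_le φ ψ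
    exact this
  · refine (abs_abs_sub_abs_le_abs_sub _ _).trans ?_
    have := Real.abs_sin_sub_sin_le φ ψ
    exact this

theorem abs_div_nrm_sub {a b φ ψ : ℝ} (hab : |a - b| ≤ |φ - ψ|) (hb : |b| ≤ nrm ψ) :
    |a / nrm φ - b / nrm ψ| ≤ 4 * |φ - ψ| := by
  have hn := nrm_pos φ
  have hm := nrm_pos ψ
  have hn2 := half_le_nrm φ
  have h1 : a / nrm φ - b / nrm ψ = (a - b) / nrm φ + (b / nrm ψ) * ((nrm ψ - nrm φ) / nrm φ) := by
    field_simp; ring
  rw [h1]
  have h2 : |(a - b) / nrm φ| ≤ 2 * |φ - ψ| := by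
    rw [abs_div, abs_of_pos hn, div_le_iff₀ hn]
    have h0 := abs_nonneg (φ - ψ)
    nlinarith
  have h3 : |b / nrm ψ| ≤ 1 := by
    rw [abs_div, abs_of_pos hm, div_le_one hm]
    exact hb
  have h4 : |(nrm ψ - nrm φ) / nrm φ| ≤ 2 * |φ - ψ| := by
    rw [abs_div, abs_of_pos hn, div_le_iff₀ hn, abs_sub_comm]
    have h0 := abs_nonneg (φ - ψ)
    have h5 := abs_nrm_sub φ ψ
    nlinarith
  calc |(a - b) / nrm φ + (b / nrm ψ) * ((nrm ψ - nrm φ) / nrm φ)|
      ≤ |(a - b) / nrm φ| + |(b / nrm ψ) * ((nrm ψ - nrm φ) / nrm φ)| := abs_add_le _ _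
    _ = |(a - b) / nrm φ| + |b / nrm ψ| * |(nrm ψ - nrm φ) / nrm φ| := by rw [abs_mul]
    _ ≤ 2 * |φ - ψ| + 1 * (2 * |φ - ψ|) := by gcongr
    _ = 4 * |φ - ψ| := by ring

/-- the unit curve is 4-Lipschitz -/
theorem pol_one_lip (φ ψ : ℝ) : ‖pol 1 φ - pol 1 ψ‖ ≤ 4 * |φ - ψ| := by
  rw [norm_E2_eq]
  unfold pol
  simp only [one_mul, Prod.fst_sub, Prod.snd_sub]
  apply max_le
  · exact abs_div_nrm_sub (Real.abs_cos_sub_cos_le φ ψ) (le_max_left _ _)
  · exact abs_div_nrm_sub (Real.abs_sin_sub_sin_le φ ψ) (le_max_right _ _)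

theorem pol_eq_smul (r φ : ℝ) : pol r φ = r • pol 1 φ := by
  rw [← pol_smul, mul_one]

theorem pol_lip_right (r r' φ φ' : ℝ) :
    ‖pol r φ - pol r' φ'‖ ≤ |r - r'| + 4 * |r'| * |φ - φ'| := by
  rw [pol_eq_smul r φ, pol_eq_smul r' φ']
  have h1 : r • pol 1 φ - r' • pol 1 φ' = (r - r') • pol 1 φ + r' • (pol 1 φ - pol 1 φ') := by
    rw [sub_smul, smul_sub]; abel
  rw [h1]
  refine (norm_add_le _ _).trans ?_
  rw [norm_smul, norm_smul, norm_pol, Real.norm_eq_abs, Real.norm_eq_abs, abs_one, mul_one]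
  have h2 := pol_one_lip φ φ'
  have h3 := abs_nonneg r'
  nlinarith

theorem pol_lip (r r' φ φ' : ℝ) :
    ‖pol r φ - pol r' φ'‖ ≤ |r - r'| + 4 * min |r| |r'| * |φ - φ'| := by
  rcases le_total |r| |r'| with h | h
  · rw [min_eq_left h, norm_sub_rev, abs_sub_comm r r', abs_sub_comm φ φ']
    exact pol_lip_right r' r φ' φ
  · rw [min_eq_right h]
    exact pol_lip_right r r' φ φ'

theorem continuous_pol : Continuous (fun p : ℝ × ℝ => pol p.1 p.2) := by
  have hn : Continuous nrm := by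
    unfold nrm
    exact (Real.continuous_cos.abs).max (Real.continuous_sin.abs)
  unfold pol
  apply Continuous.prodMk
  · exact (continuous_fst.mul (Real.continuous_cos.comp continuous_snd)).div
      (hn.comp continuous_snd) (fun p => (nrm_pos p.2).ne')
  · exact (continuous_fst.mul (Real.continuous_sin.comp continuous_snd)).div
      (hn.comp continuous_snd) (fun p => (nrm_pos p.2).ne')

/-- chord estimate -/
theorem chord {φ ψ : ℝ} (h : |φ - ψ| ≤ π) :
    |φ - ψ| ≤ π / 2 * (|Real.cos φ - Real.cos ψ| + |Real.sin φ - Real.sin ψ|) := by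
  have h1 : (Real.cos φ - Real.cos ψ) ^ 2 + (Real.sin φ - Real.sin ψ) ^ 2
      = (2 * Real.sin ((φ - ψ) / 2)) ^ 2 := by
    have e1 : Real.cos (φ - ψ) = Real.cos φ * Real.cos ψ + Real.sin φ * Real.sin ψ :=
      Real.cos_sub _ _
    have e2 : Real.sin ((φ - ψ) / 2) ^ 2 = (1 - Real.cos (φ - ψ)) / 2 := by
      have := Real.sin_sq_eq_half_sub ((φ - ψ) / 2)
      rw [this]
      have e3 : 2 * ((φ - ψ) / 2) = φ - ψ := by ring
      rw [e3]; ring
    have e4 := Real.sin_sq_add_cos_sq φ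
    have e5 := Real.sin_sq_add_cos_sq ψ
    rw [mul_pow, e2, e1]
    nlinarith
  have h2 : 2 / π * (|φ - ψ| / 2) ≤ Real.sin (|φ - ψ| / 2) := by
    apply Real.mul_le_sin (by positivity)
    linarith
  have h3 : Real.sin (|φ - ψ| / 2) = |Real.sin ((φ - ψ) / 2)| := by
    rcases le_total 0 (φ - ψ) with h0 | h0
    · rw [abs_of_nonneg h0, abs_of_nonneg]
      apply Real.sin_nonneg_of_nonneg_of_le_pi
      · linarith
      · rw [abs_of_nonneg h0] at h; linarith [Real.pi_pos]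
    · have e : |φ - ψ| / 2 = -((φ - ψ) / 2) := by rw [abs_of_nonpos h0]; ring
      rw [e, Real.sin_neg, abs_of_nonpos]
      have : 0 ≤ Real.sin (-((φ - ψ) / 2)) := by
        apply Real.sin_nonneg_of_nonneg_of_le_pi
        · linarith
        · rw [abs_of_nonpos h0] at h; linarith [Real.pi_pos]
      rw [Real.sin_neg] at this
      linarith
  have h4 : |2 * Real.sin ((φ - ψ) / 2)| ≤ |Real.cos φ - Real.cos ψ| + |Real.sin φ - Real.sin ψ| := by
    apply abs_le_of_sq_le_sq _ (by positivity)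
    rw [← h1]
    have := mul_nonneg (abs_nonneg (Real.cos φ - Real.cos ψ)) (abs_nonneg (Real.sin φ - Real.sin ψ))
    have e1 := sq_abs (Real.cos φ - Real.cos ψ)
    have e2 := sq_abs (Real.sin φ - Real.sin ψ)
    nlinarith
  rw [abs_mul, abs_two, ← h3] at h4
  have hpi := Real.pi_pos
  have h5 : |φ - ψ| / π ≤ Real.sin (|φ - ψ| / 2) := by
    calc |φ - ψ| / π = 2 / π * (|φ - ψ| / 2) := by field_simp
      _ ≤ _ := h2
  rw [div_le_iff₀ hpi] at h5
  nlinarith

/-- lifting of nearby points to nearby angles -/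
theorem ang_lift {w : E2} (w' : E2) (hw : w ≠ 0) {φ : ℝ} (h : w = pol ‖w‖ φ) :
    ∃ φ', w' = pol ‖w'‖ φ' ∧ |φ - φ'| ≤ 8 * ‖w - w'‖ / ‖w‖ := by
  have hr : 0 < ‖w‖ := norm_pos_iff.mpr hw
  by_cases hw' : w' = 0
  · refine ⟨φ, by rw [hw', norm_zero, pol_zero], ?_⟩
    rw [sub_self, abs_zero]; positivity
  have hr' : 0 < ‖w'‖ := norm_pos_iff.mpr hw'
  have hpi := Real.pi_pos
  set k : ℤ := round ((φ - ang w') / (2 * π)) with hk
  set φ' : ℝ := ang w' + k * (2 * π) with hφ'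
  have hφ'w : w' = pol ‖w'‖ φ' := by rw [hφ', pol_add_int, pol_ang]
  have hle : |φ - φ'| ≤ π := by
    have h1 := abs_sub_round ((φ - ang w') / (2 * π))
    rw [← hk] at h1
    have h2 : φ - φ' = ((φ - ang w') / (2 * π) - k) * (2 * π) := by
      rw [hφ']; field_simp; ring
    rw [h2, abs_mul, abs_of_pos (by positivity : (0:ℝ) < 2 * π)]
    nlinarith
  refine ⟨φ', hφ'w, ?_⟩
  have hch := chord hle
  set d := ‖w - w'‖ with hd
  have hn := nrm_pos φ
  have hn1 := nrm_le_one φ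
  have hn' := nrm_pos φ'
  set R := ‖w‖ / nrm φ with hR
  set R' := ‖w'‖ / nrm φ' with hR'
  have hRpos : 0 < R := div_pos hr hn
  have hR'pos : 0 < R' := div_pos hr' hn'
  have hRr : ‖w‖ ≤ R := by
    rw [hR, le_div_iff₀ hn]; nlinarith
  have e1 : w.1 = R * Real.cos φ := by
    conv_lhs => rw [h]
    simp only [pol]; rw [hR]; ring
  have e2 : w.2 = R * Real.sin φ := by
    conv_lhs => rw [h]
    simp only [pol]; rw [hR]; ring
  have e1' : w'.1 = R' * Real.cos φ' := by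
    conv_lhs => rw [hφ'w]
    simp only [pol]; rw [hR']; ring
  have e2' : w'.2 = R' * Real.sin φ' := by
    conv_lhs => rw [hφ'w]
    simp only [pol]; rw [hR']; ring
  have d1 : |w.1 - w'.1| ≤ d := by
    rw [hd, norm_E2_eq]; exact le_max_left _ _
  have d2 : |w.2 - w'.2| ≤ d := by
    rw [hd, norm_E2_eq]; exact le_max_right _ _
  have hd0 : 0 ≤ d := norm_nonneg _
  have s1 := Real.sin_sq_add_cos_sq φ
  have s2 := Real.sin_sq_add_cos_sq φ'
  -- difference of the Euclidean norms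
  have hRR : (R - R') ^ 2 ≤ 2 * d ^ 2 := by
    have a1 : (w.1 - w'.1) ^ 2 ≤ d ^ 2 := sq_le_sq' (by linarith [neg_abs_le (w.1 - w'.1)])
      ((le_abs_self _).trans d1)
    have a2 : (w.2 - w'.2) ^ 2 ≤ d ^ 2 := sq_le_sq' (by linarith [neg_abs_le (w.2 - w'.2)])
      ((le_abs_self _).trans d2)
    rw [e1, e1'] at a1
    rw [e2, e2'] at a2
    have a3 : Real.cos φ * Real.cos φ' + Real.sin φ * Real.sin φ' ≤ 1 := by
      rw [← Real.cos_sub]; exact Real.cos_le_one _
    have a4 : 0 ≤ R * R' * (1 - (Real.cos φ * Real.cos φ' + Real.sin φ * Real.sin φ')) :=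
      mul_nonneg (by positivity) (by linarith)
    have a5 : (R * Real.cos φ - R' * Real.cos φ') ^ 2 + (R * Real.sin φ - R' * Real.sin φ') ^ 2
        = R ^ 2 * (Real.sin φ ^ 2 + Real.cos φ ^ 2) + R' ^ 2 * (Real.sin φ' ^ 2 + Real.cos φ' ^ 2)
          - 2 * (R * R') * (Real.cos φ * Real.cos φ' + Real.sin φ * Real.sin φ') := by ring
    rw [s1, s2] at a5
    nlinarith
  have ht : (|Real.cos φ'| + |Real.sin φ'|) ^ 2 ≤ 2 := by
    have b1 := sq_abs (Real.cos φ')
    have b2 := sq_abs (Real.sin φ')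
    nlinarith [sq_nonneg (|Real.cos φ'| - |Real.sin φ'|)]
  have hst : |R - R'| * (|Real.cos φ'| + |Real.sin φ'|) ≤ 2 * d := by
    apply le_of_sq_le_sq _ (by positivity)
    rw [mul_pow, sq_abs]
    have := mul_le_mul hRR ht (by positivity) (by positivity)
    linarith [this, (by ring : 2 * d ^ 2 * 2 = (2 * d) ^ 2)]
  have c1 : R * |Real.cos φ - Real.cos φ'| ≤ d + |R - R'| * |Real.cos φ'| := by
    have : R * (Real.cos φ - Real.cos φ') = (w.1 - w'.1) - (R - R') * Real.cos φ' := by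
      rw [e1, e1']; ring
    rw [← abs_of_pos hRpos, ← abs_mul, abs_of_pos hRpos, this]
    refine (abs_sub _ _).trans ?_
    rw [abs_mul]; linarith
  have c2 : R * |Real.sin φ - Real.sin φ'| ≤ d + |R - R'| * |Real.sin φ'| := by
    have : R * (Real.sin φ - Real.sin φ') = (w.2 - w'.2) - (R - R') * Real.sin φ' := by
      rw [e2, e2']; ring
    rw [← abs_of_pos hRpos, ← abs_mul, abs_of_pos hRpos, this]
    refine (abs_sub _ _).trans ?_
    rw [abs_mul]; linarith
  have c3 : R * (|Real.cos φ - Real.cos φ'| + |Real.sin φ - Real.sin φ'|) ≤ 4 * d := by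
    nlinarith
  have c4 : R * |φ - φ'| ≤ 8 * d := by
    have hpi4 := Real.pi_le_four
    have := mul_le_mul_of_nonneg_left hch hRpos.le
    have h6 : R * (π / 2 * (|Real.cos φ - Real.cos φ'| + |Real.sin φ - Real.sin φ'|))
        = π / 2 * (R * (|Real.cos φ - Real.cos φ'| + |Real.sin φ - Real.sin φ'|)) := by ring
    rw [h6] at this
    nlinarith
  rw [le_div_iff₀ hr]
  have := mul_le_mul_of_nonneg_right hRr (abs_nonneg (φ - φ'))
  linarith [mul_comm |φ - φ'| ‖w‖]

/-- values on the right side, left side, upper side, lower side -/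
theorem pol_neg (r φ : ℝ) : pol r (-φ) = ((pol r φ).1, -(pol r φ).2) := by
  have : nrm (-φ) = nrm φ := by unfold nrm; simp
  unfold pol
  rw [this, Real.cos_neg, Real.sin_neg]
  ext <;> simp [neg_div]

theorem pol_pi_sub (r φ : ℝ) : pol r (π - φ) = (-(pol r φ).1, (pol r φ).2) := by
  have : nrm (π - φ) = nrm φ := by unfold nrm; simp
  unfold pol
  rw [this, Real.cos_pi_sub, Real.sin_pi_sub]
  ext <;> simp [neg_div]

theorem pol_add_pi (r φ : ℝ) : pol r (φ + π) = -(pol r φ) := by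
  have : nrm (φ + π) = nrm φ := by unfold nrm; simp
  unfold pol
  rw [this, Real.cos_add_pi, Real.sin_add_pi]
  ext <;> simp [neg_div]

theorem pol_add_half (r φ : ℝ) : pol r (φ + π / 2) = (-(pol r φ).2, (pol r φ).1) := by
  have : nrm (φ + π / 2) = nrm φ := by
    unfold nrm
    rw [Real.cos_add_pi_div_two, Real.sin_add_pi_div_two, abs_neg, max_comm]
  unfold pol
  rw [this, Real.cos_add_pi_div_two, Real.sin_add_pi_div_two]
  ext <;> simp [neg_div]

/-- angles of the vectors near the positive x-axis -/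
theorem exists_small_angle {w : E2} (h1 : 0 ≤ w.1) (h2 : |w.2| ≤ 3 / 8 * w.1) :
    ∃ φ, |φ| ≤ π / 8 ∧ w = pol ‖w‖ φ := by
  refine ⟨ang w, ?_, (pol_ang w).symm⟩
  have hpi3 := Real.pi_gt_three
  rcases eq_or_lt_of_le h1 with h0 | h0
  · have hw2 : w.2 = 0 := by
      rw [← h0] at h2
      have := abs_nonneg w.2
      exact abs_eq_zero.mp (by linarith)
    have : ang w = 0 := by
      unfold ang
      rw [← h0, hw2]
      have : (⟨0, 0⟩ : ℂ) = 0 := rfl
      rw [this, Complex.arg_zero]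
    rw [this, abs_zero]; positivity
  have hlt : |ang w| < π / 2 := by
    unfold ang
    rw [Complex.abs_arg_lt_pi_div_two_iff]
    exact Or.inl h0
  have htan : Real.tan (ang w) = w.2 / w.1 := by
    unfold ang
    rw [Complex.tan_arg]
  have h3 : |w.2 / w.1| ≤ 3 / 8 := by
    rw [abs_div, abs_of_pos h0, div_le_iff₀ h0]; exact h2
  rw [← htan] at h3
  rw [abs_lt] at hlt
  rcases le_total 0 (ang w) with h4 | h4
  · have h5 := Real.le_tan h4 hlt.2
    rw [abs_of_nonneg h4]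
    have := (le_abs_self _).trans h3
    linarith
  · have h5 := Real.le_tan (neg_nonneg.mpr h4) (by linarith)
    rw [Real.tan_neg] at h5
    rw [abs_of_nonpos h4]
    have := (neg_le_abs _).trans h3
    linarith

end Pool.Agent.JAC
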