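import Pool.Agent.Lib.MP_3b5712_an.Rot

set_option autoImplicit false

open Filter Topology Set Real

namespace Pool.Agent.JAC

/-! TASK D1: the triangle wave and ring maps of degree -3 -/

theorem circle_norm_le (x : ℝ) : ‖(x : AddCircle (2 * π))‖ ≤ |x| := by
  rw [AddCircle.norm_eq]
  by_contra hcon
  push Not at hcon
  have hp : (0 : ℝ) < 2 * π := by positivity
  have h2 : x - round ((2 * π)⁻¹ * x) * (2 * π) =
      2 * π * ((2 * π)⁻¹ * x - round ((2 * π)⁻¹ * x)) := by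
    field_simp
  have h3 : |(2 * π)⁻¹ * x - round ((2 * π)⁻¹ * x)| ≤ |(2 * π)⁻¹ * x| := by
    have := round_le ((2 * π)⁻¹ * x) 0
    simpa using this
  rw [h2, abs_mul, abs_of_pos hp] at hcon
  have h4 : 2 * π * |(2 * π)⁻¹ * x| = |x| := by
    rw [abs_mul, abs_of_pos (by positivity : (0:ℝ) < (2 * π)⁻¹)]
    field_simp
  nlinarith

theorem delta_lip (x y : ℝ) : |delta x - delta y| ≤ 2 * |x - y| := by
  unfold delta
  have h1 := abs_norm_sub_norm_le ((4 * x + π / 2 : ℝ) : AddCircle (2 * π))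
    ((4 * y + π / 2 : ℝ) : AddCircle (2 * π))
  have h2 : (((4 * x + π / 2 : ℝ) : AddCircle (2 * π)) - ((4 * y + π / 2 : ℝ) : AddCircle (2 * π))) =
      ((4 * (x - y) : ℝ) : AddCircle (2 * π)) := by
    rw [← AddCircle.coe_sub]
    congr 1
    ring
  rw [h2] at h1
  have h3 := circle_norm_le (4 * (x - y))
  rw [abs_mul, abs_of_pos (by norm_num : (0:ℝ) < 4)] at h3
  have h4 : (‖((4 * x + π / 2 : ℝ) : AddCircle (2 * π))‖ - π / 2) / 2 -
      (‖((4 * y + π / 2 : ℝ) : AddCircle (2 * π))‖ - π / 2) / 2 =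
      (‖((4 * x + π / 2 : ℝ) : AddCircle (2 * π))‖ -
        ‖((4 * y + π / 2 : ℝ) : AddCircle (2 * π))‖) / 2 := by ring
  rw [h4, abs_div, abs_of_pos (by norm_num : (0:ℝ) < 2)]
  linarith

theorem delta_half (x : ℝ) : delta (x + π / 2) = delta x := by
  unfold delta
  have h1 : ((4 * (x + π / 2) + π / 2 : ℝ) : AddCircle (2 * π)) =
      ((4 * x + π / 2 : ℝ) : AddCircle (2 * π)) := by
    have h2 : 4 * (x + π / 2) + π / 2 = (4 * x + π / 2) + 2 * π := by ring
    rw [h2, AddCircle.coe_add_period]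
  rw [h1]

theorem delta_int (x : ℝ) (n : ℤ) : delta (x + n * (2 * π)) = delta x := by
  have h1 : Function.Periodic delta (π / 2) := delta_half
  have h2 := h1.int_mul (4 * n) x
  rw [← h2]
  congr 1
  push_cast
  ring

theorem delta_small {x : ℝ} (h : |x| ≤ π / 8) : delta x = 2 * x := by
  unfold delta
  have hπ := Real.pi_pos
  obtain ⟨h1, h2⟩ := abs_le.1 h
  have h3 : ‖((4 * x + π / 2 : ℝ) : AddCircle (2 * π))‖ = |4 * x + π / 2| := by
    rw [AddCircle.norm_coe_eq_abs_iff _ (by positivity)]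
    rw [abs_of_pos (by positivity : (0:ℝ) < 2 * π), abs_le]
    constructor <;> linarith
  rw [h3, abs_of_nonneg (by linarith)]
  ring

/-- `2π`-periodic and `2`-Lipschitz -/
structure Circ (D : ℝ → ℝ) : Prop where
  per : ∀ φ, D (φ + 2 * π) = D φ
  lip : ∀ x y, |D x - D y| ≤ 2 * |x - y|

theorem circ_delta : Circ delta := ⟨fun φ => by
  have := delta_int φ 1
  simpa using this, delta_lip⟩

theorem Circ.int {D : ℝ → ℝ} (h : Circ D) (φ : ℝ) (n : ℤ) : D (φ + n * (2 * π)) = D φ := by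
  have h1 : Function.Periodic D (2 * π) := h.per
  exact h1.int_mul n φ

theorem norm_ring (D : ℝ → ℝ) (w : E2) : ‖ring D w‖ = ‖w‖ := by
  unfold ring
  rw [norm_pol, abs_of_nonneg (norm_nonneg w)]

theorem ring_zero (D : ℝ → ℝ) : ring D 0 = 0 := by
  have := norm_ring D 0
  rw [norm_zero, norm_eq_zero] at this
  exact this

theorem norm_pol' {r : ℝ} (hr : 0 ≤ r) (φ : ℝ) : ‖pol r φ‖ = r := by
  rw [norm_pol, abs_of_nonneg hr]

theorem ring_pol {D : ℝ → ℝ} (h : Circ D) {r : ℝ} (hr : 0 ≤ r) (φ : ℝ) :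
    ring D (pol r φ) = pol r (-3 * φ + D φ) := by
  rcases hr.eq_or_lt with h0 | h0
  · rw [← h0, pol_zero, pol_zero, ring_zero]
  · obtain ⟨n, hn⟩ := pol_inj (φ := φ) (ψ := ang (pol r φ)) h0 (by
      have := pol_ang (pol r φ)
      rw [norm_pol' hr] at this
      exact this.symm)
    unfold ring
    rw [norm_pol' hr]
    have h1 : D φ = D (ang (pol r φ)) := by
      conv_lhs => rw [hn]
      exact h.int _ n
    have h2 : -3 * φ + D φ = (-3 * ang (pol r φ) + D (ang (pol r φ))) +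
        ((-3 * n : ℤ) : ℝ) * (2 * π) := by
      rw [h1]
      nth_rw 1 [hn]
      push_cast
      ring
    rw [h2, pol_add_int]

/-- the angle map -/
theorem psi_bounds {D : ℝ → ℝ} (h : Circ D) {x y : ℝ} (hxy : x ≤ y) :
    (-3 * y + D y) ≤ (-3 * x + D x) - (y - x) ∧
      (-3 * x + D x) - 5 * (y - x) ≤ (-3 * y + D y) := by
  have h1 := h.lip y x
  rw [abs_of_nonneg (by linarith : 0 ≤ y - x)] at h1
  obtain ⟨h2, h3⟩ := abs_le.1 h1
  constructor <;> linarith

theorem psi_inj {D : ℝ → ℝ} (h : Circ D) {x y : ℝ} (hxy : -3 * x + D x = -3 * y + D y) :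
    x = y := by
  rcases le_total x y with h1 | h1
  · have := (psi_bounds h h1).1
    linarith
  · have := (psi_bounds h h1).1
    linarith

theorem Circ.continuous {D : ℝ → ℝ} (h : Circ D) : Continuous D := by
  have h1 : LipschitzWith 2 D := LipschitzWith.of_dist_le_mul (fun x y => by
    rw [Real.dist_eq, Real.dist_eq]
    exact h.lip x y)
  exact h1.continuous

theorem psi_solve {D : ℝ → ℝ} (h : Circ D) {a b z : ℝ} (hab : a ≤ b)
    (h1 : z ≤ -3 * a + D a) (h2 : -3 * b + D b ≤ z) :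
    ∃ x, a ≤ x ∧ x ≤ b ∧ -3 * x + D x = z := by
  have hc : ContinuousOn (fun x => -(-3 * x + D x)) (Icc a b) := by
    have := h.continuous
    fun_prop
  have h3 := intermediate_value_Icc hab hc
  obtain ⟨x, hx, hx2⟩ := h3 (show -z ∈ Icc (-(-3 * a + D a)) (-(-3 * b + D b)) from
    ⟨by linarith, by linarith⟩)
  exact ⟨x, hx.1, hx.2, by
    have : -(-3 * x + D x) = -z := hx2
    linarith⟩

theorem ang_mem (w : E2) : -π < ang w ∧ ang w ≤ π :=
  ⟨Complex.neg_pi_lt_arg _, Complex.arg_le_pi _⟩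

theorem ring_fin {D : ℝ → ℝ} (h : Circ D) (v : E2) : (ring D ⁻¹' {v}).Finite := by
  by_cases hv : v = 0
  · apply (Set.finite_singleton (0 : E2)).subset
    intro w hw
    have h1 : ring D w = v := hw
    have h2 := norm_ring D w
    rw [h1, hv, norm_zero] at h2
    rw [mem_singleton_iff]
    exact norm_eq_zero.1 h2.symm
  · have hv0 : 0 < ‖v‖ := norm_pos_iff.2 hv
    have hπ := Real.pi_pos
    -- bound of the angle map
    obtain ⟨B, hB⟩ : ∃ B : ℝ, ∀ φ, -π ≤ φ → φ ≤ π → |(-3 * φ + D φ)| ≤ B := by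
      refine ⟨|(-3 * (-π) + D (-π))| + 5 * (2 * π), fun φ h1 h2 => ?_⟩
      obtain ⟨h3, h4⟩ := psi_bounds h h1
      have h5 := neg_abs_le (-3 * (-π) + D (-π))
      have h6 := le_abs_self (-3 * (-π) + D (-π))
      rw [abs_le]
      constructor <;> linarith
    obtain ⟨N, hN⟩ := exists_nat_ge (B + |ang v|)
    let g : ℤ → E2 := fun n =>
      pol ‖v‖ (Function.invFun (fun x => -3 * x + D x) (ang v + n * (2 * π)))
    apply ((Finset.finite_toSet (Finset.Icc (-(N : ℤ)) N)).image g).subset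
    intro w hw
    have h1 : ring D w = v := hw
    have h2 : ‖w‖ = ‖v‖ := by rw [← h1, norm_ring]
    have h3 : pol ‖v‖ (-3 * ang w + D (ang w)) = pol ‖v‖ (ang v) := by
      rw [pol_ang v, ← h2]
      exact h1
    obtain ⟨n, hn⟩ := pol_inj hv0 h3
    refine ⟨n, ?_, ?_⟩
    · obtain ⟨h4, h5⟩ := ang_mem w
      have h6 := hB (ang w) h4.le h5
      rw [hn] at h6
      have h7 : |(n : ℝ) * (2 * π)| ≤ N := by
        have : (n : ℝ) * (2 * π) = (ang v + n * (2 * π)) - ang v := by ring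
        rw [this]
        exact ((abs_sub _ _).trans (by linarith)).trans hN
      have h8 : |(n : ℝ)| ≤ N := by
        rw [abs_mul, abs_of_pos (by positivity : (0:ℝ) < 2 * π)] at h7
        have h9 : (3 : ℝ) < π := Real.pi_gt_three
        nlinarith [abs_nonneg (n : ℝ)]
      obtain ⟨h9, h10⟩ := abs_le.1 h8
      rw [Finset.mem_coe, Finset.mem_Icc]
      constructor
      · exact_mod_cast h9
      · exact_mod_cast h10
    · show pol ‖v‖ (Function.invFun (fun x => -3 * x + D x) (ang v + n * (2 * π))) = w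
      have hinj : Function.Injective (fun x => -3 * x + D x) := fun x y hxy => psi_inj h hxy
      rw [← hn]
      have h4 : Function.invFun (fun x => -3 * x + D x) (-3 * ang w + D (ang w)) = ang w :=
        Function.leftInverse_invFun hinj (ang w)
      rw [h4, ← h2, pol_ang]

theorem ring_lip {D D' : ℝ → ℝ} (h : Circ D) (h' : Circ D') {e : ℝ}
    (he : ∀ φ, |D φ - D' φ| ≤ e) (w w' : E2) :
    ‖ring D w - ring D' w'‖ ≤ 161 * ‖w - w'‖ + 4 * min ‖w‖ ‖w'‖ * e := by
  have he0 : 0 ≤ e := (abs_nonneg _).trans (he 0)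
  have hm0 : 0 ≤ min ‖w‖ ‖w'‖ := le_min (norm_nonneg _) (norm_nonneg _)
  by_cases hw : w = 0
  · rw [hw, ring_zero, zero_sub, norm_neg, norm_ring, zero_sub, norm_neg]
    have : 0 ≤ 4 * min ‖(0 : E2)‖ ‖w'‖ * e := by
      have : 0 ≤ min ‖(0 : E2)‖ ‖w'‖ := le_min (norm_nonneg _) (norm_nonneg _)
      positivity
    have := norm_nonneg w'
    linarith
  · have hw0 : 0 < ‖w‖ := norm_pos_iff.2 hw
    obtain ⟨φ', h1, h2⟩ := ang_lift w' hw (pol_ang w).symm
    have h3 : ring D w = pol ‖w‖ (-3 * ang w + D (ang w)) := rfl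
    have h4 : ring D' w' = pol ‖w'‖ (-3 * φ' + D' φ') := by
      rw [h1]
      rw [ring_pol h' (norm_nonneg w')]
      rw [norm_pol' (norm_nonneg w')]
    rw [h3, h4]
    refine (pol_lip _ _ _ _).trans ?_
    rw [abs_of_nonneg (norm_nonneg w), abs_of_nonneg (norm_nonneg w')]
    have h5 : |‖w‖ - ‖w'‖| ≤ ‖w - w'‖ := abs_norm_sub_norm_le w w'
    have h6 : |(-3 * ang w + D (ang w)) - (-3 * φ' + D' φ')| ≤ 5 * |ang w - φ'| + e := by
      have h7 := h.lip (ang w) φ'
      have h8 := he φ'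
      have h9 : (-3 * ang w + D (ang w)) - (-3 * φ' + D' φ') =
          (-3) * (ang w - φ') + ((D (ang w) - D φ') + (D φ' - D' φ')) := by ring
      rw [h9]
      refine (abs_add_le _ _).trans ?_
      have h10 := abs_add_le (D (ang w) - D φ') (D φ' - D' φ')
      rw [abs_mul, abs_of_neg (by norm_num : (-3 : ℝ) < 0)]
      linarith
    have h7 : min ‖w‖ ‖w'‖ * |ang w - φ'| ≤ 8 * ‖w - w'‖ := by
      calc min ‖w‖ ‖w'‖ * |ang w - φ'| ≤ ‖w‖ * (8 * ‖w - w'‖ / ‖w‖) := by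
            gcongr
            exact min_le_left _ _
        _ = 8 * ‖w - w'‖ := by field_simp
    have h8 : 4 * min ‖w‖ ‖w'‖ * |(-3 * ang w + D (ang w)) - (-3 * φ' + D' φ')| ≤
        4 * min ‖w‖ ‖w'‖ * (5 * |ang w - φ'| + e) := by gcongr
    have h9 : 4 * min ‖w‖ ‖w'‖ * (5 * |ang w - φ'| + e) =
        20 * (min ‖w‖ ‖w'‖ * |ang w - φ'|) + 4 * min ‖w‖ ‖w'‖ * e := by ring
    linarith

theorem ring_openAt {D : ℝ → ℝ} (h : Circ D) {w : E2} (hw : w ≠ 0) : OpenAt (ring D) w := by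
  rw [openAt_iff]
  intro U hU
  have hw0 : 0 < ‖w‖ := norm_pos_iff.2 hw
  set v := ring D w with hv
  have hvn : ‖v‖ = ‖w‖ := norm_ring D w
  have hv0 : v ≠ 0 := norm_pos_iff.1 (by rw [hvn]; exact hw0)
  have hvp : v = pol ‖v‖ (-3 * ang w + D (ang w)) := by
    rw [hvn]
    rfl
  -- continuity of `pol`
  have hc : (fun p : ℝ × ℝ => pol p.1 p.2) ⁻¹' U ∈ 𝓝 ((‖w‖, ang w) : ℝ × ℝ) := by
    apply continuous_pol.continuousAt
    show U ∈ 𝓝 (pol ‖w‖ (ang w))
    rw [pol_ang]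
    exact hU
  obtain ⟨ε, hε, hεU⟩ := Metric.mem_nhds_iff.1 hc
  obtain ⟨δ, hδ0, hδ1, hδ2⟩ : ∃ δ : ℝ, 0 < δ ∧ δ < ε ∧ 8 * δ / ‖w‖ < ε := by
    refine ⟨min (ε / 2) (ε * ‖w‖ / 16), ?_, ?_, ?_⟩
    · have : 0 < ε * ‖w‖ / 16 := by positivity
      exact lt_min (by positivity) this
    · exact (min_le_left _ _).trans_lt (by linarith)
    · rw [div_lt_iff₀ hw0]
      have h1 : min (ε / 2) (ε * ‖w‖ / 16) ≤ ε * ‖w‖ / 16 := min_le_right _ _
      have h2 : 0 < ε * ‖w‖ := by positivity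
      linarith
  apply Filter.mem_of_superset (Metric.ball_mem_nhds v hδ0)
  intro v' hv'
  rw [Metric.mem_ball, dist_comm, dist_eq_norm] at hv'
  obtain ⟨ψ', h1, h2⟩ := ang_lift v' hv0 hvp
  have hψ : |(-3 * ang w + D (ang w)) - ψ'| ≤ 8 * ‖v - v'‖ / ‖w‖ := by
    rw [hvn] at h2
    exact h2
  set t := 8 * ‖v - v'‖ / ‖w‖ with ht
  have ht0 : 0 ≤ t := by positivity
  have ht1 : t < ε := by
    refine lt_of_le_of_lt ?_ hδ2
    rw [ht]
    gcongr
  obtain ⟨h3, h4⟩ := abs_le.1 hψ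
  obtain ⟨φ, hφ1, hφ2, hφ3⟩ := psi_solve h (a := ang w - t) (b := ang w + t) (z := ψ')
    (by linarith)
    (by
      have := (psi_bounds h (show ang w - t ≤ ang w by linarith)).1
      linarith)
    (by
      have := (psi_bounds h (show ang w ≤ ang w + t by linarith)).1
      linarith)
  refine ⟨pol ‖v'‖ φ, ?_, ?_⟩
  · apply hεU (a := (‖v'‖, φ))
    rw [Metric.mem_ball, Prod.dist_eq]
    apply max_lt
    · show dist ‖v'‖ ‖w‖ < ε
      rw [Real.dist_eq, ← hvn]
      have := abs_norm_sub_norm_le v' v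
      rw [norm_sub_rev] at this
      linarith
    · show dist φ (ang w) < ε
      rw [Real.dist_eq, abs_lt]
      constructor <;> linarith
  · rw [ring_pol h (norm_nonneg v'), hφ3]
    exact h1.symm

theorem QQ_smul {c : ℝ} (hc : 0 ≤ c) (w : E2) : QQ (c • w) = c • QQ w := by
  unfold QQ
  have h1 : c • w = pol (c * ‖w‖) (ang w) := by rw [pol_smul, pol_ang]
  rw [h1, ring_pol circ_delta (mul_nonneg hc (norm_nonneg w)), pol_smul]
  rfl

theorem QQ_neg (w : E2) : QQ (-w) = -QQ w := by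
  have h1 : -w = pol ‖w‖ (ang w + π) := by rw [pol_add_pi, pol_ang]
  have h2 : QQ w = pol ‖w‖ (-3 * ang w + delta (ang w)) := rfl
  rw [h1, h2]
  unfold QQ
  rw [ring_pol circ_delta (norm_nonneg w)]
  have h3 : delta (ang w + π) = delta (ang w) := by
    have : ang w + π = (ang w + π / 2) + π / 2 := by ring
    rw [this, delta_half, delta_half]
  rw [h3]
  have h4 : -3 * (ang w + π) + delta (ang w) =
      (-3 * ang w + delta (ang w) + π) + ((-2 : ℤ) : ℝ) * (2 * π) := by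
    push_cast
    ring
  rw [h4, pol_add_int, pol_add_pi]

theorem QQ_x_pos {w : E2} (h0 : 0 ≤ w.1) (h : |w.2| ≤ 3 / 8 * w.1) : QQ w = (w.1, -w.2) := by
  obtain ⟨φ, h1, h2⟩ := exists_small_angle h0 h
  have h3 : QQ w = pol ‖w‖ (-φ) := by
    conv_lhs => rw [h2]
    unfold QQ
    rw [ring_pol circ_delta (norm_nonneg w), delta_small h1]
    congr 1
    ring
  rw [h3, pol_neg, ← h2]

theorem QQ_x {w : E2} (h : |w.2| ≤ 3 / 8 * |w.1|) : QQ w = (w.1, -w.2) := by
  rcases le_total 0 w.1 with h0 | h0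
  · rw [abs_of_nonneg h0] at h
    exact QQ_x_pos h0 h
  · rw [abs_of_nonpos h0] at h
    have h1 : QQ (-w) = ((-w).1, -(-w).2) := by
      apply QQ_x_pos
      · show 0 ≤ -w.1
        linarith
      · show |(-w).2| ≤ 3 / 8 * (-w).1
        rw [Prod.snd_neg, Prod.fst_neg, abs_neg]
        exact h
    rw [QQ_neg] at h1
    have h2 : QQ w = -((-w).1, -(-w).2) := by rw [← h1, neg_neg]
    rw [h2]
    simp

theorem QQ_y_pos {w : E2} (h0 : 0 ≤ w.2) (h : |w.1| ≤ 3 / 8 * w.2) : QQ w = (-w.1, w.2) := by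
  obtain ⟨φ, h1, h2⟩ := exists_small_angle (w := (w.2, -w.1)) h0 (by
    show |(-w.1)| ≤ 3 / 8 * w.2
    rw [abs_neg]
    exact h)
  set u : E2 := (w.2, -w.1) with hu
  have h3 : w = pol ‖u‖ (φ + π / 2) := by
    rw [pol_add_half, ← h2, hu]
    simp
  have h4 : QQ w = pol ‖u‖ (-φ + π / 2) := by
    conv_lhs => rw [h3]
    unfold QQ
    rw [ring_pol circ_delta (norm_nonneg u), delta_half, delta_small h1]
    have h5 : -3 * (φ + π / 2) + 2 * φ = (-φ + π / 2) + ((-1 : ℤ) : ℝ) * (2 * π) := by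
      push_cast
      ring
    rw [h5, pol_add_int]
  rw [h4, pol_add_half, pol_neg, ← h2, hu]
  simp

theorem QQ_y {w : E2} (h : |w.1| ≤ 3 / 8 * |w.2|) : QQ w = (-w.1, w.2) := by
  rcases le_total 0 w.2 with h0 | h0
  · rw [abs_of_nonneg h0] at h
    exact QQ_y_pos h0 h
  · rw [abs_of_nonpos h0] at h
    have h1 : QQ (-w) = (-(-w).1, (-w).2) := by
      apply QQ_y_pos
      · show 0 ≤ -w.2
        linarith
      · show |(-w).1| ≤ 3 / 8 * (-w).2
        rw [Prod.snd_neg, Prod.fst_neg, abs_neg]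
        exact h
    rw [QQ_neg] at h1
    have h2 : QQ w = -(-(-w).1, (-w).2) := by rw [← h1, neg_neg]
    rw [h2]
    simp

/-- every vector is a value of `QQ` on the sector `w.2 ≥ ‖w‖/4` -/
theorem QQ_surj_up (v : E2) : ∃ w : E2, 1 / 4 * ‖w‖ ≤ w.2 ∧ ‖w‖ = ‖v‖ ∧ QQ w = v := by
  have hπ := Real.pi_pos
  obtain ⟨hv1, hv2⟩ := ang_mem v
  have ha : -3 * (π / 8) + delta (π / 8) = -(π / 8) := by
    rw [delta_small (by rw [abs_of_pos (by positivity)])]
    ring
  have hb : -3 * (7 * π / 8) + delta (7 * π / 8) = -(23 * π / 8) := by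
    have h1 : 7 * π / 8 = (-(π / 8) + π / 2) + π / 2 := by ring
    have h2 : delta (7 * π / 8) = 2 * -(π / 8) := by
      rw [h1, delta_half, delta_half, delta_small]
      rw [abs_neg, abs_of_pos (by positivity)]
    rw [h2]
    ring
  obtain ⟨n, hn1, hn2⟩ : ∃ n : ℤ, ang v + n * (2 * π) ≤ -(π / 8) ∧
      -(23 * π / 8) ≤ ang v + n * (2 * π) := by
    by_cases hc : ang v ≤ -(π / 8)
    · refine ⟨0, ?_, ?_⟩
      · push_cast
        linarith
      · push_cast
        linarith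
    · push Not at hc
      refine ⟨-1, ?_, ?_⟩
      · push_cast
        linarith
      · push_cast
        linarith
  obtain ⟨φ, h1, h2, h3⟩ := psi_solve circ_delta (a := π / 8) (b := 7 * π / 8)
    (z := ang v + n * (2 * π)) (by linarith) (by linarith) (by linarith)
  have hsin : 1 / 4 ≤ Real.sin φ := by
    rcases le_total φ (π / 2) with h4 | h4
    · have h5 := Real.mul_le_sin (by linarith) h4
      have h6 : 2 / π * (π / 8) ≤ 2 / π * φ := by gcongr
      have h7 : 2 / π * (π / 8) = 1 / 4 := by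
        field_simp
        norm_num
      linarith
    · have h5 := Real.mul_le_sin (x := π - φ) (by linarith) (by linarith)
      rw [Real.sin_pi_sub] at h5
      have h6 : 2 / π * (π / 8) ≤ 2 / π * (π - φ) := by
        gcongr
        linarith
      have h7 : 2 / π * (π / 8) = 1 / 4 := by
        field_simp
        norm_num
      linarith
  refine ⟨pol ‖v‖ φ, ?_, norm_pol' (norm_nonneg v) φ, ?_⟩
  · rw [norm_pol' (norm_nonneg v)]
    show 1 / 4 * ‖v‖ ≤ ‖v‖ * Real.sin φ / nrm φ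
    have h4 := half_le_nrm φ
    have h5 := nrm_le_one φ
    rw [le_div_iff₀ (by linarith)]
    have h6 := norm_nonneg v
    calc 1 / 4 * ‖v‖ * nrm φ ≤ 1 / 4 * ‖v‖ * 1 := by gcongr
      _ = ‖v‖ * (1 / 4) := by ring
      _ ≤ ‖v‖ * Real.sin φ := by gcongr
  · unfold QQ
    rw [ring_pol circ_delta (norm_nonneg v), h3, pol_add_int, pol_ang]

end Pool.Agent.JAC
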