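import Pool.Agent.Lib.MP_3b5712_an.Core

set_option autoImplicit false

open Filter Topology Set

namespace Pool.Agent.JAC

/-- data of an infinite tree of blocks: `F k` the block map of level `k`, children
`i < N k` with charts `c k i` and inverse charts `ci k i`; the box of the child `i` is
`{x | ‖ci k i x‖ ≤ 1}`. -/
structure Tree (E : Type*) where
  N : ℕ → ℕ
  F : ℕ → E → E
  c : ℕ → ℕ → E → E
  ci : ℕ → ℕ → E → E

namespace Tree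
variable {E : Type*}

/-- union of the boxes of depth `n` below level `k` -/
def U [NormedAddCommGroup E] (T : Tree E) : ℕ → ℕ → Set E
  | 0, _ => Metric.closedBall 0 1
  | n + 1, k => {x | ∃ i < T.N k, T.ci k i x ∈ U T n (k + 1)}

/-- the Cantor set of level `k` -/
def C [NormedAddCommGroup E] (T : Tree E) (k : ℕ) : Set E := {x | ∀ n, x ∈ T.U n k}

structure Ok [NormedAddCommGroup E] [NormedSpace ℝ E] (T : Tree E) : Prop where
  good : ∀ k, Good (T.F k)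
  ball : ∀ k x, ‖T.F k x‖ ≤ 1 ↔ ‖x‖ ≤ 1
  cci : ∀ k i x, i < T.N k → T.c k i (T.ci k i x) = x
  cic : ∀ k i x, i < T.N k → T.ci k i (T.c k i x) = x
  clip : ∀ k i x y, i < T.N k → ‖T.c k i x - T.c k i y‖ ≤ ‖x - y‖
  cilip : ∀ k i, i < T.N k → ∃ K, ∀ x y, ‖T.ci k i x - T.ci k i y‖ ≤ K * ‖x - y‖
  box : ∀ k i x, i < T.N k → (‖T.ci k i (T.F k x)‖ ≤ 1 ↔ ‖T.ci k i x‖ ≤ 1)
  mat : ∀ k i x, i < T.N k → ‖x‖ = 1 → T.F k (T.c k i x) = T.c k i (T.F (k + 1) x)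
  ins : ∀ k i x, i < T.N k → ‖x‖ ≤ 1 → ‖T.c k i x‖ < 1
  dis : ∀ k i j x, i < T.N k → j < T.N k → ‖T.ci k i x‖ ≤ 1 → ‖T.ci k j x‖ ≤ 1 → i = j
  con : ∀ k i j l x y, i < T.N k → j < T.N (k + 1) → l < T.N (k + 2) →
    ‖T.c k i (T.c (k + 1) j (T.c (k + 2) l x)) - T.c k i (T.c (k + 1) j (T.c (k + 2) l y))‖
      ≤ 1 / 2 * ‖x - y‖

/-- the conclusion about the limit maps `f k` -/
structure Lim [NormedAddCommGroup E] (T : Tree E) (f : ℕ → E → E) : Prop where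
  cont : ∀ k, Continuous (f k)
  off : ∀ k x, x ∉ T.C k →
    OpenAt (f k) x ∧ (∃ K, LipAt K (f k) x) ∧ ∀ y, ∀ᶠ z in 𝓝[≠] x, f k z ≠ y
  on : ∀ k x, x ∈ T.C k → f k x = x ∧ OpenAt (f k) x ∧ ∀ y, ∀ᶠ z in 𝓝[≠] x, f k z ≠ y
  out : ∀ k x, (∀ i < T.N k, 1 ≤ ‖T.ci k i x‖) → f k x = T.F k x
  rec' : ∀ k i x, i < T.N k → ‖T.ci k i x‖ ≤ 1 → f k x = T.c k i (f (k + 1) (T.ci k i x))

end Tree

end Pool.Agent.JAC
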