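import Pool.Agent.Lib.MP_3b5712_an.TreeDefs

set_option autoImplicit false
set_option linter.unusedSectionVars false

open Filter Topology Set

namespace Pool.Agent.JAC

namespace Tree

section
variable {E : Type*} [NormedAddCommGroup E] [NormedSpace ℝ E]

open Classical in
/-- finite stage maps -/
noncomputable def Phi (T : Tree E) : ℕ → ℕ → E → E
  | 0, k, x => T.F k x
  | n + 1, k, x => if h : ∃ i, i < T.N k ∧ ‖T.ci k i x‖ ≤ 1 then
      T.c k h.choose (Phi T n (k + 1) (T.ci k h.choose x)) else T.F k x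

variable {T : Tree E}

theorem Phi_zero (k : ℕ) : T.Phi 0 k = T.F k := rfl

theorem Phi_mem (h : T.Ok) {n k i : ℕ} {x : E} (hi : i < T.N k) (hx : ‖T.ci k i x‖ ≤ 1) :
    T.Phi (n + 1) k x = T.c k i (T.Phi n (k + 1) (T.ci k i x)) := by
  have hex : ∃ i, i < T.N k ∧ ‖T.ci k i x‖ ≤ 1 := ⟨i, hi, hx⟩
  have h1 : T.Phi (n + 1) k x
      = T.c k hex.choose (T.Phi n (k + 1) (T.ci k hex.choose x)) := by
    rw [Phi, dif_pos hex]
  have h2 : hex.choose = i :=
    h.dis k _ i x hex.choose_spec.1 hi hex.choose_spec.2 hx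
  rw [h1, h2]

theorem Phi_not {n k : ℕ} {x : E} (hx : ∀ i < T.N k, ¬ ‖T.ci k i x‖ ≤ 1) :
    T.Phi (n + 1) k x = T.F k x := by
  have hex : ¬ ∃ i, i < T.N k ∧ ‖T.ci k i x‖ ≤ 1 := fun ⟨i, hi, hx'⟩ => hx i hi hx'
  rw [Phi, dif_neg hex]

theorem ci_cont (h : T.Ok) {k i : ℕ} (hi : i < T.N k) : Continuous (T.ci k i) := by
  obtain ⟨K, hK⟩ := h.cilip k i hi
  rw [continuous_iff_continuousAt]
  intro x
  exact (lipAt_of_lip (K := K) (fun a b => by
    rw [dist_eq_norm, dist_eq_norm]; exact hK a b) x).continuousAt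

theorem c_cont (h : T.Ok) {k i : ℕ} (hi : i < T.N k) : Continuous (T.c k i) := by
  rw [continuous_iff_continuousAt]
  intro x
  exact (lipAt_of_lip (K := 1) (fun a b => by
    rw [dist_eq_norm, dist_eq_norm, one_mul]; exact h.clip k i a b hi) x).continuousAt

theorem c_good (h : T.Ok) {k i : ℕ} (hi : i < T.N k) : Good (T.c k i) :=
  Good.of_inverse (fun x => ⟨1, lipAt_of_lip (K := 1) (fun a b => by
    rw [dist_eq_norm, dist_eq_norm, one_mul]; exact h.clip k i a b hi) x⟩)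
    (ci_cont h hi) (fun x => h.cic k i x hi) (fun x => h.cci k i x hi)

theorem ci_good (h : T.Ok) {k i : ℕ} (hi : i < T.N k) : Good (T.ci k i) := by
  obtain ⟨K, hK⟩ := h.cilip k i hi
  exact Good.of_inverse (fun x => ⟨K, lipAt_of_lip (K := K) (fun a b => by
    rw [dist_eq_norm, dist_eq_norm]; exact hK a b) x⟩)
    (c_cont h hi) (fun x => h.cci k i x hi) (fun x => h.cic k i x hi)

/-- the boxes are closed -/
theorem isClosed_box (h : T.Ok) {k i : ℕ} (hi : i < T.N k) : IsClosed {x | ‖T.ci k i x‖ ≤ 1} :=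
  isClosed_le (ci_cont h hi).norm continuous_const

theorem norm_lt_of_box (h : T.Ok) {k i : ℕ} {x : E} (hi : i < T.N k) (hx : ‖T.ci k i x‖ ≤ 1) :
    ‖x‖ < 1 := by
  have := h.ins k i (T.ci k i x) hi hx
  rwa [h.cci k i x hi] at this

/-- near a point outside of a set of boxes we stay outside -/
theorem eventually_off (h : T.Ok) {k : ℕ} {x : E} (P : ℕ → Prop)
    (hx : ∀ i < T.N k, P i → ¬ ‖T.ci k i x‖ ≤ 1) :
    ∀ᶠ z in 𝓝 x, ∀ i < T.N k, P i → ¬ ‖T.ci k i z‖ ≤ 1 := by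
  have : ∀ i ∈ Finset.range (T.N k), ∀ᶠ z in 𝓝 x, P i → ¬ ‖T.ci k i z‖ ≤ 1 := by
    intro i hi
    rw [Finset.mem_range] at hi
    by_cases hP : P i
    · have h1 : {z | ‖T.ci k i z‖ ≤ 1}ᶜ ∈ 𝓝 x :=
        (isClosed_box h hi).isOpen_compl.mem_nhds (hx i hi hP)
      filter_upwards [h1] with z hz _
      exact hz
    · exact Filter.Eventually.of_forall (fun z hP' => absurd hP' hP)
  have h2 := (Filter.eventually_all_finset (Finset.range (T.N k))).mpr this
  filter_upwards [h2] with z hz i hi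
  exact hz i (Finset.mem_range.mpr hi)

/-- the conjugated map on the box `i` -/
noncomputable def cj (T : Tree E) (n k i : ℕ) : E → E :=
  T.c k i ∘ (T.Phi n (k + 1) ∘ T.ci k i)

theorem Phi_eventually_pat (h : T.Ok) {n k i : ℕ} {x : E} (hi : i < T.N k)
    (hx : ‖T.ci k i x‖ ≤ 1) :
    pat {z | ‖T.ci k i z‖ ≤ 1} (cj T n k i) (T.F k) =ᶠ[𝓝 x] T.Phi (n + 1) k := by
  have h1 := eventually_off (x := x) h (fun j => j ≠ i)
    (fun j hj hji hc => hji (h.dis k j i x hj hi hc hx))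
  filter_upwards [h1] with z hz
  by_cases hzi : ‖T.ci k i z‖ ≤ 1
  · rw [pat_eqOn_left (show z ∈ {z | ‖T.ci k i z‖ ≤ 1} from hzi), Phi_mem h hi hzi]
    rfl
  · rw [pat_eqOn_right (show z ∉ {z | ‖T.ci k i z‖ ≤ 1} from hzi)]
    symm
    apply Phi_not
    intro j hj
    by_cases hji : j = i
    · rw [hji]; exact hzi
    · exact hz j hj hji

/-- properties of the finite stage maps -/
structure PP (T : Tree E) (n k : ℕ) : Prop where
  good : Good (T.Phi n k)
  ball : ∀ x, ‖T.Phi n k x‖ ≤ 1 ↔ ‖x‖ ≤ 1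
  box : ∀ i x, i < T.N k → (‖T.ci k i (T.Phi n k x)‖ ≤ 1 ↔ ‖T.ci k i x‖ ≤ 1)
  sph : ∀ x, 1 ≤ ‖x‖ → T.Phi n k x = T.F k x

theorem pp (h : T.Ok) (n : ℕ) : ∀ k, PP T n k := by
  induction n with
  | zero =>
    intro k
    exact ⟨h.good k, h.ball k, fun i x hi => h.box k i x hi, fun x _ => rfl⟩
  | succ n ih =>
    intro k
    have ihk := ih (k + 1)
    have hcj : ∀ {i}, i < T.N k → Good (cj T n k i) := fun hi =>
      (c_good h hi).comp (ihk.good.comp (ci_good h hi))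
    have hcji : ∀ {i} z, i < T.N k →
        T.ci k i (cj T n k i z) = T.Phi n (k + 1) (T.ci k i z) := fun z hi =>
      h.cic k _ _ hi
    have hsph : ∀ x, 1 ≤ ‖x‖ → T.Phi (n + 1) k x = T.F k x := by
      intro x hx
      apply Phi_not
      intro i hi hc
      exact absurd (norm_lt_of_box h hi hc) (not_lt.mpr hx)
    have hloc : ∀ x, OpenAt (T.Phi (n + 1) k) x ∧ ∃ K, LipAt K (T.Phi (n + 1) k) x := by
      intro x
      by_cases hx : ∃ i, i < T.N k ∧ ‖T.ci k i x‖ ≤ 1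
      · obtain ⟨i, hi, hx⟩ := hx
        have hev := Phi_eventually_pat (n := n) h hi hx
        have hp := patch_at (isClosed_box h hi) (f := cj T n k i) (g := T.F k)
          (B := {z | ‖T.ci k i z‖ ≤ 1}) (x := x)
          (fun _ => ⟨(hcj hi).opn x, (hcj hi).lip x⟩)
          (fun _ => ⟨(h.good k).opn x, (h.good k).lip x⟩)
          (fun y hy => by
            have hy' : ‖T.ci k i (cj T n k i y)‖ ≤ 1 := hy
            rw [hcji y hi] at hy'
            exact (ihk.ball _).mp hy')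
          (fun y hy => (h.box k i y hi).mpr hy)
          (fun y hy => by
            have hy1 : ‖T.ci k i y‖ ≤ 1 :=
              (isClosed_box h hi).frontier_subset hy
            have hy2 : ‖T.ci k i y‖ = 1 := by
              by_contra hne
              have hlt : ‖T.ci k i y‖ < 1 := lt_of_le_of_ne hy1 hne
              apply hy.2
              rw [mem_interior]
              exact ⟨{z | ‖T.ci k i z‖ < 1}, fun z (hz : ‖T.ci k i z‖ < 1) => hz.le,
                isOpen_lt (ci_cont h hi).norm continuous_const, hlt⟩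
            change T.c k i (T.Phi n (k + 1) (T.ci k i y)) = T.F k y
            rw [ihk.sph _ hy2.ge, ← h.mat k i _ hi hy2, h.cci k i y hi])
        obtain ⟨p1, K, p2⟩ := hp
        exact ⟨p1.congr hev, K, p2.congr hev⟩
      · push Not at hx
        have h1 := eventually_off (x := x) h (fun _ => True)
          (fun i hi _ => not_le.mpr (hx i hi))
        have hev : T.F k =ᶠ[𝓝 x] T.Phi (n + 1) k := by
          filter_upwards [h1] with z hz
          symm
          apply Phi_not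
          intro i hi
          exact hz i hi trivial
        obtain ⟨K, hK⟩ := (h.good k).lip x
        exact ⟨((h.good k).opn x).congr hev, K, hK.congr hev⟩
    refine ⟨⟨fun x => (hloc x).1, fun x => (hloc x).2, ?_⟩, ?_, ?_, hsph⟩
    · intro y
      have hfin : ((T.F k ⁻¹' {y}) ∪ ⋃ i ∈ Finset.range (T.N k), (cj T n k i ⁻¹' {y})).Finite := by
        apply ((h.good k).fin y).union
        apply Set.Finite.biUnion (Finset.finite_toSet _)
        intro i hi
        exact (hcj (Finset.mem_range.mp hi)).fin y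
      apply hfin.subset
      intro x hx
      have hx' : T.Phi (n + 1) k x = y := hx
      by_cases hb : ∃ i, i < T.N k ∧ ‖T.ci k i x‖ ≤ 1
      · obtain ⟨i, hi, hb⟩ := hb
        right
        rw [mem_iUnion₂]
        refine ⟨i, Finset.mem_range.mpr hi, ?_⟩
        rw [Phi_mem h hi hb] at hx'
        exact hx'
      · push Not at hb
        left
        rw [Phi_not (fun i hi => not_le.mpr (hb i hi))] at hx'
        exact hx'
    · intro x
      by_cases hb : ∃ i, i < T.N k ∧ ‖T.ci k i x‖ ≤ 1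
      · obtain ⟨i, hi, hb⟩ := hb
        rw [Phi_mem h hi hb]
        constructor
        · intro _
          exact (norm_lt_of_box h hi hb).le
        · intro _
          exact (h.ins k i _ hi ((ihk.ball _).mpr hb)).le
      · push Not at hb
        rw [Phi_not (fun i hi => not_le.mpr (hb i hi))]
        exact h.ball k x
    · intro i x hi
      by_cases hb : ∃ j, j < T.N k ∧ ‖T.ci k j x‖ ≤ 1
      · obtain ⟨j, hj, hb⟩ := hb
        have h1 : ‖T.ci k j (T.Phi (n + 1) k x)‖ ≤ 1 := by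
          rw [Phi_mem h hj hb, h.cic k j _ hj]
          exact (ihk.ball _).mpr hb
        constructor
        · intro hc
          have := h.dis k i j _ hi hj hc h1
          rw [this]; exact hb
        · intro hc
          have := h.dis k i j _ hi hj hc hb
          rw [this]; exact h1
      · push Not at hb
        rw [Phi_not (fun i hi => not_le.mpr (hb i hi))]
        exact h.box k i x hi

theorem U_zero (k : ℕ) : T.U 0 k = Metric.closedBall 0 1 := rfl

theorem mem_U_succ {n k : ℕ} {x : E} :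
    x ∈ T.U (n + 1) k ↔ ∃ i < T.N k, T.ci k i x ∈ T.U n (k + 1) := Iff.rfl

theorem U_sub_ball (h : T.Ok) (n : ℕ) : ∀ k, T.U n k ⊆ Metric.closedBall 0 1 := by
  induction n with
  | zero => intro k; exact subset_rfl
  | succ n ih =>
    intro k x hx
    obtain ⟨i, hi, hx⟩ := hx
    have := ih (k + 1) hx
    rw [mem_closedBall_zero_iff] at this ⊢
    exact (norm_lt_of_box h hi this).le

theorem U_succ_sub (h : T.Ok) (n : ℕ) : ∀ k, T.U (n + 1) k ⊆ T.U n k := by
  induction n with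
  | zero => intro k; exact U_sub_ball h 1 k
  | succ n ih =>
    intro k x hx
    obtain ⟨i, hi, hx⟩ := hx
    exact ⟨i, hi, ih (k + 1) hx⟩

theorem U_anti (h : T.Ok) (k : ℕ) {m n : ℕ} (hmn : m ≤ n) : T.U n k ⊆ T.U m k := by
  induction hmn with
  | refl => exact subset_rfl
  | step _ ih => exact (U_succ_sub h _ k).trans ih

/-- `Phi (n+1) k = Phi n k` off `U (n+1) k`. -/
theorem Phi_succ_eq (h : T.Ok) (n : ℕ) : ∀ k x, x ∉ T.U (n + 1) k →
    T.Phi (n + 1) k x = T.Phi n k x := by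
  induction n with
  | zero =>
    intro k x hx
    rw [Phi_zero]
    apply Phi_not
    intro i hi hc
    exact hx ⟨i, hi, mem_closedBall_zero_iff.mpr hc⟩
  | succ n ih =>
    intro k x hx
    by_cases hb : ∃ i, i < T.N k ∧ ‖T.ci k i x‖ ≤ 1
    · obtain ⟨i, hi, hb⟩ := hb
      rw [Phi_mem h hi hb, Phi_mem h hi hb, ih]
      intro hc
      exact hx ⟨i, hi, hc⟩
    · push Not at hb
      rw [Phi_not (fun i hi => not_le.mpr (hb i hi)), Phi_not (fun i hi => not_le.mpr (hb i hi))]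

theorem Phi_stable (h : T.Ok) {m n k : ℕ} {x : E} (hmn : m ≤ n) (hx : x ∉ T.U m k) :
    T.Phi n k x = T.Phi m k x := by
  induction n, hmn using Nat.le_induction with
  | base => rfl
  | succ n hmn ih =>
    rw [Phi_succ_eq h n k x (fun hc => hx (U_anti h k (by omega) hc)), ih]

open Classical in
/-- the limit map -/
noncomputable def lim (T : Tree E) (k : ℕ) (x : E) : E :=
  if h : ∃ n, x ∉ T.U n k then T.Phi (Nat.find h) k x else x

theorem lim_eq (h : T.Ok) {n k : ℕ} {x : E} (hx : x ∉ T.U n k) :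
    T.lim k x = T.Phi n k x := by
  classical
  have hex : ∃ n, x ∉ T.U n k := ⟨n, hx⟩
  have h1 : T.lim k x = T.Phi (Nat.find hex) k x := by
    rw [lim, dif_pos hex]
  rw [h1]
  exact (Phi_stable h (Nat.find_min' hex hx) (Nat.find_spec hex)).symm

theorem lim_C {k : ℕ} {x : E} (hx : x ∈ T.C k) : T.lim k x = x := by
  classical
  have hex : ¬ ∃ n, x ∉ T.U n k := by
    push Not
    exact hx
  rw [lim, dif_neg hex]

theorem not_C {k : ℕ} {x : E} (hx : x ∉ T.C k) : ∃ n, x ∉ T.U n k := by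
  by_contra hc
  push Not at hc
  exact hx hc

theorem C_ci (h : T.Ok) {k i : ℕ} {x : E} (hi : i < T.N k) (hxi : ‖T.ci k i x‖ ≤ 1)
    (hx : x ∈ T.C k) : T.ci k i x ∈ T.C (k + 1) := by
  intro n
  obtain ⟨j, hj, hxj⟩ := hx (n + 1)
  have h1 := U_sub_ball h n (k + 1) hxj
  rw [mem_closedBall_zero_iff] at h1
  have := h.dis k j i x hj hi h1 hxi
  rw [← this]
  exact hxj

theorem C_box {k : ℕ} {x : E} (hx : x ∈ T.C k) : ∃ i < T.N k, ‖T.ci k i x‖ ≤ 1 := by
  obtain ⟨i, hi, hxi⟩ := hx 1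
  exact ⟨i, hi, mem_closedBall_zero_iff.mp hxi⟩

/-- recursion for the limit map -/
theorem lim_rec (h : T.Ok) {k i : ℕ} {x : E} (hi : i < T.N k) (hxi : ‖T.ci k i x‖ ≤ 1) :
    T.lim k x = T.c k i (T.lim (k + 1) (T.ci k i x)) := by
  by_cases hx : x ∈ T.C k
  · rw [lim_C hx, lim_C (C_ci h hi hxi hx), h.cci k i x hi]
  · obtain ⟨n, hn⟩ := not_C hx
    have h1 : x ∉ T.U (n + 1) k := fun hc => hn (U_succ_sub h n k hc)
    have h2 : T.ci k i x ∉ T.U n (k + 1) := fun hc => h1 ⟨i, hi, hc⟩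
    rw [lim_eq h h1, lim_eq h h2, Phi_mem h hi hxi]

theorem lim_ball (h : T.Ok) (k : ℕ) (x : E) : ‖T.lim k x‖ ≤ 1 ↔ ‖x‖ ≤ 1 := by
  by_cases hx : x ∈ T.C k
  · rw [lim_C hx]
  · obtain ⟨n, hn⟩ := not_C hx
    rw [lim_eq h hn]
    exact (pp h n k).ball x

theorem lim_box (h : T.Ok) {k i : ℕ} (x : E) (hi : i < T.N k) :
    ‖T.ci k i (T.lim k x)‖ ≤ 1 ↔ ‖T.ci k i x‖ ≤ 1 := by
  by_cases hx : x ∈ T.C k
  · rw [lim_C hx]
  · obtain ⟨n, hn⟩ := not_C hx
    rw [lim_eq h hn]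
    exact (pp h n k).box i x hi

theorem lim_off (h : T.Ok) {k : ℕ} {x : E} (hx : ∀ i < T.N k, ¬ ‖T.ci k i x‖ ≤ 1) :
    T.lim k x = T.F k x := by
  have h1 : x ∉ T.U 1 k := by
    rintro ⟨i, hi, hc⟩
    exact hx i hi (mem_closedBall_zero_iff.mp hc)
  rw [lim_eq h h1]
  exact Phi_not hx

/-- uniform approximation -/
theorem lim_approx (h : T.Ok) (m : ℕ) : ∀ k x,
    ‖T.Phi (3 * m) k x - T.lim k x‖ ≤ 2 * (1 / 2) ^ m := by
  induction m with
  | zero =>
    intro k x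
    by_cases hx : x ∈ T.U 0 k
    · rw [U_zero, mem_closedBall_zero_iff] at hx
      have h1 := ((pp h 0 k).ball x).mpr hx
      have h2 := (lim_ball h k x).mpr hx
      calc ‖T.Phi (3 * 0) k x - T.lim k x‖ ≤ ‖T.Phi (3 * 0) k x‖ + ‖T.lim k x‖ := norm_sub_le _ _
        _ ≤ 1 + 1 := add_le_add h1 h2
        _ = 2 * (1 / 2) ^ 0 := by norm_num
    · rw [lim_eq h hx]
      simp
  | succ m ih =>
    intro k x
    have e3 : 3 * (m + 1) = 3 * m + 1 + 1 + 1 := by ring
    by_cases hx : x ∈ T.U (3 * (m + 1)) k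
    · rw [e3] at hx ⊢
      obtain ⟨i, hi, hx1⟩ := hx
      obtain ⟨j, hj, hx2⟩ := hx1
      obtain ⟨l, hl, hx3⟩ := hx2
      have b3 := U_sub_ball h _ _ hx3
      rw [mem_closedBall_zero_iff] at b3
      have b2 := (norm_lt_of_box h hl b3).le
      have b1 := (norm_lt_of_box h hj b2).le
      rw [Phi_mem h hi b1, Phi_mem h hj b2, Phi_mem h hl b3, lim_rec h hi b1, lim_rec h hj b2,
        lim_rec h hl b3]
      calc _ ≤ 1 / 2 * _ := h.con k i j l _ _ hi hj hl
        _ ≤ 1 / 2 * (2 * (1 / 2) ^ m) := by gcongr; exact ih _ _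
        _ = 2 * (1 / 2) ^ (m + 1) := by ring
    · rw [lim_eq h hx]
      simp only [sub_self, norm_zero]
      positivity

theorem tendsto_bd : Tendsto (fun m : ℕ => (2 : ℝ) * (1 / 2) ^ m) atTop (𝓝 0) := by
  have := (tendsto_pow_atTop_nhds_zero_of_lt_one (r := (1 / 2 : ℝ)) (by norm_num)
    (by norm_num)).const_mul 2
  simpa using this

theorem exists_bd {ε : ℝ} (hε : 0 < ε) : ∃ m : ℕ, (2 : ℝ) * (1 / 2) ^ m < ε :=
  ((tendsto_bd.eventually (gt_mem_nhds hε))).exists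

theorem lim_cont (h : T.Ok) (k : ℕ) : Continuous (T.lim k) := by
  have hunif : TendstoUniformly (fun m => T.Phi (3 * m) k) (T.lim k) atTop := by
    rw [Metric.tendstoUniformly_iff]
    intro ε hε
    filter_upwards [tendsto_bd.eventually (gt_mem_nhds hε)] with m hm x
    rw [dist_comm, dist_eq_norm]
    exact (lim_approx h m k x).trans_lt hm
  exact hunif.continuous (Filter.Eventually.frequently (Filter.Eventually.of_forall
    (fun m => (pp h (3 * m) k).good.continuous)))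

/-- points of the Cantor set have no other preimage -/
theorem lim_inj_C (h : T.Ok) (m : ℕ) : ∀ k x y, x ∈ T.C k → T.lim k y = x →
    ‖x - y‖ ≤ 2 * (1 / 2) ^ m := by
  induction m with
  | zero =>
    intro k x y hx hy
    have h1 : ‖x‖ ≤ 1 := mem_closedBall_zero_iff.mp (hx 0)
    have h2 : ‖y‖ ≤ 1 := by
      rw [← lim_ball h k y, hy]; exact h1
    calc ‖x - y‖ ≤ ‖x‖ + ‖y‖ := norm_sub_le _ _
      _ ≤ 1 + 1 := add_le_add h1 h2
      _ = 2 * (1 / 2) ^ 0 := by norm_num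
  | succ m ih =>
    intro k x y hx hy
    have step : ∀ {k : ℕ} {x y : E}, x ∈ T.C k → T.lim k y = x → ∃ i < T.N k,
        T.ci k i x ∈ T.C (k + 1) ∧ T.lim (k + 1) (T.ci k i y) = T.ci k i x := by
      intro k x y hx hy
      obtain ⟨i, hi, hxi⟩ := C_box hx
      have hyi : ‖T.ci k i y‖ ≤ 1 := by
        rw [← lim_box h y hi, hy]; exact hxi
      refine ⟨i, hi, C_ci h hi hxi hx, ?_⟩
      have h1 := lim_rec h hi hyi
      rw [hy] at h1
      rw [h1, h.cic k i _ hi]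
    obtain ⟨i, hi, hx1, hy1⟩ := step hx hy
    obtain ⟨j, hj, hx2, hy2⟩ := step hx1 hy1
    obtain ⟨l, hl, hx3, hy3⟩ := step hx2 hy2
    have e1 : ∀ z : E, z = T.c k i (T.c (k + 1) j (T.c (k + 1 + 1) l
        (T.ci (k + 1 + 1) l (T.ci (k + 1) j (T.ci k i z))))) := by
      intro z
      rw [h.cci (k + 1 + 1) l _ hl, h.cci (k + 1) j _ hj, h.cci k i _ hi]
    rw [e1 x, e1 y]
    calc _ ≤ 1 / 2 * _ := h.con k i j l _ _ hi hj hl
      _ ≤ 1 / 2 * (2 * (1 / 2) ^ m) := by gcongr; exact ih _ _ _ hx3 hy3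
      _ = 2 * (1 / 2) ^ (m + 1) := by ring

theorem lim_inj_C' (h : T.Ok) {k : ℕ} {x y : E} (hx : x ∈ T.C k) (hy : T.lim k y = x) :
    y = x := by
  have h1 : ‖x - y‖ ≤ 0 := ge_of_tendsto' tendsto_bd (fun m => lim_inj_C h m k x y hx hy)
  have h2 : x - y = 0 := norm_le_zero_iff.mp h1
  exact (sub_eq_zero.mp h2).symm

/-- an open continuous map preserving the closed unit ball and its complement maps the ball onto
itself -/
theorem surj_of_open [ProperSpace E] {g : E → E} (hg : Continuous g) (ho : IsOpenMap g)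
    (hb : ∀ x, ‖g x‖ ≤ 1 ↔ ‖x‖ ≤ 1) {y : E} (hy : ‖y‖ ≤ 1) : ∃ x, ‖x‖ ≤ 1 ∧ g x = y := by
  set K : Set E := g '' Metric.closedBall 0 1 with hK
  have hKc : IsClosed K := ((isCompact_closedBall (0 : E) 1).image hg).isClosed
  set O : Set E := g '' (g ⁻¹' Metric.ball 0 1) with hO
  have hOo : IsOpen O := ho _ (Metric.isOpen_ball.preimage hg)
  have hOK : O ⊆ K := by
    rintro z ⟨x, hx, rfl⟩
    refine ⟨x, ?_, rfl⟩
    rw [mem_closedBall_zero_iff, ← hb x]
    exact (mem_ball_zero_iff.mp hx).le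
  have hKO : K ∩ Metric.ball 0 1 ⊆ O := by
    rintro z ⟨⟨x, hx, rfl⟩, hz⟩
    exact ⟨x, hz, rfl⟩
  have hball : Metric.ball (0 : E) 1 ⊆ K := by
    have hconn : IsPreconnected (Metric.ball (0 : E) 1) := (convex_ball (0 : E) 1).isPreconnected
    -- a point of the open ball in `K`
    have hne : (Metric.ball (0 : E) 1 ∩ O).Nonempty := by
      have h0 : ‖g 0‖ ≤ 1 := (hb 0).mpr (by simp)
      have hopen : IsOpen (g '' Metric.ball 0 1) := ho _ Metric.isOpen_ball
      have hmem : g 0 ∈ g '' Metric.ball (0 : E) 1 := ⟨0, Metric.mem_ball_self one_pos, rfl⟩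
      have hcont : Tendsto (fun t : ℝ => t • g 0) (𝓝[<] 1) (𝓝 ((1 : ℝ) • g 0)) :=
        ((continuous_id.smul continuous_const).tendsto (1 : ℝ)).mono_left nhdsWithin_le_nhds
      rw [one_smul] at hcont
      have hev1 := hcont.eventually (hopen.mem_nhds hmem)
      have hev2 : ∀ᶠ t : ℝ in 𝓝[<] 1, 0 < t :=
        nhdsWithin_le_nhds (lt_mem_nhds one_pos)
      have hev3 : ∀ᶠ t : ℝ in 𝓝[<] 1, t < 1 := self_mem_nhdsWithin
      obtain ⟨t, ⟨h1, h2⟩, h3⟩ := ((hev1.and hev2).and hev3).exists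
      have hlt : ‖t • g 0‖ < 1 := by
        rw [norm_smul, Real.norm_eq_abs, abs_of_pos h2]
        nlinarith [norm_nonneg (g 0)]
      refine ⟨t • g 0, mem_ball_zero_iff.mpr hlt, ?_⟩
      obtain ⟨x, hx, hxe⟩ := h1
      rw [← hxe]
      refine ⟨x, ?_, rfl⟩
      rw [mem_preimage, hxe]
      exact mem_ball_zero_iff.mpr hlt
    by_contra hcon
    obtain ⟨z, hz, hzK⟩ := not_subset.mp hcon
    obtain ⟨w, hw, hw1, hw2⟩ := hconn O Kᶜ hOo hKc.isOpen_compl (by
      intro w hw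
      by_cases hwK : w ∈ K
      · exact Or.inl (hKO ⟨hwK, hw⟩)
      · exact Or.inr hwK) hne ⟨z, hz, hzK⟩
    exact hw2 (hOK hw1)
  have hcl : Metric.closedBall (0 : E) 1 ⊆ K := by
    rw [← closure_ball (0 : E) one_ne_zero]
    exact closure_minimal hball hKc
  obtain ⟨x, hx, hxe⟩ := hcl (mem_closedBall_zero_iff.mpr hy)
  exact ⟨x, mem_closedBall_zero_iff.mp hx, hxe⟩

theorem lim_surj [ProperSpace E] (h : T.Ok) (k : ℕ) {y : E} (hy : ‖y‖ ≤ 1) :
    ∃ x, ‖x‖ ≤ 1 ∧ T.lim k x = y := by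
  have hKc : IsClosed (T.lim k '' Metric.closedBall 0 1) :=
    ((isCompact_closedBall (0 : E) 1).image (lim_cont h k)).isClosed
  have hmem : y ∈ closure (T.lim k '' Metric.closedBall 0 1) := by
    rw [Metric.mem_closure_iff]
    intro ε hε
    obtain ⟨m, hm⟩ := exists_bd hε
    have hp := pp h (3 * m) k
    obtain ⟨x, hx, hxe⟩ := surj_of_open hp.good.continuous
      (isOpenMap_of_openAt hp.good.opn) hp.ball hy
    refine ⟨T.lim k x, ⟨x, mem_closedBall_zero_iff.mpr hx, rfl⟩, ?_⟩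
    rw [← hxe, dist_eq_norm]
    exact (lim_approx h m k x).trans_lt hm
  rw [hKc.closure_eq] at hmem
  obtain ⟨x, hx, hxe⟩ := hmem
  exact ⟨x, mem_closedBall_zero_iff.mp hx, hxe⟩

/-- one level of the neighbourhood construction -/
theorem nhd_step (h : T.Ok) {k i : ℕ} {x : E} (hi : i < T.N k) {B : Set E}
    (hB : B ∈ 𝓝 (T.ci k i x)) (h1 : ∀ y ∈ B, ∃ z ∈ B, T.lim (k + 1) z = y)
    (h2 : ∀ y ∈ B, ‖y‖ ≤ 1) :
    T.ci k i ⁻¹' B ∈ 𝓝 x ∧ (∀ y ∈ T.ci k i ⁻¹' B, ∃ z ∈ T.ci k i ⁻¹' B, T.lim k z = y) ∧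
      ∀ y ∈ T.ci k i ⁻¹' B, ‖y‖ ≤ 1 := by
  refine ⟨(ci_cont h hi).continuousAt hB, ?_, fun y hy => (norm_lt_of_box h hi (h2 _ hy)).le⟩
  intro y hy
  obtain ⟨z, hz, hze⟩ := h1 _ hy
  have e : T.ci k i (T.c k i z) = z := h.cic k i z hi
  refine ⟨T.c k i z, ?_, ?_⟩
  · rw [mem_preimage, e]; exact hz
  · rw [lim_rec h hi (by rw [e]; exact h2 z hz), e, hze, h.cci k i y hi]

/-- every point of the Cantor set has small neighbourhoods mapped onto themselves -/
theorem lim_nhd [ProperSpace E] (h : T.Ok) (m : ℕ) : ∀ k x, x ∈ T.C k → ∃ B ∈ 𝓝 x,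
    (∀ y ∈ B, ∃ z ∈ B, T.lim k z = y) ∧ (∀ y ∈ B, ‖y‖ ≤ 1) ∧
      (∀ y ∈ B, ‖y - x‖ ≤ 2 * (1 / 2) ^ m) := by
  induction m with
  | zero =>
    intro k x hx
    obtain ⟨i, hi, hxi⟩ := C_box hx
    have h1 : ‖x‖ < 1 := norm_lt_of_box h hi hxi
    refine ⟨Metric.closedBall 0 1, Metric.closedBall_mem_nhds_of_mem (mem_ball_zero_iff.mpr h1),
      ?_, fun y hy => mem_closedBall_zero_iff.mp hy, ?_⟩
    · intro y hy
      obtain ⟨z, hz, hze⟩ := lim_surj h k (mem_closedBall_zero_iff.mp hy)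
      exact ⟨z, mem_closedBall_zero_iff.mpr hz, hze⟩
    · intro y hy
      rw [mem_closedBall_zero_iff] at hy
      calc ‖y - x‖ ≤ ‖y‖ + ‖x‖ := norm_sub_le _ _
        _ ≤ 1 + 1 := add_le_add hy h1.le
        _ = 2 * (1 / 2) ^ 0 := by norm_num
  | succ m ih =>
    intro k x hx
    obtain ⟨i, hi, hxi⟩ := C_box hx
    have hx1 := C_ci h hi hxi hx
    obtain ⟨j, hj, hxj⟩ := C_box hx1
    have hx2 := C_ci h hj hxj hx1
    obtain ⟨l, hl, hxl⟩ := C_box hx2
    have hx3 := C_ci h hl hxl hx2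
    obtain ⟨B, hB, hB1, hB2, hB3⟩ := ih (k + 1 + 1 + 1) _ hx3
    obtain ⟨a1, a2, a3⟩ := nhd_step h hl hB hB1 hB2
    obtain ⟨b1, b2, b3⟩ := nhd_step h hj a1 a2 a3
    obtain ⟨c1, c2, c3⟩ := nhd_step h hi b1 b2 b3
    refine ⟨_, c1, c2, c3, ?_⟩
    intro y hy
    have hy' : T.ci (k + 1 + 1) l (T.ci (k + 1) j (T.ci k i y)) ∈ B := hy
    have e1 : ∀ z : E, z = T.c k i (T.c (k + 1) j (T.c (k + 1 + 1) l
        (T.ci (k + 1 + 1) l (T.ci (k + 1) j (T.ci k i z))))) := by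
      intro z
      rw [h.cci (k + 1 + 1) l _ hl, h.cci (k + 1) j _ hj, h.cci k i _ hi]
    rw [e1 x, e1 y]
    calc _ ≤ 1 / 2 * _ := h.con k i j l _ _ hi hj hl
      _ ≤ 1 / 2 * (2 * (1 / 2) ^ m) := by gcongr; exact hB3 _ hy'
      _ = 2 * (1 / 2) ^ (m + 1) := by ring

theorem lim_open_C [ProperSpace E] (h : T.Ok) {k : ℕ} {x : E} (hx : x ∈ T.C k) :
    OpenAt (T.lim k) x := by
  rw [openAt_iff]
  intro V hV
  rw [lim_C hx]
  obtain ⟨ε, hε, hεV⟩ := Metric.mem_nhds_iff.mp hV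
  obtain ⟨m, hm⟩ := exists_bd hε
  obtain ⟨B, hB, hB1, -, hB3⟩ := lim_nhd h m k x hx
  refine Filter.mem_of_superset hB ?_
  intro y hy
  obtain ⟨z, hz, hze⟩ := hB1 y hy
  refine ⟨z, hεV ?_, hze⟩
  rw [Metric.mem_ball, dist_eq_norm]
  exact (hB3 z hz).trans_lt hm

theorem isClosed_U' (h : T.Ok) (n : ℕ) : ∀ k, IsClosed (T.U n k) := by
  induction n with
  | zero => intro k; exact Metric.isClosed_closedBall
  | succ n ih =>
    intro k
    have e : T.U (n + 1) k = ⋃ i ∈ Finset.range (T.N k), T.ci k i ⁻¹' T.U n (k + 1) := by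
      ext x
      simp only [mem_iUnion, Finset.mem_range, mem_preimage, exists_prop]
      exact Iff.rfl
    rw [e]
    apply Set.Finite.isClosed_biUnion (Finset.finite_toSet _)
    intro i hi
    exact (ih (k + 1)).preimage (ci_cont h (Finset.mem_range.mp hi))

theorem eventually_ne_of_finite {S : Set E} (hS : S.Finite) (x : E) :
    ∀ᶠ z in 𝓝[≠] x, z ∉ S := by
  have h1 : IsClosed (S \ {x}) := (hS.subset sdiff_subset).isClosed
  have h2 : (S \ {x})ᶜ ∈ 𝓝 x := h1.isOpen_compl.mem_nhds (fun hc => hc.2 rfl)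
  have h3 : ∀ᶠ z in 𝓝[≠] x, z ∈ (S \ {x})ᶜ := nhdsWithin_le_nhds h2
  filter_upwards [h3, self_mem_nhdsWithin] with z hz hzx hzS
  exact hz ⟨hzS, hzx⟩

end

end Tree

/-- TASK A -/
theorem Tree.main {E : Type*} [NormedAddCommGroup E] [NormedSpace ℝ E] [ProperSpace E]
    (T : Tree E) (h : T.Ok) : ∃ f : ℕ → E → E, T.Lim f := by
  refine ⟨T.lim, ⟨fun k => Tree.lim_cont h k, ?_, ?_, ?_, ?_⟩⟩
  · intro k x hx
    obtain ⟨n, hn⟩ := Tree.not_C hx
    have hp := Tree.pp h n k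
    have hev : T.Phi n k =ᶠ[𝓝 x] T.lim k := by
      filter_upwards [(Tree.isClosed_U' h n k).isOpen_compl.mem_nhds hn] with z hz
      exact (Tree.lim_eq h hz).symm
    obtain ⟨K, hK⟩ := hp.good.lip x
    refine ⟨(hp.good.opn x).congr hev, ⟨K, hK.congr hev⟩, ?_⟩
    intro y
    have h1 := Tree.eventually_ne_of_finite (hp.good.fin y) x
    have h2 : ∀ᶠ z in 𝓝[≠] x, T.Phi n k z = T.lim k z := nhdsWithin_le_nhds hev
    filter_upwards [h1, h2] with z hz1 hz2 hz3
    exact hz1 (by rw [mem_preimage, hz2, hz3]; rfl)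
  · intro k x hx
    refine ⟨Tree.lim_C hx, Tree.lim_open_C h hx, ?_⟩
    intro y
    by_cases hyx : y = x
    · subst hyx
      filter_upwards [self_mem_nhdsWithin] with z hz hc
      exact hz (Tree.lim_inj_C' h hx hc)
    · have h1 : ContinuousAt (T.lim k) x := (Tree.lim_cont h k).continuousAt
      have h2 : ∀ᶠ z in 𝓝 x, T.lim k z ≠ y := by
        apply h1.eventually_ne
        rw [Tree.lim_C hx]
        exact fun hc => hyx hc.symm
      exact nhdsWithin_le_nhds h2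
  · intro k x hx
    by_cases hb : ∃ i, i < T.N k ∧ ‖T.ci k i x‖ ≤ 1
    · obtain ⟨i, hi, hb⟩ := hb
      have h1 : ‖T.ci k i x‖ = 1 := le_antisymm hb (hx i hi)
      rw [Tree.lim_rec h hi hb, Tree.lim_off h, ← h.mat k i _ hi h1, h.cci k i x hi]
      intro j hj hc
      exact absurd (Tree.norm_lt_of_box h hj hc) (by rw [h1]; exact lt_irrefl 1)
    · push Not at hb
      exact Tree.lim_off h (fun i hi => not_le.mpr (hb i hi))
  · intro k i x hi hxi
    exact Tree.lim_rec h hi hxi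

/-- TASK A: the Cantor sets are closed -/
theorem Tree.isClosed_U {E : Type*} [NormedAddCommGroup E] [NormedSpace ℝ E]
    (T : Tree E) (h : T.Ok) (n k : ℕ) : IsClosed (T.U n k) :=
  Tree.isClosed_U' h n k

end Pool.Agent.JAC
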