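import Pool.Agent.Lib.MP_3b5712_an.TreeDefs

set_option autoImplicit false

open Filter Topology Set Real MeasureTheory

namespace Pool.Agent.JAC

/-- the tree of a sequence of parameters -/
noncomputable def treeOf (P : ℕ → Par) : Tree E3 where
  N k := (P k).N
  F k := Blk (P k) (P (k + 1)) (P (k + 2))
  c k i := (P k).ch i
  ci k i := (P k).chi i

end Pool.Agent.JAC
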